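import Pool.Agent.Hhelper71.LD43.Basic

/-!
# LD43: the chain bound
-/

set_option linter.unusedSectionVars false
set_option linter.unusedVariables false

namespace Pool.Agent.Hhelper71.LD43

open Finset

/-! ### lists -/

/-- lists `[a_{r-1}, ..., a_0]` with `a_s ∈ f s` -/
private def ch_lst {L : Type} [DecidableEq L] (f : ℕ → Finset L) : ℕ → Finset (List L)
  | 0 => {[]}
  | r + 1 => (f r ×ˢ ch_lst f r).image (fun q => q.1 :: q.2)

private theorem ch_mem_cons {L : Type} [DecidableEq L] {f : ℕ → Finset L} {r : ℕ} {u : L}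
    {us : List L} : u :: us ∈ ch_lst f (r + 1) ↔ u ∈ f r ∧ us ∈ ch_lst f r := by
  simp only [ch_lst, Finset.mem_image, Finset.mem_product, Prod.exists, List.cons.injEq]
  constructor
  · rintro ⟨a, b, ⟨h1, h2⟩, rfl, rfl⟩
    exact ⟨h1, h2⟩
  · rintro ⟨h1, h2⟩
    exact ⟨u, us, ⟨h1, h2⟩, rfl, rfl⟩

private theorem ch_mem_succ {L : Type} [DecidableEq L] {f : ℕ → Finset L} {r : ℕ}
    {w : List L} : w ∈ ch_lst f (r + 1) → ∃ u ∈ f r, ∃ us ∈ ch_lst f r, w = u :: us := by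
  simp only [ch_lst, Finset.mem_image, Finset.mem_product, Prod.exists]
  rintro ⟨a, b, ⟨h1, h2⟩, rfl⟩
  exact ⟨a, h1, b, h2, rfl⟩

private theorem ch_lst_card_succ {L : Type} [DecidableEq L] (f : ℕ → Finset L) (r : ℕ) :
    (ch_lst f (r + 1)).card = (f r).card * (ch_lst f r).card := by
  rw [ch_lst, Finset.card_image_of_injective, Finset.card_product]
  rintro ⟨a, b⟩ ⟨c, d⟩ h
  simp only [List.cons.injEq] at h
  exact Prod.ext h.1 h.2

private theorem ch_lst_card {L : Type} [DecidableEq L] (f : ℕ → Finset L) (r t : ℕ)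
    (h : ∀ s < r, (f s).card = t) : (ch_lst f r).card = t ^ r := by
  induction r with
  | zero => simp [ch_lst]
  | succ r ih =>
    rw [ch_lst_card_succ, h r (by omega), ih (fun s hs => h s (by omega)), pow_succ, mul_comm]

private theorem ch_lst_mono {L : Type} [DecidableEq L] {f g : ℕ → Finset L} {r : ℕ}
    (h : ∀ s < r, f s ⊆ g s) : ch_lst f r ⊆ ch_lst g r := by
  induction r with
  | zero => exact Finset.Subset.refl _
  | succ r ih =>
    intro w hw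
    obtain ⟨u, hu, us, hus, rfl⟩ := ch_mem_succ hw
    exact ch_mem_cons.2 ⟨h r (by omega) hu, ih (fun s hs => h s (by omega)) hus⟩

/-! ### the data -/

private structure ch_D (L : Type) [Fintype L] [DecidableEq L] where
  n : ℕ
  k : ℕ
  t : ℕ
  lam : ℕ
  ℓ : ℕ
  I : Finset ℕ
  A : ℕ → Finset L
  pos : ℕ → L → ℕ
  F : L → ℕ → L → ℤ
  G : L → ℕ → L → ℤ
  Q : Finset (ℕ × ℕ)
  U : ℕ → ℕ → ℕ → Finset L
  X : ℕ → ℕ → ℕ → Finset L
  θ : ℝ
  ht : 1 ≤ t
  hℓ : 1 ≤ ℓ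
  hθ : 1 ≤ θ
  hI : I.card ≤ n
  hA : ∀ i ∈ I, (A i).card ≤ n
  hpos : ∀ i ∈ I, ∀ x ∈ A i, ∀ y ∈ A i, pos i x = pos i y → x = y
  hQ : ∀ p ∈ Q, p.1 ∈ I ∧ p.2 ∈ I
  hUc : ∀ p ∈ Q, ∀ m < k, (U m p.1 p.2).card = t
  hUA : ∀ p ∈ Q, ∀ m < k, U m p.1 p.2 ⊆ A p.1
  hX : ∀ p ∈ Q, ∀ l < k - 1, (X l p.1 p.2).card = lam
  hcell : ∀ p ∈ Q, ∀ m < k, ∀ m' < k, ∀ u ∈ U m p.1 p.2, ∀ v ∈ U m' p.1 p.2,
      pos p.1 u / ℓ = pos p.1 v / ℓ
  hrel : ∀ p ∈ Q, ∀ l < k - 1, ∀ x ∈ X l p.1 p.2, ∀ m ≤ l, ∀ m', l < m' → m' < k →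
      ∀ u ∈ U m p.1 p.2, ∀ v ∈ U m' p.1 p.2, F x p.1 v - G x p.1 u = p.2

variable {L : Type} [Fintype L] [DecidableEq L]

namespace ch_D

variable (D : ch_D L)

private def Ls (r i j : ℕ) : Finset (List L) := ch_lst (fun s => D.U (D.k - 1 - s) i j) r

private noncomputable def mm (r i : ℕ) (us : List L) : ℕ :=
  (D.I.filter (fun j => (i, j) ∈ D.Q ∧ us ∈ D.Ls r i j)).card

private def C (x : L) (i : ℕ) (v : L) : Finset L :=
  (D.A i).filter (fun y => D.F x i y = D.F x i v ∧ D.pos i y / D.ℓ = D.pos i v / D.ℓ)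

private noncomputable def H : ℝ := D.θ ^ D.k * ((D.t : ℝ) / (D.ℓ : ℝ))

private theorem H_pos : 0 < D.H := by
  have h1 : (0 : ℝ) < D.t := by exact_mod_cast D.ht
  have h2 : (0 : ℝ) < D.ℓ := by exact_mod_cast D.hℓ
  have h3 := D.hθ
  unfold H
  positivity

open Classical in
private noncomputable def EE (s i j : ℕ) : Finset (L × L × List L) :=
  ((D.U (D.k - 1 - (s + 1)) i j) ×ˢ ((D.U (D.k - 1 - s) i j) ×ˢ D.Ls s i j)).filter
    (fun q => D.H * (D.mm (s + 1) i (q.2.1 :: q.2.2) : ℝ) <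
      (D.mm (s + 2) i (q.1 :: q.2.1 :: q.2.2) : ℝ))

private def J (s : ℕ) (x : L) (i : ℕ) : Finset ℕ :=
  D.I.filter (fun j => (i, j) ∈ D.Q ∧ x ∈ D.X (D.k - 1 - (s + 1)) i j)

private theorem card_Ls {s i j : ℕ} (h : (i, j) ∈ D.Q) (hs : s ≤ D.k) :
    (D.Ls s i j).card = D.t ^ s := by
  apply ch_lst_card
  intro r hr
  exact D.hUc (i, j) h _ (by omega)

/-! ### Markov -/

private theorem sum_mm {s i : ℕ} (us : List L) (hs : s + 2 ≤ D.k) :
    ∑ u : L, D.mm (s + 2) i (u :: us) = D.t * D.mm (s + 1) i us := by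
  have h1 : ∀ u : L, D.mm (s + 2) i (u :: us) =
      ((D.I.filter (fun j => (i, j) ∈ D.Q ∧ us ∈ D.Ls (s + 1) i j)).filter
        (fun j => u ∈ D.U (D.k - 1 - (s + 1)) i j)).card := by
    intro u
    unfold mm
    congr 1
    ext j
    simp only [Finset.mem_filter]
    have : u :: us ∈ D.Ls (s + 2) i j ↔ u ∈ D.U (D.k - 1 - (s + 1)) i j ∧ us ∈ D.Ls (s + 1) i j :=
      ch_mem_cons
    rw [this]
    tauto
  simp only [h1]
  rw [sum_card_filter_comm Finset.univ _ (fun (u : L) (j : ℕ) => u ∈ D.U (D.k - 1 - (s + 1)) i j)]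
  have h2 : ∀ j ∈ D.I.filter (fun j => (i, j) ∈ D.Q ∧ us ∈ D.Ls (s + 1) i j),
      (Finset.univ.filter (fun u : L => u ∈ D.U (D.k - 1 - (s + 1)) i j)).card = D.t := by
    intro j hj
    rw [Finset.mem_filter] at hj
    rw [Finset.filter_univ_mem]
    exact D.hUc (i, j) hj.2.1 _ (by omega)
  rw [Finset.sum_congr rfl h2, Finset.sum_const, smul_eq_mul, mul_comm]
  rfl

open Classical in
private theorem markov {s i : ℕ} (us : List L) (hs : s + 2 ≤ D.k) :
    ((Finset.univ.filter (fun u : L => D.H * (D.mm (s + 1) i us : ℝ) <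
      (D.mm (s + 2) i (u :: us) : ℝ))).card : ℝ) ≤ D.t / D.H := by
  have hH := D.H_pos
  set S := Finset.univ.filter (fun u : L => D.H * (D.mm (s + 1) i us : ℝ) <
      (D.mm (s + 2) i (u :: us) : ℝ)) with hS
  have h1 : (S.card : ℝ) * (D.H * (D.mm (s + 1) i us : ℝ)) ≤ D.t * D.mm (s + 1) i us := by
    calc (S.card : ℝ) * (D.H * (D.mm (s + 1) i us : ℝ))
        = ∑ u ∈ S, D.H * (D.mm (s + 1) i us : ℝ) := by rw [Finset.sum_const, nsmul_eq_mul]
      _ ≤ ∑ u ∈ S, (D.mm (s + 2) i (u :: us) : ℝ) :=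
          Finset.sum_le_sum fun u hu => (Finset.mem_filter.1 hu).2.le
      _ ≤ ∑ u : L, (D.mm (s + 2) i (u :: us) : ℝ) :=
          Finset.sum_le_sum_of_subset_of_nonneg (Finset.subset_univ _) fun _ _ _ => by positivity
      _ = D.t * D.mm (s + 1) i us := by exact_mod_cast D.sum_mm us hs
  rcases Nat.eq_zero_or_pos (D.mm (s + 1) i us) with h0 | h0
  · have h2 : S = ∅ := by
      rw [Finset.eq_empty_iff_forall_notMem]
      intro u hu
      have h3 := (Finset.mem_filter.1 hu).2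
      rw [h0] at h3
      have h4 := D.sum_mm (i := i) us hs
      rw [h0, mul_zero] at h4
      have h5 : D.mm (s + 2) i (u :: us) = 0 := (Finset.sum_eq_zero_iff.1 h4) u (Finset.mem_univ _)
      rw [h5] at h3
      simp at h3
    rw [h2]
    simp only [Finset.card_empty, Nat.cast_zero]
    positivity
  · have h3 : (0 : ℝ) < D.mm (s + 1) i us := by exact_mod_cast h0
    rw [le_div_iff₀ hH]
    have h4 : (S.card : ℝ) * D.H * (D.mm (s + 1) i us : ℝ) ≤ D.t * D.mm (s + 1) i us := by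
      rw [mul_assoc]
      exact h1
    exact le_of_mul_le_mul_right h4 h3

/-! ### the bad part -/

private theorem cell_card {i : ℕ} (hi : i ∈ D.I) (c : ℕ) :
    ((D.A i).filter (fun y => D.pos i y / D.ℓ = c)).card ≤ D.ℓ := by
  have hinj : Set.InjOn (D.pos i) ((D.A i).filter (fun y => D.pos i y / D.ℓ = c) : Set L) := by
    intro x hx y hy h
    exact D.hpos i hi x (Finset.mem_filter.1 (Finset.mem_coe.1 hx)).1 y
      (Finset.mem_filter.1 (Finset.mem_coe.1 hy)).1 h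
  rw [← Finset.card_image_of_injOn hinj]
  calc _ ≤ (Finset.Ico (D.ℓ * c) (D.ℓ * c + D.ℓ)).card := by
        apply Finset.card_le_card
        intro p hp
        simp only [Finset.mem_image, Finset.mem_filter] at hp
        obtain ⟨x, ⟨_, hx⟩, rfl⟩ := hp
        rw [Finset.mem_Ico]
        have h1 := Nat.div_add_mod (D.pos i x) D.ℓ
        have h3 := Nat.mod_lt (D.pos i x) (show D.ℓ > 0 from D.hℓ)
        rw [hx] at h1
        omega
    _ = D.ℓ := by
      rw [Nat.card_Ico]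
      omega

private theorem pair_card {i : ℕ} (hi : i ∈ D.I) :
    ((D.A i ×ˢ D.A i).filter (fun q => D.pos i q.1 / D.ℓ = D.pos i q.2 / D.ℓ)).card ≤
      D.n * D.ℓ := by
  have h1 : ((D.A i ×ˢ D.A i).filter (fun q => D.pos i q.1 / D.ℓ = D.pos i q.2 / D.ℓ)).card =
      ∑ x ∈ D.A i, ((D.A i).filter (fun y => D.pos i y / D.ℓ = D.pos i x / D.ℓ)).card := by
    rw [Finset.card_filter, Finset.sum_product]
    refine Finset.sum_congr rfl fun x _ => ?_
    rw [Finset.card_filter]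
    refine Finset.sum_congr rfl fun y _ => ?_
    simp only [eq_comm]
  rw [h1]
  calc _ ≤ ∑ _x ∈ D.A i, D.ℓ := Finset.sum_le_sum fun x _ => D.cell_card hi _
    _ = (D.A i).card * D.ℓ := by rw [Finset.sum_const, smul_eq_mul]
    _ ≤ D.n * D.ℓ := Nat.mul_le_mul_right _ (D.hA i hi)

private def BdP (s : ℕ) (x : L) (i j : ℕ) : Prop :=
  ∃ v ∈ D.U (D.k - 1 - s) i j, D.θ * D.t < ((D.C x i v).card : ℝ)

/-- the bad indices -/
private noncomputable def Bd (s : ℕ) (x : L) (i : ℕ) : Finset ℕ := by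
  classical
  exact (D.J s x i).filter (fun j => D.BdP s x i j)

private theorem mem_Bd {s : ℕ} {x : L} {i j : ℕ} : j ∈ D.Bd s x i ↔
    j ∈ D.J s x i ∧ ∃ v ∈ D.U (D.k - 1 - s) i j, D.θ * D.t < ((D.C x i v).card : ℝ) := by
  classical
  unfold Bd
  rw [Finset.mem_filter]
  rfl

private theorem bad_card {s i : ℕ} (x : L) (hs : s + 2 ≤ D.k) (hi : i ∈ D.I) :
    ((D.Bd s x i).card : ℝ) * (D.θ * D.t * D.t) ≤ D.n * D.ℓ := by
  classical
  set B := D.Bd s x i with hB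
  set S : ℕ → Finset (L × L) := fun j =>
    (D.A i ×ˢ D.U (D.k - 1 - (s + 1)) i j).filter
      (fun q => ∃ v ∈ D.U (D.k - 1 - s) i j, q.1 ∈ D.C x i v) with hS
  have hmem : ∀ j ∈ B, (i, j) ∈ D.Q ∧ x ∈ D.X (D.k - 1 - (s + 1)) i j ∧
      ∃ v ∈ D.U (D.k - 1 - s) i j, D.θ * D.t < ((D.C x i v).card : ℝ) := by
    intro j hj
    have hj0 := D.mem_Bd.1 hj
    have h1 := hj0.1
    unfold J at h1
    rw [Finset.mem_filter] at h1
    exact ⟨h1.2.1, h1.2.2, hj0.2⟩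
  have hj' : ∀ j ∈ B, ∀ q ∈ S j, D.F x i q.1 - D.G x i q.2 = j ∧
      D.pos i q.1 / D.ℓ = D.pos i q.2 / D.ℓ ∧ q.1 ∈ D.A i ∧ q.2 ∈ D.A i := by
    intro j hj q hq
    obtain ⟨h1, h2, _⟩ := hmem j hj
    simp only [hS, Finset.mem_filter, Finset.mem_product] at hq
    obtain ⟨⟨h3, h4⟩, v, hv, h5⟩ := hq
    unfold C at h5
    rw [Finset.mem_filter] at h5
    have h6 := D.hrel (i, j) h1 (D.k - 1 - (s + 1)) (by omega) x h2 (D.k - 1 - (s + 1)) le_rfl
      (D.k - 1 - s) (by omega) (by omega) q.2 h4 v hv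
    have h7 := D.hcell (i, j) h1 (D.k - 1 - (s + 1)) (by omega) (D.k - 1 - s) (by omega) q.2 h4 v hv
    refine ⟨?_, ?_, h3, D.hUA (i, j) h1 _ (by omega) h4⟩
    · rw [h5.2.1]
      exact h6
    · rw [h5.2.2]
      exact h7.symm
  have h1 : (B.card : ℝ) * (D.θ * D.t * D.t) ≤ ∑ j ∈ B, ((S j).card : ℝ) := by
    rw [← nsmul_eq_mul, ← Finset.sum_const]
    apply Finset.sum_le_sum
    intro j hj
    obtain ⟨h1, h2, v, hv, h3⟩ := hmem j hj
    have h4 : D.C x i v ×ˢ D.U (D.k - 1 - (s + 1)) i j ⊆ S j := by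
      intro q hq
      rw [Finset.mem_product] at hq
      simp only [hS, Finset.mem_filter, Finset.mem_product]
      refine ⟨⟨?_, hq.2⟩, v, hv, hq.1⟩
      exact (Finset.mem_filter.1 hq.1).1
    have h5 := Finset.card_le_card h4
    rw [Finset.card_product, D.hUc (i, j) h1 _ (by omega)] at h5
    have h6 : ((D.C x i v).card : ℝ) * D.t ≤ (S j).card := by exact_mod_cast h5
    have h7 : (0 : ℝ) ≤ D.t := by positivity
    nlinarith [mul_le_mul_of_nonneg_right h3.le h7]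
  have h2 : ∑ j ∈ B, (S j).card = (B.biUnion S).card := by
    rw [Finset.card_biUnion]
    intro j hj j' hj2 hne
    rw [Function.onFun, Finset.disjoint_left]
    intro q hq hq'
    apply hne
    have h3 := (hj' j hj q hq).1
    have h4 := (hj' j' hj2 q hq').1
    rw [h3] at h4
    exact_mod_cast h4
  have h3 : (B.biUnion S).card ≤ D.n * D.ℓ := by
    refine le_trans (Finset.card_le_card ?_) (D.pair_card hi)
    intro q hq
    rw [Finset.mem_biUnion] at hq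
    obtain ⟨j, hj, hq⟩ := hq
    obtain ⟨_, h4, h5, h6⟩ := hj' j hj q hq
    rw [Finset.mem_filter, Finset.mem_product]
    exact ⟨⟨h5, h6⟩, h4⟩
  have h4 : ∑ j ∈ B, ((S j).card : ℝ) ≤ D.n * D.ℓ := by
    rw [← h2] at h3
    exact_mod_cast h3
  exact h1.trans h4

/-! ### the good part -/

/-- the possible values of the new letter -/
private noncomputable def Nw (s i : ℕ) (us : List L) : Finset L := by
  classical
  exact Finset.univ.filter (fun u : L => D.H * (D.mm (s + 1) i us : ℝ) <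
      (D.mm (s + 2) i (u :: us) : ℝ))

private theorem mem_Nw {s i : ℕ} {us : List L} {u : L} : u ∈ D.Nw s i us ↔
    D.H * (D.mm (s + 1) i us : ℝ) < (D.mm (s + 2) i (u :: us) : ℝ) := by
  unfold Nw
  rw [Finset.mem_filter]
  simp

private theorem card_Nw {s i : ℕ} (us : List L) (hs : s + 2 ≤ D.k) :
    ((D.Nw s i us).card : ℝ) ≤ D.t / D.H := by
  unfold Nw
  exact D.markov us hs

/-- the target -/
private noncomputable def Tg (s : ℕ) (x : L) (i : ℕ) : Finset (L × L × List L) := by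
  classical
  exact ((D.A i).filter (fun v => ((D.C x i v).card : ℝ) ≤ D.θ * D.t)).biUnion
    (fun v => (ch_lst (fun _ => D.C x i v) s).biUnion
      (fun vs => (D.Nw s i (v :: vs)).image (fun u => (u, v, vs))))

private theorem mem_Tg {s : ℕ} {x : L} {i : ℕ} {u v : L} {vs : List L} (h1 : v ∈ D.A i)
    (h2 : ((D.C x i v).card : ℝ) ≤ D.θ * D.t) (h3 : vs ∈ ch_lst (fun _ => D.C x i v) s)
    (h4 : u ∈ D.Nw s i (v :: vs)) : (u, v, vs) ∈ D.Tg s x i := by
  unfold Tg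
  simp only [Finset.mem_biUnion, Finset.mem_filter, Finset.mem_image]
  exact ⟨v, ⟨h1, h2⟩, vs, h3, u, h4, rfl⟩

private theorem card_Tg {s i : ℕ} (x : L) (hs : s + 2 ≤ D.k) (hi : i ∈ D.I) :
    ((D.Tg s x i).card : ℝ) ≤ D.n * (D.θ * D.t) ^ s * (D.t / D.H) := by
  classical
  have hH := D.H_pos
  have hθ := D.hθ
  have h0 : (0 : ℝ) ≤ D.t / D.H := by positivity
  have hB : (0 : ℝ) ≤ (D.θ * D.t) ^ s * (D.t / D.H) := by positivity
  have h1 : ((D.Tg s x i).card : ℝ) ≤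
      ∑ v ∈ (D.A i).filter (fun v => ((D.C x i v).card : ℝ) ≤ D.θ * D.t),
        ∑ vs ∈ ch_lst (fun _ => D.C x i v) s, ((D.Nw s i (v :: vs)).card : ℝ) := by
    have h2 : (D.Tg s x i).card ≤
      ∑ v ∈ (D.A i).filter (fun v => ((D.C x i v).card : ℝ) ≤ D.θ * D.t),
        ∑ vs ∈ ch_lst (fun _ => D.C x i v) s, (D.Nw s i (v :: vs)).card := by
      unfold Tg
      refine Finset.card_biUnion_le.trans (Finset.sum_le_sum fun v _ => ?_)
      refine Finset.card_biUnion_le.trans (Finset.sum_le_sum fun vs _ => ?_)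
      exact Finset.card_image_le
    exact_mod_cast h2
  refine h1.trans ?_
  have h3 : ∀ v ∈ (D.A i).filter (fun v => ((D.C x i v).card : ℝ) ≤ D.θ * D.t),
      ∑ vs ∈ ch_lst (fun _ => D.C x i v) s, ((D.Nw s i (v :: vs)).card : ℝ) ≤
        (D.θ * D.t) ^ s * (D.t / D.H) := by
    intro v hv
    have hv2 := (Finset.mem_filter.1 hv).2
    calc ∑ vs ∈ ch_lst (fun _ => D.C x i v) s, ((D.Nw s i (v :: vs)).card : ℝ)
        ≤ ∑ _vs ∈ ch_lst (fun _ => D.C x i v) s, D.t / D.H :=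
          Finset.sum_le_sum fun vs _ => D.card_Nw _ hs
      _ = ((D.C x i v).card : ℝ) ^ s * (D.t / D.H) := by
          rw [Finset.sum_const, nsmul_eq_mul, ch_lst_card _ _ _ (fun _ _ => rfl)]
          push_cast
          rfl
      _ ≤ (D.θ * D.t) ^ s * (D.t / D.H) := by
          gcongr
  calc _ ≤ ∑ _v ∈ (D.A i).filter (fun v => ((D.C x i v).card : ℝ) ≤ D.θ * D.t),
        (D.θ * D.t) ^ s * (D.t / D.H) := Finset.sum_le_sum h3
    _ = (((D.A i).filter (fun v => ((D.C x i v).card : ℝ) ≤ D.θ * D.t)).card : ℝ) *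
        ((D.θ * D.t) ^ s * (D.t / D.H)) := by rw [Finset.sum_const, nsmul_eq_mul]
    _ ≤ D.n * ((D.θ * D.t) ^ s * (D.t / D.H)) := by
        apply mul_le_mul_of_nonneg_right _ hB
        have := (Finset.card_filter_le (D.A i)
          (fun v => ((D.C x i v).card : ℝ) ≤ D.θ * D.t)).trans (D.hA i hi)
        exact_mod_cast this
    _ = _ := by ring

/-- the good elements -/
private noncomputable def Gd (s : ℕ) (x : L) (i j : ℕ) : Finset (L × L × List L) := by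
  classical
  exact (D.EE s i j).filter (fun q => ((D.C x i q.2.1).card : ℝ) ≤ D.θ * D.t)

private theorem mem_EE {s i j : ℕ} {q : L × L × List L} : q ∈ D.EE s i j ↔
    q.1 ∈ D.U (D.k - 1 - (s + 1)) i j ∧ q.2.1 ∈ D.U (D.k - 1 - s) i j ∧ q.2.2 ∈ D.Ls s i j ∧
    D.H * (D.mm (s + 1) i (q.2.1 :: q.2.2) : ℝ) <
      (D.mm (s + 2) i (q.1 :: q.2.1 :: q.2.2) : ℝ) := by
  unfold EE
  rw [Finset.mem_filter, Finset.mem_product, Finset.mem_product]
  tauto

private theorem mem_J {s i j : ℕ} {x : L} : j ∈ D.J s x i ↔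
    j ∈ D.I ∧ (i, j) ∈ D.Q ∧ x ∈ D.X (D.k - 1 - (s + 1)) i j := by
  unfold J
  rw [Finset.mem_filter]

private theorem Gd_sub {s i j : ℕ} {x : L} (hs : s + 2 ≤ D.k) (hj : j ∈ D.J s x i) :
    D.Gd s x i j ⊆ D.Tg s x i := by
  intro q hq
  unfold Gd at hq
  obtain ⟨hq1, hq2⟩ := Finset.mem_filter.1 hq
  obtain ⟨h1, h2, h3, h4⟩ := D.mem_EE.1 hq1
  obtain ⟨hj1, hj2, hj3⟩ := D.mem_J.1 hj
  obtain ⟨u, v, vs⟩ := q
  simp only at h1 h2 h3 h4 hq2
  refine D.mem_Tg (D.hUA (i, j) hj2 _ (by omega) h2) hq2 ?_ (D.mem_Nw.2 h4)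
  refine ch_lst_mono ?_ h3
  intro r hr w hw
  unfold C
  rw [Finset.mem_filter]
  have e1 := D.hrel (i, j) hj2 (D.k - 1 - (s + 1)) (by omega) x hj3 (D.k - 1 - (s + 1)) le_rfl
      (D.k - 1 - s) (by omega) (by omega) u h1 v h2
  have e2 := D.hrel (i, j) hj2 (D.k - 1 - (s + 1)) (by omega) x hj3 (D.k - 1 - (s + 1)) le_rfl
      (D.k - 1 - r) (by omega) (by omega) u h1 w hw
  have e3 := D.hcell (i, j) hj2 (D.k - 1 - r) (by omega) (D.k - 1 - s) (by omega) w hw v h2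
  refine ⟨D.hUA (i, j) hj2 _ (by omega) hw, ?_, e3⟩
  simp only at e1 e2
  linarith

private theorem Gd_det {s i j : ℕ} {x : L} (hs : s + 2 ≤ D.k) (hj : j ∈ D.J s x i)
    {q : L × L × List L} (hq : q ∈ D.Gd s x i j) : D.F x i q.2.1 - D.G x i q.1 = j := by
  unfold Gd at hq
  obtain ⟨hq1, hq2⟩ := Finset.mem_filter.1 hq
  obtain ⟨h1, h2, h3, h4⟩ := D.mem_EE.1 hq1
  obtain ⟨hj1, hj2, hj3⟩ := D.mem_J.1 hj
  exact D.hrel (i, j) hj2 (D.k - 1 - (s + 1)) (by omega) x hj3 (D.k - 1 - (s + 1)) le_rfl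
      (D.k - 1 - s) (by omega) (by omega) q.1 h1 q.2.1 h2

private theorem good_card {s i : ℕ} (x : L) (hs : s + 2 ≤ D.k) (hi : i ∈ D.I) :
    ∑ j ∈ D.J s x i, ((D.Gd s x i j).card : ℝ) ≤ D.n * (D.θ * D.t) ^ s * (D.t / D.H) := by
  classical
  refine le_trans ?_ (D.card_Tg x hs hi)
  have h2 : ∑ j ∈ D.J s x i, (D.Gd s x i j).card = ((D.J s x i).biUnion (D.Gd s x i)).card := by
    rw [Finset.card_biUnion]
    intro j hj j' hj2 hne
    rw [Function.onFun, Finset.disjoint_left]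
    intro q hq hq'
    apply hne
    have h3 := D.Gd_det hs hj hq
    have h4 := D.Gd_det hs hj2 hq'
    rw [h3] at h4
    exact_mod_cast h4
  have h3 : ((D.J s x i).biUnion (D.Gd s x i)).card ≤ (D.Tg s x i).card := by
    apply Finset.card_le_card
    rw [Finset.biUnion_subset]
    intro j hj
    exact D.Gd_sub hs hj
  rw [← h2] at h3
  exact_mod_cast h3

/-! ### one step -/

private theorem card_EE {s i j : ℕ} (hs : s + 2 ≤ D.k) (h : (i, j) ∈ D.Q) :
    (D.EE s i j).card ≤ D.t ^ (s + 2) := by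
  classical
  unfold EE
  refine (Finset.card_filter_le _ _).trans ?_
  rw [Finset.card_product, Finset.card_product, D.card_Ls h (by omega),
    D.hUc (i, j) h _ (by omega), D.hUc (i, j) h _ (by omega)]
  apply le_of_eq
  ring

private theorem EE_split {s i j : ℕ} {x : L} (hs : s + 2 ≤ D.k) (hj : j ∈ D.J s x i) :
    ((D.EE s i j).card : ℝ) ≤ (if j ∈ D.Bd s x i then (D.t : ℝ) ^ (s + 2) else 0) +
      (D.Gd s x i j).card := by
  by_cases h0 : j ∈ D.Bd s x i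
  · rw [if_pos h0]
    have h1 : ((D.EE s i j).card : ℝ) ≤ (D.t : ℝ) ^ (s + 2) := by
      exact_mod_cast D.card_EE hs (D.mem_J.1 hj).2.1
    have h2 : (0 : ℝ) ≤ (D.Gd s x i j).card := by positivity
    linarith
  · rw [if_neg h0, zero_add]
    have h1 : D.EE s i j ⊆ D.Gd s x i j := by
      intro q hq
      unfold Gd
      rw [Finset.mem_filter]
      refine ⟨hq, ?_⟩
      by_contra hc
      exact h0 (D.mem_Bd.2 ⟨hj, q.2.1, (D.mem_EE.1 hq).2.1, not_le.1 hc⟩)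
    exact_mod_cast Finset.card_le_card h1

private theorem sum_J (s i : ℕ) (x : L) (hs : s + 2 ≤ D.k) (hi : i ∈ D.I) :
    ∑ j ∈ D.J s x i, ((D.EE s i j).card : ℝ) ≤
      (D.t : ℝ) ^ (s + 2) * (D.n * D.ℓ / (D.θ * D.t * D.t)) +
        D.n * (D.θ * D.t) ^ s * (D.t / D.H) := by
  have hθ := D.hθ
  have ht : (0 : ℝ) < D.t := by exact_mod_cast D.ht
  have h1 : ∑ j ∈ D.J s x i, ((D.EE s i j).card : ℝ) ≤
      ∑ j ∈ D.J s x i, ((if j ∈ D.Bd s x i then (D.t : ℝ) ^ (s + 2) else 0) +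
      (D.Gd s x i j).card) :=
    Finset.sum_le_sum fun j hj => D.EE_split hs hj
  refine h1.trans ?_
  rw [Finset.sum_add_distrib]
  refine add_le_add ?_ (D.good_card x hs hi)
  have h3 : (D.J s x i).filter (fun j => j ∈ D.Bd s x i) = D.Bd s x i := by
    ext j
    rw [Finset.mem_filter]
    exact ⟨fun h => h.2, fun h => ⟨(D.mem_Bd.1 h).1, h⟩⟩
  rw [← Finset.sum_filter, h3, Finset.sum_const, nsmul_eq_mul, mul_comm]
  apply mul_le_mul_of_nonneg_left _ (by positivity)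
  rw [le_div_iff₀ (by positivity)]
  exact D.bad_card x hs hi

private theorem sum_EE {s : ℕ} (hs : s + 2 ≤ D.k) :
    (∑ p ∈ D.Q, ((D.EE s p.1 p.2).card : ℝ)) * D.lam ≤
      D.n * Fintype.card L * ((D.t : ℝ) ^ (s + 2) * (D.n * D.ℓ / (D.θ * D.t * D.t)) +
        D.n * (D.θ * D.t) ^ s * (D.t / D.H)) := by
  classical
  have hθ := D.hθ
  have ht : (0 : ℝ) < D.t := by exact_mod_cast D.ht
  have hH := D.H_pos
  have h1 : (∑ p ∈ D.Q, ((D.EE s p.1 p.2).card : ℝ)) * D.lam =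
      ∑ i ∈ D.I, ∑ x : L, ∑ j ∈ D.J s x i, ((D.EE s i j).card : ℝ) := by
    have e1 : D.Q = (D.I ×ˢ D.I).filter (fun p => p ∈ D.Q) := by
      ext p
      rw [Finset.mem_filter, Finset.mem_product]
      exact ⟨fun h => ⟨D.hQ p h, h⟩, fun h => h.2⟩
    have e2 : (∑ p ∈ D.Q, ((D.EE s p.1 p.2).card : ℝ)) * D.lam =
        ∑ p ∈ D.Q, ∑ x : L, if x ∈ D.X (D.k - 1 - (s + 1)) p.1 p.2 then
          ((D.EE s p.1 p.2).card : ℝ) else 0 := by
      rw [Finset.sum_mul]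
      refine Finset.sum_congr rfl fun p hp => ?_
      rw [← Finset.sum_filter, Finset.filter_univ_mem, Finset.sum_const, nsmul_eq_mul,
        D.hX p hp _ (by omega), mul_comm]
    rw [e2, e1, Finset.sum_filter, Finset.sum_product]
    refine Finset.sum_congr rfl fun i _ => ?_
    have e3 : ∀ j, (if (i, j) ∈ D.Q then ∑ x : L,
        (if x ∈ D.X (D.k - 1 - (s + 1)) i j then ((D.EE s i j).card : ℝ) else 0) else 0) =
        ∑ x : L, if (i, j) ∈ D.Q ∧ x ∈ D.X (D.k - 1 - (s + 1)) i j then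
          ((D.EE s i j).card : ℝ) else 0 := by
      intro j
      by_cases h : (i, j) ∈ D.Q
      · simp only [h, if_true, true_and]
      · simp only [h, if_false, false_and, Finset.sum_const_zero]
    simp only [e3]
    rw [Finset.sum_comm]
    refine Finset.sum_congr rfl fun x _ => ?_
    unfold J
    rw [← Finset.sum_filter]
  rw [h1]
  set K : ℝ := (D.t : ℝ) ^ (s + 2) * (D.n * D.ℓ / (D.θ * D.t * D.t)) +
        D.n * (D.θ * D.t) ^ s * (D.t / D.H) with hK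
  have hK0 : 0 ≤ K := by
    rw [hK]
    positivity
  calc _ ≤ ∑ _i ∈ D.I, ∑ _x : L, K :=
        Finset.sum_le_sum fun i hi => Finset.sum_le_sum fun x _ => D.sum_J s i x hs hi
    _ = D.I.card * (Fintype.card L * K) := by
        rw [Finset.sum_const, Finset.sum_const, nsmul_eq_mul, nsmul_eq_mul, Finset.card_univ]
    _ ≤ D.n * (Fintype.card L * K) := by
        apply mul_le_mul_of_nonneg_right _ (by positivity)
        exact_mod_cast D.hI
    _ = _ := by ring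

/-- the failing lists -/
private noncomputable def Fl (s i j : ℕ) : Finset (List L) := by
  classical
  exact (D.Ls (s + 1) i j).filter (fun us => D.H ^ s * D.n < (D.mm (s + 1) i us : ℝ))

private theorem Fl_succ {s i j : ℕ} (hs : s + 2 ≤ D.k) (h : (i, j) ∈ D.Q) :
    (D.Fl (s + 1) i j).card ≤ D.t * (D.Fl s i j).card + (D.EE s i j).card := by
  classical
  have hsub : D.Fl (s + 1) i j ⊆
      ((D.U (D.k - 1 - (s + 1)) i j) ×ˢ D.Fl s i j).image (fun q => q.1 :: q.2) ∪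
      (D.EE s i j).image (fun q => q.1 :: q.2.1 :: q.2.2) := by
    intro w hw
    unfold Fl at hw
    obtain ⟨h1, h2⟩ := Finset.mem_filter.1 hw
    obtain ⟨u, hu, us, hus, rfl⟩ := ch_mem_succ h1
    obtain ⟨v, hv, vs, hvs, rfl⟩ := ch_mem_succ hus
    rw [Finset.mem_union, Finset.mem_image, Finset.mem_image]
    by_cases h3 : D.H ^ s * D.n < (D.mm (s + 1) i (v :: vs) : ℝ)
    · left
      refine ⟨(u, v :: vs), ?_, rfl⟩
      rw [Finset.mem_product]
      refine ⟨hu, ?_⟩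
      unfold Fl
      rw [Finset.mem_filter]
      exact ⟨hus, h3⟩
    · right
      refine ⟨(u, v, vs), ?_, rfl⟩
      refine D.mem_EE.2 ⟨hu, hv, hvs, ?_⟩
      have h4 := mul_le_mul_of_nonneg_left (not_lt.1 h3) D.H_pos.le
      have h5 : D.H * (D.H ^ s * D.n) = D.H ^ (s + 1) * D.n := by ring
      rw [h5] at h4
      exact h4.trans_lt h2
  calc _ ≤ _ := Finset.card_le_card hsub
    _ ≤ _ := Finset.card_union_le _ _
    _ ≤ ((D.U (D.k - 1 - (s + 1)) i j) ×ˢ D.Fl s i j).card + (D.EE s i j).card :=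
        Nat.add_le_add Finset.card_image_le Finset.card_image_le
    _ = _ := by
        rw [Finset.card_product, D.hUc (i, j) h _ (by omega)]

/-! ### the induction -/

private theorem EE_small {s : ℕ} (hs : s + 2 ≤ D.k) (hlam : 1 ≤ D.lam)
    (hbig : 4 * D.k * Fintype.card L * D.n ^ 2 * D.ℓ < (D.Q.card : ℝ) * D.t ^ 2 * D.lam * D.θ) :
    ∑ p ∈ D.Q, ((D.EE s p.1 p.2).card : ℝ) ≤ (D.Q.card : ℝ) * D.t ^ (s + 2) / (2 * D.k) := by
  have hθ := D.hθ
  have hθ0 : (0 : ℝ) < D.θ := by linarith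
  have ht : (0 : ℝ) < D.t := by exact_mod_cast D.ht
  have hℓ : (0 : ℝ) < D.ℓ := by exact_mod_cast D.hℓ
  have hk : (0 : ℝ) < D.k := by
    have : 0 < D.k := by omega
    exact_mod_cast this
  have hlam' : (0 : ℝ) < D.lam := by exact_mod_cast hlam
  have h1 := D.sum_EE hs
  -- the second term
  have e1 : D.n * (D.θ * D.t) ^ s * (D.t / D.H) ≤ D.n * D.ℓ * D.t ^ s / D.θ := by
    unfold H
    have e2 : (D.t : ℝ) / (D.θ ^ D.k * (D.t / D.ℓ)) = D.ℓ / D.θ ^ D.k := by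
      field_simp
    rw [e2, mul_pow]
    have e3 : D.θ ^ s / D.θ ^ D.k ≤ 1 / D.θ := by
      rw [div_le_div_iff₀ (by positivity) hθ0, one_mul, ← pow_succ]
      exact pow_le_pow_right₀ hθ (by omega)
    have e4 : D.n * (D.θ ^ s * (D.t : ℝ) ^ s) * (D.ℓ / D.θ ^ D.k) =
        (D.n * D.ℓ * D.t ^ s) * (D.θ ^ s / D.θ ^ D.k) := by
      field_simp
    rw [e4]
    calc _ ≤ (D.n * D.ℓ * D.t ^ s : ℝ) * (1 / D.θ) := by
          apply mul_le_mul_of_nonneg_left e3 (by positivity)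
      _ = _ := by ring
  have e5 : (D.t : ℝ) ^ (s + 2) * (D.n * D.ℓ / (D.θ * D.t * D.t)) =
      D.n * D.ℓ * D.t ^ s / D.θ := by
    field_simp
    ring
  have h2 : (∑ p ∈ D.Q, ((D.EE s p.1 p.2).card : ℝ)) * D.lam ≤
      D.n * Fintype.card L * (2 * (D.n * D.ℓ * D.t ^ s / D.θ)) := by
    refine h1.trans ?_
    apply mul_le_mul_of_nonneg_left _ (by positivity)
    rw [e5]
    linarith
  have h3 : (D.n * Fintype.card L * (2 * (D.n * D.ℓ * D.t ^ s / D.θ)) : ℝ) ≤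
      (D.Q.card : ℝ) * D.t ^ (s + 2) / (2 * D.k) * D.lam := by
    have e6 : (D.n * Fintype.card L * (2 * (D.n * D.ℓ * D.t ^ s / D.θ)) : ℝ) =
        (4 * D.k * Fintype.card L * D.n ^ 2 * D.ℓ) * (D.t ^ s / (2 * D.k * D.θ)) := by
      field_simp
      ring
    have e7 : (D.Q.card : ℝ) * D.t ^ (s + 2) / (2 * D.k) * D.lam =
        ((D.Q.card : ℝ) * D.t ^ 2 * D.lam * D.θ) * (D.t ^ s / (2 * D.k * D.θ)) := by
      field_simp
      ring
    rw [e6, e7]
    exact mul_le_mul_of_nonneg_right hbig.le (by positivity)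
  exact le_of_mul_le_mul_right (h2.trans h3) hlam'

private theorem Fl_small {s : ℕ} (hs : s + 1 ≤ D.k) (hlam : 1 ≤ D.lam)
    (hbig : 4 * D.k * Fintype.card L * D.n ^ 2 * D.ℓ < (D.Q.card : ℝ) * D.t ^ 2 * D.lam * D.θ) :
    ∑ p ∈ D.Q, ((D.Fl s p.1 p.2).card : ℝ) ≤
      s * ((D.Q.card : ℝ) * D.t ^ (s + 1) / (2 * D.k)) := by
  induction s with
  | zero =>
    have h1 : ∀ p ∈ D.Q, ((D.Fl 0 p.1 p.2).card : ℝ) = 0 := by
      intro p _
      have : D.Fl 0 p.1 p.2 = ∅ := by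
        rw [Finset.eq_empty_iff_forall_notMem]
        intro w hw
        unfold Fl at hw
        have h2 := (Finset.mem_filter.1 hw).2
        rw [pow_zero, one_mul] at h2
        have h3 : D.mm (0 + 1) p.1 w ≤ D.n := by
          unfold mm
          exact (Finset.card_filter_le _ _).trans D.hI
        have h4 : (D.mm (0 + 1) p.1 w : ℝ) ≤ D.n := by exact_mod_cast h3
        linarith
      rw [this, Finset.card_empty, Nat.cast_zero]
    rw [Finset.sum_congr rfl h1, Finset.sum_const_zero, Nat.cast_zero, zero_mul]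
  | succ s ih =>
    have ih' := ih (by omega)
    have h1 := D.EE_small (s := s) (by omega) hlam hbig
    have h2 : ∑ p ∈ D.Q, ((D.Fl (s + 1) p.1 p.2).card : ℝ) ≤
        ∑ p ∈ D.Q, ((D.t : ℝ) * (D.Fl s p.1 p.2).card + (D.EE s p.1 p.2).card) := by
      apply Finset.sum_le_sum
      intro p hp
      exact_mod_cast D.Fl_succ (i := p.1) (j := p.2) (by omega) hp
    rw [Finset.sum_add_distrib, ← Finset.mul_sum] at h2
    have ht : (0 : ℝ) ≤ D.t := by positivity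
    have h3 := mul_le_mul_of_nonneg_left ih' ht
    push_cast
    calc _ ≤ _ := h2
      _ ≤ D.t * (s * ((D.Q.card : ℝ) * D.t ^ (s + 1) / (2 * D.k))) +
          (D.Q.card : ℝ) * D.t ^ (s + 2) / (2 * D.k) := add_le_add h3 h1
      _ = _ := by ring

private theorem contra (hk : 2 ≤ D.k) (hlam : 1 ≤ D.lam)
    (hsmall : (D.n : ℝ) * D.H ^ (D.k - 1) < 1)
    (hbig : 4 * D.k * Fintype.card L * D.n ^ 2 * D.ℓ < (D.Q.card : ℝ) * D.t ^ 2 * D.lam * D.θ) :
    False := by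
  have hk' : (0 : ℝ) < D.k := by
    have : 0 < D.k := by omega
    exact_mod_cast this
  have ht : (0 : ℝ) < D.t := by exact_mod_cast D.ht
  have hQ : (0 : ℝ) < D.Q.card := by
    rcases Nat.eq_zero_or_pos D.Q.card with h | h
    · exfalso
      rw [h] at hbig
      simp only [Nat.cast_zero, zero_mul] at hbig
      have : (0 : ℝ) ≤ 4 * D.k * Fintype.card L * D.n ^ 2 * D.ℓ := by positivity
      linarith
    · exact_mod_cast h
  have h1 := D.Fl_small (s := D.k - 1) (by omega) hlam hbig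
  have h2 : ∀ p ∈ D.Q, ((D.Fl (D.k - 1) p.1 p.2).card : ℝ) = D.t ^ D.k := by
    intro p hp
    have h3 : D.Fl (D.k - 1) p.1 p.2 = D.Ls D.k p.1 p.2 := by
      have e : D.k - 1 + 1 = D.k := by omega
      unfold Fl
      rw [e]
      apply Finset.filter_true_of_mem
      intro us hus
      have h4 : 1 ≤ D.mm D.k p.1 us := by
        unfold mm
        rw [Nat.one_le_iff_ne_zero, ← Nat.pos_iff_ne_zero, Finset.card_pos]
        exact ⟨p.2, Finset.mem_filter.2 ⟨(D.hQ p hp).2, hp, hus⟩⟩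
      have h5 : (1 : ℝ) ≤ D.mm D.k p.1 us := by exact_mod_cast h4
      rw [mul_comm]
      linarith
    rw [h3, D.card_Ls hp le_rfl]
    push_cast
    rfl
  rw [Finset.sum_congr rfl h2, Finset.sum_const, nsmul_eq_mul] at h1
  have e : D.k - 1 + 1 = D.k := by omega
  rw [e] at h1
  have h3 : ((D.k - 1 : ℕ) : ℝ) = D.k - 1 := by
    rw [Nat.cast_sub (by omega)]
    simp
  rw [h3] at h1
  have h4 : (0 : ℝ) < (D.Q.card : ℝ) * D.t ^ D.k := by positivity
  have h5 : ((D.k : ℝ) - 1) * ((D.Q.card : ℝ) * D.t ^ D.k / (2 * D.k)) =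
      (D.Q.card : ℝ) * D.t ^ D.k * ((D.k - 1) / (2 * D.k)) := by ring
  rw [h5] at h1
  have h6 : ((D.k : ℝ) - 1) / (2 * D.k) < 1 := by
    rw [div_lt_one (by positivity)]
    linarith
  have h7 := mul_lt_mul_of_pos_left h6 h4
  linarith

end ch_D

/-! ## the theorem -/

theorem chain_bound {L : Type} [Fintype L] [DecidableEq L] (n k t lam ℓ : ℕ)
    (hk : 2 ≤ k) (ht : 1 ≤ t) (hlam : 1 ≤ lam) (hℓ : 1 ≤ ℓ)
    (I : Finset ℕ) (hI : I.card ≤ n)
    (A : ℕ → Finset L) (hA : ∀ i ∈ I, (A i).card ≤ n)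
    (pos : ℕ → L → ℕ)
    (hpos : ∀ i ∈ I, ∀ x ∈ A i, ∀ y ∈ A i, pos i x = pos i y → x = y)
    (F G : L → ℕ → L → ℤ)
    (Q : Finset (ℕ × ℕ)) (hQ : ∀ p ∈ Q, p.1 ∈ I ∧ p.2 ∈ I)
    (U X : ℕ → ℕ → ℕ → Finset L)
    (hUc : ∀ p ∈ Q, ∀ m < k, (U m p.1 p.2).card = t)
    (hUA : ∀ p ∈ Q, ∀ m < k, U m p.1 p.2 ⊆ A p.1)
    (hX : ∀ p ∈ Q, ∀ l < k - 1, (X l p.1 p.2).card = lam)
    (hcell : ∀ p ∈ Q, ∀ m < k, ∀ m' < k, ∀ u ∈ U m p.1 p.2, ∀ v ∈ U m' p.1 p.2,
      pos p.1 u / ℓ = pos p.1 v / ℓ)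
    (hrel : ∀ p ∈ Q, ∀ l < k - 1, ∀ x ∈ X l p.1 p.2, ∀ m ≤ l, ∀ m', l < m' → m' < k →
      ∀ u ∈ U m p.1 p.2, ∀ v ∈ U m' p.1 p.2, F x p.1 v - G x p.1 u = p.2)
    (θ : ℝ) (hθ : 1 ≤ θ) (hsmall : (n : ℝ) * (θ ^ k * (t / ℓ)) ^ (k - 1) < 1) :
    (Q.card : ℝ) * t ^ 2 * lam * θ ≤ 4 * k * Fintype.card L * n ^ 2 * ℓ := by
  by_contra hc
  exact ch_D.contra (L := L) ⟨n, k, t, lam, ℓ, I, A, pos, F, G, Q, U, X, θ, ht, hℓ, hθ, hI, hA, hpos,
    hQ, hUc, hUA, hX, hcell, hrel⟩ hk hlam hsmall (not_le.1 hc)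

end Pool.Agent.Hhelper71.LD43
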