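import Mathlib

/-!
# Distance labelings of cycles: lower bound `n ^ (4/3 + ε)`; definitions

A labeling of the cycles `C_i`, `i ∈ [n/2, n]`, is described by the sets `A i` of labels of `C_i`,
the positions `pos i x ∈ [0, i)` of the label `x ∈ A i` and the common distance function `dist`.
-/

namespace Pool.Agent.Hhelper71.LD43

/-- cyclic distance of the positions `p, q` on the cycle of length `i` (`p, q < i`) -/
def cyc (i p q : ℕ) : ℕ := min (p - q + (q - p)) (i - (p - q + (q - p)))

/-- the lengths of the cycles that we use -/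
def Iset (n : ℕ) : Finset ℕ := Finset.Icc ((n + 1) / 2) n

/-- a distance labeling of the cycles `C_i`, `i ∈ Iset n` -/
structure Sys (n : ℕ) (L : Type) where
  /-- the labels of `C_i` -/
  A : ℕ → Finset L
  /-- the position of a label on `C_i` -/
  pos : ℕ → L → ℕ
  /-- the common distance function -/
  dist : L → L → ℕ
  card_A : ∀ i ∈ Iset n, (A i).card = i
  pos_lt : ∀ i ∈ Iset n, ∀ x ∈ A i, pos i x < i
  pos_inj : ∀ i ∈ Iset n, ∀ x ∈ A i, ∀ y ∈ A i, pos i x = pos i y → x = y
  dist_eq : ∀ i ∈ Iset n, ∀ x ∈ A i, ∀ y ∈ A i, dist x y = cyc i (pos i x) (pos i y)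
  dist_comm : ∀ x y, dist x y = dist y x

namespace Sys

variable {n : ℕ} {L : Type} [Fintype L] [DecidableEq L] (S : Sys n L)

/-- common labels of `C_a` and `C_b` -/
def T (a b : ℕ) : Finset L := S.A a ∩ S.A b

/-- the cycles containing both labels `p` and `q` -/
def W (p q : L) : Finset ℕ := (Iset n).filter (fun i => p ∈ S.A i ∧ q ∈ S.A i)

/-- sum of the three distances; if `u, v, x` lie on `C_a` and are acute there, this is `a` -/
def al (u v x : L) : ℕ := S.dist u v + S.dist u x + S.dist v x

/-- acute triples: all three labels lie on the cycle of length `al u v x` -/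
def Ac (u v x : L) : Prop :=
  S.al u v x ∈ Iset n ∧ u ∈ S.A (S.al u v x) ∧ v ∈ S.A (S.al u v x) ∧ x ∈ S.A (S.al u v x)

open Classical in
/-- the number of cycles `C_b` containing `p, q` with at least `τ` labels in common with `C_a` -/
noncomputable def rc (a : ℕ) (p q : L) (τ : ℝ) : ℕ :=
  ((S.W p q).filter (fun b => τ ≤ ((S.T a b).card : ℝ))).card

open Classical in
/-- the labels `v` common to `C_a` and `C_b` such that the aligned cell of length `ℓ` of `v` in
`C_a` contains fewer than `s` common labels -/
noncomputable def Bad (ℓ : ℕ) (s : ℝ) (a b : ℕ) : Finset L :=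
  (S.T a b).filter (fun v =>
    (((S.T a b).filter (fun y => S.pos a y / ℓ = S.pos a v / ℓ)).card : ℝ) < s)

open Classical in
/-- ordered acute triples with all distances at least `Z` -/
noncomputable def Far (Z : ℝ) : Finset (L × L × L) :=
  Finset.univ.filter (fun t => S.Ac t.1 t.2.1 t.2.2 ∧ Z ≤ S.dist t.1 t.2.1 ∧
    Z ≤ S.dist t.2.1 t.2.2 ∧ Z ≤ S.dist t.1 t.2.2)

open Classical in
/-- the pairs of cycles with at least `τ` common labels -/
noncomputable def Big (τ : ℝ) : Finset (ℕ × ℕ) :=
  (Iset n ×ˢ Iset n).filter (fun p => τ ≤ ((S.T p.1 p.2).card : ℝ))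

end Sys

end Pool.Agent.Hhelper71.LD43
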