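import Mathlib
import Pool.Agent.Hhelper71.LD43.Defs

/-!
# Distance labelings of cycles: basic facts
-/

set_option linter.unusedSectionVars false
set_option linter.unusedVariables false

namespace Pool.Agent.Hhelper71.LD43

theorem mem_Iset {n i : ℕ} : i ∈ Iset n ↔ n ≤ 2 * i ∧ i ≤ n := by
  unfold Iset
  rw [Finset.mem_Icc]
  omega

theorem card_Iset_le {n : ℕ} (hn : 1 ≤ n) : (Iset n).card ≤ n := by
  unfold Iset
  rw [Nat.card_Icc]
  omega

theorem card_Iset_ge {n : ℕ} : n ≤ 2 * (Iset n).card := by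
  unfold Iset
  rw [Nat.card_Icc]
  omega

/-- fibre counting with real bounds -/
theorem card_le_of_fibres {α β : Type*} [DecidableEq β] (s : Finset α) (t : Finset β) (f : α → β)
    (B : ℝ) (hf : ∀ a ∈ s, f a ∈ t)
    (hB : ∀ b ∈ t, ((s.filter (fun a => f a = b)).card : ℝ) ≤ B) :
    (s.card : ℝ) ≤ B * t.card := by
  have h1 : s.card = ∑ b ∈ t, (s.filter (fun a => f a = b)).card :=
    Finset.card_eq_sum_card_fiberwise (fun a ha => hf a ha)
  rw [h1]
  push_cast
  calc ∑ b ∈ t, ((s.filter (fun a => f a = b)).card : ℝ) ≤ ∑ _b ∈ t, B := Finset.sum_le_sum hB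
    _ = B * t.card := by
      rw [Finset.sum_const, nsmul_eq_mul, mul_comm]

/-- Cauchy-Schwarz for pairs in the same fibre -/
theorem cs_pairs {α β : Type*} [DecidableEq β] (s : Finset α) (t : Finset β) (f : α → β)
    (hf : ∀ a ∈ s, f a ∈ t) :
    (s.card : ℝ) ^ 2 ≤ t.card * (((s ×ˢ s).filter (fun p => f p.1 = f p.2)).card : ℝ) := by
  have h1 : s.card = ∑ b ∈ t, (s.filter (fun a => f a = b)).card :=
    Finset.card_eq_sum_card_fiberwise (fun a ha => hf a ha)
  have h2 : ((s ×ˢ s).filter (fun p => f p.1 = f p.2)).card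
      = ∑ b ∈ t, (s.filter (fun a => f a = b)).card ^ 2 := by
    rw [Finset.card_eq_sum_card_fiberwise (f := fun p => f p.1) (t := t)]
    · apply Finset.sum_congr rfl
      intro b hb
      rw [sq, ← Finset.card_product]
      congr 1
      ext ⟨x, y⟩
      simp only [Finset.mem_filter, Finset.mem_product]
      constructor
      · rintro ⟨⟨⟨h3, h4⟩, h5⟩, h6⟩
        exact ⟨⟨h3, h6⟩, h4, h5 ▸ h6⟩
      · rintro ⟨⟨h3, h6⟩, h4, h7⟩
        exact ⟨⟨⟨h3, h4⟩, h6.trans h7.symm⟩, h6⟩
    · intro p hp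
      have hp' := Finset.mem_filter.1 (Finset.mem_coe.1 hp)
      exact hf _ (Finset.mem_product.1 hp'.1).1
  rw [h1, h2]
  push_cast
  exact sq_sum_le_card_mul_sum_sq

/-- sums over fibres of constant size: `∑ a ∈ s, g a` bounded by counting pairs -/
theorem sum_card_filter_comm {α β : Type*} (s : Finset α) (t : Finset β) (r : α → β → Prop)
    [∀ a b, Decidable (r a b)] :
    ∑ a ∈ s, (t.filter (fun b => r a b)).card = ∑ b ∈ t, (s.filter (fun a => r a b)).card := by
  simp only [Finset.card_filter]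
  exact Finset.sum_comm

/-! ### cyclic distance -/

theorem cyc_comm (i p q : ℕ) : cyc i p q = cyc i q p := by
  unfold cyc
  rw [Nat.add_comm (p - q)]

theorem cyc_self (i p : ℕ) : cyc i p p = 0 := by
  unfold cyc
  simp

theorem cyc_eq_zero {i p q : ℕ} (hp : p < i) (hq : q < i) (h : cyc i p q = 0) : p = q := by
  unfold cyc at h
  omega

theorem two_cyc_le {i p q : ℕ} (hp : p < i) (hq : q < i) : 2 * cyc i p q ≤ i := by
  unfold cyc
  omega

theorem cyc_tri {i p q r : ℕ} (hp : p < i) (hq : q < i) (hr : r < i) :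
    cyc i p r ≤ cyc i p q + cyc i q r := by
  unfold cyc
  omega

theorem cyc_sum_le {i p q r : ℕ} (hp : p < i) (hq : q < i) (hr : r < i) :
    cyc i p q + cyc i p r + cyc i q r ≤ i := by
  unfold cyc
  omega

theorem cyc_of_near {i p q : ℕ} (hpq : p ≤ q) (h : 2 * (q - p) ≤ i) : cyc i p q = q - p := by
  unfold cyc
  omega

/-- positions at cyclic distance at most `d` from `p` -/
theorem cyc_near_card (i p d : ℕ) (hp : p < i) :
    ((Finset.range i).filter (fun q => cyc i p q ≤ d)).card ≤ 2 * d + 1 := by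
  have h1 : (Finset.range i).filter (fun q => cyc i p q ≤ d) ⊆
      (Finset.range (2 * d + 1)).image (fun e => (p + i * (d + 1) + e - d) % i) := by
    intro q hq
    simp only [Finset.mem_filter, Finset.mem_range] at hq
    obtain ⟨hq1, hq2⟩ := hq
    simp only [Finset.mem_image, Finset.mem_range]
    unfold cyc at hq2
    have hi : 0 < i := by omega
    have hid : d ≤ i * (d + 1) := by nlinarith
    rcases le_total p q with h | h
    · rcases le_total (q - p) (i - (q - p)) with h' | h'
      · refine ⟨d + (q - p), by omega, ?_⟩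
        have e : p + i * (d + 1) + (d + (q - p)) - d = q + i * (d + 1) := by omega
        rw [e, Nat.add_mul_mod_self_left, Nat.mod_eq_of_lt hq1]
      · refine ⟨d - (i - (q - p)), by omega, ?_⟩
        have e : p + i * (d + 1) + (d - (i - (q - p))) - d = q + i * d := by
          have : i * (d + 1) = i * d + i := by ring
          omega
        rw [e, Nat.add_mul_mod_self_left, Nat.mod_eq_of_lt hq1]
    · rcases le_total (p - q) (i - (p - q)) with h' | h'
      · refine ⟨d - (p - q), by omega, ?_⟩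
        have e : p + i * (d + 1) + (d - (p - q)) - d = q + i * (d + 1) := by omega
        rw [e, Nat.add_mul_mod_self_left, Nat.mod_eq_of_lt hq1]
      · refine ⟨d + (i - (p - q)), by omega, ?_⟩
        have e : p + i * (d + 1) + (d + (i - (p - q))) - d = q + i * (d + 2) := by
          have : i * (d + 2) = i * (d + 1) + i := by ring
          omega
        rw [e, Nat.add_mul_mod_self_left, Nat.mod_eq_of_lt hq1]
  calc _ ≤ _ := Finset.card_le_card h1
    _ ≤ (Finset.range (2 * d + 1)).card := Finset.card_image_le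
    _ = 2 * d + 1 := Finset.card_range _

/-- there are at least `cyc i p q` positions `x` such that `p, q, x` is acute -/
theorem cyc_acute_card (i p q : ℕ) (hp : p < i) (hq : q < i) :
    cyc i p q ≤ ((Finset.range i).filter (fun x => cyc i p q + cyc i p x + cyc i q x = i)).card := by
  wlog hpq : p ≤ q generalizing p q with H
  · have := H q p hq hp (by omega)
    rw [cyc_comm i q p] at this
    refine this.trans (Finset.card_le_card ?_)
    intro x hx
    simp only [Finset.mem_filter] at hx ⊢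
    refine ⟨hx.1, ?_⟩
    omega
  set D := cyc i p q with hD
  set h := i / 2 with hh
  -- if `q - p ≤ i / 2` go forward from `q`, otherwise forward from `p`
  have key : ∀ c, (∀ e < D, cyc i p q + cyc i p ((c + e) % i) + cyc i q ((c + e) % i) = i) →
      D ≤ ((Finset.range i).filter (fun x => cyc i p q + cyc i p x + cyc i q x = i)).card := by
    intro c hc
    have h2D : 2 * D ≤ i := two_cyc_le hp hq
    have hinj : Set.InjOn (fun e => (c + e) % i) (Finset.range D : Set ℕ) := by
      intro e he e' he' hee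
      simp only [Finset.coe_range, Set.mem_Iio] at he he'
      have : (c + e) ≡ (c + e') [MOD i] := hee
      have h3 : e ≡ e' [MOD i] := Nat.ModEq.add_left_cancel' c this
      exact Nat.ModEq.eq_of_lt_of_lt h3 (by omega) (by omega)
    rw [← Finset.card_range D, ← Finset.card_image_of_injOn hinj]
    apply Finset.card_le_card
    intro x hx
    simp only [Finset.mem_image, Finset.mem_range] at hx
    obtain ⟨e, he, rfl⟩ := hx
    simp only [Finset.mem_filter, Finset.mem_range]
    exact ⟨Nat.mod_lt _ (by omega), hc e he⟩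
  have hDle : D ≤ q - p ∨ D ≤ q - p := by
    left
    rw [hD]
    unfold cyc
    omega
  rcases le_total (2 * (q - p)) i with hc | hc
  · -- `D = q - p`
    have hDe : D = q - p := cyc_of_near hpq hc
    apply key (q + (i - D - h))
    intro e he
    have e1 : (q + (i - D - h) + e) % i = if q + (i - D - h) + e < i then q + (i - D - h) + e
        else q + (i - D - h) + e - i := by
      split_ifs with h4
      · exact Nat.mod_eq_of_lt h4
      · rw [Nat.mod_eq_sub_mod (by omega), Nat.mod_eq_of_lt (by omega)]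
    rw [e1]
    unfold cyc
    split_ifs with h4 <;> omega
  · -- `D = i - (q - p)`
    have hDe : D = i - (q - p) := by
      rw [hD]
      unfold cyc
      omega
    apply key (p + (i - D - h))
    intro e he
    have e1 : (p + (i - D - h) + e) % i = if p + (i - D - h) + e < i then p + (i - D - h) + e
        else p + (i - D - h) + e - i := by
      split_ifs with h4
      · exact Nat.mod_eq_of_lt h4
      · rw [Nat.mod_eq_sub_mod (by omega), Nat.mod_eq_of_lt (by omega)]
    rw [e1]
    unfold cyc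
    split_ifs with h4 <;> omega

namespace Sys

variable {n : ℕ} {L : Type} [Fintype L] [DecidableEq L] (S : Sys n L)

theorem mem_T {a b : ℕ} {x : L} : x ∈ S.T a b ↔ x ∈ S.A a ∧ x ∈ S.A b := Finset.mem_inter

theorem T_comm (a b : ℕ) : S.T a b = S.T b a := Finset.inter_comm _ _

theorem mem_W {p q : L} {i : ℕ} : i ∈ S.W p q ↔ i ∈ Iset n ∧ p ∈ S.A i ∧ q ∈ S.A i := by
  unfold W
  rw [Finset.mem_filter]

theorem W_comm (p q : L) : S.W p q = S.W q p := by
  ext i
  rw [mem_W, mem_W]
  tauto

theorem card_A_le {i : ℕ} (hi : i ∈ Iset n) : (S.A i).card ≤ n := by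
  rw [S.card_A i hi]
  exact (mem_Iset.1 hi).2

theorem card_T_le {a : ℕ} (b : ℕ) (ha : a ∈ Iset n) : (S.T a b).card ≤ n :=
  (Finset.card_le_card Finset.inter_subset_left).trans (S.card_A_le ha)

omit [DecidableEq L] in
include S in
theorem le_card (hn : 1 ≤ n) : n ≤ Fintype.card L := by
  have h : n ∈ Iset n := mem_Iset.2 ⟨by omega, le_refl _⟩
  have h1 := S.card_A n h
  calc n = (S.A n).card := h1.symm
    _ ≤ _ := Finset.card_le_univ _

omit [Fintype L] [DecidableEq L] in
theorem al_comm12 (u v x : L) : S.al u v x = S.al v u x := by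
  unfold al
  rw [S.dist_comm u v]
  omega

omit [Fintype L] [DecidableEq L] in
theorem al_comm23 (u v x : L) : S.al u v x = S.al u x v := by
  unfold al
  rw [S.dist_comm v x]
  omega

omit [Fintype L] [DecidableEq L] in
theorem al_comm13 (u v x : L) : S.al u v x = S.al x v u := by
  unfold al
  rw [S.dist_comm v x, S.dist_comm u x, S.dist_comm u v]
  omega

omit [Fintype L] [DecidableEq L] in
theorem Ac_comm12 {u v x : L} (h : S.Ac u v x) : S.Ac v u x := by
  unfold Ac at *
  rw [← S.al_comm12 u v x]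
  tauto

omit [Fintype L] [DecidableEq L] in
theorem Ac_comm23 {u v x : L} (h : S.Ac u v x) : S.Ac u x v := by
  unfold Ac at *
  rw [← S.al_comm23 u v x]
  tauto

section word

variable {i : ℕ} (hi : i ∈ Iset n)

include hi

omit [Fintype L] [DecidableEq L] in
theorem two_dist_le {x y : L} (hx : x ∈ S.A i) (hy : y ∈ S.A i) : 2 * S.dist x y ≤ i := by
  rw [S.dist_eq i hi x hx y hy]
  exact two_cyc_le (S.pos_lt i hi x hx) (S.pos_lt i hi y hy)

omit [Fintype L] [DecidableEq L] in
theorem dist_self {x : L} (hx : x ∈ S.A i) : S.dist x x = 0 := by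
  rw [S.dist_eq i hi x hx x hx, cyc_self]

omit [Fintype L] [DecidableEq L] in
theorem eq_of_dist_eq_zero {x y : L} (hx : x ∈ S.A i) (hy : y ∈ S.A i) (h : S.dist x y = 0) :
    x = y := by
  rw [S.dist_eq i hi x hx y hy] at h
  exact S.pos_inj i hi x hx y hy (cyc_eq_zero (S.pos_lt i hi x hx) (S.pos_lt i hi y hy) h)

omit [Fintype L] [DecidableEq L] in
theorem dist_tri {x y z : L} (hx : x ∈ S.A i) (hy : y ∈ S.A i) (hz : z ∈ S.A i) :
    S.dist x z ≤ S.dist x y + S.dist y z := by
  rw [S.dist_eq i hi x hx y hy, S.dist_eq i hi y hy z hz, S.dist_eq i hi x hx z hz]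
  exact cyc_tri (S.pos_lt i hi x hx) (S.pos_lt i hi y hy) (S.pos_lt i hi z hz)

omit [Fintype L] [DecidableEq L] in
theorem al_le {u v x : L} (hu : u ∈ S.A i) (hv : v ∈ S.A i) (hx : x ∈ S.A i) :
    S.al u v x ≤ i := by
  unfold al
  rw [S.dist_eq i hi u hu v hv, S.dist_eq i hi u hu x hx, S.dist_eq i hi v hv x hx]
  exact cyc_sum_le (S.pos_lt i hi u hu) (S.pos_lt i hi v hv) (S.pos_lt i hi x hx)

omit [Fintype L] [DecidableEq L] in
theorem dist_of_near {x y : L} (hx : x ∈ S.A i) (hy : y ∈ S.A i) (hxy : S.pos i x ≤ S.pos i y)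
    (h : 2 * (S.pos i y - S.pos i x) ≤ i) : S.dist x y = S.pos i y - S.pos i x := by
  rw [S.dist_eq i hi x hx y hy]
  exact cyc_of_near hxy h

/-- letters in the same aligned cell are close -/
theorem dist_lt_of_cell {x y : L} {ℓ : ℕ} (hℓ : 1 ≤ ℓ) (hx : x ∈ S.A i) (hy : y ∈ S.A i)
    (h : S.pos i x / ℓ = S.pos i y / ℓ) : S.dist x y < ℓ := by
  rw [S.dist_eq i hi x hx y hy]
  have h1 := Nat.div_add_mod (S.pos i x) ℓ
  have h2 := Nat.div_add_mod (S.pos i y) ℓ
  have h3 := Nat.mod_lt (S.pos i x) (show ℓ > 0 by omega)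
  have h4 := Nat.mod_lt (S.pos i y) (show ℓ > 0 by omega)
  rw [h] at h1
  unfold cyc
  omega

omit [Fintype L] [DecidableEq L] in
theorem card_image_pos (P : Finset L) (hP : P ⊆ S.A i) : (P.image (S.pos i)).card = P.card := by
  apply Finset.card_image_of_injOn
  intro x hx y hy hxy
  exact S.pos_inj i hi x (hP hx) y (hP hy) hxy

omit [Fintype L] [DecidableEq L] in
theorem image_pos_A : (S.A i).image (S.pos i) = Finset.range i := by
  apply Finset.eq_of_subset_of_card_le
  · intro p hp
    rw [Finset.mem_image] at hp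
    obtain ⟨x, hx, rfl⟩ := hp
    exact Finset.mem_range.2 (S.pos_lt i hi x hx)
  · rw [Finset.card_range, S.card_image_pos hi _ (Finset.Subset.refl _), S.card_A i hi]

omit [Fintype L] [DecidableEq L] in
theorem exists_pos {p : ℕ} (hp : p < i) : ∃ x ∈ S.A i, S.pos i x = p := by
  have : p ∈ (S.A i).image (S.pos i) := by
    rw [S.image_pos_A hi]
    exact Finset.mem_range.2 hp
  exact Finset.mem_image.1 this

/-- letters of a cell -/
theorem card_cell_le {ℓ : ℕ} (hℓ : 1 ≤ ℓ) (c : ℕ) :
    ((S.A i).filter (fun y => S.pos i y / ℓ = c)).card ≤ ℓ := by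
  rw [← S.card_image_pos hi _ (Finset.filter_subset _ _)]
  calc _ ≤ (Finset.Ico (ℓ * c) (ℓ * c + ℓ)).card := by
        apply Finset.card_le_card
        intro p hp
        simp only [Finset.mem_image, Finset.mem_filter] at hp
        obtain ⟨x, ⟨_, hx⟩, rfl⟩ := hp
        rw [Finset.mem_Ico]
        have h1 := Nat.div_add_mod (S.pos i x) ℓ
        have h3 := Nat.mod_lt (S.pos i x) (show ℓ > 0 by omega)
        rw [hx] at h1
        omega
    _ = ℓ := by
      rw [Nat.card_Ico]
      omega

omit [Fintype L] in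
theorem near_card {x : L} (hx : x ∈ S.A i) (d : ℕ) :
    ((S.A i).filter (fun y => S.dist x y ≤ d)).card ≤ 2 * d + 1 := by
  rw [← S.card_image_pos hi _ (Finset.filter_subset _ _)]
  refine le_trans (Finset.card_le_card ?_) (cyc_near_card i (S.pos i x) d (S.pos_lt i hi x hx))
  intro p hp
  simp only [Finset.mem_image, Finset.mem_filter] at hp
  obtain ⟨y, ⟨hy, hxy⟩, rfl⟩ := hp
  simp only [Finset.mem_filter, Finset.mem_range]
  rw [S.dist_eq i hi x hx y hy] at hxy
  exact ⟨S.pos_lt i hi y hy, hxy⟩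

omit [Fintype L] in
open Classical in
theorem near_card_real {x : L} (hx : x ∈ S.A i) {z : ℝ} (hz : 0 ≤ z) :
    (((S.A i).filter (fun y => (S.dist x y : ℝ) < z)).card : ℝ) ≤ 2 * z + 1 := by
  have h1 : (S.A i).filter (fun y => (S.dist x y : ℝ) < z) ⊆
      (S.A i).filter (fun y => S.dist x y ≤ ⌊z⌋₊) := by
    intro y hy
    simp only [Finset.mem_filter] at hy ⊢
    exact ⟨hy.1, Nat.le_floor hy.2.le⟩
  have h2 := (Finset.card_le_card h1).trans (S.near_card hi hx ⌊z⌋₊)
  have h3 : ((((S.A i).filter (fun y => (S.dist x y : ℝ) < z)).card : ℕ) : ℝ) ≤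
      ((2 * ⌊z⌋₊ + 1 : ℕ) : ℝ) := by exact_mod_cast h2
  push_cast at h3
  have h4 := Nat.floor_le hz
  linarith

/-- at least `dist u v` letters `x` of `C_i` are acute with `u, v` -/
theorem acute_card {u v : L} (hu : u ∈ S.A i) (hv : v ∈ S.A i) :
    S.dist u v ≤ ((S.A i).filter (fun x => S.al u v x = i)).card := by
  rw [← S.card_image_pos hi _ (Finset.filter_subset _ _)]
  rw [S.dist_eq i hi u hu v hv]
  refine le_trans (cyc_acute_card i (S.pos i u) (S.pos i v) (S.pos_lt i hi u hu)
    (S.pos_lt i hi v hv)) (Finset.card_le_card ?_)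
  intro p hp
  simp only [Finset.mem_filter, Finset.mem_range] at hp
  obtain ⟨x, hx, rfl⟩ := S.exists_pos hi hp.1
  simp only [Finset.mem_image, Finset.mem_filter]
  refine ⟨x, ⟨hx, ?_⟩, rfl⟩
  unfold al
  rw [S.dist_eq i hi u hu v hv, S.dist_eq i hi u hu x hx, S.dist_eq i hi v hv x hx]
  exact hp.2

end word

/-- acute triples determine the cycle, so `|W(p,q)| dist(p,q) ≤ |L|` -/
theorem card_W_mul_dist (p q : L) : (S.W p q).card * S.dist p q ≤ Fintype.card L := by
  have h1 : (S.W p q).card * S.dist p q ≤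
      ∑ i ∈ S.W p q, ((S.A i).filter (fun x => S.al p q x = i)).card := by
    rw [← smul_eq_mul, ← Finset.sum_const]
    apply Finset.sum_le_sum
    intro i hi
    rw [mem_W] at hi
    exact S.acute_card hi.1 hi.2.1 hi.2.2
  refine h1.trans ?_
  rw [← Finset.card_biUnion]
  · exact Finset.card_le_univ _
  · intro i _ j _ hij
    apply Finset.disjoint_left.2
    intro x hx hx'
    simp only [Finset.mem_filter] at hx hx'
    exact hij (hx.2.symm.trans hx'.2)

theorem card_W_le {p q : L} {z : ℝ} (hz : 0 < z) (h : z ≤ S.dist p q) :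
    ((S.W p q).card : ℝ) ≤ Fintype.card L / z := by
  rw [le_div_iff₀ hz]
  have h1 : ((S.W p q).card : ℝ) * S.dist p q ≤ Fintype.card L := by
    exact_mod_cast S.card_W_mul_dist p q
  have h2 : (0 : ℝ) ≤ (S.W p q).card := by positivity
  exact (mul_le_mul_of_nonneg_left h h2).trans h1

/-- if `u ≤ y < z ≤ v` on `C_i` and `x` is acute with `y, z` on `C_j`, it is acute with `u, v` -/
theorem acute_extend {i j : ℕ} (hi : i ∈ Iset n) (hj : j ∈ Iset n) {u y z v x : L}
    (hu : u ∈ S.T i j) (hy : y ∈ S.T i j) (hz : z ∈ S.T i j) (hv : v ∈ S.T i j) (hx : x ∈ S.A j)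
    (h1 : S.pos i u ≤ S.pos i y) (h2 : S.pos i y ≤ S.pos i z) (h3 : S.pos i z ≤ S.pos i v)
    (h4 : 2 * (S.pos i v - S.pos i u) ≤ i) (h : S.al y z x = j) : S.al u v x = j := by
  rw [mem_T] at hu hy hz hv
  have a1 := S.al_le hj hu.2 hv.2 hx
  have b1 := S.dist_of_near hi hu.1 hy.1 h1 (by omega)
  have b2 := S.dist_of_near hi hy.1 hz.1 h2 (by omega)
  have b3 := S.dist_of_near hi hz.1 hv.1 h3 (by omega)
  have b4 := S.dist_of_near hi hu.1 hv.1 (by omega) h4
  have c1 := S.dist_tri hj hy.2 hu.2 hx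
  have c2 := S.dist_tri hj hz.2 hv.2 hx
  rw [S.dist_comm y u] at c1
  unfold al at *
  omega

end Sys

end Pool.Agent.Hhelper71.LD43
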