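import Mathlib
import Pool.Agent.Hhelper71.LD43.Basic

/-!
# Distance labelings of cycles: selection of a scale, groups
-/

set_option linter.unusedSectionVars false
set_option linter.unusedVariables false

namespace Pool.Agent.Hhelper71.LD43

open Filter

/-! ## M5: selection of a scale -/

theorem spread_select (P : Finset ℕ) (n m0 K R : ℕ) (ℓ : ℕ → ℕ) (hℓ : ∀ r ≤ R, 1 ≤ ℓ r)
    (hK : 1 ≤ K) (hn : n ≤ m0 * ℓ 0) (hP : ∀ y ∈ P, y < n) :
    ∃ r ≤ R, ∃ c, P.card ≤ m0 * K ^ r * (P.filter (fun y => y / ℓ r = c)).card ∧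
      (r < R → ∀ c', K * (P.filter (fun y => y / ℓ (r + 1) = c')).card ≤
        (P.filter (fun y => y / ℓ r = c)).card) := by
  classical
  obtain ⟨⟨r, c⟩, hrc, hmax⟩ := Finset.exists_max_image
    (Finset.range (R + 1) ×ˢ Finset.range (n + 1))
    (fun q : ℕ × ℕ => K ^ q.1 * (P.filter (fun y => y / ℓ q.1 = q.2)).card)
    ⟨(0, 0), by simp⟩
  rw [Finset.mem_product, Finset.mem_range, Finset.mem_range] at hrc
  have hempty : ∀ r' c' : ℕ, n < c' → (P.filter (fun y => y / ℓ r' = c')).card = 0 := by
    intro r' c' hc'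
    rw [Finset.card_eq_zero, Finset.filter_eq_empty_iff]
    intro y hy h
    have h1 := hP y hy
    have h2 : y / ℓ r' ≤ y := Nat.div_le_self _ _
    omega
  have hall : ∀ r' ≤ R, ∀ c', K ^ r' * (P.filter (fun y => y / ℓ r' = c')).card ≤
      K ^ r * (P.filter (fun y => y / ℓ r = c)).card := by
    intro r' hr' c'
    by_cases hc' : n < c'
    · rw [hempty r' c' hc', mul_zero]
      exact Nat.zero_le _
    · exact hmax (r', c') (by
        rw [Finset.mem_product, Finset.mem_range, Finset.mem_range]
        constructor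
        · show r' < R + 1
          omega
        · show c' < n + 1
          omega)
  refine ⟨r, by omega, c, ?_, ?_⟩
  · have h1 : P.card = ∑ c' ∈ Finset.range m0, (P.filter (fun y => y / ℓ 0 = c')).card := by
      refine Finset.card_eq_sum_card_fiberwise (f := fun y => y / ℓ 0) ?_
      intro y hy
      have h2 := hP y hy
      have h3 : y < m0 * ℓ 0 := lt_of_lt_of_le h2 hn
      have h4 : y / ℓ 0 < m0 := (Nat.div_lt_iff_lt_mul (hℓ 0 (Nat.zero_le _))).2 h3
      simpa using h4
    rw [h1]
    calc ∑ c' ∈ Finset.range m0, (P.filter (fun y => y / ℓ 0 = c')).card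
        ≤ ∑ _c' ∈ Finset.range m0, K ^ r * (P.filter (fun y => y / ℓ r = c)).card := by
          refine Finset.sum_le_sum fun c' _ => ?_
          have h2 := hall 0 (Nat.zero_le _) c'
          simpa using h2
      _ = m0 * K ^ r * (P.filter (fun y => y / ℓ r = c)).card := by
          rw [Finset.sum_const, Finset.card_range, smul_eq_mul, mul_assoc]
  · intro hr c'
    have h2 := hall (r + 1) (by omega) c'
    have h3 : 0 < K ^ r := Nat.pos_of_ne_zero (pow_ne_zero r (by omega))
    rw [pow_succ, mul_assoc] at h2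
    exact Nat.le_of_mul_le_mul_left h2 h3

/-! ## M6: groups -/

private theorem se_enum (P : Finset ℕ) : ∃ e : ℕ → ℕ, (∀ i < P.card, e i ∈ P) ∧
    ∀ i j, i < j → j < P.card → e i < e j := by
  refine ⟨fun i => if h : i < P.card then P.orderEmbOfFin rfl ⟨i, h⟩ else 0, ?_, ?_⟩
  · intro i hi
    simp only [dif_pos hi]
    exact Finset.orderEmbOfFin_mem _ _ _
  · intro i j hij hj
    have hi : i < P.card := lt_trans hij hj
    simp only [dif_pos hi, dif_pos hj]
    exact (P.orderEmbOfFin rfl).strictMono hij

theorem exists_groups (P : Finset ℕ) (k t lam : ℕ) (ht : 1 ≤ t) (hlam : 1 ≤ lam)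
    (hP : 2 * k * t ≤ P.card)
    (hspread : ∀ c, 2 * (P.filter (fun y => y / lam = c)).card < t) :
    ∃ U : ℕ → Finset ℕ, (∀ m < k, U m ⊆ P ∧ (U m).card = t) ∧
      ∀ l < k - 1, ∃ y ∈ P, ∃ z ∈ P, y + lam ≤ z ∧ (∀ m ≤ l, ∀ u ∈ U m, u ≤ y) ∧
        (∀ m', l < m' → m' < k → ∀ v ∈ U m', z ≤ v) := by
  classical
  obtain ⟨e, he, hmono⟩ := se_enum P
  have hle : ∀ i j, i ≤ j → j < P.card → e i ≤ e j := by
    intro i j hij hj
    rcases Nat.lt_or_eq_of_le hij with h | h
    · exact (hmono i j h hj).le
    · rw [h]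
  have hinj : ∀ i < P.card, ∀ j < P.card, e i = e j → i = j := by
    intro i hi j hj h
    rcases Nat.lt_trichotomy i j with h1 | h1 | h1
    · exact absurd h (hmono i j h1 hj).ne
    · exact h1
    · exact absurd h (hmono j i h1 hi).ne'
  have hidx : ∀ m < k, ∀ s < 2 * t, 2 * m * t + s < P.card := by
    intro m hm s hs
    have h1 : 2 * m * t + 2 * t ≤ 2 * k * t := by
      have h2 : (m + 1) * t ≤ k * t := Nat.mul_le_mul_right t hm
      nlinarith
    omega
  refine ⟨fun m => (Finset.range t).image (fun s => e (2 * m * t + s)), ?_, ?_⟩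
  · intro m hm
    constructor
    · intro x hx
      obtain ⟨s, hs, rfl⟩ := Finset.mem_image.1 hx
      exact he _ (hidx m hm s (by have := Finset.mem_range.1 hs; omega))
    · rw [Finset.card_image_of_injOn, Finset.card_range]
      intro s hs s' hs' h
      have h1 : s < t := Finset.mem_range.1 hs
      have h2 : s' < t := Finset.mem_range.1 hs'
      have h3 := hinj _ (hidx m hm s (by omega)) _ (hidx m hm s' (by omega)) h
      omega
  · intro l hl
    have hl1 : l + 1 < k := by omega
    have hlk : l < k := by omega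
    have hz : 2 * (l + 1) * t < P.card := by
      have := hidx (l + 1) hl1 0 (by omega)
      simpa using this
    have hzeq : 2 * (l + 1) * t = 2 * l * t + 2 * t := by ring
    refine ⟨e (2 * l * t + (t - 1)), he _ (hidx l hlk _ (by omega)), e (2 * (l + 1) * t),
      he _ hz, ?_, ?_, ?_⟩
    · by_contra hcon
      push Not at hcon
      set y := e (2 * l * t + (t - 1)) with hy
      set z := e (2 * (l + 1) * t) with hzd
      -- the points in between
      have hsub : (Finset.Icc (2 * l * t + (t - 1)) (2 * (l + 1) * t)).image e ⊆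
          P.filter (fun p => p / lam = y / lam) ∪ P.filter (fun p => p / lam = y / lam + 1) := by
        intro x hx
        obtain ⟨i, hi, rfl⟩ := Finset.mem_image.1 hx
        obtain ⟨hi1, hi2⟩ := Finset.mem_Icc.1 hi
        have hiP : i < P.card := lt_of_le_of_lt hi2 hz
        have h1 : y ≤ e i := hle _ _ hi1 hiP
        have h2 : e i ≤ z := hle _ _ hi2 hz
        have h3 : y / lam ≤ e i / lam := Nat.div_le_div_right h1
        have h4 : e i / lam ≤ y / lam + 1 := by
          have h5 : e i ≤ y + lam := by omega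
          calc e i / lam ≤ (y + lam) / lam := Nat.div_le_div_right h5
            _ = y / lam + 1 := Nat.add_div_right _ hlam
        rw [Finset.mem_union, Finset.mem_filter, Finset.mem_filter]
        rcases Nat.lt_or_eq_of_le h3 with h | h
        · right
          exact ⟨he i hiP, by omega⟩
        · left
          exact ⟨he i hiP, h.symm⟩
      have hc1 := Finset.card_le_card hsub
      have hc2 := Finset.card_union_le (P.filter (fun p => p / lam = y / lam))
        (P.filter (fun p => p / lam = y / lam + 1))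
      have hc3 : ((Finset.Icc (2 * l * t + (t - 1)) (2 * (l + 1) * t)).image e).card =
          (Finset.Icc (2 * l * t + (t - 1)) (2 * (l + 1) * t)).card := by
        refine Finset.card_image_of_injOn ?_
        intro i hi j hj h
        have hi2 : i ≤ 2 * (l + 1) * t := (Finset.mem_Icc.1 hi).2
        have hj2 : j ≤ 2 * (l + 1) * t := (Finset.mem_Icc.1 hj).2
        exact hinj i (lt_of_le_of_lt hi2 hz) j (lt_of_le_of_lt hj2 hz) h
      rw [hc3, Nat.card_Icc] at hc1
      have hs1 := hspread (y / lam)
      have hs2 := hspread (y / lam + 1)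
      omega
    · intro m hm u hu
      obtain ⟨s, hs, rfl⟩ := Finset.mem_image.1 hu
      have hs1 : s < t := Finset.mem_range.1 hs
      have h1 : 2 * m * t ≤ 2 * l * t := Nat.mul_le_mul_right t (by omega)
      exact hle _ _ (by omega) (hidx l hlk _ (by omega))
    · intro m' hm1 hm2 v hv
      obtain ⟨s, hs, rfl⟩ := Finset.mem_image.1 hv
      have hs1 : s < t := Finset.mem_range.1 hs
      have h1 : 2 * (l + 1) * t ≤ 2 * m' * t := Nat.mul_le_mul_right t (by omega)
      exact hle _ _ (by omega) (hidx m' hm2 _ (by omega))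

end Pool.Agent.Hhelper71.LD43
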