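import Mathlib
import Pool.Agent.Hhelper71.LD43.Chain
import Pool.Agent.Hhelper71.LD43.Select

/-!
# Distance labelings of cycles: the badly distributed intersections
-/

set_option linter.unusedSectionVars false
set_option linter.unusedVariables false

namespace Pool.Agent.Hhelper71.LD43

namespace Sys

variable {n : ℕ} {L : Type} [Fintype L] [DecidableEq L] (S : Sys n L)

/-- `(i, j)` has `k` groups of `t` common letters in a cell of length `ℓ`, separated by gaps of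
length at least `lam` -/
def BsCl (k t ℓ lam i j : ℕ) : Prop :=
  ∃ U X : ℕ → Finset L, (∀ m < k, (U m).card = t) ∧ (∀ m < k, U m ⊆ S.A i) ∧
    (∀ l < k - 1, (X l).card = lam) ∧
    (∀ m < k, ∀ m' < k, ∀ u ∈ U m, ∀ v ∈ U m', S.pos i u / ℓ = S.pos i v / ℓ) ∧
    (∀ l < k - 1, ∀ x ∈ X l, ∀ m ≤ l, ∀ m', l < m' → m' < k → ∀ u ∈ U m, ∀ v ∈ U m',
      ((S.pos i v : ℤ) + S.dist x v) - ((S.pos i u : ℤ) - S.dist x u) = j)

theorem bs_Bad_sub (ℓ : ℕ) (s : ℝ) (i j : ℕ) : S.Bad ℓ s i j ⊆ S.T i j := by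
  unfold Bad
  exact Finset.filter_subset _ _

/-- a cell of length `ℓs` contains at most `s` letters of `Bad` -/
theorem bs_cell_le {ℓs : ℕ} {s : ℝ} (hs : 0 ≤ s) {i : ℕ} (hi : i ∈ Iset n) (j c : ℕ) :
    ((((S.Bad ℓs s i j).image (S.pos i)).filter (fun y => y / ℓs = c)).card : ℝ) ≤ s := by
  classical
  by_cases h : ∃ v ∈ S.Bad ℓs s i j, S.pos i v / ℓs = c
  · obtain ⟨v, hv, hvc⟩ := h
    have h1 : (((S.Bad ℓs s i j).image (S.pos i)).filter (fun y => y / ℓs = c)).card ≤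
        ((S.T i j).filter (fun y => S.pos i y / ℓs = S.pos i v / ℓs)).card := by
      refine le_trans (Finset.card_le_card (t := ((S.T i j).filter
        (fun y => S.pos i y / ℓs = S.pos i v / ℓs)).image (S.pos i)) ?_) Finset.card_image_le
      intro y hy
      rw [Finset.mem_filter, Finset.mem_image] at hy
      obtain ⟨⟨w, hw, rfl⟩, hwc⟩ := hy
      exact Finset.mem_image.2 ⟨w, Finset.mem_filter.2 ⟨S.bs_Bad_sub ℓs s i j hw,
        hwc.trans hvc.symm⟩, rfl⟩
    unfold Bad at hv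
    have h2 := (Finset.mem_filter.1 hv).2
    have h3 : ((((S.Bad ℓs s i j).image (S.pos i)).filter (fun y => y / ℓs = c)).card : ℝ) ≤
      (((S.T i j).filter (fun y => S.pos i y / ℓs = S.pos i v / ℓs)).card : ℝ) := by
      exact_mod_cast h1
    refine h3.trans (le_trans (le_of_eq ?_) h2.le)
    refine congrArg (fun t : Finset L => (t.card : ℝ)) ?_
    ext y
    simp only [Finset.mem_filter]
  · have h1 : ((S.Bad ℓs s i j).image (S.pos i)).filter (fun y => y / ℓs = c) = ∅ := by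
      rw [Finset.filter_eq_empty_iff]
      intro y hy hyc
      rw [Finset.mem_image] at hy
      obtain ⟨w, hw, rfl⟩ := hy
      exact h ⟨w, hw, hyc⟩
    rw [h1]
    simpa using hs

theorem bs_big_cell {P : Finset ℕ} {ℓs G : ℕ} {s : ℝ} (hG : 1 ≤ G)
    (h : ∀ c, ((P.filter (fun y => y / ℓs = c)).card : ℝ) ≤ s) (c : ℕ) :
    ((P.filter (fun y => y / (ℓs * G) = c)).card : ℝ) ≤ G * s := by
  have h1 : P.filter (fun y => y / (ℓs * G) = c) ⊆
      (Finset.Ico (c * G) (c * G + G)).biUnion (fun c' => P.filter (fun y => y / ℓs = c')) := by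
    intro y hy
    rw [Finset.mem_filter] at hy
    rw [Finset.mem_biUnion]
    refine ⟨y / ℓs, ?_, Finset.mem_filter.2 ⟨hy.1, rfl⟩⟩
    rw [Finset.mem_Ico, ← hy.2, ← Nat.div_div_eq_div_mul]
    have e1 := Nat.div_add_mod (y / ℓs) G
    have e2 := Nat.mod_lt (y / ℓs) (show G > 0 by omega)
    have e3 : G * (y / ℓs / G) = y / ℓs / G * G := Nat.mul_comm _ _
    omega
  have h2 : (P.filter (fun y => y / (ℓs * G) = c)).card ≤
      ∑ c' ∈ Finset.Ico (c * G) (c * G + G), (P.filter (fun y => y / ℓs = c')).card :=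
    (Finset.card_le_card h1).trans Finset.card_biUnion_le
  calc ((P.filter (fun y => y / (ℓs * G) = c)).card : ℝ)
      ≤ ((∑ c' ∈ Finset.Ico (c * G) (c * G + G), (P.filter (fun y => y / ℓs = c')).card : ℕ) : ℝ) := by
        exact_mod_cast h2
    _ = ∑ c' ∈ Finset.Ico (c * G) (c * G + G), ((P.filter (fun y => y / ℓs = c')).card : ℝ) := by
        push_cast
        rfl
    _ ≤ ∑ _c' ∈ Finset.Ico (c * G) (c * G + G), s := Finset.sum_le_sum (fun c' _ => h c')
    _ = G * s := by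
        rw [Finset.sum_const, Nat.card_Ico, nsmul_eq_mul]
        congr 2
        omega

/-- from groups of positions to groups of letters -/
theorem bs_letters {k t ℓ lam : ℕ} {i j : ℕ} (hi : i ∈ Iset n) (hj : j ∈ Iset n)
    (B : Finset L) (hB : B ⊆ S.T i j) (hℓ : 4 * ℓ ≤ n) (c : ℕ) (V : ℕ → Finset ℕ) (hℓ1 : 1 ≤ ℓ)
    (hV : ∀ m < k, V m ⊆ (B.image (S.pos i)).filter (fun y => y / ℓ = c) ∧ (V m).card = t)
    (hsep : ∀ l < k - 1, ∃ y ∈ (B.image (S.pos i)).filter (fun y => y / ℓ = c),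
      ∃ z ∈ (B.image (S.pos i)).filter (fun y => y / ℓ = c), y + lam ≤ z ∧
        (∀ m ≤ l, ∀ u ∈ V m, u ≤ y) ∧ (∀ m', l < m' → m' < k → ∀ v ∈ V m', z ≤ v)) :
    S.BsCl k t ℓ lam i j := by
  classical
  have hBA : B ⊆ S.A i := fun x hx => (S.mem_T.1 (hB hx)).1
  let U : ℕ → Finset L := fun m => B.filter (fun v => S.pos i v ∈ V m)
  have hUB : ∀ m, U m ⊆ B := fun m => Finset.filter_subset _ _
  have hUV : ∀ m u, u ∈ U m → S.pos i u ∈ V m := fun m u hu => (Finset.mem_filter.1 hu).2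
  have hcell : ∀ m < k, ∀ u ∈ U m, S.pos i u / ℓ = c := by
    intro m hm u hu
    exact (Finset.mem_filter.1 ((hV m hm).1 (hUV m u hu))).2
  have hi2 := mem_Iset.1 hi
  have hnear : ∀ p q : ℕ, p / ℓ = c → q / ℓ = c → 2 * (q - p) ≤ i := by
    intro p q hp hq
    have h1 := Nat.div_add_mod p ℓ
    have h2 := Nat.div_add_mod q ℓ
    have h3 := Nat.mod_lt p (show ℓ > 0 by omega)
    have h4 := Nat.mod_lt q (show ℓ > 0 by omega)
    rw [hp] at h1
    rw [hq] at h2
    omega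
  have hX : ∀ l : ℕ, ∃ X : Finset L, l < k - 1 → X.card = lam ∧
      (∀ x ∈ X, ∀ m ≤ l, ∀ m', l < m' → m' < k → ∀ u ∈ U m, ∀ v ∈ U m',
        ((S.pos i v : ℤ) + S.dist x v) - ((S.pos i u : ℤ) - S.dist x u) = j) := by
    intro l
    by_cases hl : l < k - 1
    · obtain ⟨y, hy, z, hz, hyz, h1, h2⟩ := hsep l hl
      rw [Finset.mem_filter, Finset.mem_image] at hy hz
      obtain ⟨⟨y0, hy0, rfl⟩, hyc⟩ := hy
      obtain ⟨⟨z0, hz0, rfl⟩, hzc⟩ := hz
      have hyT := S.mem_T.1 (hB hy0)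
      have hzT := S.mem_T.1 (hB hz0)
      have hd : S.dist y0 z0 = S.pos i z0 - S.pos i y0 :=
        S.dist_of_near hi hyT.1 hzT.1 (by omega) (hnear _ _ hyc hzc)
      have hcard : lam ≤ ((S.A j).filter (fun x => S.al y0 z0 x = j)).card := by
        refine le_trans ?_ (S.acute_card hj hyT.2 hzT.2)
        omega
      obtain ⟨X, hXs, hXc⟩ := Finset.exists_subset_card_eq hcard
      refine ⟨X, fun _ => ⟨hXc, ?_⟩⟩
      intro x hx m hm m' hlm' hm' u hu v hv
      have hxA := Finset.mem_filter.1 (hXs hx)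
      have hmk : m < k := by omega
      have huB := hUB m hu
      have hvB := hUB m' hv
      have huT := S.mem_T.1 (hB huB)
      have hvT := S.mem_T.1 (hB hvB)
      have e1 : S.pos i u ≤ S.pos i y0 := h1 m hm _ (hUV m u hu)
      have e2 : S.pos i z0 ≤ S.pos i v := h2 m' hlm' hm' _ (hUV m' v hv)
      have e3 : 2 * (S.pos i v - S.pos i u) ≤ i :=
        hnear _ _ (hcell m hmk u hu) (hcell m' hm' v hv)
      have hal := S.acute_extend hi hj (hB huB) (hB hy0) (hB hz0) (hB hvB) hxA.1 e1 (by omega) e2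
        e3 hxA.2
      have hduv : S.dist u v = S.pos i v - S.pos i u :=
        S.dist_of_near hi huT.1 hvT.1 (by omega) e3
      unfold al at hal
      rw [S.dist_comm x v, S.dist_comm x u]
      omega
    · exact ⟨∅, fun h => absurd h hl⟩
  choose X hX using hX
  refine ⟨U, X, ?_, ?_, ?_, ?_, ?_⟩
  · intro m hm
    rw [← (hV m hm).2]
    have h1 : (U m).image (S.pos i) = V m := by
      ext p
      rw [Finset.mem_image]
      constructor
      · rintro ⟨u, hu, rfl⟩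
        exact hUV m u hu
      · intro hp
        have h2 := (Finset.mem_filter.1 ((hV m hm).1 hp)).1
        rw [Finset.mem_image] at h2
        obtain ⟨u, hu, rfl⟩ := h2
        exact ⟨u, Finset.mem_filter.2 ⟨hu, hp⟩, rfl⟩
    rw [← h1]
    exact (S.card_image_pos hi (U m) ((hUB m).trans hBA)).symm
  · intro m _
    exact (hUB m).trans hBA
  · intro l hl
    exact (hX l hl).1
  · intro m hm m' hm' u hu v hv
    rw [hcell m hm u hu, hcell m' hm' v hv]
  · intro l hl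
    exact (hX l hl).2

/-- the alternative for one pair of cycles -/
theorem bs_pair (hn : 1 ≤ n) (k R g ℓs : ℕ) (s : ℝ) (hk : 2 ≤ k) (hg : 1 ≤ g)
    (hℓs : 1 ≤ ℓs) (hlow : n ≤ 8 * (ℓs * g ^ R)) (hup : 4 * (ℓs * g ^ R) ≤ n)
    (hs : 1 ≤ s) {i j : ℕ} (hi : i ∈ Iset n) (hj : j ∈ Iset n) :
    ((S.Bad ℓs s i j).card : ℝ) ≤ 8 * (8 * k) ^ R * (s + 2 * k) ∨
    ∃ r < R, ∃ e ≤ Nat.log 2 n, ((S.Bad ℓs s i j).card : ℝ) ≤ 32 * k * (8 * k) ^ R * (2 ^ e : ℕ) ∧
      (((2 ^ e : ℕ) : ℝ)) / ((ℓs * g ^ (R - r) : ℕ) : ℝ) ≤ s / ℓs ∧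
      S.BsCl k (2 ^ e) (ℓs * g ^ (R - r)) (ℓs * g ^ (R - (r + 1))) i j := by
  classical
  set B := S.Bad ℓs s i j with hBdef
  set P := B.image (S.pos i) with hP
  have hBT : B ⊆ S.T i j := S.bs_Bad_sub ℓs s i j
  have hBA : B ⊆ S.A i := fun x hx => (S.mem_T.1 (hBT hx)).1
  have hcardP : P.card = B.card := S.card_image_pos hi B hBA
  have hPn : ∀ y ∈ P, y < n := by
    intro y hy
    rw [hP, Finset.mem_image] at hy
    obtain ⟨v, hv, rfl⟩ := hy
    have := S.pos_lt i hi v (hBA hv)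
    have := mem_Iset.1 hi
    omega
  have hgp : ∀ m, 1 ≤ g ^ m := fun m => Nat.one_le_pow _ _ hg
  have hℓr : ∀ r, 1 ≤ ℓs * g ^ (R - r) := fun r => Nat.mul_pos (by omega) (hgp _)
  obtain ⟨r, hrR, c, h1, h2⟩ := spread_select P n 8 (8 * k) R (fun r => ℓs * g ^ (R - r))
    (fun r _ => hℓr r) (by omega) (by simpa using hlow) hPn
  set q := (P.filter (fun y => y / (ℓs * g ^ (R - r)) = c)).card with hq
  have hs0 : 0 ≤ s := by linarith
  have hqs : (q : ℝ) ≤ (g ^ (R - r) : ℕ) * s :=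
    bs_big_cell (hgp _) (fun c => S.bs_cell_le hs0 hi j c) c
  have hk0 : (1 : ℝ) ≤ k := by
    have : 1 ≤ k := by omega
    exact_mod_cast this
  have h8k : (1 : ℝ) ≤ 8 * k := by linarith
  have hpow : ((8 : ℝ) * k) ^ r ≤ (8 * k) ^ R := pow_le_pow_right₀ h8k hrR
  have hBq : (B.card : ℝ) ≤ 8 * (8 * k) ^ R * q := by
    have e1 : (B.card : ℝ) ≤ 8 * (8 * k) ^ r * q := by
      rw [← hcardP]
      exact_mod_cast h1
    refine e1.trans ?_
    have : (0 : ℝ) ≤ q := by positivity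
    gcongr
  rcases Nat.lt_or_ge r R with hr | hr
  · rcases Nat.lt_or_ge q (2 * k) with hq2 | hq2
    · -- few letters
      left
      refine hBq.trans ?_
      have : (q : ℝ) ≤ s + 2 * k := by
        have : (q : ℝ) < 2 * k := by exact_mod_cast hq2
        linarith
      gcongr
    · right
      have hqk : 1 ≤ q / (2 * k) := (Nat.one_le_div_iff (by omega)).2 hq2
      set e := Nat.log 2 (q / (2 * k)) with he
      have ht1 : 2 ^ e ≤ q / (2 * k) := Nat.pow_log_le_self 2 (by omega)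
      have ht2 : q / (2 * k) < 2 ^ (e + 1) := Nat.lt_pow_succ_log_self (by norm_num) _
      have ht3 : 2 * k * 2 ^ e ≤ q := by
        calc 2 * k * 2 ^ e ≤ 2 * k * (q / (2 * k)) := Nat.mul_le_mul_left _ ht1
          _ ≤ q := Nat.mul_div_le _ _
      have ht4 : q < 4 * k * 2 ^ e := by
        have := (Nat.div_lt_iff_lt_mul (show 0 < 2 * k by omega)).1 ht2
        calc q < 2 ^ (e + 1) * (2 * k) := this
          _ = 4 * k * 2 ^ e := by
            rw [pow_succ]
            ring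
      have hqn : q ≤ n := by
        calc q ≤ P.card := Finset.card_filter_le _ _
          _ ≤ (Finset.range n).card := Finset.card_le_card (fun y hy =>
              Finset.mem_range.2 (hPn y hy))
          _ = n := Finset.card_range n
      have ht0 : 1 ≤ 2 ^ e := Nat.one_le_two_pow
      refine ⟨r, hr, e, ?_, ?_, ?_, ?_⟩
      · rw [he]
        exact Nat.log_mono_right ((Nat.div_le_self _ _).trans hqn)
      · refine hBq.trans ?_
        have e1 : (q : ℝ) ≤ 4 * k * (2 ^ e : ℕ) := by exact_mod_cast ht4.le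
        calc (8 : ℝ) * (8 * k) ^ R * q ≤ 8 * (8 * k) ^ R * (4 * k * (2 ^ e : ℕ)) := by gcongr
          _ = _ := by ring
      · have hℓs0 : (0 : ℝ) < ℓs := by exact_mod_cast hℓs
        have hgm : (0 : ℝ) < ((g ^ (R - r) : ℕ) : ℝ) := by exact_mod_cast hgp _
        have e1 : ((2 ^ e : ℕ) : ℝ) ≤ q := by
          have : 2 ^ e ≤ q := by
            calc 2 ^ e ≤ 2 * k * 2 ^ e := Nat.le_mul_of_pos_left _ (by omega)
              _ ≤ q := ht3
          exact_mod_cast this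
        rw [div_le_div_iff₀ (by push_cast at hgm ⊢; positivity) hℓs0]
        calc ((2 ^ e : ℕ) : ℝ) * ℓs ≤ ((g ^ (R - r) : ℕ) * s) * ℓs := by
              have := e1.trans hqs
              gcongr
          _ = s * ((ℓs * g ^ (R - r) : ℕ) : ℝ) := by
              push_cast
              ring
      · obtain ⟨V, hV1, hV2⟩ := exists_groups (P.filter (fun y => y / (ℓs * g ^ (R - r)) = c))
          k (2 ^ e) (ℓs * g ^ (R - (r + 1))) ht0 (hℓr (r + 1)) ht3 (by
            intro c'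
            have e1 := h2 hr c'
            have e2 : ((P.filter (fun y => y / (ℓs * g ^ (R - r)) = c)).filter
              (fun y => y / (ℓs * g ^ (R - (r + 1))) = c')).card ≤
              (P.filter (fun y => y / (ℓs * g ^ (R - (r + 1))) = c')).card := by
              apply Finset.card_le_card
              intro y hy
              rw [Finset.mem_filter, Finset.mem_filter] at hy
              exact Finset.mem_filter.2 ⟨hy.1.1, hy.2⟩
            have e3 : 8 * k * (P.filter (fun y => y / (ℓs * g ^ (R - (r + 1))) = c')).card <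
              4 * k * 2 ^ e := lt_of_le_of_lt e1 ht4
            have e4 : 4 * k * (2 * (P.filter (fun y => y / (ℓs * g ^ (R - (r + 1))) = c')).card) <
              4 * k * 2 ^ e := by
              calc 4 * k * (2 * (P.filter (fun y => y / (ℓs * g ^ (R - (r + 1))) = c')).card)
                  = 8 * k * (P.filter (fun y => y / (ℓs * g ^ (R - (r + 1))) = c')).card := by ring
                _ < _ := e3
            have e5 := lt_of_mul_lt_mul_left e4 (Nat.zero_le _)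
            omega)
        have hℓn : 4 * (ℓs * g ^ (R - r)) ≤ n := by
          have : g ^ (R - r) ≤ g ^ R := Nat.pow_le_pow_right (by omega) (by omega)
          have : ℓs * g ^ (R - r) ≤ ℓs * g ^ R := Nat.mul_le_mul_left _ this
          omega
        exact S.bs_letters hi hj B hBT hℓn c V (hℓr r) hV1 hV2
  · -- last scale
    left
    have hrR' : r = R := le_antisymm hrR hr
    rw [hrR', Nat.sub_self, pow_zero] at hqs
    refine hBq.trans ?_
    have : (q : ℝ) ≤ s + 2 * k := by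
      have : (q : ℝ) ≤ s := by simpa using hqs
      linarith
    gcongr

/-- the pairs of one class -/
theorem bs_class (hn : 1 ≤ n) (k R g ℓs r e : ℕ) (s τ θ : ℝ) (hk : 2 ≤ k) (hg : 1 ≤ g)
    (hℓs : 1 ≤ ℓs) (hθ : 1 ≤ θ) (hs : 1 ≤ s) (hr : r < R)
    (hsmall : (n : ℝ) * (θ ^ k * (s / ℓs)) ^ (k - 1) < 1) (C1 : ℝ) (hC1 : 0 ≤ C1)
    (Q : Finset (ℕ × ℕ)) (hQI : ∀ p ∈ Q, p.1 ∈ Iset n ∧ p.2 ∈ Iset n)
    (hQ : ∀ p ∈ Q, ((S.Bad ℓs s p.1 p.2).card : ℝ) ≤ C1 * (2 ^ e : ℕ) ∧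
      (((2 ^ e : ℕ) : ℝ)) / ((ℓs * g ^ (R - r) : ℕ) : ℝ) ≤ s / ℓs ∧
      S.BsCl k (2 ^ e) (ℓs * g ^ (R - r)) (ℓs * g ^ (R - (r + 1))) p.1 p.2) :
    ∑ p ∈ Q, ((S.Bad ℓs s p.1 p.2).card : ℝ) ^ 2 ≤
      C1 ^ 2 * (4 * k * Fintype.card L * n ^ 2 * g / θ) := by
  classical
  have hθ0 : 0 < θ := by linarith
  rcases Q.eq_empty_or_nonempty with hemp | ⟨p0, hp0⟩
  · rw [hemp, Finset.sum_empty]
    positivity
  have hgp : ∀ m, 1 ≤ g ^ m := fun m => Nat.one_le_pow _ _ hg
  have hℓr : ∀ r, 1 ≤ ℓs * g ^ (R - r) := fun r => Nat.mul_pos (by omega) (hgp _)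
  let U : ℕ → ℕ → ℕ → Finset L := fun m i j =>
    if h : S.BsCl k (2 ^ e) (ℓs * g ^ (R - r)) (ℓs * g ^ (R - (r + 1))) i j then h.choose m else ∅
  let X : ℕ → ℕ → ℕ → Finset L := fun m i j =>
    if h : S.BsCl k (2 ^ e) (ℓs * g ^ (R - r)) (ℓs * g ^ (R - (r + 1))) i j then
      h.choose_spec.choose m else ∅
  have hU : ∀ m i j, ∀ h : S.BsCl k (2 ^ e) (ℓs * g ^ (R - r)) (ℓs * g ^ (R - (r + 1))) i j,
      U m i j = h.choose m := fun m i j h => dif_pos h
  have hX : ∀ m i j, ∀ h : S.BsCl k (2 ^ e) (ℓs * g ^ (R - r)) (ℓs * g ^ (R - (r + 1))) i j,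
      X m i j = h.choose_spec.choose m := fun m i j h => dif_pos h
  have hs0 : 0 ≤ s := by linarith
  have hℓs0 : (0 : ℝ) < ℓs := by exact_mod_cast hℓs
  have hch := chain_bound n k (2 ^ e) (ℓs * g ^ (R - (r + 1))) (ℓs * g ^ (R - r)) hk
    Nat.one_le_two_pow (hℓr (r + 1)) (hℓr r) (Iset n) (card_Iset_le hn) S.A
    (fun i hi => S.card_A_le hi) S.pos (fun i hi x hx y hy => S.pos_inj i hi x hx y hy)
    (fun x i v => (S.pos i v : ℤ) + S.dist x v) (fun x i u => (S.pos i u : ℤ) - S.dist x u)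
    Q hQI U X
    (by
      intro p hp m hm
      have h := (hQ p hp).2.2
      rw [hU m p.1 p.2 h]
      exact h.choose_spec.choose_spec.1 m hm)
    (by
      intro p hp m hm
      have h := (hQ p hp).2.2
      rw [hU m p.1 p.2 h]
      exact h.choose_spec.choose_spec.2.1 m hm)
    (by
      intro p hp l hl
      have h := (hQ p hp).2.2
      rw [hX l p.1 p.2 h]
      exact h.choose_spec.choose_spec.2.2.1 l hl)
    (by
      intro p hp m hm m' hm' u hu v hv
      have h := (hQ p hp).2.2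
      rw [hU m p.1 p.2 h] at hu
      rw [hU m' p.1 p.2 h] at hv
      exact h.choose_spec.choose_spec.2.2.2.1 m hm m' hm' u hu v hv)
    (by
      intro p hp l hl x hx m hm m' hlm' hm' u hu v hv
      have h := (hQ p hp).2.2
      rw [hU m p.1 p.2 h] at hu
      rw [hU m' p.1 p.2 h] at hv
      rw [hX l p.1 p.2 h] at hx
      exact h.choose_spec.choose_spec.2.2.2.2 l hl x hx m hm m' hlm' hm' u hu v hv)
    θ hθ (by
      refine lt_of_le_of_lt ?_ hsmall
      have h1 := (hQ p0 hp0).2.1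
      have h2 : (0 : ℝ) ≤ ((2 ^ e : ℕ) : ℝ) / ((ℓs * g ^ (R - r) : ℕ) : ℝ) := by positivity
      gcongr)
  -- divide by the length
  have hlam0 : (0 : ℝ) < ((ℓs * g ^ (R - (r + 1)) : ℕ) : ℝ) := by exact_mod_cast hℓr (r + 1)
  have hgl : ((ℓs * g ^ (R - r) : ℕ) : ℝ) = g * ((ℓs * g ^ (R - (r + 1)) : ℕ) : ℝ) := by
    have e1 : R - r = R - (r + 1) + 1 := by omega
    rw [e1, pow_succ]
    push_cast
    ring
  rw [hgl] at hch
  have h3 : (Q.card : ℝ) * ((2 ^ e : ℕ) : ℝ) ^ 2 ≤ 4 * k * Fintype.card L * n ^ 2 * g / θ := by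
    rw [le_div_iff₀ hθ0]
    refine le_of_mul_le_mul_right ?_ hlam0
    calc (Q.card : ℝ) * ((2 ^ e : ℕ) : ℝ) ^ 2 * θ * ((ℓs * g ^ (R - (r + 1)) : ℕ) : ℝ)
        = (Q.card : ℝ) * ((2 ^ e : ℕ) : ℝ) ^ 2 * ((ℓs * g ^ (R - (r + 1)) : ℕ) : ℝ) * θ := by ring
      _ ≤ _ := hch
      _ = _ := by ring
  calc ∑ p ∈ Q, ((S.Bad ℓs s p.1 p.2).card : ℝ) ^ 2
      ≤ ∑ _p ∈ Q, (C1 * (2 ^ e : ℕ)) ^ 2 := by
        apply Finset.sum_le_sum
        intro p hp
        exact pow_le_pow_left₀ (by positivity) (hQ p hp).1 2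
    _ = C1 ^ 2 * ((Q.card : ℝ) * ((2 ^ e : ℕ) : ℝ) ^ 2) := by
        rw [Finset.sum_const, nsmul_eq_mul]
        ring
    _ ≤ _ := mul_le_mul_of_nonneg_left h3 (by positivity)

theorem sum_Bad_le (hn : 1 ≤ n) (k R g ℓs : ℕ) (s τ θ S2 : ℝ) (hk : 2 ≤ k) (hg : 1 ≤ g)
    (hℓs : 1 ≤ ℓs) (hlow : n ≤ 8 * (ℓs * g ^ R)) (hup : 4 * (ℓs * g ^ R) ≤ n) (hθ : 1 ≤ θ)
    (hs : 1 ≤ s) (hτ : 0 < τ)
    (hsmall : (n : ℝ) * (θ ^ k * (s / ℓs)) ^ (k - 1) < 1)
    (hS2 : ∑ a ∈ Iset n, ∑ b ∈ Iset n, ((S.T a b).card : ℝ) ^ 2 ≤ S2) :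
    ∑ p ∈ S.Big τ, ((S.Bad ℓs s p.1 p.2).card : ℝ) * ((S.T p.1 p.2).card : ℝ) ≤
      √(S2 * (R * (Nat.log 2 n + 1) * (32 * k * (8 * k) ^ R) ^ 2 *
        (4 * k * Fintype.card L * n ^ 2 * g / θ))) + 8 * (8 * k) ^ R * (s + 2 * k) / τ * S2 := by
  classical
  have hθ0 : 0 < θ := by linarith
  set C1 : ℝ := 32 * k * (8 * k) ^ R with hC1
  set M : ℝ := 4 * k * Fintype.card L * n ^ 2 * g / θ with hM
  have hC10 : 0 ≤ C1 := by positivity
  have hM0 : 0 ≤ M := by positivity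
  have hBigI : ∀ p ∈ S.Big τ, p.1 ∈ Iset n ∧ p.2 ∈ Iset n := by
    intro p hp
    unfold Big at hp
    exact Finset.mem_product.1 (Finset.mem_filter.1 hp).1
  have hBigτ : ∀ p ∈ S.Big τ, τ ≤ ((S.T p.1 p.2).card : ℝ) := by
    intro p hp
    unfold Big at hp
    exact (Finset.mem_filter.1 hp).2
  have hT2 : ∑ p ∈ S.Big τ, ((S.T p.1 p.2).card : ℝ) ^ 2 ≤ S2 := by
    refine le_trans ?_ hS2
    rw [← Finset.sum_product' (Iset n) (Iset n) (fun a b => ((S.T a b).card : ℝ) ^ 2)]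
    apply Finset.sum_le_sum_of_subset_of_nonneg
    · intro p hp
      exact Finset.mem_product.2 (hBigI p hp)
    · intro p _ _
      positivity
  have hS20 : 0 ≤ S2 := le_trans (Finset.sum_nonneg (fun p _ => by positivity)) hT2
  set c0 : ℝ := 8 * (8 * k) ^ R * (s + 2 * k) with hc0
  have hc00 : 0 ≤ c0 := by positivity
  set A1 := (S.Big τ).filter (fun p => ((S.Bad ℓs s p.1 p.2).card : ℝ) ≤ c0) with hA1
  set A2 := (S.Big τ).filter (fun p => ¬ ((S.Bad ℓs s p.1 p.2).card : ℝ) ≤ c0) with hA2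
  -- first part
  have hpart1 : ∑ p ∈ A1, ((S.Bad ℓs s p.1 p.2).card : ℝ) * ((S.T p.1 p.2).card : ℝ) ≤
      c0 / τ * S2 := by
    calc ∑ p ∈ A1, ((S.Bad ℓs s p.1 p.2).card : ℝ) * ((S.T p.1 p.2).card : ℝ)
        ≤ ∑ p ∈ A1, c0 / τ * ((S.T p.1 p.2).card : ℝ) ^ 2 := by
          apply Finset.sum_le_sum
          intro p hp
          have hp' := Finset.mem_filter.1 hp
          have h1 := hBigτ p hp'.1
          have h2 : (0 : ℝ) ≤ ((S.T p.1 p.2).card : ℝ) := by positivity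
          have h3 : ((S.T p.1 p.2).card : ℝ) ≤ ((S.T p.1 p.2).card : ℝ) ^ 2 / τ := by
            rw [le_div_iff₀ hτ, sq]
            exact mul_le_mul_of_nonneg_left h1 h2
          calc ((S.Bad ℓs s p.1 p.2).card : ℝ) * ((S.T p.1 p.2).card : ℝ)
              ≤ c0 * (((S.T p.1 p.2).card : ℝ) ^ 2 / τ) :=
                mul_le_mul hp'.2 h3 h2 hc00
            _ = _ := by ring
      _ = c0 / τ * ∑ p ∈ A1, ((S.T p.1 p.2).card : ℝ) ^ 2 := by rw [Finset.mul_sum]
      _ ≤ c0 / τ * S2 := by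
          apply mul_le_mul_of_nonneg_left _ (by positivity)
          refine le_trans ?_ hT2
          apply Finset.sum_le_sum_of_subset_of_nonneg (Finset.filter_subset _ _)
          intro p _ _
          positivity
  -- second part
  let Cl : ℕ × ℕ → ℕ × ℕ → Prop := fun q p =>
    ((S.Bad ℓs s p.1 p.2).card : ℝ) ≤ C1 * (2 ^ q.2 : ℕ) ∧
      (((2 ^ q.2 : ℕ) : ℝ)) / ((ℓs * g ^ (R - q.1) : ℕ) : ℝ) ≤ s / ℓs ∧
      S.BsCl k (2 ^ q.2) (ℓs * g ^ (R - q.1)) (ℓs * g ^ (R - (q.1 + 1))) p.1 p.2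
  have hcls : ∀ q ∈ Finset.range R ×ˢ Finset.range (Nat.log 2 n + 1),
      ∑ p ∈ (S.Big τ).filter (Cl q), ((S.Bad ℓs s p.1 p.2).card : ℝ) ^ 2 ≤ C1 ^ 2 * M := by
    intro q hq
    have hq' := Finset.mem_product.1 hq
    exact S.bs_class hn k R g ℓs q.1 q.2 s τ θ hk hg hℓs hθ hs (Finset.mem_range.1 hq'.1) hsmall
      C1 hC10 _ (fun p hp => hBigI p (Finset.mem_filter.1 hp).1)
      (fun p hp => (Finset.mem_filter.1 hp).2)
  have hpart2 : ∑ p ∈ A2, ((S.Bad ℓs s p.1 p.2).card : ℝ) ^ 2 ≤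
      R * (Nat.log 2 n + 1) * (C1 ^ 2 * M) := by
    calc ∑ p ∈ A2, ((S.Bad ℓs s p.1 p.2).card : ℝ) ^ 2
        ≤ ∑ p ∈ A2, ∑ q ∈ Finset.range R ×ˢ Finset.range (Nat.log 2 n + 1),
          (if Cl q p then ((S.Bad ℓs s p.1 p.2).card : ℝ) ^ 2 else 0) := by
          apply Finset.sum_le_sum
          intro p hp
          have hp' := Finset.mem_filter.1 hp
          have hI := hBigI p hp'.1
          rcases S.bs_pair hn k R g ℓs s hk hg hℓs hlow hup hs hI.1 hI.2 with h | h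
          · exact absurd h hp'.2
          · obtain ⟨r, hr, e, he, h1, h2, h3⟩ := h
            have hmem : (r, e) ∈ Finset.range R ×ˢ Finset.range (Nat.log 2 n + 1) :=
              Finset.mem_product.2 ⟨Finset.mem_range.2 hr, Finset.mem_range.2 (by
                show e < Nat.log 2 n + 1
                omega)⟩
            have hcl : Cl (r, e) p := ⟨h1, h2, h3⟩
            have h4 := Finset.single_le_sum (f := fun q : ℕ × ℕ =>
              (if Cl q p then ((S.Bad ℓs s p.1 p.2).card : ℝ) ^ 2 else 0))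
              (fun q _ => by
                show (0 : ℝ) ≤ if Cl q p then ((S.Bad ℓs s p.1 p.2).card : ℝ) ^ 2 else 0
                split_ifs
                · positivity
                · exact le_refl _) hmem
            have h5 : (if Cl (r, e) p then ((S.Bad ℓs s p.1 p.2).card : ℝ) ^ 2 else 0) =
              ((S.Bad ℓs s p.1 p.2).card : ℝ) ^ 2 := if_pos hcl
            rw [h5] at h4
            exact h4
      _ = ∑ q ∈ Finset.range R ×ˢ Finset.range (Nat.log 2 n + 1),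
          ∑ p ∈ A2, (if Cl q p then ((S.Bad ℓs s p.1 p.2).card : ℝ) ^ 2 else 0) :=
          Finset.sum_comm
      _ ≤ ∑ q ∈ Finset.range R ×ˢ Finset.range (Nat.log 2 n + 1), C1 ^ 2 * M := by
          apply Finset.sum_le_sum
          intro q hq
          refine le_trans ?_ (hcls q hq)
          rw [← Finset.sum_filter]
          apply Finset.sum_le_sum_of_subset_of_nonneg
          · intro p hp
            have hp' := Finset.mem_filter.1 hp
            exact Finset.mem_filter.2 ⟨(Finset.mem_filter.1 hp'.1).1, hp'.2⟩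
          · intro p _ _
            positivity
      _ = _ := by
          rw [Finset.sum_const, Finset.card_product, Finset.card_range, Finset.card_range,
            nsmul_eq_mul]
          push_cast
          ring
  have hpart2' : ∑ p ∈ A2, ((S.Bad ℓs s p.1 p.2).card : ℝ) * ((S.T p.1 p.2).card : ℝ) ≤
      √(S2 * (R * (Nat.log 2 n + 1) * C1 ^ 2 * M)) := by
    apply Real.le_sqrt_of_sq_le
    have h1 := Finset.sum_mul_sq_le_sq_mul_sq A2
      (fun p => ((S.Bad ℓs s p.1 p.2).card : ℝ)) (fun p => ((S.T p.1 p.2).card : ℝ))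
    refine h1.trans ?_
    have h2 : ∑ p ∈ A2, ((S.T p.1 p.2).card : ℝ) ^ 2 ≤ S2 := by
      refine le_trans ?_ hT2
      apply Finset.sum_le_sum_of_subset_of_nonneg (Finset.filter_subset _ _)
      intro p _ _
      positivity
    calc (∑ p ∈ A2, ((S.Bad ℓs s p.1 p.2).card : ℝ) ^ 2) * ∑ p ∈ A2, ((S.T p.1 p.2).card : ℝ) ^ 2
        ≤ (R * (Nat.log 2 n + 1) * (C1 ^ 2 * M)) * S2 := by
          apply mul_le_mul hpart2 h2 (Finset.sum_nonneg (fun p _ => by positivity)) (by positivity)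
      _ = _ := by ring
  rw [← Finset.sum_filter_add_sum_filter_not (S.Big τ)
    (fun p => ((S.Bad ℓs s p.1 p.2).card : ℝ) ≤ c0)]
  have := add_le_add hpart1 hpart2'
  rw [add_comm] at this
  linarith

end Sys

end Pool.Agent.Hhelper71.LD43
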