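import Mathlib
import Pool.Agent.Hhelper71.LD43.Basic

/-!
# Distance labelings of cycles: definitions for the second part
-/

set_option linter.unusedSectionVars false
set_option linter.unusedVariables false

namespace Pool.Agent.Hhelper71.LD43

/-- parameters and the set of triples of the second part -/
structure EData (n : ℕ) (L : Type) [Fintype L] [DecidableEq L] where
  S : Sys n L
  𝒯 : Finset (L × L × L)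
  (τ1 τ2 τ3 τ4 ρ1 ρ2 ρ3 w0 Z : ℝ)
  hn : 1 ≤ n
  hτ1 : 0 < τ1
  hτ2 : 0 < τ2
  hτ3 : 0 < τ3
  hτ24 : τ2 ≤ τ4
  hρ1 : 0 ≤ ρ1
  hρ2 : 0 ≤ ρ2
  hρ3 : 0 ≤ ρ3
  hw0 : 0 ≤ w0
  hZ : 0 < Z
  hAc : ∀ t ∈ 𝒯, S.Ac t.1 t.2.1 t.2.2
  hW : ∀ t ∈ 𝒯, ((S.W t.1 t.1).card : ℝ) ≤ w0
  h1 : ∀ t ∈ 𝒯, (S.rc (S.al t.1 t.2.1 t.2.2) t.2.1 t.2.2 τ1 : ℝ) ≤ ρ1
  h3 : ∀ t ∈ 𝒯, (S.rc (S.al t.1 t.2.1 t.2.2) t.2.1 t.2.2 τ3 : ℝ) ≤ ρ3
  h2 : ∀ t ∈ 𝒯, (S.rc (S.al t.1 t.2.1 t.2.2) t.1 t.2.2 τ2 : ℝ) ≤ ρ2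

namespace EData

variable {n : ℕ} {L : Type} [Fintype L] [DecidableEq L] (E : EData n L)

/-- `(i, u, v, x)`: `(u, v, x) ∈ 𝒯` is acute on `C_a`, `i ≠ a` contains `v, x`, ... -/
def P1 (i : ℕ) (u v x : L) : Prop :=
  (u, v, x) ∈ E.𝒯 ∧ i ∈ E.S.W v x ∧ (E.S.rc i v x E.τ3 : ℝ) ≤ E.ρ3 ∧
    ((E.S.T i (E.S.al u v x)).card : ℝ) < E.τ1

/-- four acute triples -/
def P4 (i : ℕ) (u v v' x x' : L) : Prop :=
  E.P1 i u v x ∧ E.P1 i u v x' ∧ E.P1 i u v' x ∧ E.P1 i u v' x' ∧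
    E.S.al u v x + E.S.al u v' x' = E.S.al u v x' + E.S.al u v' x

/-- four acute triples in general position -/
def P5 (i : ℕ) (u v v' x x' : L) : Prop :=
  E.P4 i u v v' x x' ∧ E.Z ≤ E.S.dist x x' ∧
    ((E.S.T (E.S.al u v x) (E.S.al u v' x)).card : ℝ) < E.τ2 ∧
    ((E.S.T (E.S.al u v x') (E.S.al u v' x')).card : ℝ) < E.τ2 ∧
    ((E.S.T (E.S.al u v x) (E.S.al u v x')).card : ℝ) < E.τ4 ∧
    ((E.S.T (E.S.al u v' x) (E.S.al u v' x')).card : ℝ) < E.τ4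

open Classical in
/-- the set of `(i, u, v, x)` with `P1` -/
noncomputable def F1 : Finset (ℕ × L × L × L) :=
  (Iset n ×ˢ Finset.univ).filter (fun q => E.P1 q.1 q.2.1 q.2.2.1 q.2.2.2)

open Classical in
/-- the set of `(i, u, v, v', x, x')` with `P4` -/
noncomputable def F4 : Finset (ℕ × L × L × L × L × L) :=
  (Iset n ×ˢ Finset.univ).filter
    (fun q => E.P4 q.1 q.2.1 q.2.2.1 q.2.2.2.1 q.2.2.2.2.1 q.2.2.2.2.2)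

open Classical in
/-- the set of `(i, u, v, v', x, x')` with `P5` -/
noncomputable def F5 : Finset (ℕ × L × L × L × L × L) :=
  (Iset n ×ˢ Finset.univ).filter
    (fun q => E.P5 q.1 q.2.1 q.2.2.1 q.2.2.2.1 q.2.2.2.2.1 q.2.2.2.2.2)

end EData

end Pool.Agent.Hhelper71.LD43
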