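import Mathlib
import Pool.Agent.Hhelper71.LD43.EDefs

/-!
# Distance labelings of cycles: the discarded quadruples

`E.F4` is `E.F5` together with five sets of degenerate elements: `x, x'` near, two opposite words with
many common labels (two symmetric cases), two adjacent words with very many common labels (two
symmetric cases).  Each set is counted by choosing the labels and the words one after the other.
-/

set_option linter.unusedSectionVars false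
set_option linter.unusedVariables false

namespace Pool.Agent.Hhelper71.LD43

private theorem ed_sigma {α : Type*} {σ : α → Type*} (s : Finset α) (t : ∀ a, Finset (σ a))
    (B C : ℝ) (hB : 0 ≤ B) (hs : (s.card : ℝ) ≤ C) (h : ∀ a ∈ s, ((t a).card : ℝ) ≤ B) :
    ((s.sigma t).card : ℝ) ≤ C * B := by
  rw [Finset.card_sigma]
  push_cast
  calc ∑ a ∈ s, ((t a).card : ℝ) ≤ ∑ _a ∈ s, B := Finset.sum_le_sum h
    _ = s.card * B := by rw [Finset.sum_const, nsmul_eq_mul]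
    _ ≤ C * B := mul_le_mul_of_nonneg_right hs hB

private theorem ed_sigma_sum {α : Type*} {σ : α → Type*} (s : Finset α) (t : ∀ a, Finset (σ a))
    (g : α → ℝ) (h : ∀ a ∈ s, ((t a).card : ℝ) ≤ g a) :
    ((s.sigma t).card : ℝ) ≤ ∑ a ∈ s, g a := by
  rw [Finset.card_sigma]
  push_cast
  exact Finset.sum_le_sum h

namespace EData

variable {n : ℕ} {L : Type} [Fintype L] [DecidableEq L] (E : EData n L)

private theorem ed_P1 {i : ℕ} {u v x : L} (h : E.P1 i u v x) :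
    i ∈ Iset n ∧ v ∈ E.S.A i ∧ x ∈ E.S.A i ∧ E.S.al u v x ∈ Iset n ∧
      u ∈ E.S.A (E.S.al u v x) ∧ v ∈ E.S.A (E.S.al u v x) ∧ x ∈ E.S.A (E.S.al u v x) ∧
      ((E.S.T i (E.S.al u v x)).card : ℝ) < E.τ1 := by
  obtain ⟨h1, h2, _, h4⟩ := h
  have h5 := E.hAc _ h1
  rw [Sys.mem_W] at h2
  exact ⟨h2.1, h2.2.1, h2.2.2, h5.1, h5.2.1, h5.2.2.1, h5.2.2.2, h4⟩

private theorem ed_cI (E : EData n L) : ((Iset n).card : ℝ) ≤ n := by
  exact_mod_cast card_Iset_le E.hn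

private theorem ed_cA {i : ℕ} (hi : i ∈ Iset n) : ((E.S.A i).card : ℝ) ≤ n := by
  exact_mod_cast E.S.card_A_le hi

open Classical in
/-- the common labels of two words with few common labels -/
private noncomputable def ed_T (τ : ℝ) (a b : ℕ) : Finset L :=
  if ((E.S.T a b).card : ℝ) < τ then E.S.T a b else ∅

private theorem ed_T_card {τ : ℝ} (hτ : 0 ≤ τ) (a b : ℕ) : ((E.ed_T τ a b).card : ℝ) ≤ τ := by
  unfold ed_T
  split_ifs with h
  · exact h.le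
  · simpa using hτ

private theorem ed_T_mem {τ : ℝ} {a b : ℕ} {x : L} (h : ((E.S.T a b).card : ℝ) < τ)
    (ha : x ∈ E.S.A a) (hb : x ∈ E.S.A b) : x ∈ E.ed_T τ a b := by
  unfold ed_T
  rw [if_pos h, Sys.mem_T]
  exact ⟨ha, hb⟩

/-! ### near pairs -/

open Classical in
private theorem ed_near :
    ((E.F4.filter (fun q => (E.S.dist q.2.2.2.2.1 q.2.2.2.2.2 : ℝ) < E.Z)).card : ℝ) ≤
      Fintype.card L * n ^ 4 * (2 * E.Z + 1) := by
  let X : Finset (Σ _ : ℕ, Σ _ : L, Σ _ : L, Σ _ : L, Σ _ : L, L) :=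
    (Iset n).sigma (fun i => (Finset.univ : Finset L).sigma (fun _ => (E.S.A i).sigma (fun _ =>
      (E.S.A i).sigma (fun _ => (E.S.A i).sigma (fun x =>
        (E.S.A i).filter (fun y => (E.S.dist x y : ℝ) < E.Z))))))
  have h1 : (E.F4.filter (fun q => (E.S.dist q.2.2.2.2.1 q.2.2.2.2.2 : ℝ) < E.Z)).card
      ≤ X.card := by
    refine Finset.card_le_card_of_injOn
      (fun q => ⟨q.1, q.2.1, q.2.2.1, q.2.2.2.1, q.2.2.2.2.1, q.2.2.2.2.2⟩) ?_ ?_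
    · rintro ⟨i, u, v, v', x, x'⟩ hq
      have hq := Finset.mem_coe.1 hq
      rw [F4, Finset.mem_filter, Finset.mem_filter] at hq
      obtain ⟨⟨-, hP⟩, hz⟩ := hq
      obtain ⟨p1, p2, p3, p4, -⟩ := hP
      have e1 := E.ed_P1 p1
      have e2 := E.ed_P1 p2
      have e3 := E.ed_P1 p3
      refine Finset.mem_coe.2 ?_
      simp only [X, Finset.mem_sigma, Finset.mem_univ, Finset.mem_filter, true_and]
      exact ⟨e1.1, e1.2.1, e3.2.1, e1.2.2.1, e2.2.2.1, hz⟩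
    · rintro ⟨i, u, v, v', x, x'⟩ _ ⟨i2, u2, v2, v2', x2, x2'⟩ _ h
      simp only [Sigma.mk.injEq, heq_eq_eq] at h
      obtain ⟨rfl, rfl, rfl, rfl, rfl, rfl⟩ := h
      rfl
  have hZ := E.hZ
  have h2 : (X.card : ℝ) ≤ n * (Fintype.card L * (n * (n * (n * (2 * E.Z + 1))))) := by
    apply ed_sigma _ _ _ _ (by positivity) E.ed_cI
    intro i hi
    apply ed_sigma _ _ _ _ (by positivity) (by rw [Finset.card_univ])
    intro u _
    apply ed_sigma _ _ _ _ (by positivity) (E.ed_cA hi)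
    intro v _
    apply ed_sigma _ _ _ _ (by positivity) (E.ed_cA hi)
    intro v' _
    apply ed_sigma _ _ _ _ (by positivity) (E.ed_cA hi)
    intro x hx
    exact E.S.near_card_real hi hx hZ.le
  calc _ ≤ (X.card : ℝ) := by exact_mod_cast h1
    _ ≤ _ := h2
    _ = _ := by ring

/-! ### opposite words -/

open Classical in
/-- the words rich with respect to an acute word -/
private noncomputable def ed_R (a : ℕ) (u x : L) : Finset ℕ :=
  if ∃ v, (u, v, x) ∈ E.𝒯 ∧ E.S.al u v x = a then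
    (E.S.W u x).filter (fun c => E.τ2 ≤ ((E.S.T a c).card : ℝ)) else ∅

private theorem ed_R_card (a : ℕ) (u x : L) : ((E.ed_R a u x).card : ℝ) ≤ E.ρ2 := by
  unfold ed_R
  split_ifs with h
  · obtain ⟨v, hv, ha⟩ := h
    have := E.h2 _ hv
    simp only [ha] at this
    exact this
  · simpa using E.hρ2

open Classical in
private theorem ed_ac (S1 : ℝ)
    (hS1 : ∑ a ∈ Iset n, ∑ b ∈ Iset n, ((E.S.T a b).card : ℝ) ≤ S1) :
    ((E.F4.filter (fun q => E.τ2 ≤ ((E.S.T (E.S.al q.2.1 q.2.2.1 q.2.2.2.2.1)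
      (E.S.al q.2.1 q.2.2.2.1 q.2.2.2.2.1)).card : ℝ))).card : ℝ) ≤
      n ^ 2 * E.ρ2 * E.τ1 ^ 2 * S1 := by
  let X : Finset (Σ _ : ℕ, Σ _ : L, Σ _ : L, Σ _ : ℕ, Σ _ : ℕ, Σ _ : L, Σ _ : L, L) :=
    (Iset n).sigma (fun a => (E.S.A a).sigma (fun x => (E.S.A a).sigma (fun u =>
      (E.ed_R a u x).sigma (fun c => (E.S.W x x).sigma (fun i =>
        (E.ed_T E.τ1 i a).sigma (fun _ => (E.ed_T E.τ1 i c).sigma (fun _ => E.S.A i)))))))
  have h1 : (E.F4.filter (fun q => E.τ2 ≤ ((E.S.T (E.S.al q.2.1 q.2.2.1 q.2.2.2.2.1)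
      (E.S.al q.2.1 q.2.2.2.1 q.2.2.2.2.1)).card : ℝ))).card ≤ X.card := by
    refine Finset.card_le_card_of_injOn
      (fun q => ⟨E.S.al q.2.1 q.2.2.1 q.2.2.2.2.1, q.2.2.2.2.1, q.2.1,
        E.S.al q.2.1 q.2.2.2.1 q.2.2.2.2.1, q.1, q.2.2.1, q.2.2.2.1, q.2.2.2.2.2⟩) ?_ ?_
    · rintro ⟨i, u, v, v', x, x'⟩ hq
      have hq := Finset.mem_coe.1 hq
      rw [F4, Finset.mem_filter, Finset.mem_filter] at hq
      obtain ⟨⟨-, hP⟩, hz⟩ := hq
      obtain ⟨p1, p2, p3, p4, -⟩ := hP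
      have e1 := E.ed_P1 p1
      have e2 := E.ed_P1 p2
      have e3 := E.ed_P1 p3
      refine Finset.mem_coe.2 ?_
      simp only [X, Finset.mem_sigma]
      refine ⟨e1.2.2.2.1, e1.2.2.2.2.2.2.1, e1.2.2.2.2.1, ?_, ?_, ?_, ?_, e2.2.2.1⟩
      · unfold ed_R
        rw [if_pos ⟨v, p1.1, rfl⟩, Finset.mem_filter, Sys.mem_W]
        exact ⟨⟨e3.2.2.2.1, e3.2.2.2.2.1, e3.2.2.2.2.2.2.1⟩, hz⟩
      · rw [Sys.mem_W]
        exact ⟨e1.1, e1.2.2.1, e1.2.2.1⟩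
      · exact E.ed_T_mem e1.2.2.2.2.2.2.2 e1.2.1 e1.2.2.2.2.2.1
      · exact E.ed_T_mem e3.2.2.2.2.2.2.2 e3.2.1 e3.2.2.2.2.2.1
    · rintro ⟨i, u, v, v', x, x'⟩ _ ⟨i2, u2, v2, v2', x2, x2'⟩ _ h
      simp only [Sigma.mk.injEq, heq_eq_eq] at h
      obtain ⟨-, rfl, rfl, -, rfl, rfl, rfl, rfl⟩ := h
      rfl
  have t1 := E.hτ1
  have r2 := E.hρ2
  have h2 : (X.card : ℝ) ≤ ∑ a ∈ Iset n, ∑ x ∈ E.S.A a,
      n * (E.ρ2 * (((E.S.W x x).card : ℝ) * (E.τ1 * (E.τ1 * n)))) := by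
    apply ed_sigma_sum
    intro a ha
    apply ed_sigma_sum
    intro x _
    apply ed_sigma _ _ _ _ (by positivity) (E.ed_cA ha)
    intro u _
    apply ed_sigma _ _ _ _ (by positivity) (E.ed_R_card a u x)
    intro c _
    apply ed_sigma _ _ _ _ (by positivity) le_rfl
    intro i hi
    rw [Sys.mem_W] at hi
    apply ed_sigma _ _ _ _ (by positivity) (E.ed_T_card t1.le i a)
    intro v _
    apply ed_sigma _ _ _ _ (by positivity) (E.ed_T_card t1.le i c)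
    intro v' _
    exact E.ed_cA hi.1
  have h3 : ∑ a ∈ Iset n, ∑ x ∈ E.S.A a, ((E.S.W x x).card : ℝ)
      = ∑ a ∈ Iset n, ∑ b ∈ Iset n, ((E.S.T a b).card : ℝ) := by
    apply Finset.sum_congr rfl
    intro a _
    have e1 : ∀ x, (E.S.W x x) = (Iset n).filter (fun b => x ∈ E.S.A b) := by
      intro x
      ext b
      rw [Sys.mem_W, Finset.mem_filter]
      tauto
    have e2 : ∀ b, (E.S.T a b) = (E.S.A a).filter (fun x => x ∈ E.S.A b) := by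
      intro b
      ext x
      rw [Sys.mem_T, Finset.mem_filter]
    simp only [e1, e2]
    have := sum_card_filter_comm (E.S.A a) (Iset n) (fun x b => x ∈ E.S.A b)
    exact_mod_cast this
  have h4 : ∑ a ∈ Iset n, ∑ x ∈ E.S.A a,
      (n : ℝ) * (E.ρ2 * (((E.S.W x x).card : ℝ) * (E.τ1 * (E.τ1 * n))))
      = n ^ 2 * E.ρ2 * E.τ1 ^ 2 * ∑ a ∈ Iset n, ∑ x ∈ E.S.A a, ((E.S.W x x).card : ℝ) := by
    rw [Finset.mul_sum]
    apply Finset.sum_congr rfl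
    intro a _
    rw [Finset.mul_sum]
    apply Finset.sum_congr rfl
    intro x _
    ring
  calc _ ≤ (X.card : ℝ) := by exact_mod_cast h1
    _ ≤ _ := h2
    _ = _ := h4
    _ ≤ _ := by
      rw [h3]
      exact mul_le_mul_of_nonneg_left hS1 (by positivity)

/-! ### adjacent words -/

open Classical in
private noncomputable def ed_W (u : L) : Finset ℕ :=
  if ((E.S.W u u).card : ℝ) ≤ E.w0 then E.S.W u u else ∅

private theorem ed_W_card (u : L) : ((E.ed_W u).card : ℝ) ≤ E.w0 := by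
  unfold ed_W
  split_ifs with h
  · exact h
  · simpa using E.hw0

open Classical in
private noncomputable def ed_V (x x' : L) : Finset ℕ :=
  if E.Z ≤ E.S.dist x x' then E.S.W x x' else ∅

private theorem ed_V_card (x x' : L) : ((E.ed_V x x').card : ℝ) ≤ Fintype.card L / E.Z := by
  have hZ := E.hZ
  unfold ed_V
  split_ifs with h
  · exact E.S.card_W_le hZ h
  · simp only [Finset.card_empty, Nat.cast_zero]
    positivity

open Classical in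
private theorem ed_ab (S2 : ℝ)
    (hS2 : ∑ a ∈ Iset n, ∑ b ∈ Iset n, ((E.S.T a b).card : ℝ) ^ 2 ≤ S2) :
    ((E.F4.filter (fun q => E.τ4 ≤ ((E.S.T (E.S.al q.2.1 q.2.2.1 q.2.2.2.2.1)
      (E.S.al q.2.1 q.2.2.1 q.2.2.2.2.2)).card : ℝ) ∧
      E.Z ≤ (E.S.dist q.2.2.2.2.1 q.2.2.2.2.2 : ℝ) ∧
      ((E.S.T (E.S.al q.2.1 q.2.2.1 q.2.2.2.2.1)
        (E.S.al q.2.1 q.2.2.2.1 q.2.2.2.2.1)).card : ℝ) < E.τ2 ∧
      ((E.S.T (E.S.al q.2.1 q.2.2.1 q.2.2.2.2.2)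
        (E.S.al q.2.1 q.2.2.2.1 q.2.2.2.2.2)).card : ℝ) < E.τ2)).card : ℝ) ≤
      S2 / E.τ4 * E.w0 * E.τ2 ^ 2 * (Fintype.card L / E.Z) * E.τ1 ^ 2 := by
  let X : Finset (Σ _ : ℕ, Σ _ : ℕ, Σ _ : L, Σ _ : ℕ, Σ _ : L, Σ _ : L, Σ _ : ℕ, Σ _ : L, L) :=
    (Iset n).sigma (fun a =>
      ((Iset n).filter (fun b => E.τ4 ≤ ((E.S.T a b).card : ℝ))).sigma (fun b =>
      (E.S.T a b).sigma (fun u => (E.ed_W u).sigma (fun c =>
        (E.ed_T E.τ2 a c).sigma (fun x => (E.ed_T E.τ2 b (b + c - a)).sigma (fun x' =>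
          (E.ed_V x x').sigma (fun i => (E.ed_T E.τ1 i a).sigma (fun _ =>
            E.ed_T E.τ1 i c))))))))
  have h1 : (E.F4.filter (fun q => E.τ4 ≤ ((E.S.T (E.S.al q.2.1 q.2.2.1 q.2.2.2.2.1)
      (E.S.al q.2.1 q.2.2.1 q.2.2.2.2.2)).card : ℝ) ∧
      E.Z ≤ (E.S.dist q.2.2.2.2.1 q.2.2.2.2.2 : ℝ) ∧
      ((E.S.T (E.S.al q.2.1 q.2.2.1 q.2.2.2.2.1)
        (E.S.al q.2.1 q.2.2.2.1 q.2.2.2.2.1)).card : ℝ) < E.τ2 ∧
      ((E.S.T (E.S.al q.2.1 q.2.2.1 q.2.2.2.2.2)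
        (E.S.al q.2.1 q.2.2.2.1 q.2.2.2.2.2)).card : ℝ) < E.τ2)).card ≤ X.card := by
    refine Finset.card_le_card_of_injOn
      (fun q => ⟨E.S.al q.2.1 q.2.2.1 q.2.2.2.2.1, E.S.al q.2.1 q.2.2.1 q.2.2.2.2.2, q.2.1,
        E.S.al q.2.1 q.2.2.2.1 q.2.2.2.2.1, q.2.2.2.2.1, q.2.2.2.2.2, q.1, q.2.2.1,
        q.2.2.2.1⟩) ?_ ?_
    · rintro ⟨i, u, v, v', x, x'⟩ hq
      have hq := Finset.mem_coe.1 hq
      rw [F4, Finset.mem_filter, Finset.mem_filter] at hq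
      obtain ⟨⟨-, hP⟩, hz1, hz2, hz3, hz4⟩ := hq
      obtain ⟨p1, p2, p3, p4, hab⟩ := hP
      simp only at hz1 hz2 hz3 hz4 hab
      have e1 := E.ed_P1 p1
      have e2 := E.ed_P1 p2
      have e3 := E.ed_P1 p3
      have e4 := E.ed_P1 p4
      have hd : E.S.al u v x' + E.S.al u v' x - E.S.al u v x = E.S.al u v' x' := by omega
      refine Finset.mem_coe.2 ?_
      simp only [X, Finset.mem_sigma]
      refine ⟨e1.2.2.2.1, ?_, ?_, ?_, ?_, ?_, ?_, ?_, ?_⟩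
      · rw [Finset.mem_filter]
        exact ⟨e2.2.2.2.1, hz1⟩
      · rw [Sys.mem_T]
        exact ⟨e1.2.2.2.2.1, e2.2.2.2.2.1⟩
      · unfold ed_W
        rw [if_pos (E.hW _ p1.1), Sys.mem_W]
        exact ⟨e3.2.2.2.1, e3.2.2.2.2.1, e3.2.2.2.2.1⟩
      · exact E.ed_T_mem hz3 e1.2.2.2.2.2.2.1 e3.2.2.2.2.2.2.1
      · rw [hd]
        exact E.ed_T_mem hz4 e2.2.2.2.2.2.2.1 e4.2.2.2.2.2.2.1
      · unfold ed_V
        rw [if_pos hz2, Sys.mem_W]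
        exact ⟨e1.1, e1.2.2.1, e2.2.2.1⟩
      · exact E.ed_T_mem e1.2.2.2.2.2.2.2 e1.2.1 e1.2.2.2.2.2.1
      · exact E.ed_T_mem e3.2.2.2.2.2.2.2 e3.2.1 e3.2.2.2.2.2.1
    · rintro ⟨i, u, v, v', x, x'⟩ _ ⟨i2, u2, v2, v2', x2, x2'⟩ _ h
      simp only [Sigma.mk.injEq, heq_eq_eq] at h
      obtain ⟨-, -, rfl, -, rfl, rfl, rfl, rfl, rfl⟩ := h
      rfl
  have t1 := E.hτ1
  have t2 := E.hτ2
  have t4 : 0 < E.τ4 := lt_of_lt_of_le t2 E.hτ24
  have hZ := E.hZ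
  have hw := E.hw0
  obtain ⟨B, hB⟩ : ∃ B : ℝ, B = E.w0 * (E.τ2 * (E.τ2 * ((Fintype.card L / E.Z) *
    (E.τ1 * E.τ1)))) := ⟨_, rfl⟩
  have hB0 : 0 ≤ B := by rw [hB]; positivity
  have h2 : (X.card : ℝ) ≤ ∑ a ∈ Iset n,
      ∑ b ∈ (Iset n).filter (fun b => E.τ4 ≤ ((E.S.T a b).card : ℝ)),
        ((E.S.T a b).card : ℝ) * B := by
    apply ed_sigma_sum
    intro a ha
    apply ed_sigma_sum
    intro b _
    apply ed_sigma _ _ _ _ hB0 le_rfl
    intro u _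
    rw [hB]
    apply ed_sigma _ _ _ _ (by positivity) (E.ed_W_card u)
    intro c _
    apply ed_sigma _ _ _ _ (by positivity) (E.ed_T_card t2.le _ _)
    intro x _
    apply ed_sigma _ _ _ _ (by positivity) (E.ed_T_card t2.le _ _)
    intro x' _
    apply ed_sigma _ _ _ _ (by positivity) (E.ed_V_card x x')
    intro i _
    apply ed_sigma _ _ _ _ (by positivity) (E.ed_T_card t1.le _ _)
    intro v _
    exact E.ed_T_card t1.le _ _
  have h3 : ∑ a ∈ Iset n, ∑ b ∈ (Iset n).filter (fun b => E.τ4 ≤ ((E.S.T a b).card : ℝ)),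
        ((E.S.T a b).card : ℝ) * B ≤ S2 / E.τ4 * B := by
    calc _ ≤ ∑ a ∈ Iset n, ∑ b ∈ (Iset n).filter (fun b => E.τ4 ≤ ((E.S.T a b).card : ℝ)),
        ((E.S.T a b).card : ℝ) ^ 2 * (B / E.τ4) := by
          apply Finset.sum_le_sum
          intro a _
          apply Finset.sum_le_sum
          intro b hb
          rw [Finset.mem_filter] at hb
          have hT : (0 : ℝ) ≤ (E.S.T a b).card := Nat.cast_nonneg _
          have : ((E.S.T a b).card : ℝ) * B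
              = (((E.S.T a b).card : ℝ) * E.τ4) * (B / E.τ4) := by
            field_simp
          rw [this, sq]
          apply mul_le_mul_of_nonneg_right _ (by positivity)
          exact mul_le_mul_of_nonneg_left hb.2 hT
      _ ≤ ∑ a ∈ Iset n, ∑ b ∈ Iset n, ((E.S.T a b).card : ℝ) ^ 2 * (B / E.τ4) := by
          apply Finset.sum_le_sum
          intro a _
          apply Finset.sum_le_sum_of_subset_of_nonneg (Finset.filter_subset _ _)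
          intro b _ _
          positivity
      _ = (∑ a ∈ Iset n, ∑ b ∈ Iset n, ((E.S.T a b).card : ℝ) ^ 2) * (B / E.τ4) := by
          rw [Finset.sum_mul]
          apply Finset.sum_congr rfl
          intro a _
          rw [Finset.sum_mul]
      _ ≤ S2 * (B / E.τ4) := mul_le_mul_of_nonneg_right hS2 (by positivity)
      _ = _ := by ring
  calc _ ≤ (X.card : ℝ) := by exact_mod_cast h1
    _ ≤ _ := h2
    _ ≤ _ := h3
    _ = _ := by rw [hB]; ring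

/-! ### symmetries -/

private theorem ed_swapx {i : ℕ} {u v v' x x' : L} (h : E.P4 i u v v' x x') :
    E.P4 i u v v' x' x := by
  obtain ⟨p1, p2, p3, p4, h5⟩ := h
  exact ⟨p2, p1, p4, p3, by omega⟩

private theorem ed_swapv {i : ℕ} {u v v' x x' : L} (h : E.P4 i u v v' x x') :
    E.P4 i u v' v x x' := by
  obtain ⟨p1, p2, p3, p4, h5⟩ := h
  exact ⟨p3, p4, p1, p2, by omega⟩

theorem F4_le (S1 S2 : ℝ)
    (hS1 : ∑ a ∈ Iset n, ∑ b ∈ Iset n, ((E.S.T a b).card : ℝ) ≤ S1)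
    (hS2 : ∑ a ∈ Iset n, ∑ b ∈ Iset n, ((E.S.T a b).card : ℝ) ^ 2 ≤ S2) :
    (E.F4.card : ℝ) ≤ E.F5.card + Fintype.card L * n ^ 4 * (2 * E.Z + 1) +
      2 * (n ^ 2 * E.ρ2 * E.τ1 ^ 2 * S1) +
      2 * (S2 / E.τ4 * E.w0 * E.τ2 ^ 2 * (Fintype.card L / E.Z) * E.τ1 ^ 2) := by
  classical
  let N1 := E.F4.filter (fun q => (E.S.dist q.2.2.2.2.1 q.2.2.2.2.2 : ℝ) < E.Z)
  let N2 := E.F4.filter (fun q => E.τ2 ≤ ((E.S.T (E.S.al q.2.1 q.2.2.1 q.2.2.2.2.1)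
      (E.S.al q.2.1 q.2.2.2.1 q.2.2.2.2.1)).card : ℝ))
  let N3 := E.F4.filter (fun q => E.τ2 ≤ ((E.S.T (E.S.al q.2.1 q.2.2.1 q.2.2.2.2.2)
      (E.S.al q.2.1 q.2.2.2.1 q.2.2.2.2.2)).card : ℝ))
  let N4 := E.F4.filter (fun q => E.τ4 ≤ ((E.S.T (E.S.al q.2.1 q.2.2.1 q.2.2.2.2.1)
      (E.S.al q.2.1 q.2.2.1 q.2.2.2.2.2)).card : ℝ) ∧
      E.Z ≤ (E.S.dist q.2.2.2.2.1 q.2.2.2.2.2 : ℝ) ∧
      ((E.S.T (E.S.al q.2.1 q.2.2.1 q.2.2.2.2.1)
        (E.S.al q.2.1 q.2.2.2.1 q.2.2.2.2.1)).card : ℝ) < E.τ2 ∧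
      ((E.S.T (E.S.al q.2.1 q.2.2.1 q.2.2.2.2.2)
        (E.S.al q.2.1 q.2.2.2.1 q.2.2.2.2.2)).card : ℝ) < E.τ2)
  let N5 := E.F4.filter (fun q => E.τ4 ≤ ((E.S.T (E.S.al q.2.1 q.2.2.2.1 q.2.2.2.2.1)
      (E.S.al q.2.1 q.2.2.2.1 q.2.2.2.2.2)).card : ℝ) ∧
      E.Z ≤ (E.S.dist q.2.2.2.2.1 q.2.2.2.2.2 : ℝ) ∧
      ((E.S.T (E.S.al q.2.1 q.2.2.1 q.2.2.2.2.1)
        (E.S.al q.2.1 q.2.2.2.1 q.2.2.2.2.1)).card : ℝ) < E.τ2 ∧
      ((E.S.T (E.S.al q.2.1 q.2.2.1 q.2.2.2.2.2)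
        (E.S.al q.2.1 q.2.2.2.1 q.2.2.2.2.2)).card : ℝ) < E.τ2)
  have hsub : E.F4 ⊆ E.F5 ∪ (N1 ∪ ((N2 ∪ N3) ∪ (N4 ∪ N5))) := by
    rintro ⟨i, u, v, v', x, x'⟩ hq
    simp only [Finset.mem_union, N1, N2, N3, N4, N5, Finset.mem_filter, hq, true_and]
    by_cases c1 : (E.S.dist x x' : ℝ) < E.Z
    · exact Or.inr (Or.inl c1)
    by_cases c2 : E.τ2 ≤ ((E.S.T (E.S.al u v x) (E.S.al u v' x)).card : ℝ)
    · exact Or.inr (Or.inr (Or.inl (Or.inl c2)))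
    by_cases c3 : E.τ2 ≤ ((E.S.T (E.S.al u v x') (E.S.al u v' x')).card : ℝ)
    · exact Or.inr (Or.inr (Or.inl (Or.inr c3)))
    push Not at c1 c2 c3
    by_cases c4 : E.τ4 ≤ ((E.S.T (E.S.al u v x) (E.S.al u v x')).card : ℝ)
    · exact Or.inr (Or.inr (Or.inr (Or.inl ⟨c4, c1, c2, c3⟩)))
    by_cases c5 : E.τ4 ≤ ((E.S.T (E.S.al u v' x) (E.S.al u v' x')).card : ℝ)
    · exact Or.inr (Or.inr (Or.inr (Or.inr ⟨c5, c1, c2, c3⟩)))
    push Not at c4 c5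
    left
    rw [F4, Finset.mem_filter] at hq
    rw [F5, Finset.mem_filter]
    exact ⟨hq.1, hq.2, c1, c2, c3, c4, c5⟩
  have k1 : (N1.card : ℝ) ≤ Fintype.card L * n ^ 4 * (2 * E.Z + 1) := E.ed_near
  have k2 : (N2.card : ℝ) ≤ n ^ 2 * E.ρ2 * E.τ1 ^ 2 * S1 := E.ed_ac S1 hS1
  have k4 : (N4.card : ℝ) ≤ S2 / E.τ4 * E.w0 * E.τ2 ^ 2 * (Fintype.card L / E.Z) * E.τ1 ^ 2 :=
    E.ed_ab S2 hS2
  have k3 : N3.card ≤ N2.card := by
    refine Finset.card_le_card_of_injOn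
      (fun q => (q.1, q.2.1, q.2.2.1, q.2.2.2.1, q.2.2.2.2.2, q.2.2.2.2.1)) ?_ ?_
    · rintro ⟨i, u, v, v', x, x'⟩ hq
      have hq := Finset.mem_coe.1 hq
      simp only [N3, N2, F4, Finset.mem_filter, Finset.mem_product, Finset.mem_univ,
        Finset.coe_filter, Set.mem_ofPred_eq] at hq ⊢
      exact ⟨⟨hq.1.1, E.ed_swapx hq.1.2⟩, hq.2⟩
    · rintro ⟨i, u, v, v', x, x'⟩ _ ⟨i2, u2, v2, v2', x2, x2'⟩ _ h
      simp only [Prod.mk.injEq] at h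
      obtain ⟨rfl, rfl, rfl, rfl, rfl, rfl⟩ := h
      rfl
  have k5 : N5.card ≤ N4.card := by
    refine Finset.card_le_card_of_injOn
      (fun q => (q.1, q.2.1, q.2.2.2.1, q.2.2.1, q.2.2.2.2.1, q.2.2.2.2.2)) ?_ ?_
    · rintro ⟨i, u, v, v', x, x'⟩ hq
      have hq := Finset.mem_coe.1 hq
      simp only [N5, N4, F4, Finset.mem_filter, Finset.mem_product, Finset.mem_univ,
        Finset.coe_filter, Set.mem_ofPred_eq] at hq ⊢
      refine ⟨⟨hq.1.1, E.ed_swapv hq.1.2⟩, hq.2.1, hq.2.2.1, ?_, ?_⟩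
      · rw [Sys.T_comm]
        exact hq.2.2.2.1
      · rw [Sys.T_comm]
        exact hq.2.2.2.2
    · rintro ⟨i, u, v, v', x, x'⟩ _ ⟨i2, u2, v2, v2', x2, x2'⟩ _ h
      simp only [Prod.mk.injEq] at h
      obtain ⟨rfl, rfl, rfl, rfl, rfl, rfl⟩ := h
      rfl
  have k6 : E.F4.card ≤ E.F5.card + (N1.card + ((N2.card + N3.card) + (N4.card + N5.card))) := by
    refine (Finset.card_le_card hsub).trans ?_
    refine (Finset.card_union_le _ _).trans (Nat.add_le_add_left ?_ _)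
    refine (Finset.card_union_le _ _).trans (Nat.add_le_add_left ?_ _)
    refine (Finset.card_union_le _ _).trans ?_
    exact Nat.add_le_add (Finset.card_union_le _ _) (Finset.card_union_le _ _)
  have k7 : (E.F4.card : ℝ) ≤ E.F5.card +
      (N1.card + ((N2.card + N2.card) + (N4.card + N4.card))) := by
    have : E.F4.card ≤ E.F5.card +
      (N1.card + ((N2.card + N2.card) + (N4.card + N4.card))) := by omega
    exact_mod_cast this
  linarith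

end EData

end Pool.Agent.Hhelper71.LD43
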