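import Mathlib
import Pool.Agent.Hhelper71.LD43.Basic
import Pool.Agent.Hhelper71.LD43.EDefs

/-!
# Distance labelings of cycles: the last count of the second part
-/

set_option linter.unusedSectionVars false
set_option linter.unusedVariables false

namespace Pool.Agent.Hhelper71.LD43

namespace EData

variable {n : ℕ} {L : Type} [Fintype L] [DecidableEq L] (E : EData n L)

private theorem ev_P1 {i : ℕ} {u v x : L} (h : E.P1 i u v x) :
    (E.S.al u v x ∈ Iset n ∧ u ∈ E.S.A (E.S.al u v x) ∧ v ∈ E.S.A (E.S.al u v x) ∧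
      x ∈ E.S.A (E.S.al u v x)) ∧ (i ∈ Iset n ∧ v ∈ E.S.A i ∧ x ∈ E.S.A i) ∧
      ((E.S.W u u).card : ℝ) ≤ E.w0 ∧ (E.S.rc i v x E.τ3 : ℝ) ≤ E.ρ3 := by
  obtain ⟨h1, h2, h3, h4⟩ := h
  exact ⟨E.hAc _ h1, E.S.mem_W.1 h2, E.hW _ h1, h3⟩

private theorem ev_mem {q : ℕ × L × L × L × L × L} (h : q ∈ E.F5) :
    E.P5 q.1 q.2.1 q.2.2.1 q.2.2.2.1 q.2.2.2.2.1 q.2.2.2.2.2 := by
  classical
  simp only [F5, Finset.mem_filter] at h
  exact h.2

private theorem ev_tau4 : 0 < E.τ4 := E.hτ2.trans_le E.hτ24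

private theorem ev_keys :
    ((E.F5.image Prod.snd).card : ℝ) ≤ Fintype.card L * E.w0 ^ 3 * E.τ4 ^ 4 := by
  classical
  let t2 : Finset (Σ _ : L, ℕ × ℕ × ℕ) :=
    (Finset.univ.filter (fun u => ((E.S.W u u).card : ℝ) ≤ E.w0)).sigma
      (fun u => E.S.W u u ×ˢ E.S.W u u ×ˢ E.S.W u u)
  let g : L × L × L × L × L → Σ _ : L, ℕ × ℕ × ℕ := fun k =>
    ⟨k.1, (E.S.al k.1 k.2.1 k.2.2.2.1, E.S.al k.1 k.2.1 k.2.2.2.2, E.S.al k.1 k.2.2.1 k.2.2.2.1)⟩
  have ht2 : (t2.card : ℝ) ≤ Fintype.card L * E.w0 ^ 3 := by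
    have h1 : (t2.card : ℝ) = ∑ u ∈ Finset.univ.filter (fun u => ((E.S.W u u).card : ℝ) ≤ E.w0),
        ((E.S.W u u).card : ℝ) ^ 3 := by
      rw [Finset.card_sigma]
      push_cast
      refine Finset.sum_congr rfl fun u _ => ?_
      rw [Finset.card_product, Finset.card_product]
      push_cast
      ring
    rw [h1]
    calc _ ≤ ∑ u ∈ Finset.univ.filter (fun u => ((E.S.W u u).card : ℝ) ≤ E.w0), E.w0 ^ 3 := by
          refine Finset.sum_le_sum fun u hu => ?_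
          exact pow_le_pow_left₀ (Nat.cast_nonneg _) (Finset.mem_filter.1 hu).2 3
      _ ≤ ∑ _u : L, E.w0 ^ 3 := by
          refine Finset.sum_le_sum_of_subset_of_nonneg (Finset.filter_subset _ _) fun _ _ _ => ?_
          exact pow_nonneg E.hw0 3
      _ = _ := by
          rw [Finset.sum_const, nsmul_eq_mul, Finset.card_univ]
  have key := card_le_of_fibres (E.F5.image Prod.snd) t2 g (E.τ4 ^ 4) ?_ ?_
  · calc _ ≤ E.τ4 ^ 4 * t2.card := key
      _ ≤ E.τ4 ^ 4 * (Fintype.card L * E.w0 ^ 3) :=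
          mul_le_mul_of_nonneg_left ht2 (pow_nonneg (E.ev_tau4).le 4)
      _ = _ := by ring
  · intro k hk
    obtain ⟨q, hq, rfl⟩ := Finset.mem_image.1 hk
    obtain ⟨⟨h1, h2, h3, h4, h5⟩, _⟩ := E.ev_mem hq
    have a1 := E.ev_P1 h1
    have a2 := E.ev_P1 h2
    have a3 := E.ev_P1 h3
    simp only [t2, g, Finset.mem_sigma, Finset.mem_filter, Finset.mem_univ, true_and,
      Finset.mem_product, E.S.mem_W]
    exact ⟨a1.2.2.1, ⟨a1.1.1, a1.1.2.1, a1.1.2.1⟩, ⟨a2.1.1, a2.1.2.1, a2.1.2.1⟩,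
      ⟨a3.1.1, a3.1.2.1, a3.1.2.1⟩⟩
  · rintro ⟨u, a, b, c⟩ _
    rcases Finset.eq_empty_or_nonempty
      ((E.F5.image Prod.snd).filter (fun k => g k = ⟨u, (a, b, c)⟩)) with h0 | ⟨k0, hk0⟩
    · rw [h0]
      simp only [Finset.card_empty, Nat.cast_zero]
      exact pow_nonneg (E.ev_tau4).le 4
    · -- all members
      have hmem : ∀ k ∈ (E.F5.image Prod.snd).filter (fun k => g k = ⟨u, (a, b, c)⟩),
          k.1 = u ∧ k.2 ∈ E.S.T a b ×ˢ E.S.T c (b + c - a) ×ˢ E.S.T a c ×ˢ E.S.T b (b + c - a) ∧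
          ((E.S.T a b).card : ℝ) ≤ E.τ4 ∧ ((E.S.T c (b + c - a)).card : ℝ) ≤ E.τ4 ∧
          ((E.S.T a c).card : ℝ) ≤ E.τ4 ∧ ((E.S.T b (b + c - a)).card : ℝ) ≤ E.τ4 := by
        intro k hk
        obtain ⟨hk1, hk2⟩ := Finset.mem_filter.1 hk
        obtain ⟨q, hq, rfl⟩ := Finset.mem_image.1 hk1
        obtain ⟨⟨h1, h2, h3, h4, h5⟩, _, h6, h7, h8, h9⟩ := E.ev_mem hq
        obtain ⟨i, u', v, v', x, x'⟩ := q
        simp only at h1 h2 h3 h4 h5 h6 h7 h8 h9
        have a1 := (E.ev_P1 h1).1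
        have a2 := (E.ev_P1 h2).1
        have a3 := (E.ev_P1 h3).1
        have a4 := (E.ev_P1 h4).1
        simp only [g, Sigma.mk.injEq, heq_eq_eq, Prod.mk.injEq] at hk2
        obtain ⟨rfl, rfl, rfl, rfl⟩ := hk2
        have hd : E.S.al u' v x' + E.S.al u' v' x - E.S.al u' v x = E.S.al u' v' x' := by omega
        rw [hd]
        refine ⟨rfl, ?_, h8.le, h9.le, h6.le.trans E.hτ24, h7.le.trans E.hτ24⟩
        simp only [Finset.mem_product, E.S.mem_T]
        exact ⟨⟨a1.2.2.1, a2.2.2.1⟩, ⟨a3.2.2.1, a4.2.2.1⟩, ⟨a1.2.2.2, a3.2.2.2⟩,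
          ⟨a2.2.2.2, a4.2.2.2⟩⟩
      obtain ⟨_, _, b1, b2, b3, b4⟩ := hmem k0 hk0
      have hcard : ((E.F5.image Prod.snd).filter (fun k => g k = ⟨u, (a, b, c)⟩)).card ≤
          (E.S.T a b ×ˢ E.S.T c (b + c - a) ×ˢ E.S.T a c ×ˢ E.S.T b (b + c - a)).card := by
        refine Finset.card_le_card_of_injOn (fun k => k.2) (fun k hk => (hmem k hk).2.1) ?_
        intro k hk k' hk' hkk
        exact Prod.ext ((hmem k hk).1.trans (hmem k' hk').1.symm) hkk
      have hcard' : (((E.F5.image Prod.snd).filter (fun k => g k = ⟨u, (a, b, c)⟩)).card : ℝ) ≤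
          ((E.S.T a b).card : ℝ) * (((E.S.T c (b + c - a)).card : ℝ) *
            (((E.S.T a c).card : ℝ) * ((E.S.T b (b + c - a)).card : ℝ))) := by
        rw [Finset.card_product, Finset.card_product, Finset.card_product] at hcard
        exact_mod_cast hcard
      refine hcard'.trans ?_
      have h40 := (E.ev_tau4).le
      calc _ ≤ E.τ4 * (E.τ4 * (E.τ4 * E.τ4)) := by gcongr
        _ = _ := by ring

private theorem ev_small :
    ((((E.F5 ×ˢ E.F5).filter (fun p => p.1.2 = p.2.2)).filter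
      (fun p => ((E.S.T p.1.1 p.2.1).card : ℝ) < E.τ3)).card : ℝ) ≤
      Fintype.card L * (n ^ 3 * (Fintype.card L / E.Z) * E.τ3 ^ 2) := by
  classical
  have hZ := E.hZ
  have hNZ : 0 ≤ (Fintype.card L : ℝ) / E.Z := div_nonneg (Nat.cast_nonneg _) hZ.le
  let t : Finset (L × (Σ _ : ℕ, L × L)) :=
    Finset.univ ×ˢ (Iset n).sigma (fun i => E.S.A i ×ˢ E.S.A i)
  have ht : (t.card : ℝ) ≤ Fintype.card L * n ^ 3 := by
    have h1 : t.card = Fintype.card L * ∑ i ∈ Iset n, (E.S.A i).card * (E.S.A i).card := by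
      rw [Finset.card_product, Finset.card_sigma, Finset.card_univ]
      simp only [Finset.card_product]
    have h2 : ∑ i ∈ Iset n, (E.S.A i).card * (E.S.A i).card ≤ n ^ 3 := by
      calc _ ≤ ∑ _i ∈ Iset n, n * n := by
            refine Finset.sum_le_sum fun i hi => ?_
            exact Nat.mul_le_mul (E.S.card_A_le hi) (E.S.card_A_le hi)
        _ = (Iset n).card * (n * n) := by rw [Finset.sum_const, smul_eq_mul]
        _ ≤ n * (n * n) := Nat.mul_le_mul_right _ (card_Iset_le E.hn)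
        _ = n ^ 3 := by ring
    rw [h1]
    exact_mod_cast Nat.mul_le_mul_left _ h2
  have key := card_le_of_fibres
    (((E.F5 ×ˢ E.F5).filter (fun p => p.1.2 = p.2.2)).filter
      (fun p => ((E.S.T p.1.1 p.2.1).card : ℝ) < E.τ3)) t
    (fun p => ((p.1.2.1, ⟨p.1.1, (p.1.2.2.2.2.1, p.1.2.2.2.2.2)⟩) : L × (Σ _ : ℕ, L × L)))
    (E.τ3 ^ 2 * (Fintype.card L / E.Z)) ?_ ?_
  · refine key.trans ?_
    calc _ ≤ E.τ3 ^ 2 * (Fintype.card L / E.Z) * (Fintype.card L * n ^ 3) :=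
          mul_le_mul_of_nonneg_left ht (mul_nonneg (sq_nonneg _) hNZ)
      _ = _ := by ring
  · intro p hp
    simp only [Finset.mem_filter, Finset.mem_product] at hp
    obtain ⟨⟨⟨hp1, hp2⟩, hp3⟩, hp4⟩ := hp
    obtain ⟨⟨h1, h2, h3, h4, h5⟩, _⟩ := E.ev_mem hp1
    have a1 := (E.ev_P1 h1).2.1
    have a2 := (E.ev_P1 h2).2.1
    simp only [t, Finset.mem_product, Finset.mem_univ, true_and, Finset.mem_sigma]
    exact ⟨a1.1, a1.2.2, a2.2.2⟩
  · rintro ⟨u, i, x, x'⟩ _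
    set s := ((((E.F5 ×ˢ E.F5).filter (fun p => p.1.2 = p.2.2)).filter
      (fun p => ((E.S.T p.1.1 p.2.1).card : ℝ) < E.τ3)).filter
        (fun p => ((p.1.2.1, ⟨p.1.1, (p.1.2.2.2.2.1, p.1.2.2.2.2.2)⟩) :
          L × (Σ _ : ℕ, L × L)) = (u, ⟨i, (x, x')⟩))) with hs
    have hmem : ∀ p ∈ s, ∃ v v' : L, ∃ i' : ℕ, p = ((i, u, v, v', x, x'), (i', u, v, v', x, x')) ∧
        E.Z ≤ E.S.dist x x' ∧ i' ∈ E.S.W x x' ∧ v ∈ E.S.T i i' ∧ v' ∈ E.S.T i i' ∧
        ((E.S.T i i').card : ℝ) < E.τ3 := by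
      intro p hp
      simp only [hs, Finset.mem_filter, Finset.mem_product] at hp
      obtain ⟨⟨⟨⟨hp1, hp2⟩, hp3⟩, hp4⟩, hp5⟩ := hp
      obtain ⟨⟨j, u1, v, v', x1, x1'⟩, ⟨i', k2⟩⟩ := p
      simp only at hp3 hp4 hp5
      subst hp3
      simp only [Prod.mk.injEq, Sigma.mk.injEq, heq_eq_eq] at hp5
      obtain ⟨rfl, rfl, rfl, rfl⟩ := hp5
      obtain ⟨⟨h1, h2, h3, h4, h5⟩, h6, _⟩ := E.ev_mem hp1
      obtain ⟨⟨g1, g2, g3, g4, g5⟩, g6, _⟩ := E.ev_mem hp2
      simp only at h1 h2 h3 h4 h5 h6 g1 g2 g3 g4 g5 g6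
      have a1 := (E.ev_P1 h1).2.1
      have a4 := (E.ev_P1 h4).2.1
      have b1 := (E.ev_P1 g1).2.1
      have b4 := (E.ev_P1 g4).2.1
      exact ⟨v, v', i', rfl, h6, E.S.mem_W.2 ⟨b1.1, b1.2.2, b4.2.2⟩,
        E.S.mem_T.2 ⟨a1.2.1, b1.2.1⟩, E.S.mem_T.2 ⟨a4.2.1, b4.2.1⟩, hp4⟩
    rcases Finset.eq_empty_or_nonempty s with h0 | ⟨p0, hp0⟩
    · rw [h0]
      simp only [Finset.card_empty, Nat.cast_zero]
      exact mul_nonneg (sq_nonneg _) hNZ
    · obtain ⟨_, _, _, _, hdist, _⟩ := hmem p0 hp0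
      have hW := E.S.card_W_le E.hZ hdist
      have key2 := card_le_of_fibres s (E.S.W x x') (fun p => p.2.1) (E.τ3 ^ 2) ?_ ?_
      · exact key2.trans (mul_le_mul_of_nonneg_left hW (sq_nonneg _))
      · intro p hp
        obtain ⟨v, v', i', rfl, _, h2, _⟩ := hmem p hp
        exact h2
      · intro i' _
        rcases Finset.eq_empty_or_nonempty (s.filter (fun p => p.2.1 = i')) with h1 | ⟨p1, hp1⟩
        · rw [h1]
          simp only [Finset.card_empty, Nat.cast_zero]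
          exact sq_nonneg _
        · have hT : ((E.S.T i i').card : ℝ) < E.τ3 := by
            obtain ⟨hp1s, hp1i⟩ := Finset.mem_filter.1 hp1
            obtain ⟨v, v', i'', rfl, _, _, _, _, h⟩ := hmem p1 hp1s
            simp only at hp1i
            rw [← hp1i]
            exact h
          have hle : (s.filter (fun p => p.2.1 = i')).card ≤
              (E.S.T i i' ×ˢ E.S.T i i').card := by
            refine Finset.card_le_card_of_injOn (fun p => (p.1.2.2.1, p.1.2.2.2.1)) ?_ ?_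
            · intro p hp
              obtain ⟨hps, hpi⟩ := Finset.mem_filter.1 hp
              obtain ⟨v, v', i'', rfl, _, _, h3, h4, _⟩ := hmem p hps
              simp only at hpi
              subst hpi
              exact Finset.mem_product.2 ⟨h3, h4⟩
            · intro p hp p' hp' hpp
              obtain ⟨hps, hpi⟩ := Finset.mem_filter.1 hp
              obtain ⟨hps', hpi'⟩ := Finset.mem_filter.1 hp'
              obtain ⟨v, v', i1, rfl, _⟩ := hmem p hps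
              obtain ⟨w, w', i2, rfl, _⟩ := hmem p' hps'
              simp only at hpi hpi'
              simp only [Prod.mk.injEq] at hpp
              rw [hpi, hpi', hpp.1, hpp.2]
          rw [Finset.card_product] at hle
          have hle' : ((s.filter (fun p => p.2.1 = i')).card : ℝ) ≤
              ((E.S.T i i').card : ℝ) * ((E.S.T i i').card : ℝ) := by exact_mod_cast hle
          refine hle'.trans ?_
          rw [sq]
          exact mul_le_mul hT.le hT.le (Nat.cast_nonneg _) E.hτ3.le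

private theorem ev_large :
    ((((E.F5 ×ˢ E.F5).filter (fun p => p.1.2 = p.2.2)).filter
      (fun p => ¬ ((E.S.T p.1.1 p.2.1).card : ℝ) < E.τ3)).card : ℝ) ≤
      Fintype.card L * (n ^ 5 * E.ρ3) := by
  classical
  let t : Finset (L × (Σ _ : ℕ, L × L × L × L)) :=
    Finset.univ ×ˢ (Iset n).sigma (fun i => E.S.A i ×ˢ E.S.A i ×ˢ E.S.A i ×ˢ E.S.A i)
  have ht : (t.card : ℝ) ≤ Fintype.card L * n ^ 5 := by
    have h1 : t.card = Fintype.card L *
        ∑ i ∈ Iset n, (E.S.A i).card * ((E.S.A i).card * ((E.S.A i).card * (E.S.A i).card)) := by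
      rw [Finset.card_product, Finset.card_sigma, Finset.card_univ]
      simp only [Finset.card_product]
    have h2 : ∑ i ∈ Iset n, (E.S.A i).card * ((E.S.A i).card * ((E.S.A i).card * (E.S.A i).card)) ≤
        n ^ 5 := by
      calc _ ≤ ∑ _i ∈ Iset n, n * (n * (n * n)) := by
            refine Finset.sum_le_sum fun i hi => ?_
            have := E.S.card_A_le hi
            gcongr
        _ = (Iset n).card * (n * (n * (n * n))) := by rw [Finset.sum_const, smul_eq_mul]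
        _ ≤ n * (n * (n * (n * n))) := Nat.mul_le_mul_right _ (card_Iset_le E.hn)
        _ = n ^ 5 := by ring
    rw [h1]
    exact_mod_cast Nat.mul_le_mul_left _ h2
  have key := card_le_of_fibres
    (((E.F5 ×ˢ E.F5).filter (fun p => p.1.2 = p.2.2)).filter
      (fun p => ¬ ((E.S.T p.1.1 p.2.1).card : ℝ) < E.τ3)) t
    (fun p => ((p.1.2.1, ⟨p.1.1, p.1.2.2⟩) : L × (Σ _ : ℕ, L × L × L × L)))
    E.ρ3 ?_ ?_
  · refine key.trans ?_
    calc _ ≤ E.ρ3 * (Fintype.card L * n ^ 5) := mul_le_mul_of_nonneg_left ht E.hρ3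
      _ = _ := by ring
  · intro p hp
    simp only [Finset.mem_filter, Finset.mem_product] at hp
    obtain ⟨⟨⟨hp1, hp2⟩, hp3⟩, hp4⟩ := hp
    obtain ⟨⟨h1, h2, h3, h4, h5⟩, _⟩ := E.ev_mem hp1
    have a1 := (E.ev_P1 h1).2.1
    have a4 := (E.ev_P1 h4).2.1
    simp only [t, Finset.mem_product, Finset.mem_univ, true_and, Finset.mem_sigma]
    exact ⟨a1.1, a1.2.1, a4.2.1, a1.2.2, a4.2.2⟩
  · rintro ⟨u, i, v, v', x, x'⟩ _
    set s := ((((E.F5 ×ˢ E.F5).filter (fun p => p.1.2 = p.2.2)).filter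
      (fun p => ¬ ((E.S.T p.1.1 p.2.1).card : ℝ) < E.τ3)).filter
        (fun p => ((p.1.2.1, ⟨p.1.1, p.1.2.2⟩) :
          L × (Σ _ : ℕ, L × L × L × L)) = (u, ⟨i, (v, v', x, x')⟩))) with hs
    have hmem : ∀ p ∈ s, ∃ i' : ℕ, p = ((i, u, v, v', x, x'), (i', u, v, v', x, x')) ∧
        (E.S.rc i v x E.τ3 : ℝ) ≤ E.ρ3 ∧ i' ∈ E.S.W v x ∧
        E.τ3 ≤ ((E.S.T i i').card : ℝ) := by
      intro p hp
      simp only [hs, Finset.mem_filter, Finset.mem_product] at hp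
      obtain ⟨⟨⟨⟨hp1, hp2⟩, hp3⟩, hp4⟩, hp5⟩ := hp
      obtain ⟨⟨j, u1, k1⟩, ⟨i', k2⟩⟩ := p
      simp only at hp3 hp4 hp5
      subst hp3
      simp only [Prod.mk.injEq, Sigma.mk.injEq, heq_eq_eq] at hp5
      obtain ⟨rfl, rfl, rfl⟩ := hp5
      obtain ⟨⟨h1, h2, h3, h4, h5⟩, h6, _⟩ := E.ev_mem hp1
      obtain ⟨⟨g1, g2, g3, g4, g5⟩, g6, _⟩ := E.ev_mem hp2
      exact ⟨i', rfl, h1.2.2.1, g1.2.1, not_lt.1 hp4⟩
    rcases Finset.eq_empty_or_nonempty s with h0 | ⟨p0, hp0⟩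
    · rw [h0]
      simp only [Finset.card_empty, Nat.cast_zero]
      exact E.hρ3
    · obtain ⟨_, _, hrc, _⟩ := hmem p0 hp0
      refine le_trans ?_ hrc
      unfold Sys.rc
      have hle : s.card ≤
          ((E.S.W v x).filter (fun b => E.τ3 ≤ ((E.S.T i b).card : ℝ))).card := by
        refine Finset.card_le_card_of_injOn (fun p => p.2.1) ?_ ?_
        · intro p hp
          obtain ⟨i', rfl, _, h2, h3⟩ := hmem p hp
          exact Finset.mem_filter.2 ⟨h2, h3⟩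
        · intro p hp p' hp' hpp
          obtain ⟨i1, rfl, _⟩ := hmem p hp
          obtain ⟨i2, rfl, _⟩ := hmem p' hp'
          simp only at hpp
          rw [hpp]
      exact_mod_cast hle

theorem F5_card : (E.F5.card : ℝ) ^ 2 ≤ Fintype.card L ^ 2 * E.w0 ^ 3 * E.τ4 ^ 4 *
    (n ^ 3 * (Fintype.card L / E.Z) * E.τ3 ^ 2 + n ^ 5 * E.ρ3) := by
  classical
  have h1 := cs_pairs E.F5 (E.F5.image Prod.snd) Prod.snd
    (fun a ha => Finset.mem_image_of_mem _ ha)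
  have h2 := E.ev_keys
  have h3 := E.ev_small
  have h4 := E.ev_large
  have h5 := Finset.card_filter_add_card_filter_not
    (s := (E.F5 ×ˢ E.F5).filter (fun p => p.1.2 = p.2.2))
    (p := fun p => ((E.S.T p.1.1 p.2.1).card : ℝ) < E.τ3)
  have h6 : (((E.F5 ×ˢ E.F5).filter (fun p => p.1.2 = p.2.2)).card : ℝ) ≤
      Fintype.card L * (n ^ 3 * (Fintype.card L / E.Z) * E.τ3 ^ 2) +
        Fintype.card L * (n ^ 5 * E.ρ3) := by
    rw [← h5]
    push_cast
    exact add_le_add h3 h4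
  have hpos : 0 ≤ Fintype.card L * E.w0 ^ 3 * E.τ4 ^ 4 := by
    have := E.hw0
    have := (E.ev_tau4).le
    positivity
  calc (E.F5.card : ℝ) ^ 2 ≤ _ := h1
    _ ≤ (Fintype.card L * E.w0 ^ 3 * E.τ4 ^ 4) *
        (Fintype.card L * (n ^ 3 * (Fintype.card L / E.Z) * E.τ3 ^ 2) +
        Fintype.card L * (n ^ 5 * E.ρ3)) :=
      mul_le_mul h2 h6 (Nat.cast_nonneg _) hpos
    _ = _ := by ring

end EData

end Pool.Agent.Hhelper71.LD43
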