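import Mathlib
import Pool.Agent.Hhelper71.LD43.EDefs

/-!
# Distance labelings of cycles: the fourth power bound for the second part
-/

set_option linter.unusedSectionVars false
set_option linter.unusedVariables false

namespace Pool.Agent.Hhelper71.LD43

private theorem ef_c1 {i p q : ℕ} (h : p ≤ q) (k : 2 * (p - q + (q - p)) ≤ i) :
    cyc i p q = q - p := by
  unfold cyc
  omega

private theorem ef_c2 {i p q : ℕ} (h : p ≤ q) (k : ¬ 2 * (p - q + (q - p)) ≤ i) :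
    cyc i p q = i - (q - p) := by
  unfold cyc
  omega

private theorem ef_c3 {i p q : ℕ} (h : ¬ p ≤ q) (k : 2 * (p - q + (q - p)) ≤ i) :
    cyc i p q = p - q := by
  unfold cyc
  omega

private theorem ef_c4 {i p q : ℕ} (h : ¬ p ≤ q) (k : ¬ 2 * (p - q + (q - p)) ≤ i) :
    cyc i p q = i - (p - q) := by
  unfold cyc
  omega

/-- positions of the same type: the cyclic distance splits -/
private theorem ef_cyc {i p q p' q' : ℕ} (hp : p < i) (hq : q < i) (hp' : p' < i) (hq' : q' < i)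
    (h1 : p ≤ q ↔ p ≤ q') (h2 : p ≤ q ↔ p' ≤ q) (h3 : p ≤ q ↔ p' ≤ q')
    (k1 : 2 * (p - q + (q - p)) ≤ i ↔ 2 * (p - q' + (q' - p)) ≤ i)
    (k2 : 2 * (p - q + (q - p)) ≤ i ↔ 2 * (p' - q + (q - p')) ≤ i)
    (k3 : 2 * (p - q + (q - p)) ≤ i ↔ 2 * (p' - q' + (q' - p')) ≤ i) :
    cyc i p q + cyc i p' q' = cyc i p q' + cyc i p' q := by
  by_cases h : p ≤ q
  · have a1 := h1.1 h
    have a2 := h2.1 h
    have a3 := h3.1 h
    by_cases k : 2 * (p - q + (q - p)) ≤ i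
    · rw [ef_c1 h k, ef_c1 a3 (k3.1 k), ef_c1 a1 (k1.1 k), ef_c1 a2 (k2.1 k)]
      clear k1 k2 k3 h1 h2 h3
      omega
    · rw [ef_c2 h k, ef_c2 a3 (fun e => k (k3.2 e)), ef_c2 a1 (fun e => k (k1.2 e)),
        ef_c2 a2 (fun e => k (k2.2 e))]
      clear k1 k2 k3 h1 h2 h3
      omega
  · have a1 : ¬ p ≤ q' := fun e => h (h1.2 e)
    have a2 : ¬ p' ≤ q := fun e => h (h2.2 e)
    have a3 : ¬ p' ≤ q' := fun e => h (h3.2 e)
    by_cases k : 2 * (p - q + (q - p)) ≤ i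
    · rw [ef_c3 h k, ef_c3 a3 (k3.1 k), ef_c3 a1 (k1.1 k), ef_c3 a2 (k2.1 k)]
      clear k1 k2 k3 h1 h2 h3
      omega
    · rw [ef_c4 h k, ef_c4 a3 (fun e => k (k3.2 e)), ef_c4 a1 (fun e => k (k1.2 e)),
        ef_c4 a2 (fun e => k (k2.2 e))]
      clear k1 k2 k3 h1 h2 h3
      omega

namespace EData

variable {n : ℕ} {L : Type} [Fintype L] [DecidableEq L] (E : EData n L)

/-- the type of `(i, v, x)`: order of the positions and the side of the cycle -/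
private def ef_ty (i : ℕ) (v x : L) : Bool × Bool :=
  (decide (E.S.pos i v ≤ E.S.pos i x),
    decide (2 * (E.S.pos i v - E.S.pos i x + (E.S.pos i x - E.S.pos i v)) ≤ i))

/-- four pairs of the same type -/
private theorem ef_dist {i : ℕ} (hi : i ∈ Iset n) {v v' x x' : L} (hv : v ∈ E.S.A i)
    (hv' : v' ∈ E.S.A i) (hx : x ∈ E.S.A i) (hx' : x' ∈ E.S.A i)
    (h1 : E.ef_ty i v x = E.ef_ty i v x') (h2 : E.ef_ty i v x = E.ef_ty i v' x)
    (h3 : E.ef_ty i v x = E.ef_ty i v' x') :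
    E.S.dist v x + E.S.dist v' x' = E.S.dist v x' + E.S.dist v' x := by
  unfold ef_ty at h1 h2 h3
  rw [Prod.mk.injEq, decide_eq_decide, decide_eq_decide] at h1 h2 h3
  rw [E.S.dist_eq i hi v hv x hx, E.S.dist_eq i hi v hv x' hx', E.S.dist_eq i hi v' hv' x hx,
    E.S.dist_eq i hi v' hv' x' hx']
  exact ef_cyc (E.S.pos_lt i hi v hv) (E.S.pos_lt i hi x hx) (E.S.pos_lt i hi v' hv')
    (E.S.pos_lt i hi x' hx') h1.1 h2.1 h3.1 h1.2 h2.2 h3.2

private theorem ef_mem {i : ℕ} {u v x : L} (h : (i, u, v, x) ∈ E.F1) :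
    i ∈ Iset n ∧ v ∈ E.S.A i ∧ x ∈ E.S.A i ∧ E.P1 i u v x := by
  classical
  unfold F1 at h
  rw [Finset.mem_filter] at h
  have h1 := h.2
  have h2 := h1.2.1
  rw [Sys.mem_W] at h2
  exact ⟨h2.1, h2.2.1, h2.2.2, h1⟩

/-- first key: `(i, u, type, v)` -/
private def ef_k1 (q : ℕ × L × L × L) : ℕ × L × (Bool × Bool) × ℕ :=
  (q.1, q.2.1, E.ef_ty q.1 q.2.2.1 q.2.2.2, E.S.pos q.1 q.2.2.1)

/-- second key: `(i, u, type, x, x')` -/
private def ef_k2 (p : (ℕ × L × L × L) × (ℕ × L × L × L)) : ℕ × L × (Bool × Bool) × ℕ × ℕ :=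
  (p.1.1, p.1.2.1, E.ef_ty p.1.1 p.1.2.2.1 p.1.2.2.2, E.S.pos p.1.1 p.1.2.2.2,
    E.S.pos p.1.1 p.2.2.2.2)

/-- pairs with the same first key -/
private noncomputable def ef_F2 : Finset ((ℕ × L × L × L) × (ℕ × L × L × L)) :=
  (E.F1 ×ˢ E.F1).filter (fun p => E.ef_k1 p.1 = E.ef_k1 p.2)

/-- pairs of pairs with the same second key -/
private noncomputable def ef_F3 : Finset
    (((ℕ × L × L × L) × (ℕ × L × L × L)) × ((ℕ × L × L × L) × (ℕ × L × L × L))) :=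
  (E.ef_F2 ×ˢ E.ef_F2).filter (fun p => E.ef_k2 p.1 = E.ef_k2 p.2)

private theorem ef_mem2 {p : (ℕ × L × L × L) × (ℕ × L × L × L)} (h : p ∈ E.ef_F2) :
    ∃ i u v x x', p = ((i, u, v, x), (i, u, v, x')) ∧ i ∈ Iset n ∧ v ∈ E.S.A i ∧ x ∈ E.S.A i ∧
      x' ∈ E.S.A i ∧ E.P1 i u v x ∧ E.P1 i u v x' ∧ E.ef_ty i v x = E.ef_ty i v x' := by
  obtain ⟨⟨i, u, v, x⟩, ⟨i', u', w, x'⟩⟩ := p
  unfold ef_F2 at h
  rw [Finset.mem_filter, Finset.mem_product] at h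
  obtain ⟨⟨h1, h2⟩, h3⟩ := h
  unfold ef_k1 at h3
  simp only [Prod.mk.injEq] at h3 h1 h2
  obtain ⟨rfl, rfl, h4, h5⟩ := h3
  obtain ⟨hi, hv, hx, hP⟩ := E.ef_mem h1
  obtain ⟨_, hw, hx', hP'⟩ := E.ef_mem h2
  have h6 := E.S.pos_inj i hi v hv w hw h5
  subst h6
  exact ⟨i, u, v, x, x', rfl, hi, hv, hx, hx', hP, hP', h4⟩

private theorem ef_mem3
    {p : ((ℕ × L × L × L) × (ℕ × L × L × L)) × ((ℕ × L × L × L) × (ℕ × L × L × L))}
    (h : p ∈ E.ef_F3) :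
    ∃ i u v v' x x', p = (((i, u, v, x), (i, u, v, x')), ((i, u, v', x), (i, u, v', x'))) ∧
      i ∈ Iset n ∧ E.P4 i u v v' x x' := by
  obtain ⟨p, q⟩ := p
  unfold ef_F3 at h
  rw [Finset.mem_filter, Finset.mem_product] at h
  obtain ⟨⟨h1, h2⟩, h3⟩ := h
  obtain ⟨i, u, v, x, x', rfl, hi, hv, hx, hx', hP, hP', h4⟩ := E.ef_mem2 h1
  obtain ⟨j, u1, v', y, y', rfl, hj, hv', hy, hy', hQ, hQ', h5⟩ := E.ef_mem2 h2
  unfold ef_k2 at h3
  simp only [Prod.mk.injEq] at h3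
  obtain ⟨rfl, rfl, h6, h7, h8⟩ := h3
  have h9 := E.S.pos_inj i hi x hx y hy h7
  have h10 := E.S.pos_inj i hi x' hx' y' hy' h8
  subst h9
  subst h10
  refine ⟨i, u, v, v', x, x', rfl, hi, hP, hP', hQ, hQ', ?_⟩
  have h11 := E.ef_dist hi hv hv' hx hx' h4 h6 (h6.trans h5)
  unfold Sys.al
  omega

private theorem ef_card3 : E.ef_F3.card ≤ E.F4.card := by
  apply Finset.card_le_card_of_injOn
    (fun p => (p.1.1.1, p.1.1.2.1, p.1.1.2.2.1, p.2.1.2.2.1, p.1.1.2.2.2, p.1.2.2.2.2))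
  · intro p hp
    obtain ⟨i, u, v, v', x, x', rfl, hi, hP⟩ := E.ef_mem3 (Finset.mem_coe.1 hp)
    apply Finset.mem_coe.2
    classical
    unfold F4
    rw [Finset.mem_filter, Finset.mem_product]
    exact ⟨⟨hi, Finset.mem_univ _⟩, hP⟩
  · intro p hp q hq hpq
    obtain ⟨i, u, v, v', x, x', rfl, hi, hP⟩ := E.ef_mem3 (Finset.mem_coe.1 hp)
    obtain ⟨j, u1, w, w', y, y', rfl, hj, hQ⟩ := E.ef_mem3 (Finset.mem_coe.1 hq)
    simp only [Prod.mk.injEq] at hpq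
    obtain ⟨rfl, rfl, rfl, rfl, rfl, rfl⟩ := hpq
    rfl

private theorem ef_step1 : (E.F1.card : ℝ) ^ 2 ≤ 4 * Fintype.card L * n ^ 2 * E.ef_F2.card := by
  have h1 := cs_pairs E.F1
    (Iset n ×ˢ (Finset.univ : Finset L) ×ˢ (Finset.univ : Finset (Bool × Bool)) ×ˢ Finset.range n)
    E.ef_k1 (by
      rintro ⟨i, u, v, x⟩ hq
      obtain ⟨hi, hv, hx, hP⟩ := E.ef_mem hq
      unfold ef_k1
      simp only [Finset.mem_product, Finset.mem_univ, true_and, Finset.mem_range]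
      exact ⟨hi, lt_of_lt_of_le (E.S.pos_lt i hi v hv) (mem_Iset.1 hi).2⟩)
  refine h1.trans ?_
  have h2 : ((Iset n ×ˢ (Finset.univ : Finset L) ×ˢ (Finset.univ : Finset (Bool × Bool)) ×ˢ
      Finset.range n).card : ℝ) ≤ 4 * Fintype.card L * n ^ 2 := by
    simp only [Finset.card_product, Finset.card_univ, Finset.card_range, Fintype.card_prod,
      Fintype.card_bool]
    push_cast
    have h3 : ((Iset n).card : ℝ) ≤ n := by exact_mod_cast card_Iset_le E.hn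
    calc ((Iset n).card : ℝ) * (Fintype.card L * (4 * n))
        ≤ n * (Fintype.card L * (4 * n)) := by gcongr
      _ = 4 * Fintype.card L * n ^ 2 := by ring
  have h4 : (0 : ℝ) ≤ E.ef_F2.card := by positivity
  exact mul_le_mul_of_nonneg_right h2 h4

private theorem ef_step2 :
    (E.ef_F2.card : ℝ) ^ 2 ≤ 4 * Fintype.card L * n ^ 3 * E.ef_F3.card := by
  have h1 := cs_pairs E.ef_F2
    (Iset n ×ˢ (Finset.univ : Finset L) ×ˢ (Finset.univ : Finset (Bool × Bool)) ×ˢ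
      Finset.range n ×ˢ Finset.range n)
    E.ef_k2 (by
      intro p hp
      obtain ⟨i, u, v, x, x', rfl, hi, hv, hx, hx', hP, hP', h4⟩ := E.ef_mem2 hp
      unfold ef_k2
      simp only [Finset.mem_product, Finset.mem_univ, true_and, Finset.mem_range]
      exact ⟨hi, lt_of_lt_of_le (E.S.pos_lt i hi x hx) (mem_Iset.1 hi).2,
        lt_of_lt_of_le (E.S.pos_lt i hi x' hx') (mem_Iset.1 hi).2⟩)
  refine h1.trans ?_
  have h2 : ((Iset n ×ˢ (Finset.univ : Finset L) ×ˢ (Finset.univ : Finset (Bool × Bool)) ×ˢ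
      Finset.range n ×ˢ Finset.range n).card : ℝ) ≤ 4 * Fintype.card L * n ^ 3 := by
    simp only [Finset.card_product, Finset.card_univ, Finset.card_range, Fintype.card_prod,
      Fintype.card_bool]
    push_cast
    have h3 : ((Iset n).card : ℝ) ≤ n := by exact_mod_cast card_Iset_le E.hn
    calc ((Iset n).card : ℝ) * (Fintype.card L * (4 * (n * n)))
        ≤ n * (Fintype.card L * (4 * (n * n))) := by gcongr
      _ = 4 * Fintype.card L * n ^ 3 := by ring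
  have h4 : (0 : ℝ) ≤ E.ef_F3.card := by positivity
  exact mul_le_mul_of_nonneg_right h2 h4

theorem F4_card : (E.F1.card : ℝ) ^ 4 ≤ 64 * Fintype.card L ^ 3 * n ^ 7 * E.F4.card := by
  have h1 := E.ef_step1
  have h2 := E.ef_step2
  have h3 : (E.ef_F3.card : ℝ) ≤ E.F4.card := by exact_mod_cast E.ef_card3
  have h0 : (0 : ℝ) ≤ (E.F1.card : ℝ) ^ 2 := by positivity
  calc (E.F1.card : ℝ) ^ 4 = ((E.F1.card : ℝ) ^ 2) ^ 2 := by ring
    _ ≤ (4 * (Fintype.card L : ℝ) * n ^ 2 * E.ef_F2.card) ^ 2 := by gcongr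
    _ = 16 * (Fintype.card L : ℝ) ^ 2 * n ^ 4 * (E.ef_F2.card : ℝ) ^ 2 := by ring
    _ ≤ 16 * (Fintype.card L : ℝ) ^ 2 * n ^ 4 *
        (4 * (Fintype.card L : ℝ) * n ^ 3 * E.ef_F3.card) := by gcongr
    _ ≤ 16 * (Fintype.card L : ℝ) ^ 2 * n ^ 4 *
        (4 * (Fintype.card L : ℝ) * n ^ 3 * E.F4.card) := by gcongr
    _ = 64 * Fintype.card L ^ 3 * n ^ 7 * E.F4.card := by ring

end EData

end Pool.Agent.Hhelper71.LD43
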