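import Mathlib
import Pool.Agent.Hhelper71.LD43.EDefs

/-!
# Distance labelings of cycles: the set `F1`
-/

set_option linter.unusedSectionVars false
set_option linter.unusedVariables false

namespace Pool.Agent.Hhelper71.LD43

namespace EData

variable {n : ℕ} {L : Type} [Fintype L] [DecidableEq L] (E : EData n L)

open Classical in
/-- the cycles through `v, x` which are `τ3`-poor -/
noncomputable def eo_M (p : L × L) : Finset ℕ :=
  (E.S.W p.1 p.2).filter (fun i => (E.S.rc i p.1 p.2 E.τ3 : ℝ) ≤ E.ρ3)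

open Classical in
theorem eo_fibre (t : L × L × L) (ht : t ∈ E.𝒯) :
    ((E.eo_M t.2).card : ℝ) - E.ρ1 ≤
      (((Iset n).filter (fun i => E.P1 i t.1 t.2.1 t.2.2)).card : ℝ) := by
  have hsub : E.eo_M t.2 ⊆ (Iset n).filter (fun i => E.P1 i t.1 t.2.1 t.2.2) ∪
      (E.S.W t.2.1 t.2.2).filter
        (fun b => E.τ1 ≤ ((E.S.T (E.S.al t.1 t.2.1 t.2.2) b).card : ℝ)) := by
    intro i hi
    unfold eo_M at hi
    rw [Finset.mem_filter] at hi
    rw [Finset.mem_union, Finset.mem_filter, Finset.mem_filter]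
    by_cases h : E.τ1 ≤ ((E.S.T (E.S.al t.1 t.2.1 t.2.2) i).card : ℝ)
    · exact Or.inr ⟨hi.1, h⟩
    · left
      refine ⟨(E.S.mem_W.1 hi.1).1, ht, hi.1, hi.2, ?_⟩
      rw [E.S.T_comm]
      exact not_le.1 h
  have h1 := (Finset.card_le_card hsub).trans (Finset.card_union_le _ _)
  have h2 := E.h1 t ht
  unfold Sys.rc at h2
  have h3 : ((E.eo_M t.2).card : ℝ) ≤
      (((Iset n).filter (fun i => E.P1 i t.1 t.2.1 t.2.2)).card : ℝ) +
      (((E.S.W t.2.1 t.2.2).filter
        (fun b => E.τ1 ≤ ((E.S.T (E.S.al t.1 t.2.1 t.2.2) b).card : ℝ))).card : ℝ) := by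
    exact_mod_cast h1
  linarith

open Classical in
theorem eo_sum_le : ∑ t ∈ E.𝒯, (((E.eo_M t.2).card : ℝ) - E.ρ1) ≤ E.F1.card := by
  have h1 : E.F1.card = ∑ t ∈ E.𝒯, (E.F1.filter (fun q => q.2 = t)).card := by
    apply Finset.card_eq_sum_card_fiberwise
    intro q hq
    have hq' := Finset.mem_coe.1 hq
    unfold F1 at hq'
    rw [Finset.mem_filter] at hq'
    exact hq'.2.1
  rw [h1]
  push_cast
  apply Finset.sum_le_sum
  intro t ht
  refine (E.eo_fibre t ht).trans ?_
  have h2 : ((Iset n).filter (fun i => E.P1 i t.1 t.2.1 t.2.2)).card ≤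
      (E.F1.filter (fun q => q.2 = t)).card := by
    apply Finset.card_le_card_of_injOn (fun i => (i, t))
    · intro i hi
      have hi' := Finset.mem_filter.1 (Finset.mem_coe.1 hi)
      apply Finset.mem_coe.2
      rw [Finset.mem_filter]
      refine ⟨?_, rfl⟩
      unfold F1
      rw [Finset.mem_filter]
      exact ⟨Finset.mem_product.2 ⟨hi'.1, Finset.mem_univ _⟩, hi'.2⟩
    · intro i _ j _ hij
      exact (Prod.mk.inj hij).1
  exact_mod_cast h2

open Classical in
theorem eo_pairs (p : L × L) :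
    (E.𝒯.filter (fun t => t.2 = p)).card ≤ n * (E.eo_M p).card := by
  have h1 : (E.𝒯.filter (fun t => t.2 = p)).card ≤
      ((E.eo_M p).sigma (fun i => E.S.A i)).card := by
    apply Finset.card_le_card_of_injOn
      (fun t => (⟨E.S.al t.1 t.2.1 t.2.2, t.1⟩ : (_ : ℕ) × L))
    · intro t ht
      have ht' := Finset.mem_filter.1 (Finset.mem_coe.1 ht)
      apply Finset.mem_coe.2
      rw [Finset.mem_sigma]
      have hAc := E.hAc t ht'.1
      have h3 := E.h3 t ht'.1
      refine ⟨?_, hAc.2.1⟩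
      unfold eo_M
      rw [Finset.mem_filter, ← ht'.2]
      exact ⟨E.S.mem_W.2 ⟨hAc.1, hAc.2.2.1, hAc.2.2.2⟩, h3⟩
    · intro t ht t' ht' hij
      have ht1 := Finset.mem_filter.1 (Finset.mem_coe.1 ht)
      have ht2 := Finset.mem_filter.1 (Finset.mem_coe.1 ht')
      have h := Sigma.mk.inj hij
      have h5 : t.1 = t'.1 := eq_of_heq h.2
      exact Prod.ext h5 (ht1.2.trans ht2.2.symm)
  refine h1.trans ?_
  rw [Finset.card_sigma]
  calc ∑ i ∈ E.eo_M p, (E.S.A i).card ≤ ∑ _i ∈ E.eo_M p, n := by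
        apply Finset.sum_le_sum
        intro i hi
        unfold eo_M at hi
        rw [Finset.mem_filter] at hi
        exact E.S.card_A_le (E.S.mem_W.1 hi.1).1
    _ = n * (E.eo_M p).card := by
      rw [Finset.sum_const, smul_eq_mul, mul_comm]

open Classical in
theorem eo_sq : (E.𝒯.card : ℝ) ^ 2 ≤
    Fintype.card L ^ 2 * (n * ∑ t ∈ E.𝒯, ((E.eo_M t.2).card : ℝ)) := by
  have h1 := cs_pairs E.𝒯 (Finset.univ : Finset (L × L)) (fun t => t.2)
    (fun t _ => Finset.mem_univ _)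
  rw [Finset.card_univ, Fintype.card_prod] at h1
  have h2 : ((E.𝒯 ×ˢ E.𝒯).filter (fun p => p.1.2 = p.2.2)).card =
      ∑ t ∈ E.𝒯, (E.𝒯.filter (fun t' => t'.2 = t.2)).card := by
    rw [Finset.card_filter, Finset.sum_product]
    apply Finset.sum_congr rfl
    intro t _
    rw [Finset.card_filter]
    apply Finset.sum_congr rfl
    intro t' _
    simp only [eq_comm]
  have h3 : (((E.𝒯 ×ˢ E.𝒯).filter (fun p => p.1.2 = p.2.2)).card : ℝ) ≤
      n * ∑ t ∈ E.𝒯, ((E.eo_M t.2).card : ℝ) := by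
    rw [h2]
    push_cast
    rw [Finset.mul_sum]
    apply Finset.sum_le_sum
    intro t _
    exact_mod_cast E.eo_pairs t.2
  refine h1.trans ?_
  push_cast
  rw [sq]
  exact mul_le_mul_of_nonneg_left h3 (by positivity)

theorem F1_card : (E.𝒯.card : ℝ) ^ 2 / (n * Fintype.card L ^ 2) - E.𝒯.card * E.ρ1 ≤ E.F1.card := by
  refine le_trans ?_ E.eo_sum_le
  rw [Finset.sum_sub_distrib, Finset.sum_const, nsmul_eq_mul]
  have hn : (0 : ℝ) < n := by exact_mod_cast E.hn
  have hL : (0 : ℝ) < Fintype.card L := by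
    have := E.S.le_card E.hn
    have h := E.hn
    exact_mod_cast (by omega : 0 < Fintype.card L)
  have h1 : (E.𝒯.card : ℝ) ^ 2 / (n * Fintype.card L ^ 2) ≤
      ∑ t ∈ E.𝒯, ((E.eo_M t.2).card : ℝ) := by
    rw [div_le_iff₀ (by positivity)]
    refine E.eo_sq.trans (le_of_eq ?_)
    ring
  linarith

end EData

end Pool.Agent.Hhelper71.LD43
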