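import Pool.Agent.Hhelper71.LD43.Basic
import Pool.Agent.Hhelper71.LD43.EDefs

/-!
# Distance labelings of cycles: triples whose two sides are both rich

A triple `(u, v, x)` acute on `C_a`, `a = al u v x`, is extended by cycles `b1` through `u, v` and
`b2` through `v, x` having many labels in common with `C_a`.
-/

set_option linter.unusedSectionVars false
set_option linter.unusedVariables false

namespace Pool.Agent.Hhelper71.LD43

/-- counting by fibres: `f` has at most `A` values and for each value of `f` there are at most `B`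
values of `g` -/
private theorem ri_card_sub {γ α β : Type*} [DecidableEq α] (S : Finset γ) (f : γ → α)
    (t : Finset α) (g : γ → β) (u : α → Finset β) (A B : ℝ) (hf : ∀ c ∈ S, f c ∈ t)
    (hg : ∀ c ∈ S, g c ∈ u (f c))
    (hinj : ∀ c ∈ S, ∀ c' ∈ S, f c = f c' → g c = g c' → c = c')
    (hA : (t.card : ℝ) ≤ A) (hB : ∀ c ∈ S, ((u (f c)).card : ℝ) ≤ B) (hB0 : 0 ≤ B) :
    (S.card : ℝ) ≤ A * B := by
  classical
  have h := card_le_of_fibres S t f B hf (fun a _ => ?_)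
  · calc (S.card : ℝ) ≤ B * t.card := h
      _ ≤ B * A := mul_le_mul_of_nonneg_left hA hB0
      _ = A * B := mul_comm _ _
  · rcases (S.filter (fun c => f c = a)).eq_empty_or_nonempty with he | ⟨c0, hc0⟩
    · rw [he]
      simpa using hB0
    · rw [Finset.mem_filter] at hc0
      have h1 : (S.filter (fun c => f c = a)).card ≤ (u a).card := by
        refine Finset.card_le_card_of_injOn g ?_ ?_
        · intro c hc
          rw [Finset.mem_coe, Finset.mem_filter] at hc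
          have := hg c hc.1
          rw [hc.2] at this
          exact this
        · intro c hc c' hc' hcc
          rw [Finset.mem_coe, Finset.mem_filter] at hc hc'
          exact hinj c hc.1 c' hc'.1 (hc.2.trans hc'.2.symm) hcc
      have h2 := hB c0 hc0.1
      rw [hc0.2] at h2
      exact le_trans (by exact_mod_cast h1) h2

namespace Sys

variable {n : ℕ} {L : Type} [Fintype L] [DecidableEq L] (S : Sys n L)

open Classical in
/-- pairs `(x, b)` with `x` on `C_a`, far from `v`, and `b` through `v` and `x` -/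
private theorem ri_xb (Z : ℝ) (hZ : 0 < Z) (a : ℕ) (ha : a ∈ Iset n) (v : L)
    (s : Finset (L × ℕ))
    (hs : ∀ q ∈ s, q.1 ∈ S.A a ∧ Z ≤ S.dist v q.1 ∧ q.2 ∈ S.W v q.1) :
    (s.card : ℝ) ≤ n * (Fintype.card L / Z) := by
  refine ri_card_sub s (fun q => q.1) (S.A a) (fun q => q.2) (fun x => S.W v x) n
    (Fintype.card L / Z) (fun q hq => (hs q hq).1) (fun q hq => (hs q hq).2.2)
    (fun q _ q' _ h1 h2 => Prod.ext h1 h2) ?_ (fun q hq => S.card_W_le hZ (hs q hq).2.1)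
    (by positivity)
  exact_mod_cast S.card_A_le ha

open Classical in
private theorem ri_bad (Z τ Q0 : ℝ) (s : ℝ) (ℓ : ℕ) (hZ : 0 < Z)
    (hQ0 : ∑ p ∈ S.Big τ, ((S.Bad ℓ s p.1 p.2).card : ℝ) * ((S.T p.1 p.2).card : ℝ) ≤ Q0)
    (E : Finset ((L × L × L) × (ℕ × ℕ)))
    (hE : ∀ e ∈ E, (S.al e.1.1 e.1.2.1 e.1.2.2, e.2.1) ∈ S.Big τ ∧
      e.1.2.1 ∈ S.Bad ℓ s (S.al e.1.1 e.1.2.1 e.1.2.2) e.2.1 ∧
      e.1.1 ∈ S.T (S.al e.1.1 e.1.2.1 e.1.2.2) e.2.1 ∧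
      e.1.2.2 ∈ S.A (S.al e.1.1 e.1.2.1 e.1.2.2) ∧ Z ≤ S.dist e.1.2.1 e.1.2.2 ∧
      e.2.2 ∈ S.W e.1.2.1 e.1.2.2) :
    (E.card : ℝ) ≤ Q0 * (n * (Fintype.card L / Z)) := by
  set t1 : Finset ((ℕ × ℕ) × (L × L)) := (S.Big τ ×ˢ Finset.univ).filter
    (fun q => q.2.1 ∈ S.Bad ℓ s q.1.1 q.1.2 ∧ q.2.2 ∈ S.T q.1.1 q.1.2) with ht1
  have hc1 : (t1.card : ℝ) ≤ Q0 := by
    have h1 : t1.card = ∑ p ∈ S.Big τ, (t1.filter (fun q => q.1 = p)).card :=
      Finset.card_eq_sum_card_fiberwise (fun q hq => by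
        rw [ht1, Finset.mem_coe, Finset.mem_filter, Finset.mem_product] at hq
        exact hq.1.1)
    rw [h1]
    push_cast
    refine le_trans (Finset.sum_le_sum fun p _ => ?_) hQ0
    have h2 : (t1.filter (fun q => q.1 = p)).card ≤
        (S.Bad ℓ s p.1 p.2 ×ˢ S.T p.1 p.2).card := by
      refine Finset.card_le_card_of_injOn (fun q => q.2) ?_ ?_
      · intro q hq
        rw [Finset.mem_coe, Finset.mem_filter, ht1, Finset.mem_filter] at hq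
        obtain ⟨⟨_, h3⟩, h4⟩ := hq
        rw [h4] at h3
        exact Finset.mem_product.2 h3
      · intro q hq q' hq' hh
        rw [Finset.mem_coe, Finset.mem_filter] at hq hq'
        exact Prod.ext (hq.2.trans hq'.2.symm) hh
    rw [Finset.card_product] at h2
    exact_mod_cast h2
  have hBigI : ∀ p ∈ S.Big τ, p.1 ∈ Iset n := by
    intro p hp
    unfold Big at hp
    rw [Finset.mem_filter, Finset.mem_product] at hp
    exact hp.1.1
  refine ri_card_sub E (fun e => ((S.al e.1.1 e.1.2.1 e.1.2.2, e.2.1), (e.1.2.1, e.1.1))) t1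
    (fun e => (e.1.2.2, e.2.2))
    (fun q => ((S.A q.1.1) ×ˢ (Iset n)).filter
      (fun r => Z ≤ (S.dist q.2.1 r.1 : ℝ) ∧ r.2 ∈ S.W q.2.1 r.1))
    Q0 (n * (Fintype.card L / Z)) ?_ ?_ ?_ hc1 ?_ (by positivity)
  · intro e he
    obtain ⟨h1, h2, h3, h4, h5, h6⟩ := hE e he
    rw [ht1, Finset.mem_filter, Finset.mem_product]
    exact ⟨⟨h1, Finset.mem_univ _⟩, h2, h3⟩
  · intro e he
    obtain ⟨h1, h2, h3, h4, h5, h6⟩ := hE e he
    rw [Finset.mem_filter, Finset.mem_product]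
    exact ⟨⟨h4, (S.mem_W.1 h6).1⟩, h5, h6⟩
  · intro e he e' he' h1 h2
    simp only [Prod.mk.injEq] at h1 h2
    obtain ⟨⟨_, h3⟩, h4, h5⟩ := h1
    obtain ⟨h6, h7⟩ := h2
    exact Prod.ext (Prod.ext h5 (Prod.ext h4 h6)) (Prod.ext h3 h7)
  · intro e he
    obtain ⟨h1, h2, h3, h4, h5, h6⟩ := hE e he
    refine S.ri_xb Z hZ (S.al e.1.1 e.1.2.1 e.1.2.2) (hBigI _ h1) e.1.2.1 _ ?_
    intro q hq
    rw [Finset.mem_filter, Finset.mem_product] at hq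
    exact ⟨hq.1.1, hq.2.1, hq.2.2⟩

open Classical in
/-- the possible pairs `(u, b)` for the cell `Y` of `C_a` -/
private noncomputable def ri_K (Z s : ℝ) (ℓ a Y : ℕ) : Finset (L × ℕ) :=
  (S.A a ×ˢ Iset n).filter (fun p => p.1 ∈ S.A p.2 ∧
    s ≤ (((S.T a p.2).filter (fun y => S.pos a y / ℓ = Y)).card : ℝ) ∧
    ∃ v ∈ S.A a, S.pos a v / ℓ = Y ∧ Z ≤ (S.dist p.1 v : ℝ))

open Classical in
private theorem ri_K_card (Z s : ℝ) (ℓ : ℕ) (hℓ : 1 ≤ ℓ) (hZ : 2 * ℓ ≤ Z) (hs : 0 < s)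
    (a Y : ℕ) (ha : a ∈ Iset n) :
    ((S.ri_K Z s ℓ a Y).card : ℝ) ≤ 2 * n * ℓ * Fintype.card L / (Z * s) := by
  have hℓr : (1 : ℝ) ≤ (ℓ : ℝ) := by exact_mod_cast hℓ
  have hZ0 : 0 < Z := by linarith
  set C : Finset L := (S.A a).filter (fun y => S.pos a y / ℓ = Y) with hC
  set K := S.ri_K Z s ℓ a Y with hK
  set G : Finset ((L × ℕ) × L) := (K ×ˢ C).filter (fun q => q.2 ∈ S.A q.1.2) with hG
  have hlow : s * (K.card : ℝ) ≤ G.card := by
    have h1 : G.card = ∑ p ∈ K, (G.filter (fun q => q.1 = p)).card :=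
      Finset.card_eq_sum_card_fiberwise (fun q hq => by
        rw [hG, Finset.mem_coe, Finset.mem_filter, Finset.mem_product] at hq
        exact hq.1.1)
    rw [h1]
    push_cast
    have h2 : ∑ _p ∈ K, s ≤ ∑ p ∈ K, ((G.filter (fun q => q.1 = p)).card : ℝ) := by
      refine Finset.sum_le_sum fun p hp => ?_
      have hp' := hp
      rw [hK] at hp'
      unfold ri_K at hp'
      rw [Finset.mem_filter, Finset.mem_product] at hp'
      obtain ⟨⟨h3, h4⟩, h5, h6, h7⟩ := hp'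
      refine h6.trans ?_
      have h8 : ((S.T a p.2).filter (fun y => S.pos a y / ℓ = Y)).card ≤
          (G.filter (fun q => q.1 = p)).card := by
        refine Finset.card_le_card_of_injOn (fun y => (p, y)) ?_ ?_
        · intro y hy
          rw [Finset.mem_coe, Finset.mem_filter, mem_T] at hy
          rw [Finset.mem_coe, Finset.mem_filter, hG, Finset.mem_filter, Finset.mem_product, hC,
            Finset.mem_filter]
          exact ⟨⟨⟨hp, hy.1.1, hy.2⟩, hy.1.2⟩, rfl⟩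
        · intro y _ y' _ hh
          exact (Prod.mk.inj hh).2
      exact_mod_cast h8
    rw [Finset.sum_const, nsmul_eq_mul] at h2
    linarith
  have hup : (G.card : ℝ) ≤ (n * ℓ) * (2 * Fintype.card L / Z) := by
    refine ri_card_sub G (fun q => (q.1.1, q.2)) (S.A a ×ˢ C) (fun q => q.1.2)
      (fun r => S.W r.1 r.2) (n * ℓ) (2 * Fintype.card L / Z) ?_ ?_ ?_ ?_ ?_ (by positivity)
    · intro q hq
      rw [hG, Finset.mem_filter, Finset.mem_product] at hq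
      have hq1 := hq.1.1
      rw [hK] at hq1
      unfold ri_K at hq1
      rw [Finset.mem_filter, Finset.mem_product] at hq1
      exact Finset.mem_product.2 ⟨hq1.1.1, hq.1.2⟩
    · intro q hq
      rw [hG, Finset.mem_filter, Finset.mem_product] at hq
      have hq1 := hq.1.1
      rw [hK] at hq1
      unfold ri_K at hq1
      rw [Finset.mem_filter, Finset.mem_product] at hq1
      exact S.mem_W.2 ⟨hq1.1.2, hq1.2.1, hq.2⟩
    · intro q _ q' _ h1 h2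
      simp only [Prod.mk.injEq] at h1 h2
      exact Prod.ext (Prod.ext h1.1 h2) h1.2
    · rw [Finset.card_product]
      have h1 := S.card_A_le ha
      have h2 : C.card ≤ ℓ := S.card_cell_le ha hℓ Y
      exact_mod_cast Nat.mul_le_mul h1 h2
    · intro q hq
      rw [hG, Finset.mem_filter, Finset.mem_product] at hq
      have hq1 := hq.1.1
      rw [hK] at hq1
      unfold ri_K at hq1
      rw [Finset.mem_filter, Finset.mem_product] at hq1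
      obtain ⟨v, hv1, hv2, hv3⟩ := hq1.2.2.2
      have hy := hq.1.2
      rw [hC, Finset.mem_filter] at hy
      have h1 : S.dist v q.2 < ℓ := S.dist_lt_of_cell ha hℓ hv1 hy.1 (hv2.trans hy.2.symm)
      have h2 : S.dist q.1.1 v ≤ S.dist q.1.1 q.2 + S.dist q.2 v :=
        S.dist_tri ha hq1.1.1 hy.1 hv1
      rw [S.dist_comm q.2 v] at h2
      have h3 : (S.dist q.1.1 v : ℝ) ≤ S.dist q.1.1 q.2 + S.dist v q.2 := by exact_mod_cast h2
      have h4 : (S.dist v q.2 : ℝ) ≤ ℓ := by exact_mod_cast h1.le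
      have h5 : Z / 2 ≤ (S.dist q.1.1 q.2 : ℝ) := by linarith
      have h6 := S.card_W_le (by linarith : 0 < Z / 2) h5
      refine h6.trans (le_of_eq ?_)
      field_simp
  have h3 : s * (K.card : ℝ) ≤ (n * ℓ) * (2 * Fintype.card L / Z) := hlow.trans hup
  rw [le_div_iff₀ (by positivity)]
  have h4 : (n * ℓ : ℝ) * (2 * Fintype.card L / Z) * Z = 2 * n * ℓ * Fintype.card L := by
    field_simp
  nlinarith [mul_le_mul_of_nonneg_right h3 hZ0.le]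

open Classical in
/-- the keys -/
private theorem ri_keys (Z s : ℝ) (ℓ : ℕ) (hn : 1 ≤ n) (hℓ : 1 ≤ ℓ) (hZ : 2 * ℓ ≤ Z) (hs : 0 < s)
    (t : Finset ((ℕ × ℕ) × ((L × ℕ) × (L × ℕ))))
    (ht : ∀ q ∈ t, q.1.1 ∈ Iset n ∧ q.1.2 < n / ℓ + 1 ∧ q.2.1 ∈ S.ri_K Z s ℓ q.1.1 q.1.2 ∧
      q.2.2 ∈ S.ri_K Z s ℓ q.1.1 q.1.2) :
    (t.card : ℝ) ≤ n * (n / ℓ + 1) * (2 * n * ℓ * Fintype.card L / (Z * s)) ^ 2 := by
  have hℓr : (1 : ℝ) ≤ (ℓ : ℝ) := by exact_mod_cast hℓ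
  have hZ0 : 0 < Z := by linarith
  refine ri_card_sub t (fun q => q.1) (Iset n ×ˢ Finset.range (n / ℓ + 1)) (fun q => q.2)
    (fun r => S.ri_K Z s ℓ r.1 r.2 ×ˢ S.ri_K Z s ℓ r.1 r.2) (n * (n / ℓ + 1)) _ ?_ ?_ ?_ ?_ ?_
    (by positivity)
  · intro q hq
    obtain ⟨h1, h2, h3, h4⟩ := ht q hq
    exact Finset.mem_product.2 ⟨h1, Finset.mem_range.2 h2⟩
  · intro q hq
    obtain ⟨h1, h2, h3, h4⟩ := ht q hq
    exact Finset.mem_product.2 ⟨h3, h4⟩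
  · intro q _ q' _ h1 h2
    exact Prod.ext h1 h2
  · rw [Finset.card_product, Finset.card_range]
    push_cast
    have h1 : ((Iset n).card : ℝ) ≤ n := by exact_mod_cast card_Iset_le hn
    have h2 : ((n / ℓ : ℕ) : ℝ) ≤ (n : ℝ) / ℓ := Nat.cast_div_le
    exact mul_le_mul h1 (by linarith) (by positivity) (by positivity)
  · intro q hq
    obtain ⟨h1, h2, h3, h4⟩ := ht q hq
    rw [Finset.card_product, sq]
    push_cast
    have h5 := S.ri_K_card Z s ℓ hℓ hZ hs q.1.1 q.1.2 h1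
    exact mul_le_mul h5 h5 (by positivity) (by positivity)

/-- the pair of elements with the same key -/
private def ri_P (a : ℕ) (u z z' x : L) (b1 b2 : ℕ) : Prop :=
  a ∈ Iset n ∧ u ∈ S.A a ∧ z ∈ S.A a ∧ z' ∈ S.A a ∧ x ∈ S.A a ∧ S.al u z x = a ∧
    b1 ∈ S.W u z ∧ b1 ∈ S.W u z' ∧ b2 ∈ S.W z x ∧ b2 ∈ S.W z' x

open Classical in
private theorem ri_near (Z y : ℝ) (hn : 1 ≤ n) (hZ : 0 < Z) (hy : 0 < y)
    (P : Finset (((L × L × L) × (ℕ × ℕ)) × L))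
    (hP : ∀ p ∈ P, S.ri_P (S.al p.1.1.1 p.1.1.2.1 p.1.1.2.2) p.1.1.1 p.1.1.2.1 p.2 p.1.1.2.2
        p.1.2.1 p.1.2.2 ∧ Z ≤ S.dist p.1.1.1 p.1.1.2.1 ∧ Z ≤ S.dist p.1.1.2.1 p.1.1.2.2 ∧
        (S.dist p.1.1.2.1 p.2 : ℝ) < y) :
    (P.card : ℝ) ≤ n ^ 4 * ((Fintype.card L / Z) ^ 2 * (2 * y + 1)) := by
  have hA : ∀ s : Finset (ℕ × L × L × L),
      (∀ q ∈ s, q.1 ∈ Iset n ∧ q.2.1 ∈ S.A q.1 ∧ q.2.2.1 ∈ S.A q.1 ∧ q.2.2.2 ∈ S.A q.1) →
      (s.card : ℝ) ≤ (n : ℝ) ^ 4 := by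
    intro s hs
    have h := ri_card_sub s (fun q => q.1) (Iset n) (fun q => q.2)
      (fun a => S.A a ×ˢ (S.A a ×ˢ S.A a)) n ((n : ℝ) * (n * n))
      (fun q hq => (hs q hq).1)
      (fun q hq => Finset.mem_product.2 ⟨(hs q hq).2.1,
        Finset.mem_product.2 ⟨(hs q hq).2.2.1, (hs q hq).2.2.2⟩⟩)
      (fun q _ q' _ h1 h2 => Prod.ext h1 h2) (by exact_mod_cast card_Iset_le hn)
      (fun q hq => by
        rw [Finset.card_product, Finset.card_product]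
        have := S.card_A_le (hs q hq).1
        exact_mod_cast Nat.mul_le_mul this (Nat.mul_le_mul this this))
      (by positivity)
    refine h.trans (le_of_eq ?_)
    ring
  refine ri_card_sub P
    (fun p => (S.al p.1.1.1 p.1.1.2.1 p.1.1.2.2, p.1.1.1, p.1.1.2.1, p.1.1.2.2))
    ((Iset n ×ˢ Finset.univ).filter (fun q =>
      q.2.1 ∈ S.A q.1 ∧ q.2.2.1 ∈ S.A q.1 ∧ q.2.2.2 ∈ S.A q.1))
    (fun p => ((p.1.2.1, p.1.2.2), p.2))
    (fun q => (S.W q.2.1 q.2.2.1 ×ˢ S.W q.2.2.1 q.2.2.2) ×ˢ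
      ((S.A q.1).filter (fun z => (S.dist q.2.2.1 z : ℝ) < y)))
    _ _ ?_ ?_ ?_ (hA _ ?_) ?_ (by positivity)
  · intro p hp
    obtain ⟨⟨h1, h2, h3, h4, h5, h6, h7, h8, h9, h10⟩, h11, h12, h13⟩ := hP p hp
    rw [Finset.mem_filter, Finset.mem_product]
    exact ⟨⟨h1, Finset.mem_univ _⟩, h2, h3, h5⟩
  · intro p hp
    obtain ⟨⟨h1, h2, h3, h4, h5, h6, h7, h8, h9, h10⟩, h11, h12, h13⟩ := hP p hp
    rw [Finset.mem_product, Finset.mem_product, Finset.mem_filter]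
    exact ⟨⟨h7, h9⟩, h4, h13⟩
  · intro p _ p' _ h1 h2
    simp only [Prod.mk.injEq] at h1 h2
    obtain ⟨_, h3, h4, h5⟩ := h1
    obtain ⟨⟨h6, h7⟩, h8⟩ := h2
    exact Prod.ext (Prod.ext (Prod.ext h3 (Prod.ext h4 h5)) (Prod.ext h6 h7)) h8
  · intro q hq
    rw [Finset.mem_filter, Finset.mem_product] at hq
    exact ⟨hq.1.1, hq.2⟩
  · intro p hp
    obtain ⟨⟨h1, h2, h3, h4, h5, h6, h7, h8, h9, h10⟩, h11, h12, h13⟩ := hP p hp
    rw [Finset.card_product, Finset.card_product]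
    push_cast
    have k1 := S.card_W_le hZ h11
    have k2 := S.card_W_le hZ h12
    have k3 := S.near_card_real h1 h3 hy.le
    rw [sq]
    exact mul_le_mul (mul_le_mul k1 k2 (by positivity) (by positivity)) k3 (by positivity)
      (by positivity)

open Classical in
private theorem ri_far (y : ℝ) (ℓ : ℕ) (hn : 1 ≤ n) (hy : 0 < y)
    (P : Finset (((L × L × L) × (ℕ × ℕ)) × L))
    (hP : ∀ p ∈ P, S.ri_P (S.al p.1.1.1 p.1.1.2.1 p.1.1.2.2) p.1.1.1 p.1.1.2.1 p.2 p.1.1.2.2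
        p.1.2.1 p.1.2.2 ∧ S.dist p.1.1.2.1 p.2 < ℓ ∧ y ≤ (S.dist p.1.1.2.1 p.2 : ℝ)) :
    (P.card : ℝ) ≤ n ^ 4 * ((2 * ℓ + 1) * Fintype.card L / y) := by
  -- `(b1, z, u, z')`
  have hA : ∀ s : Finset (ℕ × L × L × L),
      (∀ q ∈ s, q.1 ∈ Iset n ∧ q.2.1 ∈ S.A q.1 ∧ q.2.2.1 ∈ S.A q.1 ∧ q.2.2.2 ∈ S.A q.1 ∧
        S.dist q.2.1 q.2.2.2 ≤ ℓ) →
      (s.card : ℝ) ≤ (n * (n * n)) * (2 * ℓ + 1) := by
    intro s hs
    refine ri_card_sub s (fun q => (q.1, q.2.1, q.2.2.1))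
      ((Iset n ×ˢ Finset.univ).filter (fun r => r.2.1 ∈ S.A r.1 ∧ r.2.2 ∈ S.A r.1))
      (fun q => q.2.2.2)
      (fun r => (S.A r.1).filter (fun z => S.dist r.2.1 z ≤ ℓ)) _ _ ?_ ?_ ?_ ?_ ?_ (by positivity)
    · intro q hq
      obtain ⟨h1, h2, h3, h4, h5⟩ := hs q hq
      rw [Finset.mem_filter, Finset.mem_product]
      exact ⟨⟨h1, Finset.mem_univ _⟩, h2, h3⟩
    · intro q hq
      obtain ⟨h1, h2, h3, h4, h5⟩ := hs q hq
      rw [Finset.mem_filter]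
      exact ⟨h4, h5⟩
    · intro q _ q' _ h1 h2
      simp only [Prod.mk.injEq] at h1 h2
      exact Prod.ext h1.1 (Prod.ext h1.2.1 (Prod.ext h1.2.2 h2))
    · refine ri_card_sub _ (fun r => r.1) (Iset n) (fun r => r.2) (fun a => S.A a ×ˢ S.A a) n
        ((n : ℝ) * n) ?_ ?_ (fun q _ q' _ h1 h2 => Prod.ext h1 h2)
        (by exact_mod_cast card_Iset_le hn) ?_ (by positivity)
      · intro r hr
        rw [Finset.mem_filter, Finset.mem_product] at hr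
        exact hr.1.1
      · intro r hr
        rw [Finset.mem_filter, Finset.mem_product] at hr
        exact Finset.mem_product.2 hr.2
      · intro r hr
        rw [Finset.mem_filter, Finset.mem_product] at hr
        rw [Finset.card_product]
        have := S.card_A_le hr.1.1
        exact_mod_cast Nat.mul_le_mul this this
    · intro q hq
      obtain ⟨h1, h2, h3, h4, h5⟩ := hs q hq
      exact_mod_cast S.near_card h1 h2 ℓ
  have h := ri_card_sub P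
    (fun p => (p.1.2.1, p.1.1.2.1, p.1.1.1, p.2))
    ((Iset n ×ˢ Finset.univ).filter (fun q =>
      q.2.1 ∈ S.A q.1 ∧ q.2.2.1 ∈ S.A q.1 ∧ q.2.2.2 ∈ S.A q.1 ∧ S.dist q.2.1 q.2.2.2 ≤ ℓ))
    (fun p => (p.1.2.2, p.1.1.2.2))
    (fun q => (S.W q.2.1 q.2.2.2 ×ˢ Finset.univ).filter (fun r => r.2 ∈ S.A r.1))
    ((n * (n * n)) * (2 * ℓ + 1)) (Fintype.card L / y * n) ?_ ?_ ?_ (hA _ ?_) ?_ (by positivity)
  · refine h.trans (le_of_eq ?_)
    field_simp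
  · intro p hp
    obtain ⟨⟨h1, h2, h3, h4, h5, h6, h7, h8, h9, h10⟩, h11, h12⟩ := hP p hp
    rw [mem_W] at h7 h8
    rw [Finset.mem_filter, Finset.mem_product]
    exact ⟨⟨h7.1, Finset.mem_univ _⟩, h7.2.2, h7.2.1, h8.2.2, h11.le⟩
  · intro p hp
    obtain ⟨⟨h1, h2, h3, h4, h5, h6, h7, h8, h9, h10⟩, h11, h12⟩ := hP p hp
    rw [mem_W] at h9 h10
    rw [Finset.mem_filter, Finset.mem_product, mem_W]
    exact ⟨⟨⟨h9.1, h9.2.1, h10.2.1⟩, Finset.mem_univ _⟩, h9.2.2⟩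
  · intro p _ p' _ h1 h2
    simp only [Prod.mk.injEq] at h1 h2
    obtain ⟨h3, h4, h5, h6⟩ := h1
    obtain ⟨h7, h8⟩ := h2
    exact Prod.ext (Prod.ext (Prod.ext h5 (Prod.ext h4 h8)) (Prod.ext h3 h7)) h6
  · intro q hq
    rw [Finset.mem_filter, Finset.mem_product] at hq
    exact ⟨hq.1.1, hq.2⟩
  · intro p hp
    obtain ⟨⟨h1, h2, h3, h4, h5, h6, h7, h8, h9, h10⟩, h11, h12⟩ := hP p hp
    refine ri_card_sub _ (fun r => r.1) (S.W p.1.1.2.1 p.2) (fun r => r.2) (fun b => S.A b)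
      (Fintype.card L / y) n ?_ ?_ (fun q _ q' _ h1 h2 => Prod.ext h1 h2)
      (S.card_W_le hy h12) ?_ (by positivity)
    · intro r hr
      rw [Finset.mem_filter, Finset.mem_product] at hr
      exact hr.1.1
    · intro r hr
      rw [Finset.mem_filter, Finset.mem_product] at hr
      exact hr.2
    · intro r hr
      rw [Finset.mem_filter, Finset.mem_product] at hr
      exact_mod_cast S.card_A_le (S.mem_W.1 hr.1.1).1

theorem rich_rich_le (hn : 1 ≤ n) (Z τ ρ s y Q0 : ℝ) (ℓ : ℕ) (hℓ : 1 ≤ ℓ) (hZ : 2 * ℓ ≤ Z)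
    (hℓn : 4 * ℓ ≤ n) (hs : 0 < s) (hy : 0 < y) (hρ : 0 ≤ ρ)
    (hQ0 : ∑ p ∈ S.Big τ, ((S.Bad ℓ s p.1 p.2).card : ℝ) * ((S.T p.1 p.2).card : ℝ) ≤ Q0)
    (𝒯 : Finset (L × L × L))
    (h𝒯 : ∀ t ∈ 𝒯, S.Ac t.1 t.2.1 t.2.2 ∧ Z ≤ S.dist t.1 t.2.1 ∧ Z ≤ S.dist t.2.1 t.2.2 ∧
      ρ ≤ S.rc (S.al t.1 t.2.1 t.2.2) t.1 t.2.1 τ ∧
      ρ ≤ S.rc (S.al t.1 t.2.1 t.2.2) t.2.1 t.2.2 τ) :
    (𝒯.card : ℝ) * ρ ^ 2 ≤ 2 * Q0 * n * (Fintype.card L / Z) +
      √(n * (n / ℓ + 1) * (2 * n * ℓ * Fintype.card L / (Z * s)) ^ 2 *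
        (n ^ 4 * ((Fintype.card L / Z) ^ 2 * (2 * y + 1) + (2 * ℓ + 1) * Fintype.card L / y))) := by
  classical
  have hℓr : (1 : ℝ) ≤ (ℓ : ℝ) := by exact_mod_cast hℓ
  have hZ0 : 0 < Z := by linarith
  set SS : Finset ((L × L × L) × (ℕ × ℕ)) := (𝒯 ×ˢ (Iset n ×ˢ Iset n)).filter (fun e =>
    e.2.1 ∈ S.W e.1.1 e.1.2.1 ∧
    τ ≤ ((S.T (S.al e.1.1 e.1.2.1 e.1.2.2) e.2.1).card : ℝ) ∧
    e.2.2 ∈ S.W e.1.2.1 e.1.2.2 ∧
    τ ≤ ((S.T (S.al e.1.1 e.1.2.1 e.1.2.2) e.2.2).card : ℝ)) with hSS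
  have hmem : ∀ e ∈ SS, S.Ac e.1.1 e.1.2.1 e.1.2.2 ∧ Z ≤ S.dist e.1.1 e.1.2.1 ∧
      Z ≤ S.dist e.1.2.1 e.1.2.2 ∧ e.2.1 ∈ S.W e.1.1 e.1.2.1 ∧
      τ ≤ ((S.T (S.al e.1.1 e.1.2.1 e.1.2.2) e.2.1).card : ℝ) ∧
      e.2.2 ∈ S.W e.1.2.1 e.1.2.2 ∧
      τ ≤ ((S.T (S.al e.1.1 e.1.2.1 e.1.2.2) e.2.2).card : ℝ) := by
    intro e he
    rw [hSS, Finset.mem_filter, Finset.mem_product] at he
    obtain ⟨⟨h1, _⟩, h2, h3, h4, h5⟩ := he
    obtain ⟨k1, k2, k3, _, _⟩ := h𝒯 _ h1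
    exact ⟨k1, k2, k3, h2, h3, h4, h5⟩
  -- lower bound
  have hlow : (𝒯.card : ℝ) * ρ ^ 2 ≤ SS.card := by
    have h1 : SS.card = ∑ t ∈ 𝒯, (SS.filter (fun e => e.1 = t)).card :=
      Finset.card_eq_sum_card_fiberwise (fun e he => by
        rw [hSS, Finset.mem_coe, Finset.mem_filter, Finset.mem_product] at he
        exact he.1.1)
    rw [h1]
    push_cast
    have h2 : ∑ _t ∈ 𝒯, ρ ^ 2 ≤ ∑ t ∈ 𝒯, ((SS.filter (fun e => e.1 = t)).card : ℝ) := by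
      refine Finset.sum_le_sum fun t ht => ?_
      obtain ⟨k1, k2, k3, k4, k5⟩ := h𝒯 t ht
      have h3 : S.rc (S.al t.1 t.2.1 t.2.2) t.1 t.2.1 τ *
          S.rc (S.al t.1 t.2.1 t.2.2) t.2.1 t.2.2 τ ≤ (SS.filter (fun e => e.1 = t)).card := by
        unfold rc
        rw [← Finset.card_product]
        refine Finset.card_le_card_of_injOn (fun b => (t, b)) ?_ ?_
        · intro b hb
          rw [Finset.mem_coe, Finset.mem_product, Finset.mem_filter, Finset.mem_filter] at hb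
          obtain ⟨⟨b1, b2⟩, b3, b4⟩ := hb
          rw [Finset.mem_coe, Finset.mem_filter, hSS, Finset.mem_filter, Finset.mem_product,
            Finset.mem_product]
          exact ⟨⟨⟨ht, (S.mem_W.1 b1).1, (S.mem_W.1 b3).1⟩, b1, b2, b3, b4⟩, rfl⟩
        · intro b _ b' _ hh
          exact (Prod.mk.inj hh).2
      have h4 : (S.rc (S.al t.1 t.2.1 t.2.2) t.1 t.2.1 τ : ℝ) *
          S.rc (S.al t.1 t.2.1 t.2.2) t.2.1 t.2.2 τ ≤ (SS.filter (fun e => e.1 = t)).card := by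
        exact_mod_cast h3
      have h5 : ρ * ρ ≤ (S.rc (S.al t.1 t.2.1 t.2.2) t.1 t.2.1 τ : ℝ) *
          S.rc (S.al t.1 t.2.1 t.2.2) t.2.1 t.2.2 τ := mul_le_mul k4 k5 hρ (by positivity)
      rw [sq]
      exact h5.trans h4
    rw [Finset.sum_const, nsmul_eq_mul] at h2
    exact h2
  -- the bad parts
  have hBig : ∀ a b : ℕ, a ∈ Iset n → b ∈ Iset n → τ ≤ ((S.T a b).card : ℝ) →
      (a, b) ∈ S.Big τ := by
    intro a b ha hb hab
    unfold Big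
    rw [Finset.mem_filter, Finset.mem_product]
    exact ⟨⟨ha, hb⟩, hab⟩
  set B1 := SS.filter (fun e =>
    e.1.2.1 ∈ S.Bad ℓ s (S.al e.1.1 e.1.2.1 e.1.2.2) e.2.1) with hB1
  set B2 := SS.filter (fun e =>
    e.1.2.1 ∈ S.Bad ℓ s (S.al e.1.1 e.1.2.1 e.1.2.2) e.2.2) with hB2
  set G := SS.filter (fun e =>
    ¬ (e.1.2.1 ∈ S.Bad ℓ s (S.al e.1.1 e.1.2.1 e.1.2.2) e.2.1) ∧
    ¬ (e.1.2.1 ∈ S.Bad ℓ s (S.al e.1.1 e.1.2.1 e.1.2.2) e.2.2)) with hG
  have hsplit : SS.card ≤ B1.card + B2.card + G.card := by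
    have h1 : SS ⊆ B1 ∪ B2 ∪ G := by
      intro e he
      rw [Finset.mem_union, Finset.mem_union]
      by_cases c1 : e.1.2.1 ∈ S.Bad ℓ s (S.al e.1.1 e.1.2.1 e.1.2.2) e.2.1
      · exact Or.inl (Or.inl (Finset.mem_filter.2 ⟨he, c1⟩))
      · by_cases c2 : e.1.2.1 ∈ S.Bad ℓ s (S.al e.1.1 e.1.2.1 e.1.2.2) e.2.2
        · exact Or.inl (Or.inr (Finset.mem_filter.2 ⟨he, c2⟩))
        · exact Or.inr (Finset.mem_filter.2 ⟨he, c1, c2⟩)
    refine (Finset.card_le_card h1).trans ((Finset.card_union_le _ _).trans ?_)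
    have := Finset.card_union_le B1 B2
    omega
  have hb1 : (B1.card : ℝ) ≤ Q0 * (n * (Fintype.card L / Z)) := by
    refine S.ri_bad Z τ Q0 s ℓ hZ0 hQ0 B1 ?_
    intro e he
    rw [hB1, Finset.mem_filter] at he
    obtain ⟨k1, k2, k3, k4, k5, k6, k7⟩ := hmem e he.1
    obtain ⟨a1, a2, a3, a4⟩ := k1
    have w1 := S.mem_W.1 k4
    exact ⟨hBig _ _ a1 w1.1 k5, he.2, S.mem_T.2 ⟨a2, w1.2.1⟩, a4, k3, k6⟩
  have hb2 : (B2.card : ℝ) ≤ Q0 * (n * (Fintype.card L / Z)) := by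
    set sw : (L × L × L) × (ℕ × ℕ) → (L × L × L) × (ℕ × ℕ) :=
      fun e => ((e.1.2.2, e.1.2.1, e.1.1), (e.2.2, e.2.1)) with hsw
    have hinj : Set.InjOn sw (B2 : Set ((L × L × L) × (ℕ × ℕ))) := by
      intro e _ e' _ hh
      simp only [hsw, Prod.mk.injEq] at hh
      obtain ⟨⟨h1, h2, h3⟩, h4, h5⟩ := hh
      exact Prod.ext (Prod.ext h3 (Prod.ext h2 h1)) (Prod.ext h5 h4)
    rw [← Finset.card_image_of_injOn hinj]
    refine S.ri_bad Z τ Q0 s ℓ hZ0 hQ0 (B2.image sw) ?_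
    intro e' he'
    rw [Finset.mem_image] at he'
    obtain ⟨e, he, rfl⟩ := he'
    rw [hB2, Finset.mem_filter] at he
    obtain ⟨k1, k2, k3, k4, k5, k6, k7⟩ := hmem e he.1
    obtain ⟨a1, a2, a3, a4⟩ := k1
    have w1 := S.mem_W.1 k4
    have w2 := S.mem_W.1 k6
    simp only [hsw]
    rw [← S.al_comm13 e.1.1 e.1.2.1 e.1.2.2, S.dist_comm e.1.2.1 e.1.1, S.W_comm e.1.2.1 e.1.1]
    exact ⟨hBig _ _ a1 w2.1 k7, he.2, S.mem_T.2 ⟨a4, w2.2.2⟩, a2, k2, k4⟩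
  -- the main part
  set key : (L × L × L) × (ℕ × ℕ) → (ℕ × ℕ) × ((L × ℕ) × (L × ℕ)) :=
    fun e => ((S.al e.1.1 e.1.2.1 e.1.2.2,
      S.pos (S.al e.1.1 e.1.2.1 e.1.2.2) e.1.2.1 / ℓ), ((e.1.1, e.2.1), (e.1.2.2, e.2.2)))
    with hkey
  have hGm : ∀ e ∈ G, e ∈ SS := fun e he => (Finset.mem_filter.1 he).1
  have hkeys : ((G.image key).card : ℝ) ≤
      n * (n / ℓ + 1) * (2 * n * ℓ * Fintype.card L / (Z * s)) ^ 2 := by
    refine S.ri_keys Z s ℓ hn hℓ hZ hs (G.image key) ?_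
    intro q hq
    rw [Finset.mem_image] at hq
    obtain ⟨e, he, rfl⟩ := hq
    have he' := he
    rw [hG, Finset.mem_filter] at he'
    obtain ⟨k1, k2, k3, k4, k5, k6, k7⟩ := hmem e he'.1
    obtain ⟨a1, a2, a3, a4⟩ := k1
    have w1 := S.mem_W.1 k4
    have w2 := S.mem_W.1 k6
    simp only [hkey]
    have hnb : ∀ b : ℕ, e.1.2.1 ∈ S.A b →
        ¬ (e.1.2.1 ∈ S.Bad ℓ s (S.al e.1.1 e.1.2.1 e.1.2.2) b) →
        s ≤ (((S.T (S.al e.1.1 e.1.2.1 e.1.2.2) b).filter (fun y =>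
          S.pos (S.al e.1.1 e.1.2.1 e.1.2.2) y / ℓ =
            S.pos (S.al e.1.1 e.1.2.1 e.1.2.2) e.1.2.1 / ℓ)).card : ℝ) := by
      intro b hb h
      unfold Bad at h
      rw [Finset.mem_filter, not_and] at h
      exact not_lt.1 (h (S.mem_T.2 ⟨a3, hb⟩))
    refine ⟨a1, ?_, ?_, ?_⟩
    · have h1 := S.pos_lt _ a1 _ a3
      have h2 := (mem_Iset.1 a1).2
      have h3 : S.pos (S.al e.1.1 e.1.2.1 e.1.2.2) e.1.2.1 / ℓ ≤ n / ℓ :=
        Nat.div_le_div_right (by omega)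
      omega
    · unfold ri_K
      rw [Finset.mem_filter, Finset.mem_product]
      exact ⟨⟨a2, w1.1⟩, w1.2.1, hnb _ w1.2.2 he'.2.1, e.1.2.1, a3, rfl, k2⟩
    · unfold ri_K
      rw [Finset.mem_filter, Finset.mem_product]
      refine ⟨⟨a4, w2.1⟩, w2.2.2, hnb _ w2.2.1 he'.2.2, e.1.2.1, a3, rfl, ?_⟩
      simp only
      rw [S.dist_comm]
      exact k3
  set PP := (G ×ˢ G).filter (fun p => key p.1 = key p.2) with hPP
  set pr : ((L × L × L) × (ℕ × ℕ)) × ((L × L × L) × (ℕ × ℕ)) →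
      ((L × L × L) × (ℕ × ℕ)) × L := fun p => (p.1, p.2.1.2.1) with hpr
  have hprinj : Set.InjOn pr (PP : Set (((L × L × L) × (ℕ × ℕ)) × ((L × L × L) × (ℕ × ℕ)))) := by
    intro p hp p' hp' hh
    rw [Finset.mem_coe, hPP, Finset.mem_filter] at hp hp'
    simp only [hpr, Prod.mk.injEq] at hh
    obtain ⟨h1, h2⟩ := hh
    have h3 := hp.2
    have h4 := hp'.2
    rw [h1] at h3
    have h5 : key p.2 = key p'.2 := h3.symm.trans h4
    simp only [hkey, Prod.mk.injEq] at h5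
    obtain ⟨_, ⟨h6, h7⟩, h8, h9⟩ := h5
    exact Prod.ext h1 (Prod.ext (Prod.ext h6 (Prod.ext h2 h8)) (Prod.ext h7 h9))
  set P := PP.image pr with hP
  have hPcard : P.card = PP.card := Finset.card_image_of_injOn hprinj
  have hPm : ∀ q ∈ P, S.ri_P (S.al q.1.1.1 q.1.1.2.1 q.1.1.2.2) q.1.1.1 q.1.1.2.1 q.2 q.1.1.2.2
        q.1.2.1 q.1.2.2 ∧ Z ≤ S.dist q.1.1.1 q.1.1.2.1 ∧ Z ≤ S.dist q.1.1.2.1 q.1.1.2.2 ∧
        S.dist q.1.1.2.1 q.2 < ℓ := by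
    intro q hq
    rw [hP, Finset.mem_image] at hq
    obtain ⟨p, hp, rfl⟩ := hq
    rw [hPP, Finset.mem_filter, Finset.mem_product] at hp
    obtain ⟨⟨g1, g2⟩, hk⟩ := hp
    obtain ⟨k1, k2, k3, k4, k5, k6, k7⟩ := hmem _ (hGm _ g1)
    obtain ⟨l1, l2, l3, l4, l5, l6, l7⟩ := hmem _ (hGm _ g2)
    obtain ⟨a1, a2, a3, a4⟩ := k1
    obtain ⟨c1, c2, c3, c4⟩ := l1
    simp only [hkey, Prod.mk.injEq] at hk
    obtain ⟨⟨e1, e2⟩, ⟨e3, e4⟩, e5, e6⟩ := hk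
    rw [← e1] at c3 e2
    rw [← e3, ← e4] at l4
    rw [← e5, ← e6] at l6
    simp only [hpr]
    exact ⟨⟨a1, a2, a3, c3, a4, rfl, k4, l4, k6, l6⟩, k2, k3,
      S.dist_lt_of_cell a1 hℓ a3 c3 e2⟩
  have hPle : (P.card : ℝ) ≤ n ^ 4 * ((Fintype.card L / Z) ^ 2 * (2 * y + 1)) +
      n ^ 4 * ((2 * ℓ + 1) * Fintype.card L / y) := by
    have h1 : P.card ≤ (P.filter (fun q => (S.dist q.1.1.2.1 q.2 : ℝ) < y)).card +
        (P.filter (fun q => ¬ (S.dist q.1.1.2.1 q.2 : ℝ) < y)).card := by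
      rw [Finset.card_filter_add_card_filter_not]
    have h2 := S.ri_near Z y hn hZ0 hy (P.filter (fun q => (S.dist q.1.1.2.1 q.2 : ℝ) < y))
      (by
        intro q hq
        rw [Finset.mem_filter] at hq
        obtain ⟨k1, k2, k3, k4⟩ := hPm q hq.1
        exact ⟨k1, k2, k3, hq.2⟩)
    have h3 := S.ri_far y ℓ hn hy (P.filter (fun q => ¬ (S.dist q.1.1.2.1 q.2 : ℝ) < y))
      (by
        intro q hq
        rw [Finset.mem_filter] at hq
        obtain ⟨k1, k2, k3, k4⟩ := hPm q hq.1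
        exact ⟨k1, k4, not_lt.1 hq.2⟩)
    have h4 : (P.card : ℝ) ≤ ((P.filter (fun q => (S.dist q.1.1.2.1 q.2 : ℝ) < y)).card : ℝ) +
        ((P.filter (fun q => ¬ (S.dist q.1.1.2.1 q.2 : ℝ) < y)).card : ℝ) := by
      exact_mod_cast h1
    linarith
  have hGle : (G.card : ℝ) ≤
      √(n * (n / ℓ + 1) * (2 * n * ℓ * Fintype.card L / (Z * s)) ^ 2 *
        (n ^ 4 * ((Fintype.card L / Z) ^ 2 * (2 * y + 1) +
          (2 * ℓ + 1) * Fintype.card L / y))) := by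
    refine Real.le_sqrt_of_sq_le ?_
    have h1 := cs_pairs G (G.image key) key (fun e he => Finset.mem_image_of_mem key he)
    refine h1.trans ?_
    have h2 : (((G ×ˢ G).filter (fun p => key p.1 = key p.2)).card : ℝ) ≤
        n ^ 4 * ((Fintype.card L / Z) ^ 2 * (2 * y + 1) +
          (2 * ℓ + 1) * Fintype.card L / y) := by
      have h3 : ((G ×ˢ G).filter (fun p => key p.1 = key p.2)).card = P.card := by
        rw [hPcard, hPP]
      rw [h3, mul_add]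
      exact hPle
    exact mul_le_mul hkeys h2 (by positivity) (by positivity)
  have hfin : (SS.card : ℝ) ≤ B1.card + B2.card + G.card := by exact_mod_cast hsplit
  have hassoc : 2 * Q0 * n * (Fintype.card L / Z) =
      Q0 * (n * (Fintype.card L / Z)) + Q0 * (n * (Fintype.card L / Z)) := by ring
  rw [hassoc]
  linarith

end Sys

end Pool.Agent.Hhelper71.LD43
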