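import Mathlib
import Pool.Agent.Hhelper71.LD43.Basic

/-!
# Distance labelings of cycles: sums over pairs of cycles
-/

set_option linter.unusedSectionVars false
set_option linter.unusedVariables false

namespace Pool.Agent.Hhelper71.LD43

/-- at most two positions at cyclic distance exactly `d` -/
private theorem su_cyc_eq_card (i p d : ℕ) (hp : p < i) :
    ((Finset.range i).filter (fun q => cyc i p q = d)).card ≤ 2 := by
  have h1 : (Finset.range i).filter (fun q => cyc i p q = d) ⊆
      {if p + d < i then p + d else p + d - i, if d ≤ p then p - d else p + i - d} := by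
    intro q hq
    simp only [Finset.mem_filter, Finset.mem_range] at hq
    obtain ⟨hq1, hq2⟩ := hq
    simp only [Finset.mem_insert, Finset.mem_singleton]
    unfold cyc at hq2
    split_ifs <;> omega
  exact (Finset.card_le_card h1).trans Finset.card_le_two

private theorem su_harm (n : ℕ) :
    ∑ d ∈ Finset.Icc 1 n, (2 : ℝ) * (1 / (d : ℝ)) ≤ 2 * (1 + Real.log n) := by
  rw [← Finset.mul_sum]
  have h := harmonic_le_one_add_log n
  rw [harmonic_eq_sum_Icc] at h
  push_cast at h
  have e : ∑ d ∈ Finset.Icc 1 n, (1 / (d : ℝ)) = ∑ d ∈ Finset.Icc 1 n, ((d : ℝ))⁻¹ :=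
    Finset.sum_congr rfl fun d _ => by rw [one_div]
  rw [e]
  linarith

namespace Sys

variable {n : ℕ} {L : Type} [Fintype L] [DecidableEq L] (S : Sys n L)

private noncomputable def su_al (S : Sys n L) (a : ℕ) (p : L) : ℝ := if p ∈ S.A a then 1 else 0

private theorem su_card_T (a b : ℕ) :
    ((S.T a b).card : ℝ) = ∑ p : L, su_al S a p * su_al S b p := by
  have h : (S.T a b) = Finset.univ.filter (fun p => p ∈ S.A a ∧ p ∈ S.A b) := by
    ext p
    simp [mem_T]
  rw [h, Finset.card_filter]
  push_cast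
  refine Finset.sum_congr rfl fun p _ => ?_
  unfold su_al
  by_cases h1 : p ∈ S.A a <;> by_cases h2 : p ∈ S.A b <;> simp [h1, h2]

private theorem su_card_W (p q : L) :
    ((S.W p q).card : ℝ) = ∑ i ∈ Iset n, su_al S i p * su_al S i q := by
  unfold W
  rw [Finset.card_filter]
  push_cast
  refine Finset.sum_congr rfl fun i _ => ?_
  unfold su_al
  by_cases h1 : p ∈ S.A i <;> by_cases h2 : q ∈ S.A i <;> simp [h1, h2]

private theorem su_al_sq (a : ℕ) (p : L) : su_al S a p * su_al S a p = su_al S a p := by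
  unfold su_al
  split_ifs <;> simp

private theorem su_al_nonneg (a : ℕ) (p : L) : 0 ≤ su_al S a p := by
  unfold su_al
  split_ifs <;> norm_num

private theorem su_sum_al (a : ℕ) : ∑ p : L, su_al S a p = ((S.A a).card : ℝ) := by
  unfold su_al
  rw [Finset.sum_ite_mem, Finset.univ_inter]
  simp

/-- exchange of the sums -/
private theorem su_swap :
    ∑ a ∈ Iset n, ∑ b ∈ Iset n, ((S.T a b).card : ℝ) ^ 2 =
      ∑ p : L, ∑ q : L, ((S.W p q).card : ℝ) ^ 2 := by
  have h1 : ∀ a b : ℕ, ((S.T a b).card : ℝ) ^ 2 =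
      ∑ p : L, ∑ q : L, (su_al S a p * su_al S b p) * (su_al S a q * su_al S b q) := by
    intro a b
    rw [su_card_T, sq, Finset.sum_mul_sum]
  have h2 : ∀ p q : L, ((S.W p q).card : ℝ) ^ 2 =
      ∑ a ∈ Iset n, ∑ b ∈ Iset n,
        (su_al S a p * su_al S b p) * (su_al S a q * su_al S b q) := by
    intro p q
    rw [su_card_W, sq, Finset.sum_mul_sum]
    exact Finset.sum_congr rfl fun a _ => Finset.sum_congr rfl fun b _ => by ring
  simp only [h1, h2]
  rw [Finset.sum_congr rfl fun a _ => Finset.sum_comm]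
  rw [Finset.sum_comm]
  refine Finset.sum_congr rfl fun p _ => ?_
  rw [Finset.sum_congr rfl fun a _ => Finset.sum_comm]
  rw [Finset.sum_comm]

private theorem su_dist_sum {i : ℕ} (hi : i ∈ Iset n) {p : L} (hp : p ∈ S.A i) :
    ∑ q ∈ (S.A i).erase p, (1 : ℝ) / (S.dist p q : ℝ) ≤ 2 * (1 + Real.log n) := by
  have hm : ∀ q ∈ (S.A i).erase p, S.dist p q ∈ Finset.Icc 1 n := by
    intro q hq
    rw [Finset.mem_erase] at hq
    have h1 := S.two_dist_le hi hp hq.2
    have h2 : S.dist p q ≠ 0 := fun h => hq.1 (S.eq_of_dist_eq_zero hi hp hq.2 h).symm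
    have h3 := (mem_Iset.1 hi).2
    rw [Finset.mem_Icc]
    omega
  rw [← Finset.sum_fiberwise_of_maps_to hm]
  refine le_trans (Finset.sum_le_sum fun d hd => ?_) (su_harm n)
  have hc : (((S.A i).erase p).filter (fun q => S.dist p q = d)).card ≤ 2 := by
    refine le_trans ?_ (su_cyc_eq_card i (S.pos i p) d (S.pos_lt i hi p hp))
    rw [← S.card_image_pos hi (((S.A i).erase p).filter (fun q => S.dist p q = d))
      ((Finset.filter_subset _ _).trans (Finset.erase_subset _ _))]
    refine Finset.card_le_card ?_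
    intro r hr
    simp only [Finset.mem_image, Finset.mem_filter, Finset.mem_erase] at hr
    obtain ⟨y, ⟨⟨_, hy⟩, hxy⟩, rfl⟩ := hr
    simp only [Finset.mem_filter, Finset.mem_range]
    rw [S.dist_eq i hi p hp y hy] at hxy
    exact ⟨S.pos_lt i hi y hy, hxy⟩
  have he : ∑ q ∈ ((S.A i).erase p).filter (fun q => S.dist p q = d), (1 : ℝ) / (S.dist p q : ℝ)
      = ((((S.A i).erase p).filter (fun q => S.dist p q = d)).card : ℝ) * (1 / (d : ℝ)) := by
    rw [← nsmul_eq_mul, ← Finset.sum_const]
    refine Finset.sum_congr rfl fun q hq => ?_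
    rw [(Finset.mem_filter.1 hq).2]
  rw [he]
  refine mul_le_mul_of_nonneg_right ?_ (by positivity)
  exact_mod_cast hc

private theorem su_off (p q : L) (hpq : q ≠ p) :
    ((S.W p q).card : ℝ) ^ 2 ≤
      ∑ i ∈ Iset n, su_al S i p * su_al S i q * (Fintype.card L * (1 / (S.dist p q : ℝ))) := by
  rw [← Finset.sum_mul, ← su_card_W, sq]
  refine mul_le_mul_of_nonneg_left ?_ (Nat.cast_nonneg _)
  rcases Finset.eq_empty_or_nonempty (S.W p q) with h | ⟨i, hi⟩
  · rw [h]
    simp only [Finset.card_empty, Nat.cast_zero]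
    positivity
  · rw [mem_W] at hi
    have h2 : S.dist p q ≠ 0 := fun h =>
      hpq (S.eq_of_dist_eq_zero hi.1 hi.2.1 hi.2.2 h).symm
    have h3 : (0 : ℝ) < S.dist p q := by exact_mod_cast Nat.pos_of_ne_zero h2
    have h4 : ((S.W p q).card : ℝ) * S.dist p q ≤ Fintype.card L := by
      exact_mod_cast S.card_W_mul_dist p q
    rw [mul_one_div, le_div_iff₀ h3]
    exact h4

theorem sum_sq_T_le (hn : 1 ≤ n) :
    ∑ a ∈ Iset n, ∑ b ∈ Iset n, ((S.T a b).card : ℝ) ^ 2 ≤
      n ^ 3 + 2 * Fintype.card L * n ^ 2 * (1 + Real.log n) := by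
  have hlog : 0 ≤ Real.log n := Real.log_nonneg (by exact_mod_cast hn)
  have hI : ((Iset n).card : ℝ) ≤ n := by exact_mod_cast card_Iset_le hn
  have hn0 : (0 : ℝ) ≤ n := Nat.cast_nonneg n
  rw [su_swap]
  have hsplit : ∀ p : L, ∑ q : L, ((S.W p q).card : ℝ) ^ 2 =
      ((S.W p p).card : ℝ) ^ 2 + ∑ q ∈ Finset.univ.erase p, ((S.W p q).card : ℝ) ^ 2 := by
    intro p
    exact (Finset.add_sum_erase Finset.univ (fun q => ((S.W p q).card : ℝ) ^ 2)
      (Finset.mem_univ p)).symm
  rw [Finset.sum_congr rfl fun p _ => hsplit p, Finset.sum_add_distrib]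
  refine add_le_add ?_ ?_
  · -- the diagonal
    have h1 : ∀ p : L, ((S.W p p).card : ℝ) ^ 2 ≤ n * ∑ i ∈ Iset n, su_al S i p := by
      intro p
      have h2 : ((S.W p p).card : ℝ) ≤ n := by
        refine le_trans ?_ hI
        exact_mod_cast Finset.card_le_card (Finset.filter_subset _ _)
      have h3 : ((S.W p p).card : ℝ) = ∑ i ∈ Iset n, su_al S i p := by
        rw [su_card_W]
        exact Finset.sum_congr rfl fun i _ => su_al_sq S i p
      rw [sq, ← h3]
      exact mul_le_mul_of_nonneg_right h2 (Nat.cast_nonneg _)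
    refine (Finset.sum_le_sum fun p _ => h1 p).trans ?_
    rw [← Finset.mul_sum, Finset.sum_comm]
    have h4 : ∑ i ∈ Iset n, ∑ p : L, su_al S i p ≤ ∑ i ∈ Iset n, (n : ℝ) := by
      refine Finset.sum_le_sum fun i hi => ?_
      rw [su_sum_al]
      exact_mod_cast S.card_A_le hi
    rw [Finset.sum_const, nsmul_eq_mul] at h4
    have h5 : ((Iset n).card : ℝ) * n ≤ n * n := mul_le_mul_of_nonneg_right hI hn0
    calc (n : ℝ) * ∑ i ∈ Iset n, ∑ p : L, su_al S i p ≤ n * (n * n) :=
          mul_le_mul_of_nonneg_left (h4.trans h5) hn0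
      _ = (n : ℝ) ^ 3 := by ring
  · -- off the diagonal
    have h1 : ∑ p : L, ∑ q ∈ Finset.univ.erase p, ((S.W p q).card : ℝ) ^ 2 ≤
        ∑ p : L, ∑ q ∈ Finset.univ.erase p, ∑ i ∈ Iset n,
          su_al S i p * su_al S i q * (Fintype.card L * (1 / (S.dist p q : ℝ))) := by
      refine Finset.sum_le_sum fun p _ => Finset.sum_le_sum fun q hq => ?_
      exact su_off S p q (Finset.mem_erase.1 hq).1
    refine h1.trans ?_
    rw [Finset.sum_congr rfl fun p _ => Finset.sum_comm, Finset.sum_comm]
    have h2 : ∀ i ∈ Iset n, ∑ p : L, ∑ q ∈ Finset.univ.erase p,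
        su_al S i p * su_al S i q * (Fintype.card L * (1 / (S.dist p q : ℝ))) ≤
        n * (Fintype.card L * (2 * (1 + Real.log n))) := by
      intro i hi
      have h3 : ∀ p : L, ∑ q ∈ Finset.univ.erase p,
          su_al S i p * su_al S i q * (Fintype.card L * (1 / (S.dist p q : ℝ))) ≤
          su_al S i p * (Fintype.card L * (2 * (1 + Real.log n))) := by
        intro p
        by_cases hp : p ∈ S.A i
        · have e1 : su_al S i p = 1 := by
            unfold su_al
            rw [if_pos hp]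
          have e2 : ∑ q ∈ Finset.univ.erase p,
              su_al S i p * su_al S i q * (Fintype.card L * (1 / (S.dist p q : ℝ))) =
              Fintype.card L * ∑ q ∈ (S.A i).erase p, (1 : ℝ) / (S.dist p q : ℝ) := by
            rw [Finset.mul_sum]
            symm
            have hsub : (S.A i).erase p ⊆ Finset.univ.erase p :=
              Finset.erase_subset_erase p (Finset.subset_univ _)
            rw [← Finset.sum_subset hsub]
            · refine Finset.sum_congr rfl fun q hq => ?_
              have e3 : su_al S i q = 1 := by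
                unfold su_al
                rw [if_pos (Finset.mem_erase.1 hq).2]
              rw [e1, e3]
              ring
            · intro q hq hq'
              have e3 : su_al S i q = 0 := by
                unfold su_al
                rw [if_neg]
                intro h4
                exact hq' (Finset.mem_erase.2 ⟨(Finset.mem_erase.1 hq).1, h4⟩)
              rw [e3]
              ring
          rw [e2, e1, one_mul]
          exact mul_le_mul_of_nonneg_left (su_dist_sum S hi hp) (Nat.cast_nonneg _)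
        · have e1 : su_al S i p = 0 := by
            unfold su_al
            rw [if_neg hp]
          rw [e1]
          simp
      refine (Finset.sum_le_sum fun p _ => h3 p).trans ?_
      rw [← Finset.sum_mul, su_sum_al]
      refine mul_le_mul_of_nonneg_right ?_ (by positivity)
      exact_mod_cast S.card_A_le hi
    refine (Finset.sum_le_sum h2).trans ?_
    rw [Finset.sum_const, nsmul_eq_mul]
    have h4 : ((Iset n).card : ℝ) * (n * (Fintype.card L * (2 * (1 + Real.log n)))) ≤
        n * (n * (Fintype.card L * (2 * (1 + Real.log n)))) :=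
      mul_le_mul_of_nonneg_right hI (by positivity)
    refine h4.trans (le_of_eq ?_)
    ring

theorem sum_T_sq_le (hn : 1 ≤ n) :
    (∑ a ∈ Iset n, ∑ b ∈ Iset n, ((S.T a b).card : ℝ)) ^ 2 ≤
      n ^ 2 * ∑ a ∈ Iset n, ∑ b ∈ Iset n, ((S.T a b).card : ℝ) ^ 2 := by
  have hI : ((Iset n).card : ℝ) ≤ n := by exact_mod_cast card_Iset_le hn
  have hn0 : (0 : ℝ) ≤ n := Nat.cast_nonneg n
  rw [← Finset.sum_product', ← Finset.sum_product']
  have h := sq_sum_le_card_mul_sum_sq (s := Iset n ×ˢ Iset n)
    (f := fun x : ℕ × ℕ => ((S.T x.1 x.2).card : ℝ))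
  refine h.trans ?_
  refine mul_le_mul_of_nonneg_right ?_ (Finset.sum_nonneg fun x _ => sq_nonneg _)
  rw [Finset.card_product]
  push_cast
  have h2 : (0 : ℝ) ≤ (Iset n).card := Nat.cast_nonneg _
  nlinarith

theorem sum_card_W_sq :
    ∑ x : L, ((S.W x x).card : ℝ) ^ 2 = ∑ a ∈ Iset n, ∑ b ∈ Iset n, ((S.T a b).card : ℝ) := by
  have h1 : ∀ x : L, ((S.W x x).card : ℝ) ^ 2 =
      ∑ a ∈ Iset n, ∑ b ∈ Iset n, su_al S a x * su_al S b x := by
    intro x
    rw [su_card_W, Finset.sum_congr rfl fun i _ => su_al_sq S i x, sq, Finset.sum_mul_sum]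
  have h2 : ∀ a b : ℕ, ((S.T a b).card : ℝ) = ∑ x : L, su_al S a x * su_al S b x := fun a b =>
    su_card_T S a b
  simp only [h1, h2]
  rw [Finset.sum_comm]
  exact Finset.sum_congr rfl fun a _ => Finset.sum_comm

end Sys

end Pool.Agent.Hhelper71.LD43
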