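import Mathlib
import Pool.Agent.Hhelper71.LD43.Sums
import Pool.Agent.Hhelper71.LD43.Rich
import Pool.Agent.Hhelper71.LD43.BadSum

/-!
# Distance labelings of cycles: asymptotic form of the first part
-/

set_option linter.unusedSectionVars false
set_option linter.unusedVariables false

namespace Pool.Agent.Hhelper71.LD43

open Filter

theorem ra_pow_le (C a b : ℝ) (hab : a < b) : ∀ᶠ n : ℕ in atTop, C * (n : ℝ) ^ a ≤ (n : ℝ) ^ b := by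
  have h1 : Tendsto (fun n : ℕ => (n : ℝ) ^ (b - a)) atTop atTop :=
    (tendsto_rpow_atTop (by linarith : 0 < b - a)).comp tendsto_natCast_atTop_atTop
  filter_upwards [h1.eventually_ge_atTop C, eventually_gt_atTop 0] with n h2 h3
  have h4 : (0 : ℝ) < n := by exact_mod_cast h3
  have h5 : (n : ℝ) ^ b = (n : ℝ) ^ (b - a) * (n : ℝ) ^ a := by
    rw [← Real.rpow_add h4]
    congr 1
    ring
  rw [h5]
  exact mul_le_mul_of_nonneg_right h2 (Real.rpow_nonneg h4.le a)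

theorem ra_log_le (b : ℝ) (hb : 0 < b) : ∀ᶠ n : ℕ in atTop, 1 + Real.log n ≤ (n : ℝ) ^ b := by
  have h1 : ∀ᶠ x : ℝ in atTop, Real.log x ≤ 1 / 2 * x ^ b := by
    have := (isLittleO_log_rpow_atTop hb).bound (show (0 : ℝ) < 1 / 2 by norm_num)
    filter_upwards [this, eventually_ge_atTop 1] with x hx hx1
    rw [Real.norm_of_nonneg (Real.log_nonneg hx1),
      Real.norm_of_nonneg (Real.rpow_nonneg (by linarith) b)] at hx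
    exact hx
  have h2 := tendsto_natCast_atTop_atTop.eventually h1
  have h3 := ra_pow_le 2 0 b hb
  filter_upwards [h2, h3] with n h4 h5
  rw [Real.rpow_zero] at h5
  linarith

theorem ra_natlog_le {n : ℕ} (hn : 1 ≤ n) : ((Nat.log 2 n : ℕ) : ℝ) + 1 ≤ 2 * (1 + Real.log n) := by
  have hn0 : (0 : ℝ) < n := by exact_mod_cast hn
  have h1 : 2 ^ Nat.log 2 n ≤ n := Nat.pow_log_le_self 2 (by omega)
  have h2 : ((2 : ℝ) ^ Nat.log 2 n) ≤ n := by exact_mod_cast h1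
  have h3 := Real.log_le_log (by positivity) h2
  rw [Real.log_pow] at h3
  have h4 := Real.log_two_gt_d9
  have h5 : (0 : ℝ) ≤ (Nat.log 2 n : ℝ) := by positivity
  have h6 : (1 : ℝ) / 2 * (Nat.log 2 n : ℝ) ≤ (Nat.log 2 n : ℝ) * Real.log 2 := by nlinarith
  linarith

/-- the integer parameters -/
theorem ra_params (β : ℝ) (R : ℕ) (hβ : 0 < β) (hR : β * R < 1) : ∀ᶠ n : ℕ in atTop,
    ∃ g ℓs : ℕ, 1 ≤ g ∧ 1 ≤ ℓs ∧ n ≤ 8 * (ℓs * g ^ R) ∧ 4 * (ℓs * g ^ R) ≤ n ∧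
      (g : ℝ) ≤ (n : ℝ) ^ β ∧ (n : ℝ) ^ (1 - β * R) / 8 ≤ ℓs ∧
      (ℓs : ℝ) ≤ 2 ^ R * (n : ℝ) ^ (1 - β * R) := by
  filter_upwards [ra_pow_le 8 (β * R) 1 hR, ra_pow_le 1 0 β hβ, eventually_ge_atTop 1]
    with n h1 h2 hn
  have hn0 : (0 : ℝ) < n := by exact_mod_cast hn
  rw [Real.rpow_one] at h1
  rw [Real.rpow_zero, one_mul] at h2
  set g := ⌊(n : ℝ) ^ β⌋₊ with hg
  have hg1 : 1 ≤ g := Nat.one_le_iff_ne_zero.2 (by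
    have : 0 < g := Nat.floor_pos.2 h2
    omega)
  have hgle : (g : ℝ) ≤ (n : ℝ) ^ β := Nat.floor_le (by positivity)
  have hglt : (n : ℝ) ^ β < g + 1 := Nat.lt_floor_add_one _
  have hg1r : (1 : ℝ) ≤ g := by exact_mod_cast hg1
  have hghalf : (n : ℝ) ^ β ≤ 2 * g := by linarith
  have hpow : ((n : ℝ) ^ β) ^ R = (n : ℝ) ^ (β * R) := by
    rw [← Real.rpow_natCast, ← Real.rpow_mul hn0.le]
  have hgR : (g : ℝ) ^ R ≤ (n : ℝ) ^ (β * R) := by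
    rw [← hpow]
    exact pow_le_pow_left₀ (by positivity) hgle R
  have hgR2 : (n : ℝ) ^ (β * R) ≤ 2 ^ R * (g : ℝ) ^ R := by
    rw [← hpow, ← mul_pow]
    exact pow_le_pow_left₀ (by positivity) hghalf R
  have hgRpos : 1 ≤ g ^ R := Nat.one_le_pow _ _ hg1
  have h8 : 8 * g ^ R ≤ n := by
    have : (8 : ℝ) * (g : ℝ) ^ R ≤ n := by linarith
    exact_mod_cast this
  set D := 4 * g ^ R with hD
  have hDpos : 0 < D := by omega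
  set ℓs := n / D with hℓs
  have e1 : D * ℓs ≤ n := Nat.mul_div_le n D
  have e2 : n < D * (ℓs + 1) := Nat.lt_mul_div_succ n hDpos
  have e3 : 1 ≤ ℓs := (Nat.one_le_div_iff hDpos).2 (by omega)
  have e4 : n ≤ 8 * (ℓs * g ^ R) := by
    have : D * (ℓs + 1) ≤ D * (2 * ℓs) := Nat.mul_le_mul_left _ (by omega)
    have e5 : D * (2 * ℓs) = 8 * (ℓs * g ^ R) := by
      rw [hD]
      ring
    omega
  have e6 : 4 * (ℓs * g ^ R) ≤ n := by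
    have e5 : D * ℓs = 4 * (ℓs * g ^ R) := by
      rw [hD]
      ring
    omega
  have hsplit : (n : ℝ) = (n : ℝ) ^ (1 - β * R) * (n : ℝ) ^ (β * R) := by
    rw [← Real.rpow_add hn0]
    conv_lhs => rw [← Real.rpow_one (n : ℝ)]
    congr 1
    ring
  have hPpos : 0 < (n : ℝ) ^ (β * R) := by positivity
  have hgRr : (0 : ℝ) < (g : ℝ) ^ R := by positivity
  refine ⟨g, ℓs, hg1, e3, e4, e6, hgle, ?_, ?_⟩
  · -- n ≤ 8 ℓs g^R ≤ 8 ℓs P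
    have e7 : (n : ℝ) ≤ 8 * (ℓs * (g : ℝ) ^ R) := by exact_mod_cast e4
    have e8 : (n : ℝ) ^ (1 - β * R) * (n : ℝ) ^ (β * R) ≤ (8 * ℓs) * (n : ℝ) ^ (β * R) := by
      rw [← hsplit]
      calc (n : ℝ) ≤ 8 * (ℓs * (g : ℝ) ^ R) := e7
        _ ≤ 8 * (ℓs * (n : ℝ) ^ (β * R)) := by gcongr
        _ = _ := by ring
    have e9 := le_of_mul_le_mul_right e8 hPpos
    linarith
  · have e7 : 4 * (ℓs * (g : ℝ) ^ R) ≤ (n : ℝ) := by exact_mod_cast e6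
    have e8 : (ℓs : ℝ) * (g : ℝ) ^ R ≤ (2 ^ R * (n : ℝ) ^ (1 - β * R)) * (g : ℝ) ^ R := by
      calc (ℓs : ℝ) * (g : ℝ) ^ R ≤ n := by
            have : (0 : ℝ) ≤ ℓs * (g : ℝ) ^ R := by positivity
            linarith
        _ = (n : ℝ) ^ (1 - β * R) * (n : ℝ) ^ (β * R) := hsplit
        _ ≤ (n : ℝ) ^ (1 - β * R) * (2 ^ R * (g : ℝ) ^ R) := by gcongr
        _ = _ := by ring
    exact le_of_mul_le_mul_right e8 hgRr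

section fixed

variable {n : ℕ} (hn : 1 ≤ n)

include hn

theorem ra_mul (a b : ℝ) : (n : ℝ) ^ a * (n : ℝ) ^ b = (n : ℝ) ^ (a + b) := by
  have hn0 : (0 : ℝ) < n := by exact_mod_cast hn
  exact (Real.rpow_add hn0 a b).symm

theorem ra_mono {a b : ℝ} (h : a ≤ b) : (n : ℝ) ^ a ≤ (n : ℝ) ^ b := by
  have hn1 : (1 : ℝ) ≤ n := by exact_mod_cast hn
  exact Real.rpow_le_rpow_of_exponent_le hn1 h

theorem ra_pos (a : ℝ) : 0 < (n : ℝ) ^ a := by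
  have hn0 : (0 : ℝ) < n := by exact_mod_cast hn
  exact Real.rpow_pos_of_pos hn0 a

theorem ra_pow (a : ℝ) (m : ℕ) : ((n : ℝ) ^ a) ^ m = (n : ℝ) ^ (a * m) := by
  have hn0 : (0 : ℝ) < n := by exact_mod_cast hn
  rw [← Real.rpow_natCast, ← Real.rpow_mul hn0.le]

theorem ra_nat (m : ℕ) : (n : ℝ) ^ m = (n : ℝ) ^ (m : ℝ) := (Real.rpow_natCast _ _).symm

theorem ra_S2 {N ε σ : ℝ} (hN0 : 0 ≤ N) (hN : N ≤ (n : ℝ) ^ (4 / 3 + ε)) (hε : 0 ≤ ε)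
    (hσ : 0 ≤ σ) (hlog : 1 + Real.log n ≤ (n : ℝ) ^ σ) :
    (n : ℝ) ^ 3 + 2 * N * n ^ 2 * (1 + Real.log n) ≤ 3 * (n : ℝ) ^ (10 / 3 + ε + σ) := by
  have hn1 : (1 : ℝ) ≤ n := by exact_mod_cast hn
  have h1 : (n : ℝ) ^ 3 ≤ (n : ℝ) ^ (10 / 3 + ε + σ) := by
    rw [ra_nat hn 3]
    apply ra_mono hn
    push_cast
    linarith
  have hl : 0 ≤ 1 + Real.log n := by
    have := Real.log_nonneg hn1
    linarith
  have h2 : N * n ^ 2 * (1 + Real.log n) ≤ (n : ℝ) ^ (10 / 3 + ε + σ) := by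
    have e1 : (n : ℝ) ^ (10 / 3 + ε + σ) = (n : ℝ) ^ (4 / 3 + ε) * (n : ℝ) ^ 2 * (n : ℝ) ^ σ := by
      rw [ra_nat hn 2, ra_mul hn, ra_mul hn]
      congr 1
      push_cast
      ring
    rw [e1]
    gcongr
  linarith

theorem ra_Q0 (k R g : ℕ) (ℓs : ℕ) (N ε σ β g1 δ b C1 s : ℝ) (hN0 : 0 ≤ N)
    (hN : N ≤ (n : ℝ) ^ (4 / 3 + ε)) (hg : (g : ℝ) ≤ (n : ℝ) ^ β) (hβ : β ≤ g1 / 4)
    (hC1 : 0 ≤ C1) (hℓ : (ℓs : ℝ) ≤ C1 * (n : ℝ) ^ (2 / 3 + δ / 2))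
    (hs : s = ℓs * (n : ℝ) ^ (-b)) (hs1 : 1 ≤ s) (hb : 0 ≤ b) (hδ : g1 ≤ δ) (hg1 : 0 ≤ g1)
    (hlog : 1 + Real.log n ≤ (n : ℝ) ^ σ) :
    √(3 * (n : ℝ) ^ (10 / 3 + ε + σ) * (R * (Nat.log 2 n + 1) * (32 * k * (8 * k) ^ R) ^ 2 *
        (4 * k * N * n ^ 2 * g / (n : ℝ) ^ g1))) +
      8 * (8 * k) ^ R * (s + 2 * k) / (n : ℝ) ^ (2 / 3 + δ) * (3 * (n : ℝ) ^ (10 / 3 + ε + σ)) ≤
    (√(24 * R * (32 * k * (8 * k) ^ R) ^ 2 * k) + 24 * (8 * k) ^ R * (1 + 2 * k) * C1) *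
      (n : ℝ) ^ (10 / 3 + ε + σ - 3 * g1 / 8) := by
  have hn0 : (0 : ℝ) < n := by exact_mod_cast hn
  have hn1 : (1 : ℝ) ≤ n := by exact_mod_cast hn
  set e := 10 / 3 + ε + σ - 3 * g1 / 8 with he
  have hPe := ra_pos hn e
  -- first part
  have h1 : 3 * (n : ℝ) ^ (10 / 3 + ε + σ) * (R * (Nat.log 2 n + 1) *
      (32 * k * (8 * k) ^ R) ^ 2 * (4 * k * N * n ^ 2 * g / (n : ℝ) ^ g1)) ≤
      (24 * R * (32 * k * (8 * k) ^ R) ^ 2 * k) * ((n : ℝ) ^ e) ^ 2 := by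
    have a1 : ((Nat.log 2 n : ℕ) : ℝ) + 1 ≤ 2 * (n : ℝ) ^ σ :=
      (ra_natlog_le hn).trans (by linarith)
    have a2 : 4 * k * N * n ^ 2 * g / (n : ℝ) ^ g1 ≤
        4 * k * (n : ℝ) ^ (4 / 3 + ε) * n ^ 2 * (n : ℝ) ^ β / (n : ℝ) ^ g1 := by
      gcongr
    have a3 : 4 * k * (n : ℝ) ^ (4 / 3 + ε) * n ^ 2 * (n : ℝ) ^ β / (n : ℝ) ^ g1 =
        4 * k * (n : ℝ) ^ (10 / 3 + ε + β - g1) := by
      have e2 : (n : ℝ) ^ (10 / 3 + ε + β - g1) = (n : ℝ) ^ (4 / 3 + ε) * (n : ℝ) ^ 2 *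
          (n : ℝ) ^ β * (n : ℝ) ^ (-g1) := by
        rw [ra_nat hn 2, ra_mul hn, ra_mul hn, ra_mul hn]
        congr 1
        push_cast
        ring
      rw [e2, Real.rpow_neg hn0.le, div_eq_mul_inv]
      ring
    rw [a3] at a2
    have a4 : (0 : ℝ) ≤ 4 * k * N * n ^ 2 * g / (n : ℝ) ^ g1 := by positivity
    calc 3 * (n : ℝ) ^ (10 / 3 + ε + σ) * (R * (Nat.log 2 n + 1) *
        (32 * k * (8 * k) ^ R) ^ 2 * (4 * k * N * n ^ 2 * g / (n : ℝ) ^ g1))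
        ≤ 3 * (n : ℝ) ^ (10 / 3 + ε + σ) * (R * (2 * (n : ℝ) ^ σ) *
        (32 * k * (8 * k) ^ R) ^ 2 * (4 * k * (n : ℝ) ^ (10 / 3 + ε + β - g1))) := by
          gcongr
      _ = (24 * R * (32 * k * (8 * k) ^ R) ^ 2 * k) * ((n : ℝ) ^ (10 / 3 + ε + σ) *
          (n : ℝ) ^ σ * (n : ℝ) ^ (10 / 3 + ε + β - g1)) := by ring
      _ ≤ (24 * R * (32 * k * (8 * k) ^ R) ^ 2 * k) * ((n : ℝ) ^ e) ^ 2 := by
          rw [ra_mul hn, ra_mul hn, ra_pow hn]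
          apply mul_le_mul_of_nonneg_left _ (by positivity)
          apply ra_mono hn
          rw [he]
          push_cast
          linarith
  have h2 : √(3 * (n : ℝ) ^ (10 / 3 + ε + σ) * (R * (Nat.log 2 n + 1) *
      (32 * k * (8 * k) ^ R) ^ 2 * (4 * k * N * n ^ 2 * g / (n : ℝ) ^ g1))) ≤
      √(24 * R * (32 * k * (8 * k) ^ R) ^ 2 * k) * (n : ℝ) ^ e := by
    refine (Real.sqrt_le_sqrt h1).trans ?_
    rw [Real.sqrt_mul (by positivity), Real.sqrt_sq hPe.le]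
  -- second part
  have h3 : s + 2 * k ≤ (1 + 2 * k) * (C1 * (n : ℝ) ^ (2 / 3 + δ / 2 - b)) := by
    have b1 : s + 2 * k ≤ (1 + 2 * k) * s := by
      have : (2 : ℝ) * k ≤ 2 * k * s := by
        have : (0 : ℝ) ≤ 2 * k := by positivity
        nlinarith
      linarith
    have b2 : s ≤ C1 * (n : ℝ) ^ (2 / 3 + δ / 2 - b) := by
      rw [hs]
      calc (ℓs : ℝ) * (n : ℝ) ^ (-b) ≤ (C1 * (n : ℝ) ^ (2 / 3 + δ / 2)) * (n : ℝ) ^ (-b) :=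
            mul_le_mul_of_nonneg_right hℓ (ra_pos hn _).le
        _ = C1 * (n : ℝ) ^ (2 / 3 + δ / 2 - b) := by
            rw [mul_assoc, ra_mul hn]
            congr 2
    exact b1.trans (mul_le_mul_of_nonneg_left b2 (by positivity))
  have h4 : 8 * (8 * k) ^ R * (s + 2 * k) / (n : ℝ) ^ (2 / 3 + δ) *
      (3 * (n : ℝ) ^ (10 / 3 + ε + σ)) ≤ (24 * (8 * k) ^ R * (1 + 2 * k) * C1) * (n : ℝ) ^ e := by
    calc 8 * (8 * k) ^ R * (s + 2 * k) / (n : ℝ) ^ (2 / 3 + δ) *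
        (3 * (n : ℝ) ^ (10 / 3 + ε + σ))
        ≤ 8 * (8 * k) ^ R * ((1 + 2 * k) * (C1 * (n : ℝ) ^ (2 / 3 + δ / 2 - b))) /
          (n : ℝ) ^ (2 / 3 + δ) * (3 * (n : ℝ) ^ (10 / 3 + ε + σ)) := by
          have := ra_pos hn (2 / 3 + δ)
          have := ra_pos hn (10 / 3 + ε + σ)
          gcongr
      _ = (24 * (8 * k) ^ R * (1 + 2 * k) * C1) * ((n : ℝ) ^ (2 / 3 + δ / 2 - b) *
          (n : ℝ) ^ (-(2 / 3 + δ)) * (n : ℝ) ^ (10 / 3 + ε + σ)) := by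
          rw [Real.rpow_neg hn0.le, div_eq_mul_inv]
          ring
      _ ≤ _ := by
          rw [ra_mul hn, ra_mul hn]
          apply mul_le_mul_of_nonneg_left _ (by positivity)
          apply ra_mono hn
          rw [he]
          linarith
  rw [add_mul]
  exact add_le_add h2 h4

/-- the square root term -/
theorem ra_sq (N ε ζ b δ ℓ s y Z : ℝ) (hN0 : 0 ≤ N) (hN : N ≤ (n : ℝ) ^ (4 / 3 + ε))
    (hδ : δ = 20 * b) (hℓ1 : 1 ≤ ℓ) (hℓn : ℓ ≤ n)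
    (hℓ : (n : ℝ) ^ (2 / 3 + δ / 2) / 8 ≤ ℓ) (hs : s = ℓ * (n : ℝ) ^ (-b))
    (hy : y = ℓ * (n : ℝ) ^ (-(3 * b))) (hy1 : 1 ≤ y) (hZ : Z = (n : ℝ) ^ (1 - ζ)) :
    n * (n / ℓ + 1) * (2 * n * ℓ * N / (Z * s)) ^ 2 *
        (n ^ 4 * ((N / Z) ^ 2 * (2 * y + 1) + (2 * ℓ + 1) * N / y)) ≤
      24 * (n : ℝ) ^ (28 / 3 + 4 * ε + 4 * ζ - b) +
        192 * (n : ℝ) ^ (28 / 3 + 3 * ε + 2 * ζ - 5 * b) := by
  have hn0 : (0 : ℝ) < n := by exact_mod_cast hn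
  have hn1 : (1 : ℝ) ≤ n := by exact_mod_cast hn
  have hℓ0 : 0 < ℓ := by linarith
  have hpb := ra_pos hn (-b)
  have hp3b := ra_pos hn (-(3 * b))
  have hZ0 : 0 < Z := by
    rw [hZ]
    exact ra_pos hn _
  have hs0 : 0 < s := by
    rw [hs]
    positivity
  have hy0 : 0 < y := by linarith
  -- N / Z
  have hNZ : N / Z ≤ (n : ℝ) ^ (1 / 3 + ε + ζ) := by
    rw [div_le_iff₀ hZ0, hZ, ra_mul hn]
    have : 1 / 3 + ε + ζ + (1 - ζ) = 4 / 3 + ε := by ring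
    rw [this]
    exact hN
  have hNZ0 : 0 ≤ N / Z := by positivity
  -- first factor
  have f1 : (n : ℝ) / ℓ + 1 ≤ 2 * n / ℓ := by
    rw [div_add_one hℓ0.ne', div_le_div_iff_of_pos_right hℓ0]
    linarith
  -- second factor
  have f2 : 2 * n * ℓ * N / (Z * s) = 2 * n * (N / Z) * (n : ℝ) ^ b := by
    have e1 : (n : ℝ) ^ b = ((n : ℝ) ^ (-b))⁻¹ := by
      rw [Real.rpow_neg hn0.le, inv_inv]
    rw [e1, hs]
    field_simp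
  have f3 : (2 * n * ℓ * N / (Z * s)) ^ 2 ≤ 4 * (n : ℝ) ^ (8 / 3 + 2 * ε + 2 * ζ + 2 * b) := by
    rw [f2]
    have e1 : 2 * (n : ℝ) * (N / Z) * (n : ℝ) ^ b ≤ 2 * (n : ℝ) ^ (4 / 3 + ε + ζ + b) := by
      calc 2 * (n : ℝ) * (N / Z) * (n : ℝ) ^ b
          ≤ 2 * (n : ℝ) * (n : ℝ) ^ (1 / 3 + ε + ζ) * (n : ℝ) ^ b := by gcongr
        _ = 2 * ((n : ℝ) ^ (1 : ℝ) * (n : ℝ) ^ (1 / 3 + ε + ζ) * (n : ℝ) ^ b) := by
            rw [Real.rpow_one]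
            ring
        _ = 2 * (n : ℝ) ^ (4 / 3 + ε + ζ + b) := by
            rw [ra_mul hn, ra_mul hn]
            congr 2
            ring
    have e2 : 0 ≤ 2 * (n : ℝ) * (N / Z) * (n : ℝ) ^ b := by positivity
    calc (2 * (n : ℝ) * (N / Z) * (n : ℝ) ^ b) ^ 2
        ≤ (2 * (n : ℝ) ^ (4 / 3 + ε + ζ + b)) ^ 2 := pow_le_pow_left₀ e2 e1 2
      _ = 4 * (n : ℝ) ^ (8 / 3 + 2 * ε + 2 * ζ + 2 * b) := by
          rw [mul_pow, ra_pow hn]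
          norm_num
          congr 1
          ring
  -- third factor
  have f4 : (N / Z) ^ 2 * (2 * y + 1) ≤ 3 * (ℓ * (n : ℝ) ^ (2 / 3 + 2 * ε + 2 * ζ - 3 * b)) := by
    have e1 : (N / Z) ^ 2 ≤ (n : ℝ) ^ (2 / 3 + 2 * ε + 2 * ζ) := by
      calc (N / Z) ^ 2 ≤ ((n : ℝ) ^ (1 / 3 + ε + ζ)) ^ 2 := pow_le_pow_left₀ hNZ0 hNZ 2
        _ = _ := by
          rw [ra_pow hn]
          congr 1
          push_cast
          ring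
    calc (N / Z) ^ 2 * (2 * y + 1) ≤ (n : ℝ) ^ (2 / 3 + 2 * ε + 2 * ζ) * (3 * y) := by
          apply mul_le_mul e1 (by linarith) (by positivity) (ra_pos hn _).le
      _ = 3 * (ℓ * ((n : ℝ) ^ (2 / 3 + 2 * ε + 2 * ζ) * (n : ℝ) ^ (-(3 * b)))) := by
          rw [hy]
          ring
      _ = _ := by
          rw [ra_mul hn]
          congr 3
  have f5 : (2 * ℓ + 1) * N / y ≤ 3 * (n : ℝ) ^ (4 / 3 + ε + 3 * b) := by
    have e1 : (n : ℝ) ^ (3 * b) = ((n : ℝ) ^ (-(3 * b)))⁻¹ := by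
      rw [Real.rpow_neg hn0.le, inv_inv]
    calc (2 * ℓ + 1) * N / y ≤ (3 * ℓ) * (n : ℝ) ^ (4 / 3 + ε) / y := by
          gcongr
          linarith
      _ = 3 * ((n : ℝ) ^ (4 / 3 + ε) * (n : ℝ) ^ (3 * b)) := by
          rw [e1, hy]
          field_simp
      _ = _ := by
          rw [ra_mul hn]
  have f6 : 1 / ℓ ≤ 8 * (n : ℝ) ^ (-(2 / 3 + δ / 2)) := by
    rw [Real.rpow_neg hn0.le]
    have hp := ra_pos hn (2 / 3 + δ / 2)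
    rw [div_le_iff₀ hℓ0]
    calc (1 : ℝ) = 8 * ((n : ℝ) ^ (2 / 3 + δ / 2))⁻¹ * ((n : ℝ) ^ (2 / 3 + δ / 2) / 8) := by
          field_simp
      _ ≤ 8 * ((n : ℝ) ^ (2 / 3 + δ / 2))⁻¹ * ℓ := by gcongr
  have g1 : 0 ≤ (2 * n * ℓ * N / (Z * s)) ^ 2 := by positivity
  calc n * (n / ℓ + 1) * (2 * n * ℓ * N / (Z * s)) ^ 2 *
        (n ^ 4 * ((N / Z) ^ 2 * (2 * y + 1) + (2 * ℓ + 1) * N / y))
      ≤ n * (2 * n / ℓ) * (4 * (n : ℝ) ^ (8 / 3 + 2 * ε + 2 * ζ + 2 * b)) *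
        (n ^ 4 * (3 * (ℓ * (n : ℝ) ^ (2 / 3 + 2 * ε + 2 * ζ - 3 * b)) +
          3 * (n : ℝ) ^ (4 / 3 + ε + 3 * b))) := by
        gcongr
    _ = 24 * ((n : ℝ) ^ 6 * (n : ℝ) ^ (8 / 3 + 2 * ε + 2 * ζ + 2 * b) *
          (n : ℝ) ^ (2 / 3 + 2 * ε + 2 * ζ - 3 * b)) +
        24 * ((n : ℝ) ^ 6 * (n : ℝ) ^ (8 / 3 + 2 * ε + 2 * ζ + 2 * b) *
          (n : ℝ) ^ (4 / 3 + ε + 3 * b)) * (1 / ℓ) := by
        field_simp
        ring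
    _ ≤ 24 * ((n : ℝ) ^ 6 * (n : ℝ) ^ (8 / 3 + 2 * ε + 2 * ζ + 2 * b) *
          (n : ℝ) ^ (2 / 3 + 2 * ε + 2 * ζ - 3 * b)) +
        24 * ((n : ℝ) ^ 6 * (n : ℝ) ^ (8 / 3 + 2 * ε + 2 * ζ + 2 * b) *
          (n : ℝ) ^ (4 / 3 + ε + 3 * b)) * (8 * (n : ℝ) ^ (-(2 / 3 + δ / 2))) := by
        have := ra_pos hn (8 / 3 + 2 * ε + 2 * ζ + 2 * b)
        have := ra_pos hn (4 / 3 + ε + 3 * b)
        gcongr
    _ = 24 * ((n : ℝ) ^ 6 * (n : ℝ) ^ (8 / 3 + 2 * ε + 2 * ζ + 2 * b) *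
          (n : ℝ) ^ (2 / 3 + 2 * ε + 2 * ζ - 3 * b)) +
        192 * ((n : ℝ) ^ 6 * (n : ℝ) ^ (8 / 3 + 2 * ε + 2 * ζ + 2 * b) *
          (n : ℝ) ^ (4 / 3 + ε + 3 * b) * (n : ℝ) ^ (-(2 / 3 + δ / 2))) := by ring
    _ = _ := by
        rw [ra_nat hn 6, ra_mul hn, ra_mul hn, ra_mul hn, ra_mul hn]
        congr 3
        · push_cast
          ring
        · push_cast
          rw [hδ]
          ring

end fixed

theorem rich_rich_asymp (δ : ℝ) (hδ : 0 < δ) (hδ' : δ ≤ 1 / 10) :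
    ∃ η > (0 : ℝ), ∀ ε ζ : ℝ, 0 < ε → ε ≤ η → 0 < ζ → ζ ≤ η → ∀ c > (0 : ℝ),
      ∀ᶠ n : ℕ in atTop, ∀ (L : Type) [Fintype L] [DecidableEq L] (S : Sys n L),
        (Fintype.card L : ℝ) ≤ (n : ℝ) ^ (4 / 3 + ε) →
        ∀ 𝒯 : Finset (L × L × L),
          (∀ t ∈ 𝒯, S.Ac t.1 t.2.1 t.2.2 ∧ (n : ℝ) ^ (1 - ζ) ≤ S.dist t.1 t.2.1 ∧
            (n : ℝ) ^ (1 - ζ) ≤ S.dist t.2.1 t.2.2 ∧
            (n : ℝ) ^ (1 / 3 - η) ≤
              S.rc (S.al t.1 t.2.1 t.2.2) t.1 t.2.1 ((n : ℝ) ^ (2 / 3 + δ)) ∧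
            (n : ℝ) ^ (1 / 3 - η) ≤
              S.rc (S.al t.1 t.2.1 t.2.2) t.2.1 t.2.2 ((n : ℝ) ^ (2 / 3 + δ))) →
          (𝒯.card : ℝ) ≤ c * n ^ 4 := by
  obtain ⟨b, hb⟩ : ∃ b : ℝ, b = δ / 20 := ⟨_, rfl⟩
  have hb0 : 0 < b := by
    rw [hb]
    positivity
  have hδb : δ = 20 * b := by
    rw [hb]
    ring
  obtain ⟨k, hk⟩ : ∃ k : ℕ, k = ⌈3 / b⌉₊ + 1 := ⟨_, rfl⟩
  have hk3 : 3 / b ≤ ((k - 1 : ℕ) : ℝ) := by
    rw [hk, Nat.add_sub_cancel]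
    exact Nat.le_ceil _
  have hb200 : b ≤ 1 / 200 := by linarith
  have hk2 : 2 ≤ k := by
    have : 0 < ⌈3 / b⌉₊ := Nat.ceil_pos.2 (by positivity)
    omega
  have hk0 : (0 : ℝ) < k := by
    have : 0 < k := by omega
    exact_mod_cast this
  have hk1 : (1 : ℝ) ≤ k := by
    have : 1 ≤ k := by omega
    exact_mod_cast this
  have hkb : 3 ≤ b * ((k - 1 : ℕ) : ℝ) := by
    rw [div_le_iff₀ hb0] at hk3
    linarith
  obtain ⟨g1, hg1⟩ : ∃ g1 : ℝ, g1 = b / (2 * k) := ⟨_, rfl⟩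
  have hg10 : 0 < g1 := by
    rw [hg1]
    positivity
  have hkg : k * g1 = b / 2 := by
    rw [hg1]
    field_simp
  have hg1b : g1 ≤ b / 2 := by
    rw [← hkg]
    nlinarith
  obtain ⟨κ, hκ⟩ : ∃ κ : ℝ, κ = 1 / 3 - δ / 2 := ⟨_, rfl⟩
  have hκ0 : 0 < κ := by linarith
  obtain ⟨R, hR⟩ : ∃ R : ℕ, R = ⌈κ / (g1 / 4)⌉₊ := ⟨_, rfl⟩
  have hR0 : 0 < R := by
    rw [hR]
    exact Nat.ceil_pos.2 (by positivity)
  have hR0r : (0 : ℝ) < R := by exact_mod_cast hR0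
  obtain ⟨β, hβ⟩ : ∃ β : ℝ, β = κ / R := ⟨_, rfl⟩
  have hβ0 : 0 < β := by
    rw [hβ]
    positivity
  have hβR : β * R = κ := by
    rw [hβ]
    field_simp
  have hβg : β ≤ g1 / 4 := by
    rw [hβ, div_le_iff₀ hR0r]
    have : κ / (g1 / 4) ≤ R := by
      rw [hR]
      exact Nat.le_ceil _
    rw [div_le_iff₀ (by positivity)] at this
    linarith
  refine ⟨g1 / 48, by positivity, ?_⟩
  intro ε ζ hε hε' hζ hζ' c hc
  obtain ⟨C3, hC3⟩ : ∃ C3 : ℝ, C3 = √(24 * R * (32 * k * (8 * k) ^ R) ^ 2 * k) +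
    24 * (8 * k) ^ R * (1 + 2 * k) * 2 ^ R := ⟨_, rfl⟩
  have hC30 : 0 < C3 := by
    rw [hC3]
    positivity
  have hβR1 : β * R < 1 := by
    rw [hβR]
    linarith
  filter_upwards [ra_params β R hβ0 hβR1, ra_log_le (g1 / 100) (by positivity),
    ra_pow_le 8 0 (2 / 3 + δ / 2 - b) (by linarith),
    ra_pow_le 8 0 (2 / 3 + δ / 2 - 3 * b) (by linarith),
    ra_pow_le (2 * 2 ^ R) (2 / 3 + δ / 2) (1 - ζ) (by linarith),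
    ra_pow_le (4 * C3 / c) (14 / 3 + 2 * ε + ζ + g1 / 100 - 3 * g1 / 8) (14 / 3 - 2 * (g1 / 48))
      (by linarith),
    ra_pow_le (192 / c ^ 2) (28 / 3 + 4 * ε + 4 * ζ - b) (28 / 3 - 4 * (g1 / 48)) (by linarith),
    ra_pow_le (1536 / c ^ 2) (28 / 3 + 3 * ε + 2 * ζ - 5 * b) (28 / 3 - 4 * (g1 / 48))
      (by linarith), eventually_ge_atTop 2] with n hpar hlog q1 q2 q3 q4 q5 q6 hn2
  intro L _ _ S hN 𝒯 h𝒯
  have hn : 1 ≤ n := by omega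
  have hn0 : (0 : ℝ) < n := by exact_mod_cast hn
  have hn1 : (1 : ℝ) ≤ n := by exact_mod_cast hn
  obtain ⟨g, ℓs, hg, hℓ1, hlow, hup, hgβ, hℓlo, hℓhi⟩ := hpar
  have hexp : 1 - β * R = 2 / 3 + δ / 2 := by
    rw [hβR, hκ]
    ring
  rw [hexp] at hℓlo hℓhi
  have hN0 : (0 : ℝ) ≤ Fintype.card L := by positivity
  have hℓ1r : (1 : ℝ) ≤ ℓs := by exact_mod_cast hℓ1
  have hℓ0r : (0 : ℝ) < ℓs := by linarith
  obtain ⟨s, hs⟩ : ∃ s : ℝ, s = ℓs * (n : ℝ) ^ (-b) := ⟨_, rfl⟩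
  obtain ⟨y, hy⟩ : ∃ y : ℝ, y = ℓs * (n : ℝ) ^ (-(3 * b)) := ⟨_, rfl⟩
  rw [Real.rpow_zero, mul_one] at q1 q2
  have hs1 : 1 ≤ s := by
    have : (n : ℝ) ^ (2 / 3 + δ / 2) / 8 * (n : ℝ) ^ (-b) ≤ s := by
      rw [hs]
      exact mul_le_mul_of_nonneg_right hℓlo (ra_pos hn _).le
    have e1 : (n : ℝ) ^ (2 / 3 + δ / 2) / 8 * (n : ℝ) ^ (-b) =
        (n : ℝ) ^ (2 / 3 + δ / 2 - b) / 8 := by
      rw [sub_eq_add_neg (2 / 3 + δ / 2) b, ← ra_mul hn (2 / 3 + δ / 2) (-b)]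
      ring
    rw [e1] at this
    linarith
  have hy1 : 1 ≤ y := by
    have : (n : ℝ) ^ (2 / 3 + δ / 2) / 8 * (n : ℝ) ^ (-(3 * b)) ≤ y := by
      rw [hy]
      exact mul_le_mul_of_nonneg_right hℓlo (ra_pos hn _).le
    have e1 : (n : ℝ) ^ (2 / 3 + δ / 2) / 8 * (n : ℝ) ^ (-(3 * b)) =
        (n : ℝ) ^ (2 / 3 + δ / 2 - 3 * b) / 8 := by
      rw [sub_eq_add_neg (2 / 3 + δ / 2) (3 * b), ← ra_mul hn (2 / 3 + δ / 2) (-(3 * b))]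
      ring
    rw [e1] at this
    linarith
  have hgR1 : 1 ≤ g ^ R := Nat.one_le_pow _ _ hg
  have h4ℓ : 4 * ℓs ≤ n := by
    have : ℓs ≤ ℓs * g ^ R := Nat.le_mul_of_pos_right _ (by omega)
    omega
  have hℓnr : (ℓs : ℝ) ≤ n := by
    have : ℓs ≤ n := by omega
    exact_mod_cast this
  -- the first bound
  have hθ : (1 : ℝ) ≤ (n : ℝ) ^ g1 := Real.one_le_rpow hn1 hg10.le
  have hsmall : (n : ℝ) * (((n : ℝ) ^ g1) ^ k * (s / ℓs)) ^ (k - 1) < 1 := by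
    have e1 : s / ℓs = (n : ℝ) ^ (-b) := by
      rw [hs]
      field_simp
    have e2 : ((n : ℝ) ^ g1) ^ k * (s / ℓs) = (n : ℝ) ^ (-(b / 2)) := by
      rw [e1, ra_pow hn, ra_mul hn]
      congr 1
      linarith
    rw [e2, ra_pow hn]
    have e3 : (n : ℝ) ^ (-(b / 2) * ((k - 1 : ℕ) : ℝ)) ≤ (n : ℝ) ^ (-(3 / 2) : ℝ) := by
      apply ra_mono hn
      linarith
    calc (n : ℝ) * (n : ℝ) ^ (-(b / 2) * ((k - 1 : ℕ) : ℝ))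
        ≤ (n : ℝ) ^ (1 : ℝ) * (n : ℝ) ^ (-(3 / 2) : ℝ) := by
          rw [Real.rpow_one]
          exact mul_le_mul_of_nonneg_left e3 hn0.le
      _ = (n : ℝ) ^ (-(1 / 2) : ℝ) := by
          rw [ra_mul hn]
          norm_num
      _ < 1 := by
          apply Real.rpow_lt_one_of_one_lt_of_neg
          · exact_mod_cast (by omega : 1 < n)
          · norm_num
  have hS2 : ∑ a ∈ Iset n, ∑ b ∈ Iset n, ((S.T a b).card : ℝ) ^ 2 ≤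
      3 * (n : ℝ) ^ (10 / 3 + ε + g1 / 100) :=
    (S.sum_sq_T_le hn).trans (ra_S2 hn hN0 hN hε.le (by positivity) hlog)
  have hτ : (0 : ℝ) < (n : ℝ) ^ (2 / 3 + δ) := ra_pos hn _
  have hB := S.sum_Bad_le hn k R g ℓs s ((n : ℝ) ^ (2 / 3 + δ)) ((n : ℝ) ^ g1)
    (3 * (n : ℝ) ^ (10 / 3 + ε + g1 / 100)) hk2 hg hℓ1 hlow hup hθ hs1 hτ hsmall hS2
  have hB2 := hB.trans (ra_Q0 hn k R g ℓs (Fintype.card L) ε (g1 / 100) β g1 δ b (2 ^ R) s hN0 hN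
    hgβ hβg (by positivity) hℓhi hs hs1 hb0.le (by linarith) hg10.le hlog)
  rw [← hC3] at hB2
  -- the second bound
  have hZ : 2 * (ℓs : ℝ) ≤ (n : ℝ) ^ (1 - ζ) := by
    refine le_trans ?_ q3
    linarith
  have hρ : (0 : ℝ) ≤ (n : ℝ) ^ (1 / 3 - g1 / 48) := (ra_pos hn _).le
  have hRR := S.rich_rich_le hn ((n : ℝ) ^ (1 - ζ)) ((n : ℝ) ^ (2 / 3 + δ))
    ((n : ℝ) ^ (1 / 3 - g1 / 48)) s y (C3 * (n : ℝ) ^ (10 / 3 + ε + g1 / 100 - 3 * g1 / 8))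
    ℓs hℓ1 hZ h4ℓ (by linarith) (by linarith) hρ hB2 𝒯 h𝒯
  have hsq := ra_sq hn (Fintype.card L) ε ζ b δ ℓs s y ((n : ℝ) ^ (1 - ζ)) hN0 hN hδb hℓ1r hℓnr
    hℓlo hs hy hy1 rfl
  have hρ2 : ((n : ℝ) ^ (1 / 3 - g1 / 48)) ^ 2 * (n : ℝ) ^ 4 =
      (n : ℝ) ^ (14 / 3 - 2 * (g1 / 48)) := by
    rw [ra_pow hn, ra_nat hn 4, ra_mul hn]
    congr 1
    push_cast
    ring
  have hfirst : 2 * (C3 * (n : ℝ) ^ (10 / 3 + ε + g1 / 100 - 3 * g1 / 8)) * n *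
      (Fintype.card L / (n : ℝ) ^ (1 - ζ)) ≤ c / 2 * (n : ℝ) ^ (14 / 3 - 2 * (g1 / 48)) := by
    have e0 : (Fintype.card L : ℝ) / (n : ℝ) ^ (1 - ζ) ≤ (n : ℝ) ^ (1 / 3 + ε + ζ) := by
      rw [div_le_iff₀ (ra_pos hn _), ra_mul hn]
      have : 1 / 3 + ε + ζ + (1 - ζ) = 4 / 3 + ε := by ring
      rw [this]
      exact hN
    calc 2 * (C3 * (n : ℝ) ^ (10 / 3 + ε + g1 / 100 - 3 * g1 / 8)) * n *
          (Fintype.card L / (n : ℝ) ^ (1 - ζ))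
        ≤ 2 * (C3 * (n : ℝ) ^ (10 / 3 + ε + g1 / 100 - 3 * g1 / 8)) * n *
          (n : ℝ) ^ (1 / 3 + ε + ζ) := by
          have := ra_pos hn (10 / 3 + ε + g1 / 100 - 3 * g1 / 8)
          gcongr
      _ = c / 2 * (4 * C3 / c * ((n : ℝ) ^ (10 / 3 + ε + g1 / 100 - 3 * g1 / 8) *
          (n : ℝ) ^ (1 : ℝ) * (n : ℝ) ^ (1 / 3 + ε + ζ))) := by
          rw [Real.rpow_one]
          field_simp
          ring
      _ = c / 2 * (4 * C3 / c * (n : ℝ) ^ (14 / 3 + 2 * ε + ζ + g1 / 100 - 3 * g1 / 8)) := by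
          rw [ra_mul hn, ra_mul hn]
          congr 3
          ring
      _ ≤ _ := mul_le_mul_of_nonneg_left q4 (by positivity)
  have hsecond : √(n * (n / ℓs + 1) * (2 * n * ℓs * Fintype.card L / ((n : ℝ) ^ (1 - ζ) * s)) ^ 2 *
        (n ^ 4 * ((Fintype.card L / (n : ℝ) ^ (1 - ζ)) ^ 2 * (2 * y + 1) +
          (2 * ℓs + 1) * Fintype.card L / y))) ≤
      c / 2 * (n : ℝ) ^ (14 / 3 - 2 * (g1 / 48)) := by
    apply Real.sqrt_le_iff.2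
    refine ⟨by positivity, hsq.trans ?_⟩
    have e1 : (c / 2 * (n : ℝ) ^ (14 / 3 - 2 * (g1 / 48))) ^ 2 =
        c ^ 2 / 4 * (n : ℝ) ^ (28 / 3 - 4 * (g1 / 48)) := by
      rw [mul_pow, ra_pow hn]
      congr 1
      · ring
      · congr 1
        push_cast
        ring
    rw [e1]
    have hc2 : 0 < c ^ 2 := by positivity
    have e2 : 24 * (n : ℝ) ^ (28 / 3 + 4 * ε + 4 * ζ - b) ≤
        c ^ 2 / 8 * (n : ℝ) ^ (28 / 3 - 4 * (g1 / 48)) := by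
      calc 24 * (n : ℝ) ^ (28 / 3 + 4 * ε + 4 * ζ - b)
          = c ^ 2 / 8 * (192 / c ^ 2 * (n : ℝ) ^ (28 / 3 + 4 * ε + 4 * ζ - b)) := by
            field_simp
            ring
        _ ≤ _ := mul_le_mul_of_nonneg_left q5 (by positivity)
    have e3 : 192 * (n : ℝ) ^ (28 / 3 + 3 * ε + 2 * ζ - 5 * b) ≤
        c ^ 2 / 8 * (n : ℝ) ^ (28 / 3 - 4 * (g1 / 48)) := by
      calc 192 * (n : ℝ) ^ (28 / 3 + 3 * ε + 2 * ζ - 5 * b)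
          = c ^ 2 / 8 * (1536 / c ^ 2 * (n : ℝ) ^ (28 / 3 + 3 * ε + 2 * ζ - 5 * b)) := by
            field_simp
            ring
        _ ≤ _ := mul_le_mul_of_nonneg_left q6 (by positivity)
    linarith
  have hfin : (𝒯.card : ℝ) * ((n : ℝ) ^ (1 / 3 - g1 / 48)) ^ 2 ≤
      (c * n ^ 4) * ((n : ℝ) ^ (1 / 3 - g1 / 48)) ^ 2 := by
    calc (𝒯.card : ℝ) * ((n : ℝ) ^ (1 / 3 - g1 / 48)) ^ 2
        ≤ c / 2 * (n : ℝ) ^ (14 / 3 - 2 * (g1 / 48)) +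
          c / 2 * (n : ℝ) ^ (14 / 3 - 2 * (g1 / 48)) := hRR.trans (add_le_add hfirst hsecond)
      _ = c * (n : ℝ) ^ (14 / 3 - 2 * (g1 / 48)) := by ring
      _ = _ := by
        rw [← hρ2]
        ring
  have hp2 : 0 < ((n : ℝ) ^ (1 / 3 - g1 / 48)) ^ 2 := by
    have := ra_pos hn (1 / 3 - g1 / 48)
    positivity
  exact le_of_mul_le_mul_right hfin hp2

end Pool.Agent.Hhelper71.LD43
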