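import Mathlib
import Pool.Agent.Hhelper71.LD43.EOne
import Pool.Agent.Hhelper71.LD43.EFour
import Pool.Agent.Hhelper71.LD43.EDisc
import Pool.Agent.Hhelper71.LD43.EFive
import Pool.Agent.Hhelper71.LD43.RichAsymp

/-!
# Distance labelings of cycles: asymptotic form of the second part
-/

set_option linter.unusedSectionVars false
set_option linter.unusedVariables false

namespace Pool.Agent.Hhelper71.LD43

open Filter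

/-- the number of `(i, u, v, x)` -/
theorem ea_one {n : ℕ} (hn : 1 ≤ n) (K0 K1 N ρ1 ε η1 c : ℝ) (hc : 0 < c)
    (hN1 : 1 ≤ N) (hN : N ≤ (n : ℝ) ^ (4 / 3 + ε)) (hρ : ρ1 = (n : ℝ) ^ (1 / 3 - η1))
    (hK0 : c * n ^ 4 ≤ K0) (hK1 : K0 ^ 2 / (n * N ^ 2) - K0 * ρ1 ≤ K1)
    (h : 2 / c * (n : ℝ) ^ (1 / 3 - η1) ≤ (n : ℝ) ^ (1 / 3 - 2 * ε)) :
    c ^ 2 / 2 * (n : ℝ) ^ (13 / 3 - 2 * ε) ≤ K1 := by
  have hn0 : (0 : ℝ) < n := by exact_mod_cast hn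
  have hN0 : 0 < N := by linarith
  have hK00 : 0 < K0 := lt_of_lt_of_le (by positivity) hK0
  have h1 : c * (n : ℝ) ^ (1 / 3 - 2 * ε) ≤ K0 / (n * N ^ 2) := by
    rw [le_div_iff₀ (by positivity)]
    calc c * (n : ℝ) ^ (1 / 3 - 2 * ε) * (n * N ^ 2)
        ≤ c * (n : ℝ) ^ (1 / 3 - 2 * ε) * (n * ((n : ℝ) ^ (4 / 3 + ε)) ^ 2) := by
          have := ra_pos hn (1 / 3 - 2 * ε)
          gcongr
      _ = c * ((n : ℝ) ^ (1 / 3 - 2 * ε) * (n : ℝ) ^ (1 : ℝ) * (n : ℝ) ^ ((4 / 3 + ε) * (2 : ℕ))) := by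
          rw [ra_pow hn, Real.rpow_one]
          ring
      _ = c * n ^ 4 := by
          rw [ra_mul hn, ra_mul hn, ra_nat hn 4]
          congr 2
          push_cast
          ring
      _ ≤ K0 := hK0
  have h2 : ρ1 ≤ c / 2 * (n : ℝ) ^ (1 / 3 - 2 * ε) := by
    rw [hρ]
    calc (n : ℝ) ^ (1 / 3 - η1) = c / 2 * (2 / c * (n : ℝ) ^ (1 / 3 - η1)) := by
          field_simp
      _ ≤ _ := mul_le_mul_of_nonneg_left h (by positivity)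
  have h3 : K0 ^ 2 / (n * N ^ 2) - K0 * ρ1 = K0 * (K0 / (n * N ^ 2) - ρ1) := by
    ring
  rw [h3] at hK1
  refine le_trans ?_ hK1
  calc c ^ 2 / 2 * (n : ℝ) ^ (13 / 3 - 2 * ε)
      = (c * n ^ 4) * (c / 2 * (n : ℝ) ^ (1 / 3 - 2 * ε)) := by
        have : (n : ℝ) ^ (13 / 3 - 2 * ε) = (n : ℝ) ^ 4 * (n : ℝ) ^ (1 / 3 - 2 * ε) := by
          rw [ra_nat hn 4, ra_mul hn]
          congr 1
          push_cast
          ring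
        rw [this]
        ring
    _ ≤ K0 * (K0 / (n * N ^ 2) - ρ1) := by
        apply mul_le_mul hK0 (by linarith) _ hK00.le
        have := ra_pos hn (1 / 3 - 2 * ε)
        positivity

/-- the number of quadruples of triples -/
theorem ea_four {n : ℕ} (hn : 1 ≤ n) (K1 K2 N ε c : ℝ) (hc : 0 < c)
    (hN1 : 1 ≤ N) (hN : N ≤ (n : ℝ) ^ (4 / 3 + ε)) (hK20 : 0 ≤ K2)
    (hK1 : c ^ 2 / 2 * (n : ℝ) ^ (13 / 3 - 2 * ε) ≤ K1)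
    (hK : K1 ^ 4 ≤ 64 * N ^ 3 * n ^ 7 * K2) :
    c ^ 8 / 1024 * (n : ℝ) ^ (19 / 3 - 11 * ε) ≤ K2 := by
  have hn0 : (0 : ℝ) < n := by exact_mod_cast hn
  have hN0 : 0 < N := by linarith
  have hp := ra_pos hn (13 / 3 - 2 * ε)
  have h1 : (c ^ 2 / 2 * (n : ℝ) ^ (13 / 3 - 2 * ε)) ^ 4 ≤ K1 ^ 4 :=
    pow_le_pow_left₀ (by positivity) hK1 4
  have h2 : (c ^ 2 / 2 * (n : ℝ) ^ (13 / 3 - 2 * ε)) ^ 4 =
      64 * ((n : ℝ) ^ (4 / 3 + ε)) ^ 3 * n ^ 7 * (c ^ 8 / 1024 * (n : ℝ) ^ (19 / 3 - 11 * ε)) := by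
    have e1 : ((n : ℝ) ^ (13 / 3 - 2 * ε)) ^ 4 =
        ((n : ℝ) ^ (4 / 3 + ε)) ^ 3 * (n : ℝ) ^ 7 * (n : ℝ) ^ (19 / 3 - 11 * ε) := by
      rw [ra_pow hn, ra_pow hn, ra_nat hn 7, ra_mul hn, ra_mul hn]
      congr 1
      push_cast
      ring
    rw [mul_pow, e1]
    ring
  have hp2 := ra_pos hn (4 / 3 + ε)
  have h3 : 64 * N ^ 3 * n ^ 7 * K2 ≤ 64 * ((n : ℝ) ^ (4 / 3 + ε)) ^ 3 * n ^ 7 * K2 := by
    gcongr
  rw [h2] at h1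
  exact le_of_mul_le_mul_left (h1.trans (hK.trans h3)) (by positivity)

/-- powers: `A ≤ C n^a`, so that `A` is small compared with `c n^b` -/
theorem ea_small {n : ℕ} (A C a b c : ℝ) (hc : 0 < c) (h1 : A ≤ C * (n : ℝ) ^ a)
    (h2 : C / c * (n : ℝ) ^ a ≤ (n : ℝ) ^ b) : A ≤ c * (n : ℝ) ^ b := by
  refine h1.trans ?_
  calc C * (n : ℝ) ^ a = c * (C / c * (n : ℝ) ^ a) := by
        field_simp
    _ ≤ _ := mul_le_mul_of_nonneg_left h2 hc.le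

theorem E_asymp (δ1 δ2 δ3 δ4 η1 η2 η3 ε ζ : ℝ) (hε : 0 < ε) (hε1 : 200 * ε ≤ 1)
    (hδ1 : 0 < δ1) (hδ2 : 0 < δ2) (hδ3 : 0 < δ3) (hδ24 : δ2 ≤ δ4) (hδ3' : δ3 ≤ 1 / 10)
    (c1 : 4 * ε ≤ η1) (c2 : 14 * ε ≤ ζ) (c3 : 2 * δ1 + 14 * ε ≤ η2)
    (c4 : 2 * δ1 + 2 * δ2 + 20 * ε + ζ ≤ δ4) (c5 : 4 * δ4 + 40 * ε ≤ η3)
    (c6 : 4 * δ4 + 40 * ε + ζ ≤ 1 / 3) (c : ℝ) (hc : 0 < c) :
    ∀ᶠ n : ℕ in atTop, ∀ (L : Type) [Fintype L] [DecidableEq L] (E : EData n L),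
      (Fintype.card L : ℝ) ≤ (n : ℝ) ^ (4 / 3 + ε) →
      E.τ1 = (n : ℝ) ^ (2 / 3 + δ1) → E.τ2 = (n : ℝ) ^ (2 / 3 + δ2) →
      E.τ3 = (n : ℝ) ^ (2 / 3 + δ3) → E.τ4 = (n : ℝ) ^ (2 / 3 + δ4) →
      E.ρ1 = (n : ℝ) ^ (1 / 3 - η1) → E.ρ2 = (n : ℝ) ^ (1 / 3 - η2) →
      E.ρ3 = (n : ℝ) ^ (1 / 3 - η3) → E.w0 = (n : ℝ) ^ (2 / 3 + 2 * ε) →
      E.Z = (n : ℝ) ^ (1 - ζ) →
      (E.𝒯.card : ℝ) < c * n ^ 4 := by
  obtain ⟨c', hc'⟩ : ∃ c' : ℝ, c' = c ^ 8 / 1024 := ⟨_, rfl⟩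
  have hc'0 : 0 < c' := by
    rw [hc']
    positivity
  have hζ1 : ζ ≤ 1 / 3 := by linarith
  filter_upwards [ra_log_le ε hε,
    ra_pow_le (2 / c) (1 / 3 - η1) (1 / 3 - 2 * ε) (by linarith),
    ra_pow_le (3 / (c' / 8)) (19 / 3 + ε - ζ) (19 / 3 - 11 * ε) (by linarith),
    ra_pow_le (4 / (c' / 8)) (19 / 3 - η2 + 2 * δ1 + ε) (19 / 3 - 11 * ε) (by linarith),
    ra_pow_le (6 / (c' / 8)) (19 / 3 + 5 * ε + ζ + 2 * δ1 + 2 * δ2 - δ4) (19 / 3 - 11 * ε)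
      (by linarith),
    ra_pow_le (1 / (c' ^ 2 / 64)) (12 + 9 * ε + ζ + 4 * δ4 + 2 * δ3) (38 / 3 - 22 * ε)
      (by linarith),
    ra_pow_le (1 / (c' ^ 2 / 64)) (38 / 3 + 8 * ε + 4 * δ4 - η3) (38 / 3 - 22 * ε)
      (by linarith), eventually_ge_atTop 1] with n hlog q1 q2 q3 q4 q5 q6 hn
  intro L _ _ E hN hτ1 hτ2 hτ3 hτ4 hρ1 hρ2 hρ3 hw0 hZ
  by_contra hcon
  push Not at hcon
  have hn0 : (0 : ℝ) < n := by exact_mod_cast hn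
  have hn1 : (1 : ℝ) ≤ n := by exact_mod_cast hn
  obtain ⟨N, hNdef⟩ : ∃ N : ℝ, N = Fintype.card L := ⟨_, rfl⟩
  have hNn : (n : ℝ) ≤ N := by
    rw [hNdef]
    exact_mod_cast E.S.le_card hn
  have hN1 : 1 ≤ N := hn1.trans hNn
  have hF1 := E.F1_card
  have hF4 := E.F4_card
  rw [← hNdef] at hF1 hF4 hN
  have k1 := ea_one hn _ _ N E.ρ1 ε η1 c hc hN1 hN hρ1 hcon hF1 q1
  have k2 := ea_four hn _ _ N ε c hc hN1 hN (by positivity) k1 hF4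
  rw [← hc'] at k2
  -- sums
  obtain ⟨S2, hS2def⟩ : ∃ S2 : ℝ, S2 = 3 * (n : ℝ) ^ (10 / 3 + 2 * ε) := ⟨_, rfl⟩
  obtain ⟨S1, hS1def⟩ : ∃ S1 : ℝ, S1 = 2 * (n : ℝ) ^ (8 / 3 + ε) := ⟨_, rfl⟩
  have hS2 : ∑ a ∈ Iset n, ∑ b ∈ Iset n, ((E.S.T a b).card : ℝ) ^ 2 ≤ S2 := by
    have := (E.S.sum_sq_T_le hn).trans (ra_S2 hn (by positivity) (hNdef ▸ hN) hε.le hε.le hlog)
    rw [hS2def]
    have e1 : 10 / 3 + 2 * ε = 10 / 3 + ε + ε := by ring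
    rw [e1]
    exact this
  have hS1 : ∑ a ∈ Iset n, ∑ b ∈ Iset n, ((E.S.T a b).card : ℝ) ≤ S1 := by
    have a1 := E.S.sum_T_sq_le hn
    have a2 : (∑ a ∈ Iset n, ∑ b ∈ Iset n, ((E.S.T a b).card : ℝ)) ^ 2 ≤ S1 ^ 2 := by
      refine a1.trans ?_
      calc (n : ℝ) ^ 2 * ∑ a ∈ Iset n, ∑ b ∈ Iset n, ((E.S.T a b).card : ℝ) ^ 2
          ≤ (n : ℝ) ^ 2 * S2 := mul_le_mul_of_nonneg_left hS2 (by positivity)
        _ = 3 * ((n : ℝ) ^ 2 * (n : ℝ) ^ (10 / 3 + 2 * ε)) := by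
            rw [hS2def]
            ring
        _ = 3 * ((n : ℝ) ^ (8 / 3 + ε)) ^ 2 := by
            rw [ra_nat hn 2, ra_mul hn, ra_pow hn]
            congr 2
            push_cast
            ring
        _ ≤ S1 ^ 2 := by
            rw [hS1def, mul_pow]
            have := ra_pos hn (8 / 3 + ε)
            have : 0 < ((n : ℝ) ^ (8 / 3 + ε)) ^ 2 := by positivity
            linarith
    have hp : 0 ≤ S1 := by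
      rw [hS1def]
      have := ra_pos hn (8 / 3 + ε)
      positivity
    exact (abs_le_of_sq_le_sq' a2 hp).2
  have hD := E.F4_le S1 S2 hS1 hS2
  have hF5 := E.F5_card
  rw [← hNdef] at hD hF5
  have hZ0 := E.hZ
  have hNZ : N / E.Z ≤ (n : ℝ) ^ (1 / 3 + ε + ζ) := by
    rw [div_le_iff₀ hZ0, hZ, ra_mul hn]
    have : 1 / 3 + ε + ζ + (1 - ζ) = 4 / 3 + ε := by ring
    rw [this]
    exact hN
  have hNZ0 : 0 ≤ N / E.Z := by positivity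
  have hZ1 : 1 ≤ E.Z := by
    rw [hZ]
    exact Real.one_le_rpow hn1 (by linarith)
  have hN0 : 0 ≤ N := by linarith
  -- near
  have d1 : N * n ^ 4 * (2 * E.Z + 1) ≤ c' / 8 * (n : ℝ) ^ (19 / 3 - 11 * ε) := by
    refine ea_small _ 3 (19 / 3 + ε - ζ) _ _ (by positivity) ?_ q2
    calc N * n ^ 4 * (2 * E.Z + 1) ≤ (n : ℝ) ^ (4 / 3 + ε) * n ^ 4 * (3 * E.Z) := by
          gcongr
          linarith
      _ = 3 * ((n : ℝ) ^ (4 / 3 + ε) * n ^ 4 * (n : ℝ) ^ (1 - ζ)) := by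
          rw [hZ]
          ring
      _ = 3 * (n : ℝ) ^ (19 / 3 + ε - ζ) := by
          rw [ra_nat hn 4, ra_mul hn, ra_mul hn]
          congr 2
          push_cast
          ring
  have d2 : 2 * (n ^ 2 * E.ρ2 * E.τ1 ^ 2 * S1) ≤ c' / 8 * (n : ℝ) ^ (19 / 3 - 11 * ε) := by
    refine ea_small _ 4 (19 / 3 - η2 + 2 * δ1 + ε) _ _ (by positivity) ?_ q3
    apply le_of_eq
    calc 2 * (n ^ 2 * E.ρ2 * E.τ1 ^ 2 * S1) = 4 * ((n : ℝ) ^ 2 * (n : ℝ) ^ (1 / 3 - η2) *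
          ((n : ℝ) ^ (2 / 3 + δ1)) ^ 2 * (n : ℝ) ^ (8 / 3 + ε)) := by
          rw [hρ2, hτ1, hS1def]
          ring
      _ = _ := by
          rw [ra_nat hn 2, ra_pow hn, ra_mul hn, ra_mul hn, ra_mul hn]
          congr 2
          push_cast
          ring
  have d3 : 2 * (S2 / E.τ4 * E.w0 * E.τ2 ^ 2 * (N / E.Z) * E.τ1 ^ 2) ≤
      c' / 8 * (n : ℝ) ^ (19 / 3 - 11 * ε) := by
    refine ea_small _ 6 (19 / 3 + 5 * ε + ζ + 2 * δ1 + 2 * δ2 - δ4) _ _ (by positivity) ?_ q4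
    have hS20 : 0 ≤ S2 := by
      rw [hS2def]
      have := ra_pos hn (10 / 3 + 2 * ε)
      positivity
    have hτ40 : 0 < E.τ4 := by
      rw [hτ4]
      exact ra_pos hn _
    have hw00 := E.hw0
    calc 2 * (S2 / E.τ4 * E.w0 * E.τ2 ^ 2 * (N / E.Z) * E.τ1 ^ 2)
        ≤ 2 * (S2 / E.τ4 * E.w0 * E.τ2 ^ 2 * (n : ℝ) ^ (1 / 3 + ε + ζ) * E.τ1 ^ 2) := by
          gcongr
      _ = 6 * ((n : ℝ) ^ (10 / 3 + 2 * ε) * (n : ℝ) ^ (-(2 / 3 + δ4)) *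
          (n : ℝ) ^ (2 / 3 + 2 * ε) * ((n : ℝ) ^ (2 / 3 + δ2)) ^ 2 * (n : ℝ) ^ (1 / 3 + ε + ζ) *
          ((n : ℝ) ^ (2 / 3 + δ1)) ^ 2) := by
          rw [hS2def, hτ4, hw0, hτ2, hτ1, Real.rpow_neg hn0.le, div_eq_mul_inv]
          ring
      _ = _ := by
          rw [ra_pow hn, ra_pow hn, ra_mul hn, ra_mul hn, ra_mul hn, ra_mul hn, ra_mul hn]
          congr 2
          push_cast
          ring
  -- many quadruples in general position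
  have k3 : c' / 2 * (n : ℝ) ^ (19 / 3 - 11 * ε) ≤ E.F5.card := by
    have hp := ra_pos hn (19 / 3 - 11 * ε)
    have : 0 < c' * (n : ℝ) ^ (19 / 3 - 11 * ε) := by positivity
    linarith
  have k4 : c' ^ 2 / 4 * (n : ℝ) ^ (38 / 3 - 22 * ε) ≤ (E.F5.card : ℝ) ^ 2 := by
    have hp := ra_pos hn (19 / 3 - 11 * ε)
    calc c' ^ 2 / 4 * (n : ℝ) ^ (38 / 3 - 22 * ε) =
          (c' / 2 * (n : ℝ) ^ (19 / 3 - 11 * ε)) ^ 2 := by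
          rw [mul_pow, ra_pow hn]
          congr 1
          · ring
          · congr 1
            push_cast
            ring
      _ ≤ _ := pow_le_pow_left₀ (by positivity) k3 2
  have k5 : N ^ 2 * E.w0 ^ 3 * E.τ4 ^ 4 *
      (n ^ 3 * (N / E.Z) * E.τ3 ^ 2 + n ^ 5 * E.ρ3) ≤
      (n : ℝ) ^ (12 + 9 * ε + ζ + 4 * δ4 + 2 * δ3) + (n : ℝ) ^ (38 / 3 + 8 * ε + 4 * δ4 - η3) := by
    have hw00 := E.hw0
    have hρ30 := E.hρ3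
    calc N ^ 2 * E.w0 ^ 3 * E.τ4 ^ 4 * (n ^ 3 * (N / E.Z) * E.τ3 ^ 2 + n ^ 5 * E.ρ3)
        ≤ ((n : ℝ) ^ (4 / 3 + ε)) ^ 2 * E.w0 ^ 3 * E.τ4 ^ 4 *
          (n ^ 3 * (n : ℝ) ^ (1 / 3 + ε + ζ) * E.τ3 ^ 2 + n ^ 5 * E.ρ3) := by
          have := ra_pos hn (4 / 3 + ε)
          have h4 : 0 ≤ E.τ4 ^ 4 := by positivity
          gcongr
      _ = ((n : ℝ) ^ (4 / 3 + ε)) ^ 2 * ((n : ℝ) ^ (2 / 3 + 2 * ε)) ^ 3 *
            ((n : ℝ) ^ (2 / 3 + δ4)) ^ 4 * (n : ℝ) ^ 3 * (n : ℝ) ^ (1 / 3 + ε + ζ) *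
            ((n : ℝ) ^ (2 / 3 + δ3)) ^ 2 +
          ((n : ℝ) ^ (4 / 3 + ε)) ^ 2 * ((n : ℝ) ^ (2 / 3 + 2 * ε)) ^ 3 *
            ((n : ℝ) ^ (2 / 3 + δ4)) ^ 4 * (n : ℝ) ^ 5 * (n : ℝ) ^ (1 / 3 - η3) := by
          rw [hw0, hτ4, hτ3, hρ3]
          ring
      _ = _ := by
          rw [ra_pow hn, ra_pow hn, ra_pow hn, ra_pow hn, ra_nat hn 3, ra_nat hn 5,
            ra_mul hn, ra_mul hn, ra_mul hn, ra_mul hn, ra_mul hn, ra_mul hn, ra_mul hn]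
          congr 2
          · push_cast
            ring
          · push_cast
            ring
  have e1 := ea_small _ 1 _ _ (c' ^ 2 / 64) (by positivity)
    (by rw [one_mul] : (n : ℝ) ^ (12 + 9 * ε + ζ + 4 * δ4 + 2 * δ3) ≤
      1 * (n : ℝ) ^ (12 + 9 * ε + ζ + 4 * δ4 + 2 * δ3)) q5
  have e2 := ea_small _ 1 _ _ (c' ^ 2 / 64) (by positivity)
    (by rw [one_mul] : (n : ℝ) ^ (38 / 3 + 8 * ε + 4 * δ4 - η3) ≤
      1 * (n : ℝ) ^ (38 / 3 + 8 * ε + 4 * δ4 - η3)) q6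
  have hp := ra_pos hn (38 / 3 - 22 * ε)
  have hpos : 0 < c' ^ 2 * (n : ℝ) ^ (38 / 3 - 22 * ε) := by positivity
  linarith

end Pool.Agent.Hhelper71.LD43
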