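import Mathlib
import Pool.Agent.Hhelper71.LD43.Basic

/-!
# Distance labelings of cycles: far acute triples
-/

set_option linter.unusedSectionVars false
set_option linter.unusedVariables false

namespace Pool.Agent.Hhelper71.LD43

namespace Sys
variable {n : ℕ} {L : Type} [Fintype L] [DecidableEq L] (S : Sys n L)

/-- acute triples of the cycle `C_a` -/
private def ft_tri (a : ℕ) : Finset (L × L × L) :=
  (S.A a ×ˢ (S.A a ×ˢ S.A a)).filter (fun t => S.al t.1 t.2.1 t.2.2 = a)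

open Classical in
/-- the far ones -/
private noncomputable def ft_far (Z : ℝ) (a : ℕ) : Finset (L × L × L) :=
  (S.ft_tri a).filter (fun t => Z ≤ S.dist t.1 t.2.1 ∧ Z ≤ S.dist t.2.1 t.2.2 ∧
    Z ≤ S.dist t.1 t.2.2)

private theorem ft_mem_tri {a : ℕ} {t : L × L × L} : t ∈ S.ft_tri a ↔
    t.1 ∈ S.A a ∧ t.2.1 ∈ S.A a ∧ t.2.2 ∈ S.A a ∧ S.al t.1 t.2.1 t.2.2 = a := by
  unfold ft_tri
  rw [Finset.mem_filter, Finset.mem_product, Finset.mem_product]
  tauto

private theorem ft_tri_card_eq (a : ℕ) : (S.ft_tri a).card =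
    ∑ u ∈ S.A a, ∑ v ∈ S.A a, ((S.A a).filter (fun x => S.al u v x = a)).card := by
  unfold ft_tri
  rw [Finset.card_filter, Finset.sum_product]
  refine Finset.sum_congr rfl fun u _ => ?_
  rw [Finset.sum_product]
  refine Finset.sum_congr rfl fun v _ => ?_
  rw [Finset.card_filter]

/-- the sum of the distances from `u` -/
private theorem ft_sum_dist {a : ℕ} (ha : a ∈ Iset n) (h4 : 4 ≤ a) {u : L} (hu : u ∈ S.A a) :
    (a : ℝ) ^ 2 / 16 ≤ ∑ v ∈ S.A a, (S.dist u v : ℝ) := by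
  classical
  have ha4 : (4 : ℝ) ≤ a := by exact_mod_cast h4
  have hz : (0 : ℝ) ≤ (a : ℝ) / 8 := by positivity
  have h1 := S.near_card_real ha hu hz
  have h2 : (((S.A a).filter (fun y => (S.dist u y : ℝ) < (a : ℝ) / 8)).card : ℝ) +
      (((S.A a).filter (fun y => ¬ (S.dist u y : ℝ) < (a : ℝ) / 8)).card : ℝ) = a := by
    have h3 := Finset.card_filter_add_card_filter_not (s := S.A a)
      (fun y => (S.dist u y : ℝ) < (a : ℝ) / 8)
    rw [S.card_A a ha] at h3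
    exact_mod_cast h3
  have h3 : (a : ℝ) / 2 ≤
      (((S.A a).filter (fun y => ¬ (S.dist u y : ℝ) < (a : ℝ) / 8)).card : ℝ) := by
    linarith
  calc (a : ℝ) ^ 2 / 16 = (a : ℝ) / 2 * (a / 8) := by ring
    _ ≤ (((S.A a).filter (fun y => ¬ (S.dist u y : ℝ) < (a : ℝ) / 8)).card : ℝ) * (a / 8) :=
        mul_le_mul_of_nonneg_right h3 hz
    _ = ∑ v ∈ (S.A a).filter (fun y => ¬ (S.dist u y : ℝ) < (a : ℝ) / 8), (a : ℝ) / 8 := by
        rw [Finset.sum_const, nsmul_eq_mul]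
    _ ≤ ∑ v ∈ (S.A a).filter (fun y => ¬ (S.dist u y : ℝ) < (a : ℝ) / 8), (S.dist u v : ℝ) := by
        refine Finset.sum_le_sum fun v hv => ?_
        exact not_lt.1 (Finset.mem_filter.1 hv).2
    _ ≤ ∑ v ∈ S.A a, (S.dist u v : ℝ) :=
        Finset.sum_le_sum_of_subset_of_nonneg (Finset.filter_subset _ _)
          fun v _ _ => Nat.cast_nonneg _

private theorem ft_tri_card {a : ℕ} (ha : a ∈ Iset n) (h4 : 4 ≤ a) :
    (a : ℝ) ^ 3 / 16 ≤ (S.ft_tri a).card := by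
  rw [S.ft_tri_card_eq a]
  push_cast
  calc (a : ℝ) ^ 3 / 16 = ∑ u ∈ S.A a, (a : ℝ) ^ 2 / 16 := by
        rw [Finset.sum_const, nsmul_eq_mul, S.card_A a ha]
        ring
    _ ≤ ∑ u ∈ S.A a, ∑ v ∈ S.A a, (S.dist u v : ℝ) :=
        Finset.sum_le_sum fun u hu => S.ft_sum_dist ha h4 hu
    _ ≤ _ := by
        refine Finset.sum_le_sum fun u hu => Finset.sum_le_sum fun v hv => ?_
        exact_mod_cast S.acute_card ha hu hv

/-- near triples: general form; `f` forgets the near letter -/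
private theorem ft_near {a : ℕ} (ha : a ∈ Iset n) {Z : ℝ} (hZ : 0 ≤ Z)
    (s : Finset (L × L × L)) (f : L × L × L → L × L) (g : L × L × L → L) (c : L × L → L)
    (hf : ∀ t ∈ s, f t ∈ S.A a ×ˢ S.A a)
    (hg : ∀ t ∈ s, g t ∈ S.A a ∧ (S.dist (c (f t)) (g t) : ℝ) < Z)
    (hc : ∀ q ∈ S.A a ×ˢ S.A a, c q ∈ S.A a)
    (hinj : ∀ t ∈ s, ∀ t' ∈ s, f t = f t' → g t = g t' → t = t') :
    (s.card : ℝ) ≤ (2 * Z + 1) * a ^ 2 := by
  classical
  have h1 := card_le_of_fibres s (S.A a ×ˢ S.A a) f (2 * Z + 1) hf (fun q hq => by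
    refine le_trans ?_ (S.near_card_real ha (hc q hq) hZ)
    have h2 : (s.filter (fun t => f t = q)).card ≤
        ((S.A a).filter (fun y => (S.dist (c q) y : ℝ) < Z)).card := by
      refine Finset.card_le_card_of_injOn g (fun t ht => ?_) (fun t ht t' ht' h => ?_)
      · have ht2 := Finset.mem_filter.1 (Finset.mem_coe.1 ht)
        have h3 := hg t ht2.1
        rw [ht2.2] at h3
        exact Finset.mem_coe.2 (Finset.mem_filter.2 h3)
      · have ht2 := Finset.mem_filter.1 (Finset.mem_coe.1 ht)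
        have ht2' := Finset.mem_filter.1 (Finset.mem_coe.1 ht')
        exact hinj t ht2.1 t' ht2'.1 (ht2.2.trans ht2'.2.symm) h
    exact_mod_cast h2)
  refine h1.trans (le_of_eq ?_)
  rw [Finset.card_product, S.card_A a ha]
  push_cast
  ring

private theorem ft_far_card {a : ℕ} (ha : a ∈ Iset n) {Z : ℝ} (hZ : 0 ≤ Z)
    (hZn : 2000 * Z ≤ n) (hn : 1000 ≤ n) : (a : ℝ) ^ 3 / 20 ≤ (S.ft_far Z a).card := by
  classical
  have hIa := mem_Iset.1 ha
  have h1 : 4 ≤ a := by omega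
  have hn' : (1000 : ℝ) ≤ n := by exact_mod_cast hn
  have hna : (n : ℝ) ≤ 2 * a := by exact_mod_cast hIa.1
  have hZa : 2 * Z + 1 ≤ (a : ℝ) / 250 := by linarith
  have ha0 : (0 : ℝ) ≤ a := by positivity
  have hsq : (2 * Z + 1) * (a : ℝ) ^ 2 ≤ (a : ℝ) ^ 3 / 250 := by
    calc (2 * Z + 1) * (a : ℝ) ^ 2 ≤ (a : ℝ) / 250 * a ^ 2 :=
          mul_le_mul_of_nonneg_right hZa (by positivity)
      _ = (a : ℝ) ^ 3 / 250 := by ring
  set s1 := (S.ft_tri a).filter (fun t => (S.dist t.1 t.2.1 : ℝ) < Z) with hs1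
  set s2 := (S.ft_tri a).filter (fun t => (S.dist t.2.1 t.2.2 : ℝ) < Z) with hs2
  set s3 := (S.ft_tri a).filter (fun t => (S.dist t.1 t.2.2 : ℝ) < Z) with hs3
  have m1 : ∀ t ∈ s1, t.1 ∈ S.A a ∧ t.2.1 ∈ S.A a ∧ t.2.2 ∈ S.A a ∧
      (S.dist t.1 t.2.1 : ℝ) < Z := by
    intro t ht
    have h2 := Finset.mem_filter.1 ht
    have h3 := S.ft_mem_tri.1 h2.1
    exact ⟨h3.1, h3.2.1, h3.2.2.1, h2.2⟩
  have m2 : ∀ t ∈ s2, t.1 ∈ S.A a ∧ t.2.1 ∈ S.A a ∧ t.2.2 ∈ S.A a ∧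
      (S.dist t.2.1 t.2.2 : ℝ) < Z := by
    intro t ht
    have h2 := Finset.mem_filter.1 ht
    have h3 := S.ft_mem_tri.1 h2.1
    exact ⟨h3.1, h3.2.1, h3.2.2.1, h2.2⟩
  have m3 : ∀ t ∈ s3, t.1 ∈ S.A a ∧ t.2.1 ∈ S.A a ∧ t.2.2 ∈ S.A a ∧
      (S.dist t.1 t.2.2 : ℝ) < Z := by
    intro t ht
    have h2 := Finset.mem_filter.1 ht
    have h3 := S.ft_mem_tri.1 h2.1
    exact ⟨h3.1, h3.2.1, h3.2.2.1, h2.2⟩
  have b1 : (s1.card : ℝ) ≤ (2 * Z + 1) * a ^ 2 := by
    refine S.ft_near ha hZ s1 (fun t => (t.1, t.2.2)) (fun t => t.2.1) (fun q => q.1)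
      (fun t ht => Finset.mem_product.2 ⟨(m1 t ht).1, (m1 t ht).2.2.1⟩)
      (fun t ht => ⟨(m1 t ht).2.1, (m1 t ht).2.2.2⟩)
      (fun q hq => (Finset.mem_product.1 hq).1) ?_
    rintro ⟨x, y, z⟩ _ ⟨x', y', z'⟩ _ h3 h4
    simp only [Prod.mk.injEq] at h3 h4 ⊢
    exact ⟨h3.1, h4, h3.2⟩
  have b2 : (s2.card : ℝ) ≤ (2 * Z + 1) * a ^ 2 := by
    refine S.ft_near ha hZ s2 (fun t => (t.1, t.2.1)) (fun t => t.2.2) (fun q => q.2)
      (fun t ht => Finset.mem_product.2 ⟨(m2 t ht).1, (m2 t ht).2.1⟩)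
      (fun t ht => ⟨(m2 t ht).2.2.1, (m2 t ht).2.2.2⟩)
      (fun q hq => (Finset.mem_product.1 hq).2) ?_
    rintro ⟨x, y, z⟩ _ ⟨x', y', z'⟩ _ h3 h4
    simp only [Prod.mk.injEq] at h3 h4 ⊢
    exact ⟨h3.1, h3.2, h4⟩
  have b3 : (s3.card : ℝ) ≤ (2 * Z + 1) * a ^ 2 := by
    refine S.ft_near ha hZ s3 (fun t => (t.1, t.2.1)) (fun t => t.2.2) (fun q => q.1)
      (fun t ht => Finset.mem_product.2 ⟨(m3 t ht).1, (m3 t ht).2.1⟩)
      (fun t ht => ⟨(m3 t ht).2.2.1, (m3 t ht).2.2.2⟩)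
      (fun q hq => (Finset.mem_product.1 hq).1) ?_
    rintro ⟨x, y, z⟩ _ ⟨x', y', z'⟩ _ h3 h4
    simp only [Prod.mk.injEq] at h3 h4 ⊢
    exact ⟨h3.1, h3.2, h4⟩
  have hsub : S.ft_tri a ⊆ S.ft_far Z a ∪ (s1 ∪ (s2 ∪ s3)) := by
    intro t ht
    simp only [ft_far, hs1, hs2, hs3, Finset.mem_union, Finset.mem_filter]
    by_cases c1 : Z ≤ S.dist t.1 t.2.1
    · by_cases c2 : Z ≤ S.dist t.2.1 t.2.2
      · by_cases c3 : Z ≤ S.dist t.1 t.2.2
        · exact Or.inl ⟨ht, c1, c2, c3⟩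
        · exact Or.inr (Or.inr (Or.inr ⟨ht, not_le.1 c3⟩))
      · exact Or.inr (Or.inr (Or.inl ⟨ht, not_le.1 c2⟩))
    · exact Or.inr (Or.inl ⟨ht, not_le.1 c1⟩)
  have hcard : (S.ft_tri a).card ≤ (S.ft_far Z a).card + (s1.card + (s2.card + s3.card)) :=
    (Finset.card_le_card hsub).trans ((Finset.card_union_le _ _).trans
      (Nat.add_le_add_left ((Finset.card_union_le _ _).trans
        (Nat.add_le_add_left (Finset.card_union_le _ _) _)) _))
  have hcard' : ((S.ft_tri a).card : ℝ) ≤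
      (S.ft_far Z a).card + (s1.card + (s2.card + s3.card)) := by
    exact_mod_cast hcard
  have h5 := S.ft_tri_card ha h1
  have h6 : (0 : ℝ) ≤ (a : ℝ) ^ 3 := by positivity
  linarith

theorem far_card (Z : ℝ) (hZ : 0 ≤ Z) (hZn : 2000 * Z ≤ n) (hn : 1000 ≤ n) :
    (n : ℝ) ^ 4 / 400 ≤ (S.Far Z).card := by
  classical
  have h1 : (Iset n).biUnion (S.ft_far Z) ⊆ S.Far Z := by
    intro t ht
    obtain ⟨a, ha, hta⟩ := Finset.mem_biUnion.1 ht
    unfold ft_far at hta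
    have h2 := Finset.mem_filter.1 hta
    have h3 := S.ft_mem_tri.1 h2.1
    unfold Far
    rw [Finset.mem_filter]
    refine ⟨Finset.mem_univ _, ?_, h2.2⟩
    unfold Ac
    rw [h3.2.2.2]
    exact ⟨ha, h3.1, h3.2.1, h3.2.2.1⟩
  have h2 : ((Iset n).biUnion (S.ft_far Z)).card = ∑ a ∈ Iset n, (S.ft_far Z a).card := by
    refine Finset.card_biUnion fun a _ b _ hab => ?_
    refine Finset.disjoint_left.2 fun t ht ht' => hab ?_
    unfold ft_far at ht ht'
    have h3 := S.ft_mem_tri.1 (Finset.mem_filter.1 ht).1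
    have h4 := S.ft_mem_tri.1 (Finset.mem_filter.1 ht').1
    exact h3.2.2.2.symm.trans h4.2.2.2
  have h3 : ((∑ a ∈ Iset n, (S.ft_far Z a).card : ℕ) : ℝ) ≤ (S.Far Z).card := by
    rw [← h2]
    exact_mod_cast Finset.card_le_card h1
  refine le_trans ?_ h3
  push_cast
  have hn' : (1000 : ℝ) ≤ n := by exact_mod_cast hn
  have hI : (n : ℝ) ≤ 2 * (Iset n).card := by exact_mod_cast card_Iset_ge
  calc (n : ℝ) ^ 4 / 400 ≤ (n / 2) * ((n : ℝ) ^ 3 / 160) := by
        have : (0 : ℝ) ≤ (n : ℝ) ^ 4 := by positivity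
        nlinarith
    _ ≤ ((Iset n).card : ℝ) * ((n : ℝ) ^ 3 / 160) :=
        mul_le_mul_of_nonneg_right (by linarith) (by positivity)
    _ = ∑ a ∈ Iset n, (n : ℝ) ^ 3 / 160 := by
        rw [Finset.sum_const, nsmul_eq_mul]
    _ ≤ ∑ a ∈ Iset n, ((S.ft_far Z a).card : ℝ) := by
        refine Finset.sum_le_sum fun a ha => ?_
        refine le_trans ?_ (S.ft_far_card ha hZ hZn hn)
        have hna : (n : ℝ) ≤ 2 * a := by exact_mod_cast (mem_Iset.1 ha).1
        have h5 : (n : ℝ) ^ 3 ≤ (2 * a) ^ 3 := pow_le_pow_left₀ (by positivity) hna 3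
        have h6 : ((2 : ℝ) * a) ^ 3 = 8 * (a : ℝ) ^ 3 := by ring
        rw [h6] at h5
        linarith

/-- acute triples whose first letter is on many cycles -/
theorem heavy_card (w0 : ℝ) (hw0 : 0 < w0) (s : Finset (L × L × L))
    (hs : ∀ t ∈ s, S.Ac t.1 t.2.1 t.2.2 ∧ w0 < (S.W t.1 t.1).card) :
    (s.card : ℝ) * w0 ≤ n ^ 2 * ∑ a ∈ Iset n, ∑ b ∈ Iset n, ((S.T a b).card : ℝ) := by
  classical
  set P : Finset (ℕ × L) := (Iset n ×ˢ Finset.univ).filter
    (fun q => q.2 ∈ S.A q.1 ∧ w0 < (S.W q.2 q.2).card) with hP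
  have h1 : (s.card : ℝ) ≤ (n : ℝ) ^ 2 * P.card := by
    refine card_le_of_fibres s P (fun t => (S.al t.1 t.2.1 t.2.2, t.1)) _ (fun t ht => ?_)
      (fun q hq => ?_)
    · have h2 := hs t ht
      rw [hP, Finset.mem_filter]
      exact ⟨Finset.mem_product.2 ⟨h2.1.1, Finset.mem_univ _⟩, h2.1.2.1, h2.2⟩
    · have hq1 := Finset.mem_filter.1 hq
      have hqI : q.1 ∈ Iset n := (Finset.mem_product.1 hq1.1).1
      have h3 : (s.filter (fun t => (S.al t.1 t.2.1 t.2.2, t.1) = q)).card ≤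
          (S.A q.1 ×ˢ S.A q.1).card := by
        refine Finset.card_le_card_of_injOn (fun t => (t.2.1, t.2.2)) (fun t ht => ?_)
          (fun t ht t' ht' h => ?_)
        · have ht2 := Finset.mem_filter.1 (Finset.mem_coe.1 ht)
          have h4 := (hs t ht2.1).1
          have h5 : S.al t.1 t.2.1 t.2.2 = q.1 := congrArg Prod.fst ht2.2
          unfold Ac at h4
          rw [h5] at h4
          exact Finset.mem_coe.2 (Finset.mem_product.2 ⟨h4.2.2.1, h4.2.2.2⟩)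
        · have ht2 := Finset.mem_filter.1 (Finset.mem_coe.1 ht)
          have ht2' := Finset.mem_filter.1 (Finset.mem_coe.1 ht')
          have h5 : t.1 = q.2 := congrArg Prod.snd ht2.2
          have h5' : t'.1 = q.2 := congrArg Prod.snd ht2'.2
          exact Prod.ext (h5.trans h5'.symm) h
      have h4 : (S.A q.1 ×ˢ S.A q.1).card ≤ n ^ 2 := by
        rw [Finset.card_product, pow_two]
        exact Nat.mul_le_mul (S.card_A_le hqI) (S.card_A_le hqI)
      exact_mod_cast h3.trans h4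
  have h2 : (P.card : ℝ) * w0 ≤ ∑ a ∈ Iset n, ∑ b ∈ Iset n, ((S.T a b).card : ℝ) := by
    have e1 : P.card = ∑ a ∈ Iset n,
        ((S.A a).filter (fun u => w0 < (S.W u u).card)).card := by
      rw [hP, Finset.card_filter, Finset.sum_product]
      refine Finset.sum_congr rfl fun a _ => ?_
      rw [← Finset.card_filter]
      congr 1
      ext u
      simp only [Finset.mem_filter, Finset.mem_univ, true_and]
    rw [e1]
    push_cast
    rw [Finset.sum_mul]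
    refine Finset.sum_le_sum fun a _ => ?_
    calc (((S.A a).filter (fun u => w0 < (S.W u u).card)).card : ℝ) * w0
        = ∑ u ∈ (S.A a).filter (fun u => w0 < (S.W u u).card), w0 := by
          rw [Finset.sum_const, nsmul_eq_mul]
      _ ≤ ∑ u ∈ (S.A a).filter (fun u => w0 < (S.W u u).card), ((S.W u u).card : ℝ) :=
          Finset.sum_le_sum fun u hu => (Finset.mem_filter.1 hu).2.le
      _ ≤ ∑ u ∈ S.A a, ((S.W u u).card : ℝ) :=
          Finset.sum_le_sum_of_subset_of_nonneg (Finset.filter_subset _ _)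
            fun u _ _ => Nat.cast_nonneg _
      _ = ∑ b ∈ Iset n, ((S.T a b).card : ℝ) := by
          have h3 := sum_card_filter_comm (S.A a) (Iset n) (fun u b => u ∈ S.A b ∧ u ∈ S.A b)
          have h4 : ∑ u ∈ S.A a, (S.W u u).card = ∑ b ∈ Iset n, (S.T a b).card := by
            refine Eq.trans ?_ (h3.trans ?_)
            · refine Finset.sum_congr rfl fun u _ => ?_
              unfold W
              rfl
            · refine Finset.sum_congr rfl fun b _ => ?_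
              unfold T
              congr 1
              ext u
              simp only [Finset.mem_filter, Finset.mem_inter, and_self]
          exact_mod_cast h4
  calc (s.card : ℝ) * w0 ≤ (n : ℝ) ^ 2 * P.card * w0 :=
        mul_le_mul_of_nonneg_right h1 hw0.le
    _ = (n : ℝ) ^ 2 * (P.card * w0) := by ring
    _ ≤ _ := mul_le_mul_of_nonneg_left h2 (by positivity)

end Sys

end Pool.Agent.Hhelper71.LD43
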