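import Mathlib
import Pool.Agent.Hhelper71.LD43.FarTriples
import Pool.Agent.Hhelper71.LD43.RichAsymp
import Pool.Agent.Hhelper71.LD43.EAsymp

/-!
# Distance labelings of cycles: conclusion for systems
-/

set_option linter.unusedSectionVars false
set_option linter.unusedVariables false

namespace Pool.Agent.Hhelper71.LD43

open Filter

/-- powers of `n` beat constants -/
theorem lo_pow_le (C a b : ℝ) (hab : a < b) : ∀ᶠ n : ℕ in atTop, C * (n : ℝ) ^ a ≤ (n : ℝ) ^ b := by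
  have h1 : Tendsto (fun n : ℕ => (n : ℝ) ^ (b - a)) atTop atTop :=
    (tendsto_rpow_atTop (by linarith : 0 < b - a)).comp tendsto_natCast_atTop_atTop
  filter_upwards [h1.eventually_ge_atTop C, eventually_gt_atTop 0] with n h2 h3
  have h4 : (0 : ℝ) < n := by exact_mod_cast h3
  have h5 : (n : ℝ) ^ b = (n : ℝ) ^ (b - a) * (n : ℝ) ^ a := by
    rw [← Real.rpow_add h4]
    congr 1
    ring
  rw [h5]
  exact mul_le_mul_of_nonneg_right h2 (Real.rpow_nonneg h4.le a)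

theorem lo_log_le (b : ℝ) (hb : 0 < b) : ∀ᶠ n : ℕ in atTop, 1 + Real.log n ≤ (n : ℝ) ^ b := by
  have h1 : ∀ᶠ x : ℝ in atTop, Real.log x ≤ 1 / 2 * x ^ b := by
    have := (isLittleO_log_rpow_atTop hb).bound (show (0 : ℝ) < 1 / 2 by norm_num)
    filter_upwards [this, eventually_ge_atTop 1] with x hx hx1
    rw [Real.norm_of_nonneg (Real.log_nonneg hx1),
      Real.norm_of_nonneg (Real.rpow_nonneg (by linarith) b)] at hx
    exact hx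
  have h2 := tendsto_natCast_atTop_atTop.eventually h1
  have h3 := lo_pow_le 2 0 b hb
  filter_upwards [h2, h3] with n h4 h5
  rw [Real.rpow_zero] at h5
  linarith

/-- choice of the order of a triple -/
theorem lo_pick (a1 b1 c1 a2 b2 c2 a3 b3 c3 : Prop)
    (h1 : ¬ (a1 ∧ b1)) (h2 : ¬ (a1 ∧ c1)) (h3 : ¬ (b1 ∧ c1))
    (h4 : ¬ (a2 ∧ b2)) (h5 : ¬ (a2 ∧ c2)) (h6 : ¬ (b2 ∧ c2))
    (h7 : ¬ (a3 ∧ b3)) (h8 : ¬ (a3 ∧ c3)) (h9 : ¬ (b3 ∧ c3)) :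
    (¬ a1 ∧ ¬ a3 ∧ ¬ b2) ∨ (¬ a1 ∧ ¬ a3 ∧ ¬ c2) ∨ (¬ b1 ∧ ¬ b3 ∧ ¬ a2) ∨
      (¬ b1 ∧ ¬ b3 ∧ ¬ c2) ∨ (¬ c1 ∧ ¬ c3 ∧ ¬ a2) ∨ (¬ c1 ∧ ¬ c3 ∧ ¬ b2) := by
  by_cases k1 : a1 <;> by_cases k2 : b1 <;> by_cases k3 : a3 <;> by_cases k4 : b3 <;>
    by_cases k5 : a2 <;> by_cases k6 : b2 <;> by_cases k7 : c2 <;> simp_all

namespace Sys

variable {n : ℕ} {L : Type} [Fintype L] [DecidableEq L] (S : Sys n L)

theorem rc_comm (a : ℕ) (p q : L) (τ : ℝ) : S.rc a p q τ = S.rc a q p τ := by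
  unfold rc
  rw [S.W_comm]

theorem mem_Far {Z : ℝ} {u v x : L} : (u, v, x) ∈ S.Far Z ↔ S.Ac u v x ∧ Z ≤ S.dist u v ∧
    Z ≤ S.dist v x ∧ Z ≤ S.dist u x := by
  unfold Far
  simp

theorem Far_swap12 {Z : ℝ} {u v x : L} (h : (u, v, x) ∈ S.Far Z) : (v, u, x) ∈ S.Far Z := by
  rw [mem_Far] at *
  refine ⟨S.Ac_comm12 h.1, ?_, h.2.2.2, h.2.2.1⟩
  rw [S.dist_comm]
  exact h.2.1

theorem Far_swap23 {Z : ℝ} {u v x : L} (h : (u, v, x) ∈ S.Far Z) : (u, x, v) ∈ S.Far Z := by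
  rw [mem_Far] at *
  refine ⟨S.Ac_comm23 h.1, h.2.2.2, ?_, h.2.1⟩
  rw [S.dist_comm]
  exact h.2.2.1

end Sys

/-- abstract covering: `F` is closed under the swaps, `r1, r2, r3` are symmetric richness
relations -/
theorem lo_cover {L : Type} [DecidableEq L] (F : Finset (L × L × L))
    (h12 : ∀ u v x, (u, v, x) ∈ F → (v, u, x) ∈ F) (h23 : ∀ u v x, (u, v, x) ∈ F → (u, x, v) ∈ F)
    (r1 r2 r3 : L → L → L → L → L → Prop)
    (B1 B2 B3 T0 : Finset (L × L × L))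
    -- `r u v x p q`: the pair `p, q` is rich in the word of the triple `u, v, x`
    (s1 : ∀ u v x p q, (r1 u v x p q ↔ r1 u v x q p) ∧ (r1 u v x p q ↔ r1 v u x p q) ∧
      (r1 u v x p q ↔ r1 u x v p q))
    (s2 : ∀ u v x p q, (r2 u v x p q ↔ r2 u v x q p) ∧ (r2 u v x p q ↔ r2 v u x p q) ∧
      (r2 u v x p q ↔ r2 u x v p q))
    (s3 : ∀ u v x p q, (r3 u v x p q ↔ r3 u v x q p) ∧ (r3 u v x p q ↔ r3 v u x p q) ∧
      (r3 u v x p q ↔ r3 u x v p q))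
    (hB1 : ∀ u v x, (u, v, x) ∈ F → r1 u v x u v → r1 u v x v x → (u, v, x) ∈ B1)
    (hB2 : ∀ u v x, (u, v, x) ∈ F → r2 u v x u v → r2 u v x v x → (u, v, x) ∈ B2)
    (hB3 : ∀ u v x, (u, v, x) ∈ F → r3 u v x u v → r3 u v x v x → (u, v, x) ∈ B3)
    (hT : ∀ u v x, (u, v, x) ∈ F → ¬ r1 u v x v x → ¬ r3 u v x v x → ¬ r2 u v x u x →
      (u, v, x) ∈ T0) :
    F.card ≤ 6 * T0.card + 3 * B1.card + 3 * B2.card + 3 * B3.card := by
  classical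
  -- permutations of triples
  let p1 : L × L × L → L × L × L := fun t => (t.1, t.2.1, t.2.2)
  let p2 : L × L × L → L × L × L := fun t => (t.2.1, t.1, t.2.2)
  let p3 : L × L × L → L × L × L := fun t => (t.1, t.2.2, t.2.1)
  let p4 : L × L × L → L × L × L := fun t => (t.2.1, t.2.2, t.1)
  let p5 : L × L × L → L × L × L := fun t => (t.2.2, t.1, t.2.1)
  let p6 : L × L × L → L × L × L := fun t => (t.2.2, t.2.1, t.1)
  have hcov : F ⊆ (T0.image p1 ∪ T0.image p2 ∪ T0.image p3 ∪ T0.image p4 ∪ T0.image p5 ∪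
      T0.image p6) ∪ (B1.image p1 ∪ B1.image p2 ∪ B1.image p3) ∪
      (B2.image p1 ∪ B2.image p2 ∪ B2.image p3) ∪ (B3.image p1 ∪ B3.image p2 ∪ B3.image p3) := by
    rintro ⟨u, v, x⟩ ht
    have m12 := h12 _ _ _ ht
    have m23 := h23 _ _ _ ht
    have m1223 := h12 _ _ _ m23
    have m2312 := h23 _ _ _ m12
    have mall := h12 _ _ _ m2312
    by_contra hno
    simp only [Finset.mem_union, Finset.mem_image, not_or, Prod.exists] at hno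
    obtain ⟨⟨⟨⟨⟨⟨⟨⟨n1, n2⟩, n3⟩, n4⟩, n5⟩, n6⟩, ⟨⟨b11, b12⟩, b13⟩⟩, ⟨⟨b21, b22⟩, b23⟩⟩,
      ⟨⟨b31, b32⟩, b33⟩⟩ := hno
    have q1 : (u, v, x) ∉ T0 := fun h => n1 ⟨u, v, x, h, rfl⟩
    have q2 : (v, u, x) ∉ T0 := fun h => n2 ⟨v, u, x, h, rfl⟩
    have q3 : (u, x, v) ∉ T0 := fun h => n3 ⟨u, x, v, h, rfl⟩
    have q4 : (x, u, v) ∉ T0 := fun h => n4 ⟨x, u, v, h, rfl⟩
    have q5 : (v, x, u) ∉ T0 := fun h => n5 ⟨v, x, u, h, rfl⟩
    have q6 : (x, v, u) ∉ T0 := fun h => n6 ⟨x, v, u, h, rfl⟩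
    have e11 : (u, v, x) ∉ B1 := fun h => b11 ⟨u, v, x, h, rfl⟩
    have e12 : (v, u, x) ∉ B1 := fun h => b12 ⟨v, u, x, h, rfl⟩
    have e13 : (u, x, v) ∉ B1 := fun h => b13 ⟨u, x, v, h, rfl⟩
    have e21 : (u, v, x) ∉ B2 := fun h => b21 ⟨u, v, x, h, rfl⟩
    have e22 : (v, u, x) ∉ B2 := fun h => b22 ⟨v, u, x, h, rfl⟩
    have e23 : (u, x, v) ∉ B2 := fun h => b23 ⟨u, x, v, h, rfl⟩
    have e31 : (u, v, x) ∉ B3 := fun h => b31 ⟨u, v, x, h, rfl⟩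
    have e32 : (v, u, x) ∉ B3 := fun h => b32 ⟨v, u, x, h, rfl⟩
    have e33 : (u, x, v) ∉ B3 := fun h => b33 ⟨u, x, v, h, rfl⟩
    -- symmetric forms
    have key := lo_pick (r1 u v x v x) (r1 u v x u x) (r1 u v x u v)
      (r2 u v x v x) (r2 u v x u x) (r2 u v x u v) (r3 u v x v x) (r3 u v x u x) (r3 u v x u v)
      (fun h => e13 (hB1 _ _ _ m23 ((s1 u v x u x).2.2.1 h.2)
        ((s1 u v x x v).2.2.1 ((s1 u v x v x).1.1 h.1))))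
      (fun h => e11 (hB1 _ _ _ ht h.2 h.1))
      (fun h => e12 (hB1 _ _ _ m12 ((s1 u v x v u).2.1.1 ((s1 u v x u v).1.1 h.2))
        ((s1 u v x u x).2.1.1 h.1)))
      (fun h => e23 (hB2 _ _ _ m23 ((s2 u v x u x).2.2.1 h.2)
        ((s2 u v x x v).2.2.1 ((s2 u v x v x).1.1 h.1))))
      (fun h => e21 (hB2 _ _ _ ht h.2 h.1))
      (fun h => e22 (hB2 _ _ _ m12 ((s2 u v x v u).2.1.1 ((s2 u v x u v).1.1 h.2))
        ((s2 u v x u x).2.1.1 h.1)))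
      (fun h => e33 (hB3 _ _ _ m23 ((s3 u v x u x).2.2.1 h.2)
        ((s3 u v x x v).2.2.1 ((s3 u v x v x).1.1 h.1))))
      (fun h => e31 (hB3 _ _ _ ht h.2 h.1))
      (fun h => e32 (hB3 _ _ _ m12 ((s3 u v x v u).2.1.1 ((s3 u v x u v).1.1 h.2))
        ((s3 u v x u x).2.1.1 h.1)))
    -- permuted relations
    have t1 : ∀ p q, (r1 u v x p q ↔ r1 v u x p q) ∧ (r1 u v x p q ↔ r1 u x v p q) ∧
        (r1 u v x p q ↔ r1 x u v p q) ∧ (r1 u v x p q ↔ r1 v x u p q) ∧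
        (r1 u v x p q ↔ r1 x v u p q) := by
      intro p q
      refine ⟨(s1 u v x p q).2.1, (s1 u v x p q).2.2, ?_, ?_, ?_⟩
      · exact (s1 u v x p q).2.2.trans (s1 u x v p q).2.1
      · exact (s1 u v x p q).2.1.trans (s1 v u x p q).2.2
      · exact ((s1 u v x p q).2.1.trans (s1 v u x p q).2.2).trans (s1 v x u p q).2.1
    have t2 : ∀ p q, (r2 u v x p q ↔ r2 v u x p q) ∧ (r2 u v x p q ↔ r2 u x v p q) ∧
        (r2 u v x p q ↔ r2 x u v p q) ∧ (r2 u v x p q ↔ r2 v x u p q) ∧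
        (r2 u v x p q ↔ r2 x v u p q) := by
      intro p q
      refine ⟨(s2 u v x p q).2.1, (s2 u v x p q).2.2, ?_, ?_, ?_⟩
      · exact (s2 u v x p q).2.2.trans (s2 u x v p q).2.1
      · exact (s2 u v x p q).2.1.trans (s2 v u x p q).2.2
      · exact ((s2 u v x p q).2.1.trans (s2 v u x p q).2.2).trans (s2 v x u p q).2.1
    have t3 : ∀ p q, (r3 u v x p q ↔ r3 v u x p q) ∧ (r3 u v x p q ↔ r3 u x v p q) ∧
        (r3 u v x p q ↔ r3 x u v p q) ∧ (r3 u v x p q ↔ r3 v x u p q) ∧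
        (r3 u v x p q ↔ r3 x v u p q) := by
      intro p q
      refine ⟨(s3 u v x p q).2.1, (s3 u v x p q).2.2, ?_, ?_, ?_⟩
      · exact (s3 u v x p q).2.2.trans (s3 u x v p q).2.1
      · exact (s3 u v x p q).2.1.trans (s3 v u x p q).2.2
      · exact ((s3 u v x p q).2.1.trans (s3 v u x p q).2.2).trans (s3 v x u p q).2.1
    have y1 : ∀ p q, r1 u v x p q ↔ r1 u v x q p := fun p q => (s1 u v x p q).1
    have y2 : ∀ p q, r2 u v x p q ↔ r2 u v x q p := fun p q => (s2 u v x p q).1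
    have y3 : ∀ p q, r3 u v x p q ↔ r3 u v x q p := fun p q => (s3 u v x p q).1
    rcases key with ⟨k1, k3, k2⟩ | ⟨k1, k3, k2⟩ | ⟨k1, k3, k2⟩ | ⟨k1, k3, k2⟩ | ⟨k1, k3, k2⟩ |
      ⟨k1, k3, k2⟩
    · -- pair v x, second pair u x
      exact q1 (hT _ _ _ ht k1 k3 k2)
    · -- pair v x, second pair u v : triple (u, x, v)
      exact q3 (hT _ _ _ m23 (fun h => k1 ((y1 _ _).2 ((t1 _ _).2.1.2 h)))
        (fun h => k3 ((y3 _ _).2 ((t3 _ _).2.1.2 h))) (fun h => k2 ((t2 _ _).2.1.2 h)))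
    · -- pair u x, second pair v x : triple (v, u, x)
      exact q2 (hT _ _ _ m12 (fun h => k1 ((t1 _ _).1.2 h)) (fun h => k3 ((t3 _ _).1.2 h))
        (fun h => k2 ((t2 _ _).1.2 h)))
    · -- pair u x, second pair u v : triple (v, x, u)
      exact q5 (hT _ _ _ m2312 (fun h => k1 ((y1 _ _).2 ((t1 _ _).2.2.2.1.2 h)))
        (fun h => k3 ((y3 _ _).2 ((t3 _ _).2.2.2.1.2 h)))
        (fun h => k2 ((y2 _ _).2 ((t2 _ _).2.2.2.1.2 h))))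
    · -- pair u v, second pair v x : triple (x, u, v)
      exact q4 (hT _ _ _ m1223 (fun h => k1 ((t1 _ _).2.2.1.2 h))
        (fun h => k3 ((t3 _ _).2.2.1.2 h)) (fun h => k2 ((y2 _ _).2 ((t2 _ _).2.2.1.2 h))))
    · -- pair u v, second pair u x : triple (x, v, u)
      exact q6 (hT _ _ _ mall (fun h => k1 ((y1 _ _).2 ((t1 _ _).2.2.2.2.2 h)))
        (fun h => k3 ((y3 _ _).2 ((t3 _ _).2.2.2.2.2 h)))
        (fun h => k2 ((y2 _ _).2 ((t2 _ _).2.2.2.2.2 h))))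
  have i1 : ∀ (X : Finset (L × L × L)) (p : L × L × L → L × L × L), (X.image p).card ≤ X.card :=
    fun X p => Finset.card_image_le
  refine (Finset.card_le_card hcov).trans ?_
  refine (Finset.card_union_le _ _).trans ?_
  have c1 := Finset.card_union_le (T0.image p1 ∪ T0.image p2 ∪ T0.image p3 ∪ T0.image p4 ∪
    T0.image p5 ∪ T0.image p6 ∪ (B1.image p1 ∪ B1.image p2 ∪ B1.image p3))
    (B2.image p1 ∪ B2.image p2 ∪ B2.image p3)
  have c2 := Finset.card_union_le (T0.image p1 ∪ T0.image p2 ∪ T0.image p3 ∪ T0.image p4 ∪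
    T0.image p5 ∪ T0.image p6) (B1.image p1 ∪ B1.image p2 ∪ B1.image p3)
  have c3 := Finset.card_union_le (T0.image p1 ∪ T0.image p2 ∪ T0.image p3 ∪ T0.image p4 ∪
    T0.image p5) (T0.image p6)
  have c4 := Finset.card_union_le (T0.image p1 ∪ T0.image p2 ∪ T0.image p3 ∪ T0.image p4)
    (T0.image p5)
  have c5 := Finset.card_union_le (T0.image p1 ∪ T0.image p2 ∪ T0.image p3) (T0.image p4)
  have c6 := Finset.card_union_le (T0.image p1 ∪ T0.image p2) (T0.image p3)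
  have c7 := Finset.card_union_le (T0.image p1) (T0.image p2)
  have d1 : ∀ X : Finset (L × L × L), (X.image p1 ∪ X.image p2 ∪ X.image p3).card ≤
      3 * X.card := by
    intro X
    have e1 := Finset.card_union_le (X.image p1 ∪ X.image p2) (X.image p3)
    have e2 := Finset.card_union_le (X.image p1) (X.image p2)
    have := i1 X p1
    have := i1 X p2
    have := i1 X p3
    omega
  have := d1 B1
  have := d1 B2
  have := d1 B3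
  have := i1 T0 p1
  have := i1 T0 p2
  have := i1 T0 p3
  have := i1 T0 p4
  have := i1 T0 p5
  have := i1 T0 p6
  omega

/-- the part with explicit numbers: if the three families of doubly rich triples, the heavy triples
and the family of the second part are small, there is a contradiction -/
theorem lo_fin (n : ℕ) (hn : 1000 ≤ n) {L : Type} [Fintype L] [DecidableEq L] (S : Sys n L)
    (δ1 δ2 δ3 δ4 η1 η2 η3 ε ζ : ℝ) (hδ24 : δ2 ≤ δ4)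
    (hN : (Fintype.card L : ℝ) ≤ (n : ℝ) ^ (4 / 3 + ε))
    (H1 : ∀ 𝒯 : Finset (L × L × L),
          (∀ t ∈ 𝒯, S.Ac t.1 t.2.1 t.2.2 ∧ (n : ℝ) ^ (1 - ζ) ≤ S.dist t.1 t.2.1 ∧
            (n : ℝ) ^ (1 - ζ) ≤ S.dist t.2.1 t.2.2 ∧
            (n : ℝ) ^ (1 / 3 - η1) ≤
              S.rc (S.al t.1 t.2.1 t.2.2) t.1 t.2.1 ((n : ℝ) ^ (2 / 3 + δ1)) ∧
            (n : ℝ) ^ (1 / 3 - η1) ≤
              S.rc (S.al t.1 t.2.1 t.2.2) t.2.1 t.2.2 ((n : ℝ) ^ (2 / 3 + δ1))) →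
          (𝒯.card : ℝ) ≤ 1 / 7200 * n ^ 4)
    (H2 : ∀ 𝒯 : Finset (L × L × L),
          (∀ t ∈ 𝒯, S.Ac t.1 t.2.1 t.2.2 ∧ (n : ℝ) ^ (1 - ζ) ≤ S.dist t.1 t.2.1 ∧
            (n : ℝ) ^ (1 - ζ) ≤ S.dist t.2.1 t.2.2 ∧
            (n : ℝ) ^ (1 / 3 - η2) ≤
              S.rc (S.al t.1 t.2.1 t.2.2) t.1 t.2.1 ((n : ℝ) ^ (2 / 3 + δ2)) ∧
            (n : ℝ) ^ (1 / 3 - η2) ≤
              S.rc (S.al t.1 t.2.1 t.2.2) t.2.1 t.2.2 ((n : ℝ) ^ (2 / 3 + δ2))) →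
          (𝒯.card : ℝ) ≤ 1 / 7200 * n ^ 4)
    (H3 : ∀ 𝒯 : Finset (L × L × L),
          (∀ t ∈ 𝒯, S.Ac t.1 t.2.1 t.2.2 ∧ (n : ℝ) ^ (1 - ζ) ≤ S.dist t.1 t.2.1 ∧
            (n : ℝ) ^ (1 - ζ) ≤ S.dist t.2.1 t.2.2 ∧
            (n : ℝ) ^ (1 / 3 - η3) ≤
              S.rc (S.al t.1 t.2.1 t.2.2) t.1 t.2.1 ((n : ℝ) ^ (2 / 3 + δ3)) ∧
            (n : ℝ) ^ (1 / 3 - η3) ≤
              S.rc (S.al t.1 t.2.1 t.2.2) t.2.1 t.2.2 ((n : ℝ) ^ (2 / 3 + δ3))) →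
          (𝒯.card : ℝ) ≤ 1 / 7200 * n ^ 4)
    (HE : ∀ (E : EData n L), (Fintype.card L : ℝ) ≤ (n : ℝ) ^ (4 / 3 + ε) →
      E.τ1 = (n : ℝ) ^ (2 / 3 + δ1) → E.τ2 = (n : ℝ) ^ (2 / 3 + δ2) →
      E.τ3 = (n : ℝ) ^ (2 / 3 + δ3) → E.τ4 = (n : ℝ) ^ (2 / 3 + δ4) →
      E.ρ1 = (n : ℝ) ^ (1 / 3 - η1) → E.ρ2 = (n : ℝ) ^ (1 / 3 - η2) →
      E.ρ3 = (n : ℝ) ^ (1 / 3 - η3) → E.w0 = (n : ℝ) ^ (2 / 3 + 2 * ε) →
      E.Z = (n : ℝ) ^ (1 - ζ) →
      (E.𝒯.card : ℝ) < 1 / 9600 * n ^ 4)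
    (HZ : 2000 * (n : ℝ) ^ (1 - ζ) ≤ n)
    (Hheavy : ∀ s : Finset (L × L × L), (∀ t ∈ s, S.Ac t.1 t.2.1 t.2.2 ∧
      (n : ℝ) ^ (2 / 3 + 2 * ε) < (S.W t.1 t.1).card) → (s.card : ℝ) ≤ 1 / 9600 * n ^ 4) :
    False := by
  classical
  have hn0 : (0 : ℝ) < n := by
    have : 0 < n := by omega
    exact_mod_cast this
  have hn1 : (1 : ℝ) ≤ n := by
    have : 1 ≤ n := by omega
    exact_mod_cast this
  set Z := (n : ℝ) ^ (1 - ζ) with hZdef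
  have hZ0 : 0 < Z := Real.rpow_pos_of_pos hn0 _
  have hF := S.far_card Z hZ0.le HZ hn
  -- the rich relations
  set r1 : L → L → L → L → L → Prop := fun u v x p q =>
    (n : ℝ) ^ (1 / 3 - η1) ≤ S.rc (S.al u v x) p q ((n : ℝ) ^ (2 / 3 + δ1)) with hr1
  set r2 : L → L → L → L → L → Prop := fun u v x p q =>
    (n : ℝ) ^ (1 / 3 - η2) ≤ S.rc (S.al u v x) p q ((n : ℝ) ^ (2 / 3 + δ2)) with hr2
  set r3 : L → L → L → L → L → Prop := fun u v x p q =>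
    (n : ℝ) ^ (1 / 3 - η3) ≤ S.rc (S.al u v x) p q ((n : ℝ) ^ (2 / 3 + δ3)) with hr3
  set B1 := (S.Far Z).filter (fun t => r1 t.1 t.2.1 t.2.2 t.1 t.2.1 ∧
    r1 t.1 t.2.1 t.2.2 t.2.1 t.2.2) with hB1
  set B2 := (S.Far Z).filter (fun t => r2 t.1 t.2.1 t.2.2 t.1 t.2.1 ∧
    r2 t.1 t.2.1 t.2.2 t.2.1 t.2.2) with hB2
  set B3 := (S.Far Z).filter (fun t => r3 t.1 t.2.1 t.2.2 t.1 t.2.1 ∧
    r3 t.1 t.2.1 t.2.2 t.2.1 t.2.2) with hB3
  set T0 := (S.Far Z).filter (fun t => ¬ r1 t.1 t.2.1 t.2.2 t.2.1 t.2.2 ∧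
    ¬ r3 t.1 t.2.1 t.2.2 t.2.1 t.2.2 ∧ ¬ r2 t.1 t.2.1 t.2.2 t.1 t.2.2) with hT0
  have hcov := lo_cover (S.Far Z) (fun u v x h => S.Far_swap12 h) (fun u v x h => S.Far_swap23 h)
    r1 r2 r3 B1 B2 B3 T0
    (by
      intro u v x p q
      simp only [hr1]
      rw [S.rc_comm _ q p, S.al_comm12 u v x, ← S.al_comm12 u v x, S.al_comm23 u v x,
        ← S.al_comm23 u v x]
      exact ⟨Iff.rfl, by rw [S.al_comm12 u v x], by rw [S.al_comm23 u v x]⟩)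
    (by
      intro u v x p q
      simp only [hr2]
      rw [S.rc_comm _ q p]
      exact ⟨Iff.rfl, by rw [S.al_comm12 u v x], by rw [S.al_comm23 u v x]⟩)
    (by
      intro u v x p q
      simp only [hr3]
      rw [S.rc_comm _ q p]
      exact ⟨Iff.rfl, by rw [S.al_comm12 u v x], by rw [S.al_comm23 u v x]⟩)
    (fun u v x h h1 h2 => Finset.mem_filter.2 ⟨h, h1, h2⟩)
    (fun u v x h h1 h2 => Finset.mem_filter.2 ⟨h, h1, h2⟩)
    (fun u v x h h1 h2 => Finset.mem_filter.2 ⟨h, h1, h2⟩)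
    (fun u v x h h1 h2 h3 => Finset.mem_filter.2 ⟨h, h1, h2, h3⟩)
  have k1 := H1 B1 (by
    rintro ⟨u, v, x⟩ ht
    have h := (Finset.mem_filter.1 ht)
    have h' := S.mem_Far.1 h.1
    exact ⟨h'.1, h'.2.1, h'.2.2.1, h.2.1, h.2.2⟩)
  have k2 := H2 B2 (by
    rintro ⟨u, v, x⟩ ht
    have h := (Finset.mem_filter.1 ht)
    have h' := S.mem_Far.1 h.1
    exact ⟨h'.1, h'.2.1, h'.2.2.1, h.2.1, h.2.2⟩)
  have k3 := H3 B3 (by
    rintro ⟨u, v, x⟩ ht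
    have h := (Finset.mem_filter.1 ht)
    have h' := S.mem_Far.1 h.1
    exact ⟨h'.1, h'.2.1, h'.2.2.1, h.2.1, h.2.2⟩)
  set Th := T0.filter (fun t => (n : ℝ) ^ (2 / 3 + 2 * ε) < (S.W t.1 t.1).card) with hTh
  set Tl := T0.filter (fun t => ¬ (n : ℝ) ^ (2 / 3 + 2 * ε) < (S.W t.1 t.1).card) with hTl
  have ksum : T0.card = Th.card + Tl.card :=
    (Finset.card_filter_add_card_filter_not _).symm
  have k4 := Hheavy Th (by
    rintro ⟨u, v, x⟩ ht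
    have h := (Finset.mem_filter.1 ht)
    have h0 := (Finset.mem_filter.1 h.1)
    have h' := S.mem_Far.1 h0.1
    exact ⟨h'.1, h.2⟩)
  have hpos : ∀ e : ℝ, 0 < (n : ℝ) ^ e := fun e => Real.rpow_pos_of_pos hn0 e
  let E : EData n L :=
    { S := S
      𝒯 := Tl
      τ1 := (n : ℝ) ^ (2 / 3 + δ1)
      τ2 := (n : ℝ) ^ (2 / 3 + δ2)
      τ3 := (n : ℝ) ^ (2 / 3 + δ3)
      τ4 := (n : ℝ) ^ (2 / 3 + δ4)
      ρ1 := (n : ℝ) ^ (1 / 3 - η1)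
      ρ2 := (n : ℝ) ^ (1 / 3 - η2)
      ρ3 := (n : ℝ) ^ (1 / 3 - η3)
      w0 := (n : ℝ) ^ (2 / 3 + 2 * ε)
      Z := Z
      hn := by omega
      hτ1 := hpos _
      hτ2 := hpos _
      hτ3 := hpos _
      hτ24 := Real.rpow_le_rpow_of_exponent_le hn1 (by linarith)
      hρ1 := (hpos _).le
      hρ2 := (hpos _).le
      hρ3 := (hpos _).le
      hw0 := (hpos _).le
      hZ := hZ0
      hAc := by
        rintro ⟨u, v, x⟩ ht
        exact (S.mem_Far.1 (Finset.mem_filter.1 (Finset.mem_filter.1 ht).1).1).1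
      hW := by
        rintro ⟨u, v, x⟩ ht
        exact not_lt.1 (Finset.mem_filter.1 ht).2
      h1 := by
        rintro ⟨u, v, x⟩ ht
        exact (not_le.1 (Finset.mem_filter.1 (Finset.mem_filter.1 ht).1).2.1).le
      h3 := by
        rintro ⟨u, v, x⟩ ht
        exact (not_le.1 (Finset.mem_filter.1 (Finset.mem_filter.1 ht).1).2.2.1).le
      h2 := by
        rintro ⟨u, v, x⟩ ht
        exact (not_le.1 (Finset.mem_filter.1 (Finset.mem_filter.1 ht).1).2.2.2).le }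
  have k5 := HE E hN rfl rfl rfl rfl rfl rfl rfl rfl rfl
  have k6 : ((S.Far Z).card : ℝ) ≤ 6 * T0.card + 3 * B1.card + 3 * B2.card + 3 * B3.card := by
    exact_mod_cast hcov
  have k7 : (T0.card : ℝ) = Th.card + Tl.card := by exact_mod_cast ksum
  have k8 : (Tl.card : ℝ) < 1 / 9600 * n ^ 4 := k5
  have hn4 : (0 : ℝ) < (n : ℝ) ^ 4 := by positivity
  linarith

/-- heavy triples are few -/
theorem lo_heavy (ε : ℝ) (hε : 0 < ε) : ∀ᶠ n : ℕ in atTop,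
    ∀ (L : Type) [Fintype L] [DecidableEq L] (S : Sys n L),
      (Fintype.card L : ℝ) ≤ (n : ℝ) ^ (4 / 3 + ε) →
      ∀ s : Finset (L × L × L), (∀ t ∈ s, S.Ac t.1 t.2.1 t.2.2 ∧
      (n : ℝ) ^ (2 / 3 + 2 * ε) < (S.W t.1 t.1).card) → (s.card : ℝ) ≤ 1 / 9600 * n ^ 4 := by
  filter_upwards [lo_log_le (ε / 2) (by linarith), lo_pow_le 3 (10 / 3 + 3 / 2 * ε)
    (10 / 3 + 2 * ε) (by linarith), lo_pow_le 9600 (4 - ε) 4 (by linarith),
    eventually_ge_atTop 1] with n h1 h2 h3 hn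
  intro L _ _ S hN s hs
  have hn0 : (0 : ℝ) < n := by exact_mod_cast hn
  have hn1 : (1 : ℝ) ≤ n := by exact_mod_cast hn
  set w0 := (n : ℝ) ^ (2 / 3 + 2 * ε) with hw0
  have hw0p : 0 < w0 := Real.rpow_pos_of_pos hn0 _
  have a1 := S.heavy_card w0 hw0p s hs
  have a2 := S.sum_sq_T_le hn
  have a3 := S.sum_T_sq_le hn
  set S1 := ∑ a ∈ Iset n, ∑ b ∈ Iset n, ((S.T a b).card : ℝ) with hS1
  set S2 := ∑ a ∈ Iset n, ∑ b ∈ Iset n, ((S.T a b).card : ℝ) ^ 2 with hS2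
  -- S2 ≤ n^{10/3 + 2 ε}
  have b1 : (n : ℝ) ^ 3 ≤ (n : ℝ) ^ (10 / 3 + 3 / 2 * ε) := by
    rw [← Real.rpow_natCast]
    exact Real.rpow_le_rpow_of_exponent_le hn1 (by push_cast; linarith)
  have b2 : 2 * (Fintype.card L : ℝ) * n ^ 2 * (1 + Real.log n) ≤
      2 * (n : ℝ) ^ (10 / 3 + 3 / 2 * ε) := by
    have e1 : (n : ℝ) ^ (10 / 3 + 3 / 2 * ε) =
        (n : ℝ) ^ (4 / 3 + ε) * (n : ℝ) ^ (2 : ℕ) * (n : ℝ) ^ (ε / 2) := by
      rw [← Real.rpow_natCast n 2, ← Real.rpow_add hn0, ← Real.rpow_add hn0]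
      congr 1
      push_cast
      ring
    rw [e1]
    have hl : 0 ≤ 1 + Real.log n := by
      have := Real.log_nonneg hn1
      linarith
    have : (Fintype.card L : ℝ) * n ^ 2 * (1 + Real.log n) ≤
        (n : ℝ) ^ (4 / 3 + ε) * (n : ℝ) ^ (2 : ℕ) * (n : ℝ) ^ (ε / 2) := by
      gcongr
    linarith
  have b3 : S2 ≤ (n : ℝ) ^ (10 / 3 + 2 * ε) := by linarith
  have b4 : S1 ^ 2 ≤ ((n : ℝ) ^ (8 / 3 + ε)) ^ 2 := by
    have e2 : ((n : ℝ) ^ (8 / 3 + ε)) ^ 2 = (n : ℝ) ^ 2 * (n : ℝ) ^ (10 / 3 + 2 * ε) := by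
      rw [← Real.rpow_natCast, ← Real.rpow_natCast, ← Real.rpow_mul hn0.le, ← Real.rpow_add hn0]
      congr 1
      push_cast
      ring
    rw [e2]
    exact a3.trans (mul_le_mul_of_nonneg_left b3 (by positivity))
  have b5 : S1 ≤ (n : ℝ) ^ (8 / 3 + ε) := by
    have hp : 0 ≤ (n : ℝ) ^ (8 / 3 + ε) := (Real.rpow_pos_of_pos hn0 _).le
    exact abs_le_of_sq_le_sq' b4 hp |>.2
  have b6 : (s.card : ℝ) * w0 ≤ (n : ℝ) ^ (4 - ε) * w0 := by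
    have e3 : (n : ℝ) ^ (4 - ε) * w0 = (n : ℝ) ^ 2 * (n : ℝ) ^ (8 / 3 + ε) := by
      rw [hw0, ← Real.rpow_natCast, ← Real.rpow_add hn0, ← Real.rpow_add hn0]
      congr 1
      push_cast
      ring
    rw [e3]
    exact a1.trans (mul_le_mul_of_nonneg_left b5 (by positivity))
  have b7 := le_of_mul_le_mul_right b6 hw0p
  have b8 : (n : ℝ) ^ (4 : ℝ) = (n : ℝ) ^ 4 := by
    rw [← Real.rpow_natCast]
    norm_num
  rw [b8] at h3
  linarith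

theorem card_lower : ∃ ε > (0 : ℝ), ∀ᶠ n : ℕ in atTop,
    ∀ (L : Type) [Fintype L] [DecidableEq L] (S : Sys n L),
      (n : ℝ) ^ (4 / 3 + ε) < Fintype.card L := by
  obtain ⟨η3, hη3, H3⟩ := rich_rich_asymp (1 / 10) (by norm_num) (by norm_num)
  obtain ⟨δ4, hδ4, d41, d42⟩ : ∃ δ4 : ℝ, 0 < δ4 ∧ 8 * δ4 ≤ η3 ∧ 24 * δ4 ≤ 1 :=
    ⟨min η3 (1 / 3) / 8, by positivity, by linarith [min_le_left η3 (1 / 3)],
      by linarith [min_le_right η3 (1 / 3)]⟩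
  obtain ⟨η2, hη2, H2⟩ := rich_rich_asymp (δ4 / 8) (by positivity) (by linarith)
  obtain ⟨δ1, hδ1, d11, d12⟩ : ∃ δ1 : ℝ, 0 < δ1 ∧ 8 * δ1 ≤ η2 ∧ 8 * δ1 ≤ δ4 :=
    ⟨min η2 δ4 / 8, by positivity, by linarith [min_le_left η2 δ4],
      by linarith [min_le_right η2 δ4]⟩
  obtain ⟨η1, hη1, H1⟩ := rich_rich_asymp δ1 hδ1 (by linarith)
  obtain ⟨ζ, hζ, z1, z2, z3, z4⟩ : ∃ ζ : ℝ, 0 < ζ ∧ 8 * ζ ≤ η1 ∧ 8 * ζ ≤ η2 ∧ 8 * ζ ≤ η3 ∧
      8 * ζ ≤ δ4 := by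
    refine ⟨min (min η1 η2) (min η3 δ4) / 8, by positivity, ?_, ?_, ?_, ?_⟩
    · have := min_le_left (min η1 η2) (min η3 δ4)
      have := min_le_left η1 η2
      linarith
    · have := min_le_left (min η1 η2) (min η3 δ4)
      have := min_le_right η1 η2
      linarith
    · have := min_le_right (min η1 η2) (min η3 δ4)
      have := min_le_left η3 δ4
      linarith
    · have := min_le_right (min η1 η2) (min η3 δ4)
      have := min_le_right η3 δ4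
      linarith
  refine ⟨ζ / 400, by positivity, ?_⟩
  have hE := E_asymp δ1 (δ4 / 8) (1 / 10) δ4 η1 η2 η3 (ζ / 400) ζ (by positivity)
    (by linarith) hδ1 (by positivity) (by norm_num) (by linarith) (by norm_num)
    (by linarith) (by linarith) (by linarith) (by linarith) (by linarith) (by linarith)
    (1 / 9600) (by norm_num)
  filter_upwards [H1 (ζ / 400) ζ (by positivity) (by linarith) hζ (by linarith) (1 / 7200)
      (by norm_num), H2 (ζ / 400) ζ (by positivity) (by linarith) hζ (by linarith) (1 / 7200)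
      (by norm_num), H3 (ζ / 400) ζ (by positivity) (by linarith) hζ (by linarith) (1 / 7200)
      (by norm_num), hE, lo_heavy (ζ / 400) (by positivity), lo_pow_le 2000 (1 - ζ) 1
      (by linarith), eventually_ge_atTop 1000] with n h1 h2 h3 hE' hh hz hn
  intro L _ _ S
  by_contra hcon
  push Not at hcon
  rw [Real.rpow_one] at hz
  exact lo_fin n hn S δ1 (δ4 / 8) (1 / 10) δ4 η1 η2 η3 (ζ / 400) ζ (by linarith) hcon
    (h1 L S hcon) (h2 L S hcon) (h3 L S hcon) (fun E => hE' L E) hz (hh L S hcon)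

end Pool.Agent.Hhelper71.LD43
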