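import Mathlib
import Pool.Agent.Hhelper71.LD43.Basic
import Pool.Agent.Hhelper79.CycleLabelBasic

/-!
# Distance labelings of cycles: systems from labelings
-/

set_option linter.unusedSectionVars false
set_option linter.unusedVariables false

namespace Pool.Agent.Hhelper71.LD43

theorem exists_sys {n : ℕ} (hn : 6 ≤ n) {L : Type} (φ : (i : ℕ) → Fin i → L)
    (h : ∃ d' : L → L → ℤ, ∀ i : ℕ, 3 ≤ i → i ≤ n → ∀ u v : Fin i,
      d' (φ i u) (φ i v) = ((SimpleGraph.cycleGraph i).dist u v : ℤ)) :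
    ∃ (L' : Type) (_ : Fintype L') (_ : DecidableEq L') (_ : Sys n L'),
      Fintype.card L' ≤ ({x | ∃ i : ℕ, 3 ≤ i ∧ i ≤ n ∧ ∃ u : Fin i, φ i u = x} : Set L).ncard := by
  classical
  obtain ⟨d', hd'⟩ := h
  set U : Set L := {x | ∃ i : ℕ, 3 ≤ i ∧ i ≤ n ∧ ∃ u : Fin i, φ i u = x} with hU
  have hUfin : U.Finite := by
    apply Set.Finite.subset (s := ⋃ i ∈ Set.Iic n, Set.range (φ i))
    · exact Set.Finite.biUnion (Set.finite_Iic n) (fun i _ => Set.finite_range (φ i))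
    · rintro x ⟨i, _, hi, u, rfl⟩
      simp only [Set.mem_iUnion]
      exact ⟨i, hi, u, rfl⟩
  have hFT : Fintype U := hUfin.fintype
  -- distances
  have hcyc : ∀ i, 3 ≤ i → i ≤ n → ∀ u v : Fin i, d' (φ i u) (φ i v) = cyc i u.val v.val := by
    intro i h3 hi u v
    rw [hd' i h3 hi u v, Pool.Agent.Hhelper79.CycleLabel.cycle_dist i (by omega) u v]
    rfl
  have hinj : ∀ i, 3 ≤ i → i ≤ n → ∀ u v : Fin i, φ i u = φ i v → u = v := by
    intro i h3 hi u v huv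
    have h1 := hcyc i h3 hi u v
    have h2 := hcyc i h3 hi u u
    rw [← huv, h2, cyc_self] at h1
    have h4 : cyc i u.val v.val = 0 := by exact_mod_cast h1.symm
    exact Fin.ext (cyc_eq_zero u.isLt v.isLt h4)
  have hI3 : ∀ i, i ∈ Iset n → 3 ≤ i ∧ i ≤ n := by
    intro i hi
    rw [mem_Iset] at hi
    omega
  -- the letters
  let A : ℕ → Finset U := fun i => Finset.univ.filter (fun x => ∃ u : Fin i, φ i u = x.1)
  have hA : ∀ i (x : U), x ∈ A i ↔ ∃ u : Fin i, φ i u = x.1 := by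
    intro i x
    simp [A]
  let pos : ℕ → U → ℕ := fun i x => if h : ∃ u : Fin i, φ i u = x.1 then (h.choose).val else 0
  have hpos : ∀ i (x : U), x ∈ A i → ∃ u : Fin i, φ i u = x.1 ∧ pos i x = u.val := by
    intro i x hx
    have hx' := (hA i x).1 hx
    exact ⟨hx'.choose, hx'.choose_spec, by simp only [pos]; rw [dif_pos hx']⟩
  let D : U → U → ℕ := fun x y => if (∃ i ∈ Iset n, x ∈ A i ∧ y ∈ A i) then (d' x.1 y.1).toNat
    else 0
  have hD : ∀ i ∈ Iset n, ∀ x ∈ A i, ∀ y ∈ A i, D x y = cyc i (pos i x) (pos i y) := by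
    intro i hi x hx y hy
    have h1 : ∃ i ∈ Iset n, x ∈ A i ∧ y ∈ A i := ⟨i, hi, hx, hy⟩
    obtain ⟨u, hu, hu'⟩ := hpos i x hx
    obtain ⟨v, hv, hv'⟩ := hpos i y hy
    simp only [D]
    rw [if_pos h1, hu', hv', ← hu, ← hv, hcyc i (hI3 i hi).1 (hI3 i hi).2 u v]
    simp
  refine ⟨U, hFT, inferInstance, ⟨A, pos, D, ?_, ?_, ?_, hD, ?_⟩, ?_⟩
  · intro i hi
    have h1 : A i = (Finset.univ : Finset (Fin i)).image
        (fun u => (⟨φ i u, i, (hI3 i hi).1, (hI3 i hi).2, u, rfl⟩ : U)) := by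
      ext x
      rw [hA]
      simp only [Finset.mem_image, Finset.mem_univ, true_and]
      constructor
      · rintro ⟨u, hu⟩
        exact ⟨u, Subtype.ext hu⟩
      · rintro ⟨u, hu⟩
        exact ⟨u, congrArg Subtype.val hu⟩
    rw [h1, Finset.card_image_of_injective]
    · simp
    · intro u v huv
      exact hinj i (hI3 i hi).1 (hI3 i hi).2 u v (congrArg Subtype.val huv)
  · intro i hi x hx
    obtain ⟨u, hu, hu'⟩ := hpos i x hx
    rw [hu']
    exact u.isLt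
  · intro i hi x hx y hy hxy
    obtain ⟨u, hu, hu'⟩ := hpos i x hx
    obtain ⟨v, hv, hv'⟩ := hpos i y hy
    rw [hu', hv'] at hxy
    have huv : u = v := Fin.ext hxy
    apply Subtype.ext
    rw [← hu, ← hv, huv]
  · intro x y
    simp only [D]
    by_cases h1 : ∃ i ∈ Iset n, x ∈ A i ∧ y ∈ A i
    · have h2 : ∃ i ∈ Iset n, y ∈ A i ∧ x ∈ A i := by
        obtain ⟨i, hi, hx, hy⟩ := h1
        exact ⟨i, hi, hy, hx⟩
      rw [if_pos h1, if_pos h2]
      obtain ⟨i, hi, hx, hy⟩ := h1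
      obtain ⟨u, hu, hu'⟩ := hpos i x hx
      obtain ⟨v, hv, hv'⟩ := hpos i y hy
      rw [← hu, ← hv, hcyc i (hI3 i hi).1 (hI3 i hi).2 u v,
        hcyc i (hI3 i hi).1 (hI3 i hi).2 v u, cyc_comm]
    · have h2 : ¬ ∃ i ∈ Iset n, y ∈ A i ∧ x ∈ A i := by
        rintro ⟨i, hi, hy, hx⟩
        exact h1 ⟨i, hi, hx, hy⟩
      rw [if_neg h1, if_neg h2]
  · rw [← Nat.card_coe_set_eq, Nat.card_eq_fintype_card]

end Pool.Agent.Hhelper71.LD43
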