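import Mathlib
import Pool.Agent.Hhelper71.LD43.Lower
import Pool.Agent.Hhelper71.LD43.Transfer

/-!
# Distance labelings of cycles: conclusion for labelings
-/

namespace Pool.Agent.Hhelper71.LD43

open Filter

theorem labeling_lower : ∃ ε > (0 : ℝ), ∀ᶠ n : ℕ in atTop,
    ∀ (L : Type) (φ : (i : ℕ) → Fin i → L),
      (∃ d' : L → L → ℤ, ∀ i : ℕ, 3 ≤ i → i ≤ n → ∀ u v : Fin i,
        d' (φ i u) (φ i v) = ((SimpleGraph.cycleGraph i).dist u v : ℤ)) →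
      (n : ℝ) ^ (4 / 3 + ε) <
        ({x | ∃ i : ℕ, 3 ≤ i ∧ i ≤ n ∧ ∃ u : Fin i, φ i u = x} : Set L).ncard := by
  obtain ⟨ε, hε, H⟩ := card_lower
  refine ⟨ε, hε, ?_⟩
  filter_upwards [H, eventually_ge_atTop 6] with n h1 hn
  intro L φ h
  obtain ⟨L', i1, i2, S, hS⟩ := exists_sys hn φ h
  have h2 := @h1 L' i1 i2 S
  refine h2.trans_le ?_
  exact_mod_cast hS

end Pool.Agent.Hhelper71.LD43
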